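import Pool.Agent.AAP.Stmt3

/-!
# Even Galois representations: accumulation and divisibility, definitions
-/

open Matrix

namespace Pool.Agent.EDV

open Pool.Agent.AAP

/-- `u` is in the decomposition group of `ℓ` in `(ℤ/m)ˣ = Gal(ℚ(ζ_m)/ℚ)`: `m = ℓ ^ j m'` with `m'`
prime to `ℓ`, and `u` is congruent to a power of `ℓ` modulo `m'` -/
def DecL (ℓ m : ℕ) (u : (ZMod m)ˣ) : Prop :=
  ∃ i j m' : ℕ, m = ℓ ^ j * m' ∧ ℓ.Coprime m' ∧ (u : ZMod m).val ≡ ℓ ^ i [MOD m']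

variable {E : Type} [NormedField E]

/-- `ψ` is a continuous character of `Gal(ℚ(ζ_{N p^∞})/ℚ)` -/
def Level (p N : ℕ) (ψ : Gam →* Eˣ) : Prop :=
  Continuous (fun g => (ψ g : E)) ∧ ∀ g, (∀ k, Acts (N * p ^ k) g 1) → ψ g = 1

/-- `κ` is `χ ε ^ n`, with `ε` the `p`-adic cyclotomic character -/
def Geo (p N n : ℕ) (χ : (ZMod N)ˣ →* Eˣ) (κ : Gam →* Eˣ) : Prop :=
  ∀ (g : Gam) (a : (ZMod N)ˣ) (k b : ℕ), Acts N g (a : ZMod N).val → Acts (p ^ k) g b →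
    ‖(κ g : E) - χ a * (b : E) ^ n‖ ≤ ‖(p : E)‖ ^ k

/-- `κ` is not trivial, and `1 ⊕ κ` is up to twist a limit of even irreducible representations which
are `TameAt` all primes not in `S` -/
def Limit (p N : ℕ) (S : Finset ℕ) (κ : Gam →* Eˣ) : Prop :=
  Level p N κ ∧ κ ≠ 1 ∧
    ∀ r : ℝ, 0 < r → ∃ (V : Gam →* GL2 E) (τ : Gam →* Eˣ), Continuous V ∧ Even2 V ∧ ¬ Line V ∧
      Level p N τ ∧ (∀ ℓ : ℕ, ℓ.Prime → ℓ ∉ S → TameAt p ℓ V) ∧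
      ∀ g, ‖trc V g - τ g * (1 + κ g)‖ ≤ r

/-- at all primes `ℓ`, `V` is `TameAt ℓ` or `χ(u) u ^ (n - 1)` is residually not `1` for some `u` in
the decomposition group of `ℓ` -/
def LocalCond (p N n : ℕ) (χ : (ZMod N)ˣ →* Eˣ) (V : Gam →* GL2 E) : Prop :=
  ∀ ℓ : ℕ, ℓ.Prime → TameAt p ℓ V ∨ ∃ u : (ZMod N)ˣ, DecL ℓ N u ∧
    ¬ Equ ((χ u : E) * (((u : ZMod N).val : ℕ) : E) ^ (n - 1)) 1

end Pool.Agent.EDV
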