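import Pool.Agent.EDV.HzC
import Pool.Agent.EDV.Defs
import Pool.Agent.AAP.NV

/-!
# EDV-NvO: `B_{1, φ} ≠ 0`

`φ` is an odd character modulo `N`, nontrivial on the decomposition groups of all primes `ℓ ∣ N`. Then `B_{1, φ} ≠ 0`: the value is
`- L(φ, 0)`, the primitive character has `L(ψ, 0) ≠ 0` by the functional equation and `L(ψ⁻¹, 1) ≠ 0`, and the factors
`1 - ψ(ℓ)`, `ℓ ∣ N`, do not vanish by the hypothesis.
-/

namespace Pool.Agent.EDV

open Pool.Agent.AAP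

open DirichletCharacter Complex

private theorem nvo_level {f : ℕ} [NeZero f] {ψ : DirichletCharacter ℂ f} (hp : ψ (-1) = -1) : f ≠ 1 := by
  intro h
  subst h
  have h1 : (-1 : ZMod 1) = 1 := Subsingleton.elim _ _
  rw [h1, map_one] at hp
  norm_num at hp

/-- primitive characters -/
private theorem nvo_prim {f : ℕ} [NeZero f] {ψ : DirichletCharacter ℂ f} (hψ : ψ.IsPrimitive)
    (hp : ψ (-1) = -1) : LFunction ψ 0 ≠ 0 := by
  have hf := nvo_level hp
  have hinv : (ψ⁻¹).IsPrimitive := by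
    rw [isPrimitive_def, conductor_inv]
    exact hψ
  have hg : gammaFactor ψ 0 ≠ 0 := by
    have hod : ψ.Odd := hp
    rw [hod.gammaFactor_def, Ne, Gammaℝ_eq_zero_iff]
    rintro ⟨k, hk⟩
    have h1 : ((2 * k + 1 : ℕ) : ℂ) = ((0 : ℕ) : ℂ) := by
      push_cast
      linear_combination hk
    have h2 := Nat.cast_injective h1
    omega
  intro h0
  have h1 : completedLFunction ψ 0 = 0 := by
    rw [LFunction_eq_completed_div_gammaFactor ψ _ (Or.inr hf)] at h0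
    exact (div_eq_zero_iff.1 h0).resolve_right hg
  have h2 := hinv.completedLFunction_one_sub 0
  rw [inv_inv, h1, mul_zero] at h2
  have h3 : LFunction ψ⁻¹ (1 - 0) = 0 := by
    rw [LFunction_eq_completed_div_gammaFactor _ _ (Or.inr hf), h2, zero_div]
  have hne : ψ⁻¹ ≠ 1 := by
    intro h4
    rw [inv_eq_one] at h4
    have h5 : (-1 : ZMod f) = ((-1 : (ZMod f)ˣ) : ZMod f) := by simp
    rw [h4, h5, MulChar.one_apply_coe] at hp
    norm_num at hp
  refine LFunction_ne_zero_of_one_le_re ψ⁻¹ (Or.inl hne) ?_ h3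
  simp

/-- a character with `ψ(ℓ) = 1` is trivial on the decomposition group of `ℓ` -/
private theorem nvo_dec {N : ℕ} [NeZero N] (χ : DirichletCharacter ℂ N) {ℓ : ℕ}
    (h1 : χ.primitiveCharacter (ℓ : ZMod χ.conductor) = 1) {u : (ZMod N)ˣ} (hu : DecL ℓ N u) :
    χ (u : ZMod N) = 1 := by
  obtain ⟨i, j, m', hN, hcop, hmod⟩ := hu
  have hf : χ.conductor.Coprime ℓ := by
    by_contra hc
    have hnu : ¬ IsUnit (ℓ : ZMod χ.conductor) := by
      rw [ZMod.isUnit_iff_coprime]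
      exact fun h2 => hc h2.symm
    rw [MulChar.map_nonunit _ hnu] at h1
    exact zero_ne_one h1
  have hdvd : χ.conductor ∣ m' := by
    have h2 : χ.conductor ∣ ℓ ^ j * m' := by
      rw [← hN]
      exact χ.conductor_dvd_level
    exact (Nat.Coprime.pow_right j hf).dvd_of_dvd_mul_left h2
  have h3 : ((u : ZMod N).val : ZMod χ.conductor) = ((ℓ ^ i : ℕ) : ZMod χ.conductor) :=
    (ZMod.natCast_eq_natCast_iff _ _ _).2 (hmod.of_dvd hdvd)
  have h4 : IsCoprime (((u : ZMod N).val : ℕ) : ℤ) (N : ℤ) :=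
    Nat.isCoprime_iff_coprime.2 (ZMod.val_coe_unit_coprime u)
  have h5 := χ.primitiveCharacter_apply_of_isCoprime h4
  rw [Int.cast_natCast, Int.cast_natCast, h3, ZMod.natCast_zmod_val, Nat.cast_pow, map_pow, h1, one_pow] at h5
  exact h5.symm

/-- all characters -/
private theorem nvo_L {N : ℕ} [NeZero N] (χ : DirichletCharacter ℂ N) (hp : χ (-1) = -1)
    (h : ∀ ℓ : ℕ, ℓ.Prime → ℓ ∣ N → ∃ u : (ZMod N)ˣ, DecL ℓ N u ∧ χ (u : ZMod N) ≠ 1) :
    LFunction χ 0 ≠ 0 := by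
  have : NeZero χ.conductor := ⟨χ.conductor_ne_zero⟩
  have hprim := χ.primitiveCharacter_isPrimitive
  have hp' : χ.primitiveCharacter (-1) = -1 := by
    have h1 := χ.primitiveCharacter_apply_of_isCoprime (a := -1) (isCoprime_one_left.neg_left)
    push_cast at h1
    rw [h1, hp]
  have h2 := LFunction_changeLevel χ.conductor_dvd_level χ.primitiveCharacter (s := 0)
    (Or.inr zero_ne_one)
  rw [changeLevel_primitiveCharacter] at h2
  rw [h2]
  refine mul_ne_zero (nvo_prim hprim hp') (Finset.prod_ne_zero_iff.2 fun ℓ hℓ => ?_)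
  rw [neg_zero, cpow_zero, mul_one]
  intro h0
  obtain ⟨u, hu, hu1⟩ := h ℓ (Nat.prime_of_mem_primeFactors hℓ) (Nat.dvd_of_mem_primeFactors hℓ)
  exact hu1 (nvo_dec χ (by linear_combination -h0) hu)

/-- the value of the `L`-function -/
private theorem nvo_val {N : ℕ} [NeZero N] (χ : DirichletCharacter ℂ N) (hN : N ≠ 1) :
    LFunction χ 0 = - ∑ r : ZMod N, χ r * ((bb N 1 r.val : ℚ) : ℂ) := by
  rw [LFunction, ZMod.LFunction, neg_zero, cpow_zero, one_mul, ← Finset.sum_neg_distrib]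
  refine Finset.sum_congr rfl fun r _ => ?_
  by_cases hr : r = 0
  · have hnu : ¬ IsUnit (0 : ZMod N) := by
      have : Nontrivial (ZMod N) := ZMod.nontrivial_iff.2 hN
      exact not_isUnit_zero
    rw [hr, MulChar.map_nonunit _ hnu]
    simp
  · have hN0 : (0 : ℝ) < N := Nat.cast_pos.2 (NeZero.pos N)
    have hv : 0 < r.val := Nat.pos_of_ne_zero fun h => hr ((ZMod.val_eq_zero r).1 h)
    have h0 : (0 : ℝ) < r.val / N := div_pos (Nat.cast_pos.2 hv) hN0
    have h1 : (r.val / N : ℝ) < 1 := (div_lt_one hN0).2 (Nat.cast_lt.2 (ZMod.val_lt r))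
    rw [ZMod.toAddCircle_apply, hurwitz_zero h0 h1, bb, Nat.sub_self, pow_zero, one_mul,
      Polynomial.bernoulli_one, Polynomial.eval_sub, Polynomial.eval_X, Polynomial.eval_C]
    push_cast
    ring

theorem nv_one (N : ℕ) [NeZero N] (φ : (ZMod N)ˣ →* ℂˣ) (hφ : (φ (-1) : ℂ) = -1)
    (h : ∀ ℓ : ℕ, ℓ.Prime → ℓ ∣ N → ∃ u : (ZMod N)ˣ, DecL ℓ N u ∧ φ u ≠ 1) :
    ∑ r : (ZMod N)ˣ, (φ r : ℂ) * ((bb N 1 (r : ZMod N).val : ℚ) : ℂ) ≠ 0 := by
  intro h0
  have h1 : ∑ r : (ZMod N)ˣ, (φ r : ℂ) * ((bb N 1 (r : ZMod N).val : ℚ) : ℂ) =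
      ∑ r : ZMod N, (MulChar.ofUnitHom φ : DirichletCharacter ℂ N) r *
        ((bb N 1 r.val : ℚ) : ℂ) := by
    refine Fintype.sum_of_injective (fun r : (ZMod N)ˣ => (r : ZMod N)) Units.val_injective _ _
      ?_ ?_
    · intro r hr
      have hu : ¬ IsUnit r := fun ⟨u, hu⟩ => hr ⟨u, hu⟩
      rw [MulChar.map_nonunit _ hu, zero_mul]
    · intro r
      rw [MulChar.ofUnitHom_coe]
  have h2 : (MulChar.ofUnitHom φ : DirichletCharacter ℂ N) (-1) = -1 := by
    have h3 : (-1 : ZMod N) = ((-1 : (ZMod N)ˣ) : ZMod N) := by simp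
    rw [h3, MulChar.ofUnitHom_coe]
    exact hφ
  refine nvo_L (MulChar.ofUnitHom φ : DirichletCharacter ℂ N) h2 ?_ ?_
  · intro ℓ hℓ hℓN
    obtain ⟨u, hu, hu1⟩ := h ℓ hℓ hℓN
    refine ⟨u, hu, fun h3 => hu1 ?_⟩
    rw [MulChar.ofUnitHom_coe] at h3
    exact Units.ext h3
  · rw [nvo_val _ (nvo_level h2), ← h1, h0, neg_zero]

end Pool.Agent.EDV
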