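import Pool.Agent.EDV.Defs
import Pool.Agent.AAP.RedB
import Pool.Agent.AAP.StmtB

/-!
# EDV-Lev (1.5h): characters of level `N`, action on roots of unity

`Gam` is `GQ = Gal(Qb/ℚ)` with other names (see `AAP/Stmt.lean`, `AAP/StmtB.lean`), a compact group.
* `acts_mul`, `acts_mod`, `acts_inj`, `acts_of_dvd`: elementary (there is a primitive `m`-th root of unity in
  `Qbar`: `HasEnoughRootsOfUnity` or algebraically closed of characteristic 0).
* `acts_exists`: `g ζ` is a primitive `m`-th root of unity for a primitive one `ζ`.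
* `exists_acts`: `Gal(K/ℚ) ≅ (ZMod m)ˣ` for `K = ℚ(ζ_m)` (`exists_cyc`, `gq`), embed `K` in `Qb` and extend
  (`AlgEquiv.restrictNormalHom_surjective`, or `geqv`, `acts` in `AAP/RedA.lean`; or `IsAlgClosed.lift`).
* `exists_acts_seq`: compactness: the sets `{g | Acts (N p ^ M) g (b M)}` are closed (even open), nonempty
  by `exists_acts` and decreasing (`IsCompact.nonempty_iInter_of_directed_nonempty_isCompact_isClosed` or
  `IsCompact.nonempty_iInter_of_sequence_nonempty_isCompact_isClosed`).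
* `Level.norm_one`: the image of `g ↦ ‖ψ g‖` is a compact, so bounded, subgroup of the positive reals.
* `Level.small`: the sets `{g | Acts (N p ^ M) g 1 ∧ r ≤ ‖ψ g - 1‖}` (if `r` is replaced by `r' > r` or
  with `<`: take `{g | Acts .. ∧ r ≤ ‖..‖}`) are closed, decreasing, with empty intersection, so one of
  them is empty by compactness.
* `acts_cc`: as `gq_conj` in `AAP/RedA.lean`: `c ζ = ζ⁻¹`.
-/

open NumberField Pointwise Matrix

namespace Pool.Agent.EDV

open Pool.Agent.AAP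

open Pool.Agent.Helper60.FM

private def lev_e (g : Gam) : GQ := g

private theorem lev_pow (g : Gam) (x : Qbar) (n : ℕ) : g.ap (x ^ n) = (g.ap x) ^ n :=
  map_pow (lev_e g) x n

private theorem lev_mul (g h : Gam) (x : Qbar) : (g * h).ap x = g.ap (h.ap x) := rfl

private theorem lev_inv (g : Gam) {x y : Qbar} (h : g.ap y = x) : (g⁻¹).ap x = y := by
  have h1 : (g⁻¹ * g).ap y = y := by
    rw [inv_mul_cancel]
    rfl
  rw [← h, ← lev_mul]
  exact h1

private theorem lev_mod {m a b : ℕ} {ζ : Qbar} (hζ : ζ ^ m = 1) (hab : a ≡ b [MOD m]) :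
    ζ ^ a = ζ ^ b := by
  have h1 : a ≡ b [MOD orderOf ζ] := hab.of_dvd (orderOf_dvd_of_pow_eq_one hζ)
  rw [← pow_mod_orderOf ζ a, ← pow_mod_orderOf ζ b]
  rw [h1]

private theorem lev_prim (m : ℕ) [NeZero m] : ∃ ζ : Qbar, IsPrimitiveRoot ζ m := by
  have h1 : HasEnoughRootsOfUnity Qbar m := inferInstance
  exact h1.prim

private theorem lev_closed (x y : Qb) : IsClosed {g : GQ | g x = y} := by
  by_cases h : ∃ g₀ : GQ, g₀ x = y
  · obtain ⟨g₀, hg₀⟩ := h
    have h1 := stabilizer_isOpen_of_isIntegral (K := ℚ) (L := Qb) x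
    have h2 := Subgroup.isClosed_of_isOpen _ h1
    have h3 : {g : GQ | g x = y} =
        (fun g => g₀⁻¹ * g) ⁻¹' ((MulAction.stabilizer Gal(Qb/ℚ) x : Subgroup _) : Set _) := by
      ext g
      rw [Set.mem_preimage, SetLike.mem_coe, MulAction.mem_stabilizer_iff, mul_smul,
        inv_smul_eq_iff]
      change g x = y ↔ g x = g₀ x
      rw [hg₀]
    rw [h3]
    exact h2.preimage (continuous_const_mul _)
  · have h3 : {g : GQ | g x = y} = ∅ := by
      ext g
      constructor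
      · intro hg
        exact (h ⟨g, hg⟩).elim
      · intro hg
        exact hg.elim
    rw [h3]
    exact isClosed_empty

private theorem lev_acts_closed' (m b : ℕ) : IsClosed {g : GQ | ActsAs m g b} := by
  have h1 : {g : GQ | ActsAs m g b} = ⋂ (ζ : Qb) (_ : ζ ^ m = 1), {g : GQ | g ζ = ζ ^ b} := by
    ext g
    simp only [Set.mem_iInter]
    rfl
  rw [h1]
  exact isClosed_iInter fun ζ => isClosed_iInter fun _ => lev_closed _ _

private theorem lev_acts_closed (m b : ℕ) : IsClosed {g : Gam | Acts m g b} :=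
  lev_acts_closed' m b

private theorem lev_compact : CompactSpace Gam :=
  (inferInstance : CompactSpace GQ)

theorem acts_mul {m a b : ℕ} {g h : Gam} (hg : Acts m g a) (hh : Acts m h b) :
    Acts m (g * h) (a * b) := by
  intro ζ hζ
  rw [lev_mul, hh ζ hζ, lev_pow, hg ζ hζ, ← pow_mul]

theorem acts_inv {m a b : ℕ} {g : Gam} (hg : Acts m g a) (hab : a * b ≡ 1 [MOD m]) :
    Acts m g⁻¹ b := by
  intro ζ hζ
  apply lev_inv
  rw [lev_pow, hg ζ hζ, ← pow_mul, lev_mod hζ hab, pow_one]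

theorem acts_mod {m a b : ℕ} {g : Gam} (hg : Acts m g a) (hab : a ≡ b [MOD m]) : Acts m g b := by
  intro ζ hζ
  rw [hg ζ hζ]
  exact lev_mod hζ hab

theorem acts_inj {m a b : ℕ} [NeZero m] {g : Gam} (hg : Acts m g a) (hh : Acts m g b) :
    a ≡ b [MOD m] := by
  obtain ⟨ζ, hζ⟩ := lev_prim m
  have h1 : ζ ^ a = ζ ^ b := (hg ζ hζ.pow_eq_one).symm.trans (hh ζ hζ.pow_eq_one)
  have key : ∀ c d : ℕ, c ≤ d → ζ ^ c = ζ ^ d → c ≡ d [MOD m] := by
    intro c d hcd h2
    have h3 : ζ ^ (d - c) = 1 := by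
      have h4 : ζ ^ c * ζ ^ (d - c) = ζ ^ c * 1 := by
        rw [← pow_add, Nat.add_sub_cancel' hcd, mul_one]
        exact h2.symm
      exact mul_left_cancel₀ (pow_ne_zero _ (hζ.ne_zero (NeZero.ne m))) h4
    have h5 : m ∣ d - c := (hζ.pow_eq_one_iff_dvd _).1 h3
    exact (Nat.modEq_iff_dvd' hcd).2 h5
  rcases le_total a b with h | h
  · exact key a b h h1
  · exact (key b a h h1.symm).symm

theorem acts_of_dvd {m d a : ℕ} (hd : d ∣ m) {g : Gam} (hg : Acts m g a) : Acts d g a := by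
  obtain ⟨e, rfl⟩ := hd
  intro ζ hζ
  exact hg ζ (by rw [pow_mul, hζ, one_pow])

theorem acts_exists (m : ℕ) [NeZero m] (g : Gam) : ∃ u : (ZMod m)ˣ, Acts m g (u : ZMod m).val := by
  obtain ⟨ζ, hζ⟩ := lev_prim m
  have h1 : IsPrimitiveRoot (g.ap ζ) m :=
    hζ.map_of_injective (f := lev_e g) (lev_e g).injective
  obtain ⟨k, hkm, hk, hk2⟩ := hζ.isPrimitiveRoot_iff.1 h1
  refine ⟨ZMod.unitOfCoprime k hk, ?_⟩
  rw [ZMod.coe_unitOfCoprime, ZMod.val_natCast]
  refine acts_mod (a := k) ?_ (Nat.mod_modEq k m).symm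
  intro ξ hξ
  obtain ⟨i, _, hi⟩ := hζ.eq_pow_of_pow_eq_one hξ
  rw [← hi, lev_pow, ← hk2, ← pow_mul, ← pow_mul, mul_comm]

theorem exists_acts (m : ℕ) [NeZero m] (u : (ZMod m)ˣ) : ∃ g : Gam, Acts m g (u : ZMod m).val := by
  obtain ⟨K, _, _, hK, _⟩ := exists_cyc m
  have hab : IsAbelianGalois ℚ K := IsCyclotomicExtension.isAbelianGalois {m} ℚ K
  let j : K →+* Qb := (IsAlgClosed.lift : K →ₐ[ℚ] Qb).toRingHom
  let σ : Gal(K/ℚ) := (gq m K).symm u
  obtain ⟨g, hg⟩ := AlgEquiv.restrictNormalHom_surjective (F := ℚ) (K₁ := imField K j) Qb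
    (geqv K j σ)
  have hg' : res (imField K j) g = geqv K j σ := hg
  have h1 : ∀ x, j (σ x) = g (j x) := by
    intro x
    have h2 := geqv_symm_res K j g x
    rw [hg', MulEquiv.symm_apply_apply] at h2
    exact h2
  have h3 := acts m K j g σ h1 m (dvd_refl m)
  refine ⟨g, ?_⟩
  have h4 : ((ZMod.unitsMap (dvd_refl m) (gq m K σ) : (ZMod m)ˣ) : ZMod m) = (u : ZMod m) := by
    rw [ZMod.unitsMap_self, MonoidHom.id_apply, MulEquiv.apply_symm_apply]
  rw [h4] at h3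
  exact h3

theorem exists_acts_seq (N p : ℕ) [NeZero N] [Fact p.Prime] (b : ℕ → ℕ)
    (hb : ∀ M, (b M).Coprime (N * p ^ M)) (hb1 : ∀ M, b (M + 1) ≡ b M [MOD N * p ^ M]) :
    ∃ g : Gam, ∀ M, Acts (N * p ^ M) g (b M) := by
  have := lev_compact
  have hp0 : p ≠ 0 := (Fact.out : p.Prime).ne_zero
  have hsub : ∀ M, {g : Gam | Acts (N * p ^ (M + 1)) g (b (M + 1))} ⊆
      {g : Gam | Acts (N * p ^ M) g (b M)} := by
    intro M g hg
    have h1 : N * p ^ M ∣ N * p ^ (M + 1) := Nat.mul_dvd_mul_left N (pow_dvd_pow p (Nat.le_succ M))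
    exact acts_mod (acts_of_dvd h1 hg) (hb1 M)
  have hne : ∀ M, {g : Gam | Acts (N * p ^ M) g (b M)}.Nonempty := by
    intro M
    have : NeZero (N * p ^ M) := ⟨mul_ne_zero (NeZero.ne N) (pow_ne_zero _ hp0)⟩
    obtain ⟨g, hg⟩ := exists_acts (N * p ^ M) (ZMod.unitOfCoprime (b M) (hb M))
    rw [ZMod.coe_unitOfCoprime, ZMod.val_natCast] at hg
    exact ⟨g, acts_mod hg (Nat.mod_modEq _ _)⟩
  have h := IsCompact.nonempty_iInter_of_sequence_nonempty_isCompact_isClosed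
    (fun M => {g : Gam | Acts (N * p ^ M) g (b M)}) hsub hne
    (lev_acts_closed _ _).isCompact (fun M => lev_acts_closed _ _)
  obtain ⟨g, hg⟩ := h
  exact ⟨g, fun M => Set.mem_iInter.1 hg M⟩

theorem acts_cc {c : Gam} (hc : CC c) (m b : ℕ) (hb : b + 1 ≡ 0 [MOD m]) : Acts m c b := by
  obtain ⟨ι, hι⟩ := hc
  have hm : m ≠ 0 := by
    rintro rfl
    have h1 : b + 1 = 0 := Nat.modEq_zero_iff.1 hb
    omega
  intro ζ hζ
  have hζ0 : ζ ≠ 0 := by
    rintro rfl
    rw [zero_pow hm] at hζ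
    exact zero_ne_one hζ
  have h2 : c.ap ζ * ζ = 1 := by
    apply ι.injective
    rw [map_mul, hι, map_one, ← Complex.normSq_eq_conj_mul_self]
    have h3 : ‖ι ζ‖ = 1 := by
      have h4 : (ι ζ) ^ m = 1 := by rw [← map_pow, hζ, map_one]
      exact Complex.norm_eq_one_of_pow_eq_one h4 hm
    rw [Complex.normSq_eq_norm_sq, h3]
    norm_num
  have h3 : ζ ^ b * ζ = 1 := by
    rw [← pow_succ, lev_mod hζ hb, pow_zero]
  exact mul_right_cancel₀ hζ0 (h2.trans h3.symm)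

theorem exists_cc : ∃ c : Gam, CC c := by
  obtain ⟨c, hc⟩ := exists_isCC
  exact ⟨c, hc⟩

variable {E : Type} [NormedField E]

theorem Level.norm_one {p N : ℕ} {ψ : Gam →* Eˣ} (h : Level p N ψ) (g : Gam) :
    ‖(ψ g : E)‖ = 1 := by
  have := lev_compact
  obtain ⟨C, hC⟩ := (isCompact_univ (X := Gam)).exists_bound_of_continuousOn h.1.continuousOn
  have key : ∀ g : Gam, ‖(ψ g : E)‖ ≤ 1 := by
    intro g
    by_contra hcon
    push Not at hcon
    obtain ⟨n, hn⟩ := pow_unbounded_of_one_lt C hcon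
    have h1 := hC (g ^ n) (Set.mem_univ _)
    rw [map_pow, Units.val_pow_eq_pow_val, norm_pow] at h1
    exact absurd hn (not_lt.2 h1)
  refine le_antisymm (key g) ?_
  have h2 := key g⁻¹
  rw [map_inv, Units.val_inv_eq_inv_val, norm_inv] at h2
  have h3 : 0 < ‖(ψ g : E)‖ := norm_pos_iff.2 (Units.ne_zero _)
  exact (inv_le_one₀ h3).1 h2

theorem Level.small {p N : ℕ} [NeZero N] [Fact p.Prime] {ψ : Gam →* Eˣ} (h : Level p N ψ) {r : ℝ}
    (hr : 0 < r) : ∃ M₀ : ℕ, ∀ M, M₀ ≤ M → ∀ g, Acts (N * p ^ M) g 1 → ‖(ψ g : E) - 1‖ ≤ r := by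
  have := lev_compact
  have hdvd : ∀ {a b : ℕ}, a ≤ b → N * p ^ a ∣ N * p ^ b := fun hab =>
    Nat.mul_dvd_mul_left N (pow_dvd_pow p hab)
  by_contra hcon
  push Not at hcon
  have hne : ∀ M, {g : Gam | Acts (N * p ^ M) g 1 ∧ r ≤ ‖(ψ g : E) - 1‖}.Nonempty := by
    intro M₀
    obtain ⟨M, hM, g, hg, hr2⟩ := hcon M₀
    exact ⟨g, acts_of_dvd (hdvd hM) hg, hr2.le⟩
  have hcl : ∀ M, IsClosed {g : Gam | Acts (N * p ^ M) g 1 ∧ r ≤ ‖(ψ g : E) - 1‖} := by
    intro M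
    exact (lev_acts_closed _ _).inter
      (isClosed_le continuous_const (h.1.sub continuous_const).norm)
  have h1 := IsCompact.nonempty_iInter_of_sequence_nonempty_isCompact_isClosed
    (fun M => {g : Gam | Acts (N * p ^ M) g 1 ∧ r ≤ ‖(ψ g : E) - 1‖})
    (fun M g hg => ⟨acts_of_dvd (hdvd (Nat.le_succ M)) hg.1, hg.2⟩) hne
    (hcl 0).isCompact hcl
  obtain ⟨g, hg⟩ := h1
  have h2 : ∀ M, g ∈ {g : Gam | Acts (N * p ^ M) g 1 ∧ r ≤ ‖(ψ g : E) - 1‖} :=
    fun M => Set.mem_iInter.1 hg M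
  have h3 := h.2 g fun k => (h2 k).1
  have h4 := (h2 0).2
  rw [h3, Units.val_one, sub_self, norm_zero] at h4
  exact absurd hr (not_lt.2 h4)

theorem Level.mul {p N : ℕ} {ψ φ : Gam →* Eˣ} (h : Level p N ψ) (h' : Level p N φ) :
    Level p N (ψ * φ) := by
  refine ⟨?_, fun g hg => ?_⟩
  · have h1 : (fun g => (((ψ * φ) g : Eˣ) : E)) = fun g => (ψ g : E) * (φ g : E) := by
      funext g
      rw [MonoidHom.mul_apply, Units.val_mul]
    rw [h1]
    exact h.1.mul h'.1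
  · rw [MonoidHom.mul_apply, h.2 g hg, h'.2 g hg, mul_one]

theorem Level.inv {p N : ℕ} {ψ : Gam →* Eˣ} (h : Level p N ψ) : Level p N ψ⁻¹ := by
  refine ⟨?_, fun g hg => ?_⟩
  · have h1 : (fun g => ((ψ⁻¹ g : Eˣ) : E)) = fun g => ((ψ g : E))⁻¹ := by
      funext g
      rw [MonoidHom.inv_apply, Units.val_inv_eq_inv_val]
    rw [h1]
    exact h.1.inv₀ fun g => Units.ne_zero _
  · rw [MonoidHom.inv_apply, h.2 g hg, inv_one]

/-- raising the level -/
theorem Level.of_dvd {p N N' : ℕ} (hd : N ∣ N') {ψ : Gam →* Eˣ} (h : Level p N ψ) :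
    Level p N' ψ := by
  exact ⟨h.1, fun g hg => h.2 g fun k => acts_of_dvd (Nat.mul_dvd_mul_right hd _) (hg k)⟩

/-- powers of `p` in the level do not matter -/
theorem Level.pow_iff {p N j : ℕ} {ψ : Gam →* Eˣ} : Level p (N * p ^ j) ψ ↔ Level p N ψ := by
  constructor
  · intro h
    refine ⟨h.1, fun g hg => h.2 g fun k => ?_⟩
    rw [mul_assoc, ← pow_add]
    exact hg (j + k)
  · intro h
    exact h.of_dvd (Dvd.intro _ rfl)

end Pool.Agent.EDV
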