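import Pool.Agent.EDV.Defs2
import Pool.Agent.EDV.Lev

/-!
# EDV-InA (0.4h): inertia acts trivially on roots of unity of order prime to the residue characteristic

`g` is in the inertia group of `𝔓`, `ℓ ∈ 𝔓`, `ℓ ∤ m`. Let `ζ ^ m = 1`; it is a power of a primitive `m`-th root of unity
`ζ₀`, so let `ζ = ζ₀`. `g ζ = ζ ^ a` for some `a` (`acts_exists`), and `ζ ^ a - ζ ∈ 𝔓` as `g` is in the inertia group. The image of `ζ` in
the domain `AI / 𝔓` of characteristic `ℓ` is again a primitive `m`-th root of unity (see the proof of `dcm_dec` in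
`EDV/Dec.lean`, copy what is needed), so `a ≡ 1` modulo `m` and `g ζ = ζ`.
-/

open NumberField Pointwise Matrix

namespace Pool.Agent.EDV

open Pool.Agent.AAP

open Pool.Agent.Helper60.FM

theorem iner_acts {ℓ m : ℕ} [NeZero m] (hℓ : ℓ.Prime) (hm : ¬ ℓ ∣ m) {𝔓 : Ideal AI}
    (h𝔓 : 𝔓.IsPrime) (hℓ𝔓 : (ℓ : AI) ∈ 𝔓) {g : Gam} (hg : Iner 𝔓 g) : Acts m g 1 := by
  have hF : Fact ℓ.Prime := ⟨hℓ⟩
  let P : Ideal ZQ := 𝔓
  have hP : P.IsPrime := h𝔓
  have hℓP : (ℓ : ZQ) ∈ P := hℓ𝔓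
  let g' : GQ := g
  have hst : ∀ x : ZQ, g' • x - x ∈ P := fun x => hg x (sm g' x : AI) rfl
  have hd : IsDomain (ZQ ⧸ P) := Ideal.Quotient.isDomain P
  have hc : CharP (ZQ ⧸ P) ℓ := (CharP.charP_iff_prime_eq_zero hℓ).2 (by
    have h1 := Ideal.Quotient.eq_zero_iff_mem.2 hℓP
    rw [map_natCast] at h1
    exact h1)
  obtain ⟨u, hu⟩ := acts_exists m g
  obtain ⟨ζ, hζ⟩ : ∃ ζ : Qb, IsPrimitiveRoot ζ m := by
    have h1 : HasEnoughRootsOfUnity Qb m := inferInstance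
    exact h1.prim
  have hint : IsIntegral ℤ ζ := hζ.isIntegral (NeZero.pos m)
  let z0 : ZQ := ⟨ζ, hint⟩
  have hz0 : IsPrimitiveRoot z0 m := by
    have h1 : IsPrimitiveRoot (algebraMap ZQ Qb z0) m := hζ
    exact h1.of_map_of_injective (FaithfulSMul.algebraMap_injective ZQ Qb)
  have hz1 : IsPrimitiveRoot (Ideal.Quotient.mk P z0) m := by
    have hne : NeZero ((m : ℕ) : ZQ ⧸ P) :=
      ⟨fun h => hm ((CharP.cast_eq_zero_iff (ZQ ⧸ P) ℓ m).1 h)⟩
    rw [← Polynomial.isRoot_cyclotomic_iff]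
    have h1 := hz0.isRoot_cyclotomic (NeZero.pos m)
    have h2 := h1.map (f := Ideal.Quotient.mk P)
    rwa [Polynomial.map_cyclotomic] at h2
  have h4 : g' • z0 = z0 ^ (u : ZMod m).val := by
    apply Subtype.ext
    exact hu ζ hζ.pow_eq_one
  have h5 : Ideal.Quotient.mk P z0 ^ (u : ZMod m).val = Ideal.Quotient.mk P z0 ^ 1 := by
    rw [← map_pow, ← h4, pow_one]
    exact Ideal.Quotient.eq.2 (hst z0)
  have h6 : (u : ZMod m).val ≡ 1 [MOD m] := by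
    have h7 := (hz1.isOfFinOrder (NeZero.ne m)).pow_eq_pow_iff_modEq.1 h5
    rwa [← hz1.eq_orderOf] at h7
  intro x hx
  rw [hu x hx]
  have h8 : (u : ZMod m).val ≡ 1 [MOD orderOf x] := h6.of_dvd (orderOf_dvd_of_pow_eq_one hx)
  rw [← pow_mod_orderOf x (u : ZMod m).val, ← pow_mod_orderOf x 1]
  rw [h8]

end Pool.Agent.EDV
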