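import Pool.Agent.EDV.Core2
import Pool.Agent.AAP.Cg

/-!
# EDV-Abs2: the core theorem for an abstract field `K`, without residual hypothesis

Transport of `coreJ` to an abstract field, exactly as `absMain` in `AAP/Cg.lean` transports
`main_distinct` (`imField`, `aeqv`, `geqv`, `pull`, see `Helper60/FM/Transport.lean`): apply `coreJ` to
`imField K j`, `aeqv K j ζ`, `ω ∘ γ.symm`, `f i ∘ γ.symm`, `γ ∘ s`, `ν ∘ γ.symm`, `γ = geqv K j`.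
-/

open NumberField Pointwise Matrix

namespace Pool.Agent.EDV

open Pool.Agent.Helper60.FM Pool.Agent.AAP

theorem absCore2 {p k : ℕ} [Fact p.Prime] (hp : p ≠ 2) (hk : 1 ≤ k) {E : Type*} [NormedField E]
    [IsUltrametricDist E] [CompleteSpace E] [NormedAlgebra ℚ_[p] E]
    (K : Type) [Field K] [NumberField K] [IsAbelianGalois ℚ K] (j : K →+* Qb)
    (ζ : K) (hζ : IsPrimitiveRoot ζ (p ^ k)) (ω : Gal(K/ℚ) → ℕ) (hω : ∀ σ, σ ζ = ζ ^ ω σ)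
    {r : ℝ} (hpr : ‖(p : E)‖ ^ k ≤ r)
    (f₁ f₂ : Gal(K/ℚ) → E) (h₁ : ∀ σ, ‖f₁ σ‖ = 1) (h₂ : ∀ σ, ‖f₂ σ‖ = 1)
    (hm₁ : ∀ σ τ, ‖f₁ (σ * τ) - f₁ σ * f₁ τ‖ ≤ r) (hm₂ : ∀ σ τ, ‖f₂ (σ * τ) - f₂ σ * f₂ τ‖ ≤ r)
    (σ₁ : Gal(K/ℚ))
    (V : GQ →* GL (Fin 2) E) (hV : Continuous V) (heven : IsEven V) (hline : ¬ HasLine V)
    (htr : ∀ (g : GQ) (σ : Gal(K/ℚ)), (∀ x, j (σ x) = g (j x)) → ‖tr V g - f₁ σ - f₂ σ‖ ≤ r)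
    (S : Set ℕ) (htame : ∀ ℓ : ℕ, ℓ.Prime → ℓ ∉ S → ∀ 𝔓 : Ideal ZQ, 𝔓.IsPrime → (ℓ : ZQ) ∈ 𝔓 →
      ∀ g ∈ In 𝔓, ∃ m : ℕ, ¬ p ∣ m ∧ V g ^ m = 1)
    (s : ℕ → Gal(K/ℚ)) (hs : ∀ ℓ ∈ S, ℓ.Prime → ∀ P : Ideal (𝓞 K), P.IsPrime →
      (ℓ : 𝓞 K) ∈ P → s ℓ • P = P)
    (ν : Gal(K/ℚ) → ℕ)
    (hν : ∀ 𝔞 : Ideal (𝓞 K), 𝔞 ≠ ⊥ → (∏ σ, (σ • 𝔞) ^ ν σ).IsPrincipal) :
    ∃ T : Finset ℕ, (∀ ℓ ∈ T, ℓ ∈ S ∧ ℓ.Prime) ∧
      ‖f₁ σ₁ - f₂ σ₁‖ ^ 2 * ((∏ ℓ ∈ T, ‖(ω (s ℓ) : E) * f₂ (s ℓ) - f₁ (s ℓ)‖) *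
        ‖∑ σ, (ν σ : E) * ((ω σ : E) * f₂ σ * (f₁ σ)⁻¹)‖) ≤ r := by
  classical
  let γ := geqv K j
  have hγ : ∀ σ, γ.symm (γ σ) = σ := fun σ => MulEquiv.symm_apply_apply γ σ
  obtain ⟨T, hT, h⟩ := coreJ hp hk (imField K j) (aeqv K j ζ)
    (hζ.map_of_injective (f := aeqv K j) (aeqv K j).injective) (fun σ => ω (γ.symm σ))
    (by
      intro σ
      rw [← geqv_symm_apply, hω, map_pow])
    hpr (fun σ => f₁ (γ.symm σ)) (fun σ => f₂ (γ.symm σ)) (fun σ => h₁ _) (fun σ => h₂ _)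
    (by
      intro σ τ
      rw [map_mul]
      exact hm₁ _ _)
    (by
      intro σ τ
      rw [map_mul]
      exact hm₂ _ _)
    (γ σ₁)
    V hV heven hline
    (fun g => htr g (γ.symm (res (imField K j) g)) (geqv_symm_res K j g))
    S htame (fun ℓ => γ (s ℓ))
    (by
      intro ℓ hℓ hℓp P hP hmem
      apply pull_injective K j
      rw [pull_smul, MulEquiv.symm_apply_apply]
      exact hs ℓ hℓ hℓp (pull K j P) (pull_isPrime K j P hP) (natCast_mem_pull K j P ℓ hmem))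
    (fun σ => ν (γ.symm σ))
    (by
      intro 𝔞 h𝔞
      rw [← pull_isPrincipal K j, map_prod]
      have h1 := hν (pull K j 𝔞) (pull_ne_bot K j 𝔞 h𝔞)
      rw [← Equiv.prod_comp γ.symm.toEquiv] at h1
      have h2 : ∀ σ, pull K j ((σ • 𝔞) ^ ν (γ.symm σ)) =
          (γ.symm.toEquiv σ • pull K j 𝔞) ^ ν (γ.symm.toEquiv σ) := by
        intro σ
        rw [map_pow, pull_smul]
        rfl
      rw [Finset.prod_congr rfl fun σ _ => h2 σ]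
      exact h1)
  refine ⟨T, hT, ?_⟩
  have h3 : ∑ σ, (ν σ : E) * ((ω σ : E) * f₂ σ * (f₁ σ)⁻¹) =
      ∑ σ, (ν (γ.symm σ) : E) * ((ω (γ.symm σ) : E) * f₂ (γ.symm σ) * (f₁ (γ.symm σ))⁻¹) := by
    rw [← Equiv.sum_comp γ.symm.toEquiv]
    rfl
  rw [h3]
  simp only [hγ] at h
  exact h

end Pool.Agent.EDV
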