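import Pool.Agent.EDV.Kum
import Pool.Agent.Helper60.FM.CC

/-!
# EDV-Beta: Kummer generators

`ζ ∈ K` a primitive `q`-th root of unity, `φ` a homomorphism on `Gal(Qb/K)` with values in `ℤ/q` and open
kernel. There is `β ≠ 0` with `k β = ζ ^ φ(k) β` for all `k` fixing `K` (a resolvent, by the linear
independence of characters).
-/

open NumberField Pointwise

namespace Pool.Agent.EDV

open Pool.Agent.Helper60.FM

theorem exists_betaQ {q : ℕ} [NeZero q] (K : IntermediateField ℚ Qb) [FiniteDimensional ℚ K]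
    [IsGalois ℚ K] (ζ : K) (hζ : IsPrimitiveRoot ζ q) (φ : GQ → ZMod q)
    (hφ : ∀ k ∈ K.fixingSubgroup, ∀ k' ∈ K.fixingSubgroup, φ (k * k') = φ k + φ k')
    (ho : IsOpen {k : GQ | k ∈ K.fixingSubgroup ∧ φ k = 0}) :
    ∃ β : Qb, β ≠ 0 ∧ ∀ k ∈ K.fixingSubgroup, k β = (ζ : Qb) ^ (φ k).val * β := by
  classical
  have hζ' := coe_prim hζ
  have φ_one : φ 1 = 0 := by
    have h1 := hφ 1 (Subgroup.one_mem _) 1 (Subgroup.one_mem _)
    rw [one_mul] at h1
    exact left_eq_add.mp h1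
  have φ_inv : ∀ k ∈ K.fixingSubgroup, φ k⁻¹ = -φ k := by
    intro k hk
    have h1 := hφ k⁻¹ (Subgroup.inv_mem _ hk) k hk
    rw [inv_mul_cancel, φ_one] at h1
    exact eq_neg_of_add_eq_zero_left h1.symm
  let H : Subgroup GQ :=
    { carrier := {k | k ∈ K.fixingSubgroup ∧ φ k = 0}
      one_mem' := ⟨Subgroup.one_mem _, φ_one⟩
      mul_mem' := by
        rintro a b ⟨ha, ha'⟩ ⟨hb, hb'⟩
        exact ⟨Subgroup.mul_mem _ ha hb, by rw [hφ a ha b hb, ha', hb', add_zero]⟩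
      inv_mem' := by
        rintro a ⟨ha, ha'⟩
        exact ⟨Subgroup.inv_mem _ ha, by rw [φ_inv a ha, ha', neg_zero]⟩ }
  have hHmem : ∀ k, k ∈ H ↔ k ∈ K.fixingSubgroup ∧ φ k = 0 := fun k => Iff.rfl
  have hHopen : IsOpen (H : Set GQ) := ho
  have hHclosed : IsClosed (H : Set GQ) := Subgroup.isClosed_of_isOpen H hHopen
  have hfix : (IntermediateField.fixedField H).fixingSubgroup = H := by
    have := InfiniteGalois.fixingSubgroup_fixedField (k := ℚ) (K := Qb) ⟨H, hHclosed⟩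
    exact this
  -- representatives
  let ι : Type := {c : ZMod q // ∃ k ∈ K.fixingSubgroup, φ k = c}
  have hrep0 : ∀ c : ι, ∃ k ∈ K.fixingSubgroup, φ k = c.1 := fun c => c.2
  choose rep hrep1 hrep2 using hrep0
  let L := IntermediateField.fixedField H
  have hL : ∀ (x : L) (k k' : GQ), k⁻¹ * k' ∈ H → k (x : Qb) = k' (x : Qb) := by
    intro x k k' hk
    have h1 : (k⁻¹ * k') (x : Qb) = x := (IntermediateField.mem_fixedField_iff H _).1 x.2 _ hk
    have h2 : k ((k⁻¹ * k') (x : Qb)) = k' (x : Qb) := by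
      change k (k⁻¹ (k' (x : Qb))) = k' (x : Qb)
      exact k.apply_symm_apply _
    rw [← h2, h1]
  let τ : ι → (L →* Qb) := fun i =>
    { toFun := fun x => (rep i) (x : Qb)
      map_one' := by simp
      map_mul' := by intro x y; simp }
  have hτ : Function.Injective τ := by
    intro i j h
    have h1 : (rep i)⁻¹ * rep j ∈ L.fixingSubgroup := by
      rw [IntermediateField.mem_fixingSubgroup_iff]
      intro x hx
      have h2 : (rep i) x = (rep j) x := DFunLike.congr_fun h ⟨x, hx⟩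
      change (rep i)⁻¹ ((rep j) x) = x
      rw [← h2]
      exact (rep i).symm_apply_apply x
    rw [hfix, hHmem, hφ _ (Subgroup.inv_mem _ (hrep1 i)) _ (hrep1 j), φ_inv _ (hrep1 i), hrep2,
      hrep2] at h1
    apply Subtype.ext
    exact (neg_add_eq_zero.1 h1.2)
  have hli : LinearIndependent Qb (fun i : ι => (τ i : L → Qb)) :=
    (linearIndependent_monoidHom L Qb).comp τ hτ
  obtain ⟨θ, hθ⟩ : ∃ θ : L, ∑ c : ι, (ζ : Qb) ^ (-c.1).val * (rep c) (θ : Qb) ≠ 0 := by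
    by_contra hcon
    push Not at hcon
    rw [Fintype.linearIndependent_iff] at hli
    have h1 := hli (fun c => (ζ : Qb) ^ (-c.1).val) (by
      funext θ
      rw [Finset.sum_apply]
      exact hcon θ) ⟨0, 1, Subgroup.one_mem _, φ_one⟩
    exact zq_ne_zero hζ' _ h1
  refine ⟨∑ c : ι, (ζ : Qb) ^ (-c.1).val * (rep c) (θ : Qb), hθ, ?_⟩
  intro k hk
  have hkζ : k (ζ : Qb) = (ζ : Qb) := (IntermediateField.mem_fixingSubgroup_iff K k).1 hk _ ζ.2
  let e : ι ≃ ι :=
    { toFun := fun c => ⟨φ k + c.1, k * rep c, Subgroup.mul_mem _ hk (hrep1 c), by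
        rw [hφ k hk _ (hrep1 c), hrep2]⟩
      invFun := fun c => ⟨-φ k + c.1, k⁻¹ * rep c, Subgroup.mul_mem _ (Subgroup.inv_mem _ hk) (hrep1 c), by
        rw [hφ _ (Subgroup.inv_mem _ hk) _ (hrep1 c), hrep2, φ_inv k hk]⟩
      left_inv := fun c => Subtype.ext (by simp)
      right_inv := fun c => Subtype.ext (by simp) }
  rw [← Equiv.sum_comp e (fun c : ι => (ζ : Qb) ^ (-c.1).val * (rep c) (θ : Qb)), map_sum,
    Finset.mul_sum]
  rw [Equiv.sum_comp e (fun c : ι => (ζ : Qb) ^ (φ k).val * ((ζ : Qb) ^ (-c.1).val * (rep c) (θ : Qb))),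
    Equiv.sum_comp e (fun c : ι => k ((ζ : Qb) ^ (-c.1).val * (rep c) (θ : Qb)))]
  rw [← Equiv.sum_comp e (fun c : ι => (ζ : Qb) ^ (φ k).val * ((ζ : Qb) ^ (-c.1).val * (rep c) (θ : Qb)))]
  refine Finset.sum_congr rfl fun c _ => ?_
  rw [map_mul, map_pow, hkζ, ← mul_assoc, ← zq_add hζ']
  have h1 : φ k + -(e c).1 = -c.1 := by
    change φ k + -(φ k + c.1) = -c.1
    ring
  rw [h1]
  congr 1
  have h2 : (k * rep c)⁻¹ * rep (e c) ∈ H := by
    rw [hHmem]
    have h3 : k * rep c ∈ K.fixingSubgroup := Subgroup.mul_mem _ hk (hrep1 c)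
    refine ⟨Subgroup.mul_mem _ (Subgroup.inv_mem _ h3) (hrep1 _), ?_⟩
    rw [hφ _ (Subgroup.inv_mem _ h3) _ (hrep1 _), φ_inv _ h3, hφ k hk _ (hrep1 c), hrep2, hrep2]
    change -(φ k + c.1) + (φ k + c.1) = 0
    ring
  exact hL θ _ _ h2

end Pool.Agent.EDV
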