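import Pool.Agent.AAP.Fin

/-!
# EDV-NVE (0.3h): Bernoulli numbers do not vanish in `E`

`span_top` in `AAP/Fin.lean` (private, copy it) gives `v, w` in the group algebra over `ℚ` with
`v θ + w κ = 1`; apply the homomorphism to `E` given by `χ`, as in the proof of `fin` there:
`L v * TT N n χ = 1`. Only `CharZero E` is used.
-/

namespace Pool.Agent.EDV

open Pool.Agent.AAP

private theorem nve_span_top (N n : ℕ) [NeZero N] (hn : 2 ≤ n) :
    ∃ v w : MonoidAlgebra ℚ (ZMod N)ˣ,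
      v * (∑ r : (ZMod N)ˣ, MonoidAlgebra.single r (bb N n (r : ZMod N).val)) +
        w * (MonoidAlgebra.single (-1) 1 -
          algebraMap ℚ (MonoidAlgebra ℚ (ZMod N)ˣ) ((-1) ^ n)) = 1 := by
  rw [← Ideal.mem_span_pair]
  by_contra hcon
  have hne : Ideal.span {∑ r : (ZMod N)ˣ, MonoidAlgebra.single r (bb N n (r : ZMod N).val),
      MonoidAlgebra.single (-1) 1 - algebraMap ℚ (MonoidAlgebra ℚ (ZMod N)ˣ) ((-1) ^ n)} ≠ ⊤ := by
    intro h
    rw [h] at hcon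
    exact hcon trivial
  obtain ⟨M, hM, hle⟩ := Ideal.exists_le_maximal _ hne
  letI : Field (MonoidAlgebra ℚ (ZMod N)ˣ ⧸ M) := Ideal.Quotient.field M
  haveI : Module.Finite ℚ (MonoidAlgebra ℚ (ZMod N)ˣ ⧸ M) :=
    Module.Finite.of_surjective (Ideal.Quotient.mkₐ ℚ M).toLinearMap
      (Ideal.Quotient.mkₐ_surjective ℚ M)
  haveI : Algebra.IsAlgebraic ℚ (MonoidAlgebra ℚ (ZMod N)ˣ ⧸ M) :=
    Algebra.IsAlgebraic.of_finite ℚ _
  let f : (MonoidAlgebra ℚ (ZMod N)ˣ ⧸ M) →ₐ[ℚ] ℂ := IsAlgClosed.lift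
  let g : MonoidAlgebra ℚ (ZMod N)ˣ →ₐ[ℚ] ℂ := f.comp (Ideal.Quotient.mkₐ ℚ M)
  have hg : ∀ x ∈ M, g x = 0 := by
    intro x hx
    have : (Ideal.Quotient.mkₐ ℚ M) x = 0 := by
      rw [Ideal.Quotient.mkₐ_eq_mk]
      exact Ideal.Quotient.eq_zero_iff_mem.mpr hx
    show f ((Ideal.Quotient.mkₐ ℚ M) x) = 0
    rw [this, map_zero]
  let φ : (ZMod N)ˣ →* ℂˣ := MonoidHom.toHomUnits
    ((g : MonoidAlgebra ℚ (ZMod N)ˣ →* ℂ).comp (MonoidAlgebra.of ℚ (ZMod N)ˣ))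
  have hφ : ∀ r, (φ r : ℂ) = g (MonoidAlgebra.single r 1) := fun r => rfl
  have h1 := hg _ (hle (Ideal.subset_span (Set.mem_insert _ _)))
  have h2 := hg _ (hle (Ideal.subset_span (Set.mem_insert_of_mem _ (Set.mem_singleton _))))
  have h3 : (φ (-1) : ℂ) = (-1) ^ n := by
    rw [map_sub, sub_eq_zero, AlgHom.commutes] at h2
    rw [hφ, h2]
    simp
  refine nv N n hn φ h3 ?_
  rw [map_sum] at h1
  rw [← h1]
  refine Finset.sum_congr rfl fun r _ => ?_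
  rw [hφ]
  have h4 : (MonoidAlgebra.single r (bb N n (r : ZMod N).val) : MonoidAlgebra ℚ (ZMod N)ˣ) =
      (bb N n (r : ZMod N).val) • MonoidAlgebra.single r 1 := by
    rw [MonoidAlgebra.smul_single, smul_eq_mul, mul_one]
  rw [h4, map_smul, Rat.smul_def, mul_comm]

theorem tt_ne (N n : ℕ) [NeZero N] (hn : 2 ≤ n) {E : Type} [NormedField E] [CharZero E]
    (χ : (ZMod N)ˣ →* Eˣ) (hχ : (χ (-1) : E) = (-1) ^ n) : (TT N n χ : E) ≠ 0 := by
  obtain ⟨v, w, hvw⟩ := nve_span_top N n hn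
  let L : MonoidAlgebra ℚ (ZMod N)ˣ →ₐ[ℚ] E :=
    MonoidAlgebra.lift ℚ E (ZMod N)ˣ ((Units.coeHom E).comp χ)
  have hL1 : ∀ (r : (ZMod N)ˣ) (q : ℚ), L (MonoidAlgebra.single r q) = (χ r : E) * (q : E) := by
    intro r q
    show MonoidAlgebra.lift ℚ E (ZMod N)ˣ ((Units.coeHom E).comp χ) (MonoidAlgebra.single r q) = _
    rw [MonoidAlgebra.lift_single, Rat.smul_def, mul_comm]
    rfl
  have hL2 : L (∑ r : (ZMod N)ˣ, MonoidAlgebra.single r (bb N n (r : ZMod N).val)) =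
      TT N n χ := by
    rw [map_sum]
    exact Finset.sum_congr rfl fun r _ => hL1 _ _
  have hL3 : L (MonoidAlgebra.single (-1) 1 -
      algebraMap ℚ (MonoidAlgebra ℚ (ZMod N)ˣ) ((-1) ^ n)) = 0 := by
    rw [map_sub, hL1, AlgHom.commutes, hχ]
    simp
  have hL4 : L v * TT N n χ = 1 := by
    have := congrArg L hvw
    rw [map_add, map_mul, map_mul, hL2, hL3, mul_zero, add_zero, map_one] at this
    exact this
  intro h0
  rw [h0, mul_zero] at hL4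
  exact zero_ne_one hL4

end Pool.Agent.EDV
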