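import Pool.Agent.EDV.Num
import Pool.Agent.EDV.NVE
import Pool.Agent.EDV.Defs
import Pool.Agent.AAP.RedC

/-!
# EDV-Cls (1.2h): the limit is not zero at classical points

`[a]` is the value of `a`. Choice of `u M ℓ`: let `N = ℓ ^ j N'`, `ℓ ∤ N'`.
`ℓ ≠ p`: `u M ℓ ≡ ℓ` modulo `N' p ^ M`, `≡ 1` modulo `ℓ ^ j` (`exists_unit` in `AAP/RedC.lean`;
`N p ^ M = ℓ ^ j (N' p ^ M)`, so `DecL` holds with exponent 1). `ℓ = p`: `u M p ≡ 1` modulo `N'`, `≡ 1 + p`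
modulo `p ^ (j + M)` (`DecL` with exponent 0).
In both cases `[u M ℓ] → x` in `E` (`x = ℓ`, resp. `x = 1 + p`; the difference is divisible by `p ^ M`) and the
class of `u M ℓ` modulo `N` does not depend on `M`, let `η ∈ Eˣ` be the value of `χ` there, a root of unity.
So the factor tends to `η x ^ n - x = x (η x ^ (n - 1) - 1) ≠ 0`: `x ≥ 2` is a natural number,
`(η x ^ (n - 1)) ^ φ(N) = x ^ ((n - 1) φ(N)) ≠ 1` in characteristic 0.
The sum: `[a] ^ n [a⁻¹] ≡ [a] ^ (n - 1)` modulo `p ^ M`, so the sum times `n c ^ (n - 1)` has the limit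
`(c ^ n - χ(c)⁻¹) TT N n χ` (`num_lim`), which is not 0 (`tt_ne`; `χ(c) c ^ n ≠ 1` as before).
So the product tends to a nonzero limit, and limits are unique.
-/

open NumberField Filter

namespace Pool.Agent.EDV

open Pool.Agent.AAP

private theorem cls_crt (m m1 m2 : ℕ) [NeZero m] (hm : m = m1 * m2) (co : m1.Coprime m2)
    (a1 a2 : ℕ) (h1 : a1.Coprime m1) (h2 : a2.Coprime m2) :
    ∃ u : (ZMod m)ˣ, (u : ZMod m).val ≡ a1 [MOD m1] ∧ (u : ZMod m).val ≡ a2 [MOD m2] := by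
  subst hm
  obtain ⟨u, hu1, hu2⟩ := exists_unit m1 m2 co a1 a2 h1 h2
  exact ⟨u, (ZMod.natCast_eq_natCast_iff _ _ _).1 hu1, (ZMod.natCast_eq_natCast_iff _ _ _).1 hu2⟩

private theorem cls_map (N q m1 m2 : ℕ) [NeZero N] [NeZero (N * q)] (hN : N = m1 * m2)
    (co : m1.Coprime m2) (a1 a2 : ℕ) (u : (ZMod (N * q))ˣ) (u0 : (ZMod N)ˣ)
    (h1 : (u : ZMod (N * q)).val ≡ a1 [MOD m1]) (h2 : (u : ZMod (N * q)).val ≡ a2 [MOD m2])
    (h3 : (u0 : ZMod N).val ≡ a1 [MOD m1]) (h4 : (u0 : ZMod N).val ≡ a2 [MOD m2]) :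
    ZMod.unitsMap (dvd_mul_right N q) u = u0 := by
  apply Units.ext
  rw [ZMod.unitsMap_val, ← ZMod.natCast_val, ← ZMod.natCast_zmod_val (u0 : ZMod N),
    ZMod.natCast_eq_natCast_iff]
  have h5 := (Nat.modEq_and_modEq_iff_modEq_mul co).1 ⟨h1.trans h3.symm, h2.trans h4.symm⟩
  rw [← hN] at h5
  exact h5

private theorem cls_loc (N p ℓ : ℕ) [NeZero N] [Fact p.Prime] (hpN : p ∣ N) (hℓ : ℓ.Prime) :
    ∃ (x : ℕ) (u0 : (ZMod N)ˣ), 2 ≤ x ∧ ∀ M : ℕ, ∃ u : (ZMod (N * p ^ M))ˣ,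
      DecL ℓ (N * p ^ M) u ∧ ZMod.unitsMap (dvd_mul_right N (p ^ M)) u = u0 ∧
        (u : ZMod (N * p ^ M)).val ≡ x [MOD p ^ M] := by
  have hp : p.Prime := Fact.out
  obtain ⟨j, N', hN', hN⟩ := Nat.exists_eq_pow_mul_and_not_dvd (NeZero.ne N) ℓ hℓ.ne_one
  have hco : ℓ.Coprime N' := (Nat.Prime.coprime_iff_not_dvd hℓ).2 hN'
  rcases eq_or_ne ℓ p with h | h
  · subst h
    have h1 : (1 + ℓ).Coprime ℓ := by
      rw [Nat.coprime_add_self_left]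
      exact Nat.coprime_one_left _
    obtain ⟨u0, h3, h4⟩ := cls_crt N (ℓ ^ j) N' hN (hco.pow_left j) (1 + ℓ) 1 (h1.pow_right j)
      (Nat.coprime_one_left _)
    refine ⟨1 + ℓ, u0, by have := hℓ.two_le; omega, fun M => ?_⟩
    have hm : N * ℓ ^ M = ℓ ^ (j + M) * N' := by
      conv_lhs => rw [hN]
      rw [pow_add]
      ring
    obtain ⟨u, h5, h6⟩ := cls_crt (N * ℓ ^ M) (ℓ ^ (j + M)) N' hm (hco.pow_left _) (1 + ℓ) 1
      (h1.pow_right _) (Nat.coprime_one_left _)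
    refine ⟨u, ⟨0, j + M, N', hm, hco, ?_⟩, ?_, ?_⟩
    · rw [pow_zero]
      exact h6
    · exact cls_map N (ℓ ^ M) (ℓ ^ j) N' hN (hco.pow_left j) (1 + ℓ) 1 u u0
        (h5.of_dvd (pow_dvd_pow _ (Nat.le_add_right _ _))) h6 h3 h4
    · exact h5.of_dvd (pow_dvd_pow _ (Nat.le_add_left _ _))
  · have hlp : ℓ.Coprime p := (Nat.coprime_primes hℓ hp).2 h
    obtain ⟨u0, h3, h4⟩ := cls_crt N (ℓ ^ j) N' hN (hco.pow_left j) 1 ℓ
      (Nat.coprime_one_left _) hco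
    refine ⟨ℓ, u0, hℓ.two_le, fun M => ?_⟩
    have hm : N * p ^ M = ℓ ^ j * (N' * p ^ M) := by
      conv_lhs => rw [hN]
      ring
    have hco2 : ℓ.Coprime (N' * p ^ M) := hco.mul_right (hlp.pow_right M)
    obtain ⟨u, h5, h6⟩ := cls_crt (N * p ^ M) (ℓ ^ j) (N' * p ^ M) hm (hco2.pow_left j) 1 ℓ
      (Nat.coprime_one_left _) hco2
    refine ⟨u, ⟨1, j, N' * p ^ M, hm, hco2, ?_⟩, ?_, ?_⟩
    · rw [pow_one]
      exact h6
    · exact cls_map N (p ^ M) (ℓ ^ j) N' hN (hco.pow_left j) 1 ℓ u u0 h5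
        (h6.of_dvd (dvd_mul_right _ _)) h3 h4
    · exact h6.of_dvd (dvd_mul_left _ _)

private theorem cls_ne (N : ℕ) [NeZero N] {E : Type} [NormedField E] [CharZero E]
    (χ : (ZMod N)ˣ →* Eˣ) (u : (ZMod N)ˣ) (x r : ℕ) (hx : 2 ≤ x) (hr : 1 ≤ r) :
    (χ u : E) * (x : E) ^ r ≠ 1 := by
  intro h
  have h1 := congrArg (fun t : E => t ^ Fintype.card (ZMod N)ˣ) h
  have h2 : ((χ u : Eˣ) : E) ^ Fintype.card (ZMod N)ˣ = 1 := by
    rw [← Units.val_pow_eq_pow_val, ← map_pow, pow_card_eq_one, map_one, Units.val_one]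
  simp only [mul_pow, h2, one_mul, one_pow] at h1
  rw [← pow_mul, ← Nat.cast_pow, ← Nat.cast_one, Nat.cast_inj] at h1
  have h3 : 0 < r * Fintype.card (ZMod N)ˣ := Nat.mul_pos hr Fintype.card_pos
  have h4 := Nat.one_lt_pow h3.ne' (show 1 < x by omega)
  omega

private theorem cls_dvd {E : Type} [NormedField E] [IsUltrametricDist E] (p M : ℕ) (k : ℤ)
    (h : ((p ^ M : ℕ) : ℤ) ∣ k) : ‖(k : E)‖ ≤ ‖(p : E)‖ ^ M := by
  obtain ⟨t, rfl⟩ := h
  push_cast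
  rw [norm_mul, norm_pow]
  exact mul_le_of_le_one_right (by positivity) (IsUltrametricDist.norm_intCast_le_one E t)

theorem classical (N n p c : ℕ) [NeZero N] [Fact p.Prime] (hpN : p ∣ N) (hn : 2 ≤ n)
    (hc1 : 1 < c) (hcN : c.Coprime N) {E : Type} [NormedField E] [IsUltrametricDist E]
    [NormedAlgebra ℚ_[p] E] (χ : (ZMod N)ˣ →* Eˣ) (hχ : (χ (-1) : E) = (-1) ^ n)
    (S : Finset ℕ) (hS : ∀ ℓ ∈ S, ℓ.Prime) :
    ∃ u : (M : ℕ) → ℕ → (ZMod (N * p ^ M))ˣ, (∀ M, ∀ ℓ ∈ S, DecL ℓ (N * p ^ M) (u M ℓ)) ∧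
      ¬ Tendsto (fun M : ℕ =>
        (∏ ℓ ∈ S, ((χ (ZMod.unitsMap (dvd_mul_right N (p ^ M)) (u M ℓ)) : E) *
          (((u M ℓ : ZMod (N * p ^ M)).val : ℕ) : E) ^ n -
            (((u M ℓ : ZMod (N * p ^ M)).val : ℕ) : E))) *
        ∑ a : (ZMod (N * p ^ M))ˣ, ((fl c (N * p ^ M) a : ℕ) : E) *
          ((χ (ZMod.unitsMap (dvd_mul_right N (p ^ M)) a) : E) *
            (((a : ZMod (N * p ^ M)).val : ℕ) : E) ^ n *
            ((((a⁻¹ : (ZMod (N * p ^ M))ˣ) : ZMod (N * p ^ M)).val : ℕ) : E))) atTop (nhds 0) := by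
  classical
  have hcz : CharZero E := charZero_of_injective_algebraMap (algebraMap ℚ_[p] E).injective
  have hp1 : ‖(p : E)‖ < 1 := (Pool.Agent.Helper60.FM.norm_natCast_lt_one_iff (p := p) p).2 dvd_rfl
  have hp0 : Tendsto (fun M : ℕ => ‖(p : E)‖ ^ M) atTop (nhds 0) :=
    tendsto_pow_atTop_nhds_zero_of_lt_one (norm_nonneg _) hp1
  -- the choice of `u`
  have hch : ∀ ℓ : ℕ, ∃ (x : ℕ) (u0 : (ZMod N)ˣ) (u : ∀ M : ℕ, (ZMod (N * p ^ M))ˣ), ℓ.Prime →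
      (2 ≤ x ∧ ∀ M : ℕ, DecL ℓ (N * p ^ M) (u M) ∧
        ZMod.unitsMap (dvd_mul_right N (p ^ M)) (u M) = u0 ∧
          (u M : ZMod (N * p ^ M)).val ≡ x [MOD p ^ M]) := by
    intro ℓ
    by_cases hℓ : ℓ.Prime
    · obtain ⟨x, u0, hx, hu⟩ := cls_loc N p ℓ hpN hℓ
      choose u hu1 using hu
      exact ⟨x, u0, u, fun _ => ⟨hx, hu1⟩⟩
    · exact ⟨0, 1, fun _ => 1, fun h => absurd h hℓ⟩
  choose x u0 u hu using hch
  refine ⟨fun M ℓ => u ℓ M, fun M ℓ hℓS => ((hu ℓ (hS ℓ hℓS)).2 M).1, ?_⟩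
  intro hlim
  -- the factors
  have hfac : ∀ ℓ ∈ S, Tendsto (fun M : ℕ =>
      (χ (ZMod.unitsMap (dvd_mul_right N (p ^ M)) (u ℓ M)) : E) *
          (((u ℓ M : ZMod (N * p ^ M)).val : ℕ) : E) ^ n -
            (((u ℓ M : ZMod (N * p ^ M)).val : ℕ) : E)) atTop
      (nhds ((χ (u0 ℓ) : E) * (x ℓ : E) ^ n - (x ℓ : E))) := by
    intro ℓ hℓS
    obtain ⟨-, hM⟩ := hu ℓ (hS ℓ hℓS)
    have h1 : Tendsto (fun M : ℕ => (((u ℓ M : ZMod (N * p ^ M)).val : ℕ) : E)) atTop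
        (nhds (x ℓ : E)) := by
      rw [tendsto_iff_dist_tendsto_zero]
      refine squeeze_zero (fun _ => dist_nonneg) (fun M => ?_) hp0
      rw [dist_comm, dist_eq_norm]
      have h2 := Nat.modEq_iff_dvd.1 (hM M).2.2
      have h3 := cls_dvd (E := E) p M _ h2
      push_cast at h3
      exact h3
    have h4 : (fun M : ℕ =>
      (χ (ZMod.unitsMap (dvd_mul_right N (p ^ M)) (u ℓ M)) : E) *
          (((u ℓ M : ZMod (N * p ^ M)).val : ℕ) : E) ^ n -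
            (((u ℓ M : ZMod (N * p ^ M)).val : ℕ) : E)) = fun M : ℕ =>
      (χ (u0 ℓ) : E) * (((u ℓ M : ZMod (N * p ^ M)).val : ℕ) : E) ^ n -
            (((u ℓ M : ZMod (N * p ^ M)).val : ℕ) : E) := by
      funext M
      rw [(hM M).2.1]
    rw [h4]
    exact ((h1.pow n).const_mul _).sub h1
  have hprod := tendsto_finsetProd S hfac
  have hprod0 : ∏ ℓ ∈ S, ((χ (u0 ℓ) : E) * (x ℓ : E) ^ n - (x ℓ : E)) ≠ 0 := by
    refine Finset.prod_ne_zero_iff.2 fun ℓ hℓS => ?_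
    obtain ⟨hx, -⟩ := hu ℓ (hS ℓ hℓS)
    have h1 := cls_ne N χ (u0 ℓ) (x ℓ) (n - 1) hx (by omega)
    have h2 : (x ℓ : E) ≠ 0 := Nat.cast_ne_zero.2 (by omega)
    intro h3
    apply h1
    apply mul_right_cancel₀ h2
    rw [one_mul, mul_assoc, ← pow_succ, Nat.sub_add_cancel (by omega)]
    exact sub_eq_zero.1 h3
  -- the sum
  have hnum := num_lim N n p c hpN (by omega) hcN χ
  have hsum : Tendsto (fun M : ℕ => (n : E) * (c : E) ^ (n - 1) *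
      ∑ a : (ZMod (N * p ^ M))ˣ, ((fl c (N * p ^ M) a : ℕ) : E) *
          ((χ (ZMod.unitsMap (dvd_mul_right N (p ^ M)) a) : E) *
            (((a : ZMod (N * p ^ M)).val : ℕ) : E) ^ n *
            ((((a⁻¹ : (ZMod (N * p ^ M))ˣ) : ZMod (N * p ^ M)).val : ℕ) : E))) atTop
      (nhds (((c : E) ^ n - ((χ (ZMod.unitOfCoprime c hcN) : Eˣ) : E)⁻¹) * TT N n χ)) := by
    refine hnum.congr_dist ?_
    refine squeeze_zero (fun _ => dist_nonneg) (fun M => ?_) hp0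
    rw [dist_comm, dist_eq_norm, ← mul_sub, ← Finset.sum_sub_distrib, norm_mul]
    have hle : ‖(n : E) * (c : E) ^ (n - 1)‖ ≤ 1 := by
      rw [norm_mul, norm_pow]
      exact mul_le_one₀ (IsUltrametricDist.norm_natCast_le_one E n) (by positivity)
        (pow_le_one₀ (norm_nonneg _) (IsUltrametricDist.norm_natCast_le_one E c))
    refine (mul_le_mul_of_nonneg_right hle (norm_nonneg _)).trans ?_
    rw [one_mul]
    refine IsUltrametricDist.norm_sum_le_of_forall_le_of_nonneg (by positivity) fun a _ => ?_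
    have hχ1 : ‖(χ (ZMod.unitsMap (dvd_mul_right N (p ^ M)) a) : E)‖ = 1 := by
      have h1 : ((χ (ZMod.unitsMap (dvd_mul_right N (p ^ M)) a) : Eˣ) : E) ^
          Fintype.card (ZMod (N * p ^ M))ˣ = 1 := by
        rw [← Units.val_pow_eq_pow_val, ← map_pow, ← map_pow, pow_card_eq_one, map_one, map_one,
          Units.val_one]
      exact (isOfFinOrder_iff_pow_eq_one.2 ⟨_, Fintype.card_pos, h1⟩).norm_eq_one
    have hinv : ((p ^ M : ℕ) : ℤ) ∣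
        (((a : ZMod (N * p ^ M)).val : ℕ) : ℤ) *
          ((((a⁻¹ : (ZMod (N * p ^ M))ˣ) : ZMod (N * p ^ M)).val : ℕ) : ℤ) - 1 := by
      have h2 : (((a : ZMod (N * p ^ M)).val *
          ((a⁻¹ : (ZMod (N * p ^ M))ˣ) : ZMod (N * p ^ M)).val : ℕ) : ZMod (N * p ^ M)) =
          ((1 : ℕ) : ZMod (N * p ^ M)) := by
        rw [Nat.cast_mul, ZMod.natCast_zmod_val, ZMod.natCast_zmod_val, Units.mul_inv,
          Nat.cast_one]
      have h3 := ((ZMod.natCast_eq_natCast_iff _ _ _).1 h2).symm.of_dvd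
        (dvd_mul_left (p ^ M) N)
      have h4 := Nat.modEq_iff_dvd.1 h3
      push_cast at h4 ⊢
      exact h4
    have h5 := cls_dvd (E := E) p M _ hinv
    push_cast at h5
    generalize (fl c (N * p ^ M) a) = f
    generalize (χ (ZMod.unitsMap (dvd_mul_right N (p ^ M)) a) : E) = y at hχ1 ⊢
    generalize (a : ZMod (N * p ^ M)).val = v at h5 ⊢
    generalize ((a⁻¹ : (ZMod (N * p ^ M))ˣ) : ZMod (N * p ^ M)).val = w at h5 ⊢
    obtain ⟨k, rfl⟩ : ∃ k, n = k + 1 := ⟨n - 1, by omega⟩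
    have e : (f : E) * (y * (v : E) ^ (k + 1) * (w : E)) - (f : E) * y * (v : E) ^ (k + 1 - 1) =
        ((f : E) * y * (v : E) ^ k) * ((v : E) * (w : E) - 1) := by
      rw [Nat.add_sub_cancel]
      ring
    rw [e, norm_mul]
    refine (mul_le_mul_of_nonneg_right ?_ (norm_nonneg _)).trans ((one_mul _).trans_le h5)
    rw [norm_mul, norm_mul, hχ1, mul_one, norm_pow]
    exact mul_le_one₀ (IsUltrametricDist.norm_natCast_le_one E f) (by positivity)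
      (pow_le_one₀ (norm_nonneg _) (IsUltrametricDist.norm_natCast_le_one E v))
  have hc0 : ((c : E) ^ n - ((χ (ZMod.unitOfCoprime c hcN) : Eˣ) : E)⁻¹) ≠ 0 := by
    intro h1
    apply cls_ne N χ (ZMod.unitOfCoprime c hcN) c n (by omega) (by omega)
    rw [sub_eq_zero.1 h1]
    exact mul_inv_cancel₀ (Units.ne_zero _)
  have hT : (TT N n χ : E) ≠ 0 := tt_ne N n hn χ hχ
  have h1 := hprod.mul hsum
  have h2 := hlim.const_mul ((n : E) * (c : E) ^ (n - 1))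
  rw [mul_zero] at h2
  have h3 := tendsto_nhds_unique h1 (h2.congr fun M => by ring)
  exact mul_ne_zero hprod0 (mul_ne_zero hc0 hT) h3

end Pool.Agent.EDV
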