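import Pool.Agent.AAP.Dist
import Pool.Agent.AAP.Cyc

/-!
# EDV-NumB: the sums `∑ χ(a) a ^ n / m`, `m = N p ^ M`, tend to Bernoulli numbers

`p ∣ N`: the units modulo `m` are the residues `r + N j`, `r` a unit modulo `N`, `j < p ^ M`; the inner sums are
values of a polynomial at `p ^ M`, which tends to `0`.
-/

open NumberField Filter

namespace Pool.Agent.EDV

open Pool.Agent.AAP

private theorem numb_split {E : Type*} [AddCommMonoid E] (M K : ℕ) (g : ℕ → E) :
    ∑ r ∈ Finset.range (M * K), g r =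
      ∑ j ∈ Finset.range M, ∑ s ∈ Finset.range K, g (j * K + s) := by
  induction M with
  | zero => simp
  | succ M ih => rw [Nat.succ_mul, Finset.sum_range_add, ih, Finset.sum_range_succ]

private theorem numb_units {E : Type*} [AddCommMonoid E] (N : ℕ) [NeZero N] (g : ℕ → E) :
    ∑ r : (ZMod N)ˣ, g (r : ZMod N).val =
      ∑ r ∈ (Finset.range N).filter (fun r => r.Coprime N), g r := by
  refine Finset.sum_bij (fun r _ => (r : ZMod N).val) ?_ ?_ ?_ ?_
  · intro r _
    exact Finset.mem_filter.2 ⟨Finset.mem_range.2 (ZMod.val_lt _), ZMod.val_coe_unit_coprime r⟩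
  · intro r _ s _ h
    exact Units.ext (ZMod.val_injective N h)
  · intro r hr
    obtain ⟨h1, h2⟩ := Finset.mem_filter.1 hr
    refine ⟨ZMod.unitOfCoprime r h2, Finset.mem_univ _, ?_⟩
    rw [ZMod.coe_unitOfCoprime, ZMod.val_natCast_of_lt (Finset.mem_range.1 h1)]
  · intro r _
    rfl

/-- the polynomial in `P` which gives the power sums -/
private theorem numb_poly (n : ℕ) (x : ℚ) : ∃ q : Polynomial ℚ,
    (∀ P : ℕ, ((n : ℚ) + 1) * ∑ j ∈ Finset.range P, (x + j) ^ n = P * q.eval (P : ℚ)) ∧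
      q.eval 0 = ((n : ℚ) + 1) * (Polynomial.bernoulli n).eval x := by
  obtain ⟨R, hR⟩ : ∃ R : Polynomial ℚ, R = (Polynomial.bernoulli (n + 1)).comp
      (Polynomial.C x + Polynomial.X) - Polynomial.C ((Polynomial.bernoulli (n + 1)).eval x) := ⟨_, rfl⟩
  have hev : ∀ y : ℚ, R.eval y = (Polynomial.bernoulli (n + 1)).eval (x + y) -
      (Polynomial.bernoulli (n + 1)).eval x := by
    intro y
    rw [hR, Polynomial.eval_sub, Polynomial.eval_comp, Polynomial.eval_add, Polynomial.eval_C,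
      Polynomial.eval_X, Polynomial.eval_C]
  have h0 : R.coeff 0 = 0 := by
    rw [Polynomial.coeff_zero_eq_eval_zero, hev, add_zero, sub_self]
  obtain ⟨q, hq⟩ := Polynomial.X_dvd_iff.2 h0
  have hd : Polynomial.derivative R = (((n : Polynomial ℚ) + 1) * Polynomial.bernoulli n).comp
      (Polynomial.C x + Polynomial.X) := by
    rw [hR, Polynomial.derivative_sub, Polynomial.derivative_C, sub_zero,
      Polynomial.derivative_comp, Polynomial.derivative_bernoulli_add_one, Polynomial.derivative_add,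
      Polynomial.derivative_C, Polynomial.derivative_X, zero_add, one_mul]
  refine ⟨q, fun P => ?_, ?_⟩
  · have h1 : R.eval (P : ℚ) = P * q.eval (P : ℚ) := by
      rw [hq, Polynomial.eval_mul, Polynomial.eval_X]
    rw [← h1, hev]
    clear h1
    induction P with
    | zero => simp
    | succ P ih =>
      rw [Finset.sum_range_succ, mul_add, ih]
      have h2 : x + ((P + 1 : ℕ) : ℚ) = 1 + (x + P) := by
        push_cast
        ring
      rw [h2, Polynomial.bernoulli_eval_one_add]
      push_cast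
      ring
  · have h1 := congrArg (Polynomial.eval 0) hd
    rw [hq, Polynomial.derivative_mul, Polynomial.derivative_X, one_mul, Polynomial.eval_add,
      Polynomial.eval_mul, Polynomial.eval_X, zero_mul, add_zero, Polynomial.eval_comp,
      Polynomial.eval_mul, Polynomial.eval_add, Polynomial.eval_natCast, Polynomial.eval_one,
      Polynomial.eval_add, Polynomial.eval_C, Polynomial.eval_X, add_zero] at h1
    exact h1

/-- the power sum over one residue class -/
private theorem numb_one (N n s : ℕ) (hN : 0 < N) (hn : 1 ≤ n) : ∃ q : Polynomial ℚ,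
    (∀ P : ℕ, 0 < P → (∑ j ∈ Finset.range P, (((j * N + s : ℕ) : ℚ)) ^ n) / ((N * P : ℕ) : ℚ) =
      q.eval (P : ℚ)) ∧ q.eval 0 = bb N n s := by
  obtain ⟨q, h1, h2⟩ := numb_poly n ((s : ℚ) / N)
  have hN0 : (N : ℚ) ≠ 0 := by exact_mod_cast hN.ne'
  have hn0 : (n : ℚ) + 1 ≠ 0 := by positivity
  refine ⟨Polynomial.C ((N : ℚ) ^ (n - 1) / ((n : ℚ) + 1)) * q, fun P hP => ?_, ?_⟩
  · have hP0 : (P : ℚ) ≠ 0 := by exact_mod_cast hP.ne'
    have h3 : ∑ j ∈ Finset.range P, (((j * N + s : ℕ) : ℚ)) ^ n =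
        (N : ℚ) ^ n * ∑ j ∈ Finset.range P, ((s : ℚ) / N + j) ^ n := by
      rw [Finset.mul_sum]
      refine Finset.sum_congr rfl fun j _ => ?_
      rw [← mul_pow]
      refine congrArg (fun y => y ^ n) ?_
      push_cast
      field_simp
      ring
    have h4 : ∑ j ∈ Finset.range P, ((s : ℚ) / N + j) ^ n = P * q.eval (P : ℚ) / ((n : ℚ) + 1) := by
      rw [← h1 P]
      field_simp
    have h5 : (N : ℚ) ^ n = (N : ℚ) ^ (n - 1) * N := by
      obtain ⟨n', rfl⟩ : ∃ n', n = n' + 1 := ⟨n - 1, by omega⟩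
      rw [Nat.add_sub_cancel, pow_succ]
    rw [h3, h4, h5, Polynomial.eval_mul, Polynomial.eval_C]
    push_cast
    field_simp
  · rw [Polynomial.eval_mul, Polynomial.eval_C, h2]
    unfold bb
    field_simp

theorem num_b (N n p : ℕ) [NeZero N] [Fact p.Prime] (hpN : p ∣ N) (hn : 1 ≤ n)
    {E : Type} [NormedField E] [IsUltrametricDist E] [NormedAlgebra ℚ_[p] E]
    (χ : (ZMod N)ˣ →* Eˣ) :
    Tendsto (fun M : ℕ => (∑ a : (ZMod (N * p ^ M))ˣ,
        (χ (ZMod.unitsMap (dvd_mul_right N (p ^ M)) a) : E) *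
          (((a : ZMod (N * p ^ M)).val : ℕ) : E) ^ n) / ((N * p ^ M : ℕ) : E))
      atTop (nhds (TT N n χ)) := by
  have : CharZero E := charZero_of_injective_algebraMap (algebraMap ℚ_[p] E).injective
  have hN0 : 0 < N := Nat.pos_of_ne_zero (NeZero.ne N)
  have hpp : 0 < p := (Fact.out : p.Prime).pos
  obtain ⟨f, hf⟩ : ∃ f : ℕ → E, f = fun r =>
    if h : r.Coprime N then ((χ (ZMod.unitOfCoprime r h) : Eˣ) : E) else 0 := ⟨_, rfl⟩
  have hf1 : ∀ j s : ℕ, f (j * N + s) = f s := by
    intro j s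
    have h0 : (j * N + s).Coprime N ↔ s.Coprime N := by
      rw [add_comm, Nat.coprime_add_mul_right_left]
    by_cases h : s.Coprime N
    · simp only [hf, dif_pos h, dif_pos (h0.2 h)]
      refine congrArg (fun u => ((χ u : Eˣ) : E)) (Units.ext ?_)
      rw [ZMod.coe_unitOfCoprime, ZMod.coe_unitOfCoprime]
      push_cast
      rw [ZMod.natCast_self, mul_zero, zero_add]
    · simp only [hf, dif_neg h, dif_neg (fun h1 => h (h0.1 h1))]
  have hT : TT N n χ = ∑ s ∈ Finset.range N, f s * ((bb N n s : ℚ) : E) := by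
    have h1 : TT N n χ =
        ∑ r : (ZMod N)ˣ, (fun s : ℕ => f s * ((bb N n s : ℚ) : E)) (r : ZMod N).val := by
      unfold TT
      refine Finset.sum_congr rfl fun r _ => ?_
      have h2 : f (r : ZMod N).val = (χ r : E) := by
        simp only [hf, dif_pos (ZMod.val_coe_unit_coprime r)]
        refine congrArg (fun u => ((χ u : Eˣ) : E)) (Units.ext ?_)
        rw [ZMod.coe_unitOfCoprime, ZMod.natCast_zmod_val]
      show _ = f (r : ZMod N).val * _
      rw [h2]
    rw [h1, numb_units N (fun s : ℕ => f s * ((bb N n s : ℚ) : E)), Finset.sum_filter]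
    refine Finset.sum_congr rfl fun s _ => ?_
    by_cases h : s.Coprime N
    · rw [if_pos h]
    · rw [if_neg h]
      simp only [hf, dif_neg h, zero_mul]
  choose q hq1 hq2 using fun s : ℕ => numb_one N n s hN0 hn
  -- the sum for a given `M`
  have hS : ∀ M : ℕ, (∑ a : (ZMod (N * p ^ M))ˣ,
        (χ (ZMod.unitsMap (dvd_mul_right N (p ^ M)) a) : E) *
          (((a : ZMod (N * p ^ M)).val : ℕ) : E) ^ n) / ((N * p ^ M : ℕ) : E) =
      ∑ s ∈ Finset.range N, f s * (((q s).eval ((p ^ M : ℕ) : ℚ) : ℚ) : E) := by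
    intro M
    have hP : 0 < p ^ M := pow_pos hpp M
    have h1 : (∑ a : (ZMod (N * p ^ M))ˣ,
        (χ (ZMod.unitsMap (dvd_mul_right N (p ^ M)) a) : E) *
          (((a : ZMod (N * p ^ M)).val : ℕ) : E) ^ n) =
        ∑ a : (ZMod (N * p ^ M))ˣ, (fun r : ℕ => f r * (r : E) ^ n) (a : ZMod (N * p ^ M)).val := by
      refine Finset.sum_congr rfl fun r _ => ?_
      have h0 : (r : ZMod (N * p ^ M)).val.Coprime N :=
        (ZMod.val_coe_unit_coprime r).coprime_dvd_right (dvd_mul_right N (p ^ M))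
      have h2 : f (r : ZMod (N * p ^ M)).val =
          ((χ (ZMod.unitsMap (dvd_mul_right N (p ^ M)) r) : Eˣ) : E) := by
        simp only [hf, dif_pos h0]
        refine congrArg (fun u => ((χ u : Eˣ) : E)) (Units.ext ?_)
        rw [ZMod.coe_unitOfCoprime, ZMod.unitsMap_val, ZMod.natCast_val]
      show _ = f (r : ZMod (N * p ^ M)).val * _
      rw [h2]
    have h2 : ∑ a : (ZMod (N * p ^ M))ˣ, (fun r : ℕ => f r * (r : E) ^ n)
        (a : ZMod (N * p ^ M)).val = ∑ r ∈ Finset.range (p ^ M * N), f r * (r : E) ^ n := by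
      rw [numb_units (N * p ^ M) (fun r : ℕ => f r * (r : E) ^ n), Finset.sum_filter,
        mul_comm N (p ^ M)]
      refine Finset.sum_congr rfl fun s _ => ?_
      by_cases h : s.Coprime N
      · have h3 : s.Coprime (p ^ M * N) :=
          Nat.Coprime.mul_right ((h.coprime_dvd_right hpN).pow_right M) h
        rw [if_pos h3]
      · rw [if_neg (fun h3 : s.Coprime (p ^ M * N) => h (h3.coprime_dvd_right (dvd_mul_left N (p ^ M))))]
        simp only [hf, dif_neg h, zero_mul]
    rw [h1, h2, numb_split, Finset.sum_comm, Finset.sum_div]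
    refine Finset.sum_congr rfl fun s _ => ?_
    rw [← hq1 s (p ^ M) hP]
    have h3 : ∀ j ∈ Finset.range (p ^ M), f (j * N + s) * ((j * N + s : ℕ) : E) ^ n =
        f s * ((j * N + s : ℕ) : E) ^ n := fun j _ => by rw [hf1]
    rw [Finset.sum_congr rfl h3, ← Finset.mul_sum, mul_div_assoc]
    refine congrArg (fun y => f s * y) ?_
    rw [Rat.cast_div, Rat.cast_sum, Rat.cast_natCast]
    refine congrArg (fun y => y / ((N * p ^ M : ℕ) : E)) (Finset.sum_congr rfl fun j _ => ?_)
    rw [Rat.cast_pow, Rat.cast_natCast]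
  rw [hT]
  have hfun : (fun M : ℕ => (∑ a : (ZMod (N * p ^ M))ˣ,
        (χ (ZMod.unitsMap (dvd_mul_right N (p ^ M)) a) : E) *
          (((a : ZMod (N * p ^ M)).val : ℕ) : E) ^ n) / ((N * p ^ M : ℕ) : E)) =
      fun M : ℕ => ∑ s ∈ Finset.range N, f s * (((q s).eval ((p ^ M : ℕ) : ℚ) : ℚ) : E) := funext hS
  rw [hfun]
  refine tendsto_finsetSum _ fun s _ => Tendsto.const_mul _ ?_
  have hlim : Tendsto (fun M : ℕ => ((p ^ M : ℕ) : E)) atTop (nhds 0) := by
    have h1 : ‖(p : E)‖ < 1 := by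
      have h2 : (p : E) = algebraMap ℚ_[p] E (p : ℚ_[p]) := (map_natCast _ p).symm
      rw [h2, norm_algebraMap']
      exact Padic.norm_p_lt_one
    have h3 := tendsto_pow_atTop_nhds_zero_of_norm_lt_one h1
    refine h3.congr fun M => ?_
    push_cast
    rfl
  have hcont : Continuous fun y : E => (q s).eval₂ (Rat.castHom E) y := (q s).continuous_eval₂ _
  have h1 := (hcont.tendsto 0).comp hlim
  have h2 : (q s).eval₂ (Rat.castHom E) 0 = ((bb N n s : ℚ) : E) := by
    rw [← hq2 s]
    have h3 := Polynomial.eval₂_at_apply (p := q s) (Rat.castHom E) 0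
    rw [map_zero] at h3
    rw [h3]
    rfl
  rw [h2] at h1
  refine h1.congr fun M => ?_
  have h3 := Polynomial.eval₂_at_apply (p := q s) (Rat.castHom E) ((p ^ M : ℕ) : ℚ)
  rw [map_natCast] at h3
  exact h3

end Pool.Agent.EDV
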