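import Pool.Agent.EDV.NumA
import Pool.Agent.EDV.NumB

/-!
# EDV: the sums `∑ ⌊c a / m⌋ χ(a) a ^ (n - 1)`, `m = N p ^ M`, tend to Bernoulli numbers
-/

open NumberField Filter

namespace Pool.Agent.EDV

open Pool.Agent.AAP Pool.Agent.Helper60.FM

theorem num_lim (N n p c : ℕ) [NeZero N] [Fact p.Prime] (hpN : p ∣ N) (hn : 1 ≤ n)
    (hcN : c.Coprime N) {E : Type} [NormedField E] [IsUltrametricDist E] [NormedAlgebra ℚ_[p] E]
    (χ : (ZMod N)ˣ →* Eˣ) :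
    Tendsto (fun M : ℕ => (n : E) * (c : E) ^ (n - 1) * ∑ a : (ZMod (N * p ^ M))ˣ,
        ((fl c (N * p ^ M) a : ℕ) : E) * χ (ZMod.unitsMap (dvd_mul_right N (p ^ M)) a) *
          (((a : ZMod (N * p ^ M)).val : ℕ) : E) ^ (n - 1))
      atTop (nhds (((c : E) ^ n - ((χ (ZMod.unitOfCoprime c hcN) : Eˣ) : E)⁻¹) * TT N n χ)) := by
  have : CharZero E := charZero_of_injective_algebraMap (algebraMap ℚ_[p] E).injective
  have hpp : p.Prime := Fact.out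
  have hp1 : ‖(p : E)‖ < 1 := (norm_natCast_lt_one_iff (p := p) p).2 dvd_rfl
  have hb := (num_b N n p hpN hn χ).const_mul
    ((c : E) ^ n - ((χ (ZMod.unitOfCoprime c hcN) : Eˣ) : E)⁻¹)
  have hm : Tendsto (fun M : ℕ => ‖((N * p ^ M : ℕ) : E)‖) atTop (nhds 0) := by
    have h1 : (fun M : ℕ => ‖((N * p ^ M : ℕ) : E)‖) = fun M : ℕ => ‖(N : E)‖ * ‖(p : E)‖ ^ M := by
      funext M
      rw [Nat.cast_mul, Nat.cast_pow, norm_mul, norm_pow]
    rw [h1, ← mul_zero ‖(N : E)‖]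
    exact (tendsto_pow_atTop_nhds_zero_of_lt_one (norm_nonneg _) hp1).const_mul _
  refine hb.congr_dist ?_
  refine squeeze_zero (fun _ => dist_nonneg) (fun M => ?_) hm
  have hm0 : ((N * p ^ M : ℕ) : E) ≠ 0 :=
    Nat.cast_ne_zero.2 (mul_ne_zero (NeZero.ne N) (pow_ne_zero _ hpp.ne_zero))
  have hmn : 0 < ‖((N * p ^ M : ℕ) : E)‖ := norm_pos_iff.2 hm0
  have ha := num_a N n p c M hpN hn hcN χ
  set m : E := ((N * p ^ M : ℕ) : E) with hmdef
  set U : E := ∑ a : (ZMod (N * p ^ M))ˣ,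
        ((fl c (N * p ^ M) a : ℕ) : E) * χ (ZMod.unitsMap (dvd_mul_right N (p ^ M)) a) *
          (((a : ZMod (N * p ^ M)).val : ℕ) : E) ^ (n - 1) with hU
  set W : E := ∑ a : (ZMod (N * p ^ M))ˣ,
        (χ (ZMod.unitsMap (dvd_mul_right N (p ^ M)) a) : E) *
          (((a : ZMod (N * p ^ M)).val : ℕ) : E) ^ n with hW
  set C : E := (c : E) ^ n - ((χ (ZMod.unitOfCoprime c hcN) : Eˣ) : E)⁻¹ with hC
  rw [dist_comm, dist_eq_norm]
  have e1 : m * ((n : E) * (c : E) ^ (n - 1) * U - C * (W / m)) =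
      (n : E) * (c : E) ^ (n - 1) * m * U - C * W := by
    field_simp
  have h2 : ‖m‖ * ‖(n : E) * (c : E) ^ (n - 1) * U - C * (W / m)‖ ≤ ‖m‖ * ‖m‖ := by
    rw [← norm_mul, e1, ← sq]
    exact ha
  exact le_of_mul_le_mul_left h2 hmn

end Pool.Agent.EDV
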