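import Pool.Agent.EDV.NvP
import Pool.Agent.EDV.Num
import Pool.Agent.EDV.Defs
import Pool.Agent.AAP.RedC

/-!
# EDV-ClsO: the limit is not zero at `χ ε`

The case `n = 1` of `classical` (`EDV/Cls.lean`, copy what is needed; its lemmas are private). For `ℓ ∈ S` let `v ∈ (ℤ/N)ˣ` be given by the
hypothesis, `DecL ℓ N v`, `χ v ≠ 1`. Choice of `u M ℓ` over `v`: `N = ℓ ^ j N'`, `ℓ ∤ N'`, `v ≡ ℓ ^ i` modulo `N'`.
`ℓ ≠ p`: `u M ℓ ≡ ℓ ^ i` modulo `N' p ^ M` and `≡ v` modulo `ℓ ^ j`, `x = ℓ ^ i`. `ℓ = p`: `u M p` is the class of the number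
`x = v.val` (it is prime to `N`, so to `N p ^ M` as `p ∣ N`); `DecL` holds with `N p ^ M = p ^ (j + M) N'` and exponent `i`.
So `u M ℓ` is `≡ x` modulo `p ^ M`, its class modulo `N` is `v`, and the factor tends to `χ(v) x - x = x (χ(v) - 1) ≠ 0` (`x ≠ 0`). The sum is
treated as in `classical`, with `tt_ne_one` for `tt_ne`.
-/

open NumberField Filter

namespace Pool.Agent.EDV

open Pool.Agent.AAP

private theorem clsO_crt (m m1 m2 : ℕ) [NeZero m] (hm : m = m1 * m2) (co : m1.Coprime m2)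
    (a1 a2 : ℕ) (h1 : a1.Coprime m1) (h2 : a2.Coprime m2) :
    ∃ u : (ZMod m)ˣ, (u : ZMod m).val ≡ a1 [MOD m1] ∧ (u : ZMod m).val ≡ a2 [MOD m2] := by
  subst hm
  obtain ⟨u, hu1, hu2⟩ := exists_unit m1 m2 co a1 a2 h1 h2
  exact ⟨u, (ZMod.natCast_eq_natCast_iff _ _ _).1 hu1, (ZMod.natCast_eq_natCast_iff _ _ _).1 hu2⟩

private theorem clsO_map (N q m1 m2 : ℕ) [NeZero N] [NeZero (N * q)] (hN : N = m1 * m2)
    (co : m1.Coprime m2) (a1 a2 : ℕ) (u : (ZMod (N * q))ˣ) (u0 : (ZMod N)ˣ)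
    (h1 : (u : ZMod (N * q)).val ≡ a1 [MOD m1]) (h2 : (u : ZMod (N * q)).val ≡ a2 [MOD m2])
    (h3 : (u0 : ZMod N).val ≡ a1 [MOD m1]) (h4 : (u0 : ZMod N).val ≡ a2 [MOD m2]) :
    ZMod.unitsMap (dvd_mul_right N q) u = u0 := by
  apply Units.ext
  rw [ZMod.unitsMap_val, ← ZMod.natCast_val, ← ZMod.natCast_zmod_val (u0 : ZMod N),
    ZMod.natCast_eq_natCast_iff]
  have h5 := (Nat.modEq_and_modEq_iff_modEq_mul co).1 ⟨h1.trans h3.symm, h2.trans h4.symm⟩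
  rw [← hN] at h5
  exact h5

private theorem clsO_loc (N p ℓ : ℕ) [NeZero N] [Fact p.Prime] (hpN : p ∣ N) (hℓ : ℓ.Prime)
    (v : (ZMod N)ˣ) (hv : DecL ℓ N v) :
    ∃ x : ℕ, x ≠ 0 ∧ ∀ M : ℕ, ∃ u : (ZMod (N * p ^ M))ˣ,
      DecL ℓ (N * p ^ M) u ∧ ZMod.unitsMap (dvd_mul_right N (p ^ M)) u = v ∧
        (u : ZMod (N * p ^ M)).val ≡ x [MOD p ^ M] := by
  have hp : p.Prime := Fact.out
  obtain ⟨i, j, N', hN, hco, hi⟩ := hv
  have hvc : (v : ZMod N).val.Coprime N := ZMod.val_coe_unit_coprime v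
  rcases eq_or_ne ℓ p with h | h
  · subst h
    have hx0 : (v : ZMod N).val ≠ 0 := by
      intro h0
      rw [h0, Nat.coprime_zero_left] at hvc
      rw [hvc] at hpN
      exact hℓ.one_lt.ne' (Nat.dvd_one.1 hpN)
    refine ⟨(v : ZMod N).val, hx0, fun M => ?_⟩
    have hm : N * ℓ ^ M = ℓ ^ (j + M) * N' := by
      conv_lhs => rw [hN]
      rw [pow_add]
      ring
    have hcM : (v : ZMod N).val.Coprime (N * ℓ ^ M) :=
      hvc.mul_right ((hvc.coprime_dvd_right hpN).pow_right M)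
    have hval : ((ZMod.unitOfCoprime _ hcM : (ZMod (N * ℓ ^ M))ˣ) : ZMod (N * ℓ ^ M)).val ≡
        (v : ZMod N).val [MOD N * ℓ ^ M] := by
      rw [ZMod.coe_unitOfCoprime, ZMod.val_natCast]
      exact Nat.mod_modEq _ _
    refine ⟨ZMod.unitOfCoprime _ hcM, ⟨i, j + M, N', hm, hco, ?_⟩, ?_, ?_⟩
    · exact (hval.of_dvd ⟨ℓ ^ (j + M), by rw [hm, mul_comm]⟩).trans hi
    · apply Units.ext
      rw [ZMod.unitsMap_val, ← ZMod.natCast_val]
      have h5 := (ZMod.natCast_eq_natCast_iff _ _ _).2 (hval.of_dvd (dvd_mul_right N (ℓ ^ M)))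
      rw [h5, ZMod.natCast_zmod_val]
    · exact hval.of_dvd (dvd_mul_left _ _)
  · have hlp : ℓ.Coprime p := (Nat.coprime_primes hℓ hp).2 h
    refine ⟨ℓ ^ i, pow_ne_zero _ hℓ.ne_zero, fun M => ?_⟩
    have hm : N * p ^ M = ℓ ^ j * (N' * p ^ M) := by
      conv_lhs => rw [hN]
      ring
    have hco2 : ℓ.Coprime (N' * p ^ M) := hco.mul_right (hlp.pow_right M)
    obtain ⟨u, h5, h6⟩ := clsO_crt (N * p ^ M) (ℓ ^ j) (N' * p ^ M) hm (hco2.pow_left j)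
      (v : ZMod N).val (ℓ ^ i) (hvc.coprime_dvd_right ⟨N', hN⟩) (hco2.pow_left i)
    refine ⟨u, ⟨i, j, N' * p ^ M, hm, hco2, h6⟩, ?_, ?_⟩
    · exact clsO_map N (p ^ M) (ℓ ^ j) N' hN (hco.pow_left j) (v : ZMod N).val (ℓ ^ i) u v h5
        (h6.of_dvd (dvd_mul_right _ _)) (Nat.ModEq.refl _) hi
    · exact h6.of_dvd (dvd_mul_left _ _)

private theorem clsO_ne (N : ℕ) [NeZero N] {E : Type} [NormedField E] [CharZero E]
    (χ : (ZMod N)ˣ →* Eˣ) (u : (ZMod N)ˣ) (x r : ℕ) (hx : 2 ≤ x) (hr : 1 ≤ r) :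
    (χ u : E) * (x : E) ^ r ≠ 1 := by
  intro h
  have h1 := congrArg (fun t : E => t ^ Fintype.card (ZMod N)ˣ) h
  have h2 : ((χ u : Eˣ) : E) ^ Fintype.card (ZMod N)ˣ = 1 := by
    rw [← Units.val_pow_eq_pow_val, ← map_pow, pow_card_eq_one, map_one, Units.val_one]
  simp only [mul_pow, h2, one_mul, one_pow] at h1
  rw [← pow_mul, ← Nat.cast_pow, ← Nat.cast_one, Nat.cast_inj] at h1
  have h3 : 0 < r * Fintype.card (ZMod N)ˣ := Nat.mul_pos hr Fintype.card_pos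
  have h4 := Nat.one_lt_pow h3.ne' (show 1 < x by omega)
  omega

private theorem clsO_dvd {E : Type} [NormedField E] [IsUltrametricDist E] (p M : ℕ) (k : ℤ)
    (h : ((p ^ M : ℕ) : ℤ) ∣ k) : ‖(k : E)‖ ≤ ‖(p : E)‖ ^ M := by
  obtain ⟨t, rfl⟩ := h
  push_cast
  rw [norm_mul, norm_pow]
  exact mul_le_of_le_one_right (by positivity) (IsUltrametricDist.norm_intCast_le_one E t)

private theorem clsO_sum (N n p c : ℕ) [NeZero N] [Fact p.Prime] (hpN : p ∣ N) (hn : 1 ≤ n)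
    (hcN : c.Coprime N) {E : Type} [NormedField E] [IsUltrametricDist E]
    [NormedAlgebra ℚ_[p] E] (χ : (ZMod N)ˣ →* Eˣ) :
    Tendsto (fun M : ℕ => (n : E) * (c : E) ^ (n - 1) *
      ∑ a : (ZMod (N * p ^ M))ˣ, ((fl c (N * p ^ M) a : ℕ) : E) *
          ((χ (ZMod.unitsMap (dvd_mul_right N (p ^ M)) a) : E) *
            (((a : ZMod (N * p ^ M)).val : ℕ) : E) ^ n *
            ((((a⁻¹ : (ZMod (N * p ^ M))ˣ) : ZMod (N * p ^ M)).val : ℕ) : E))) atTop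
      (nhds (((c : E) ^ n - ((χ (ZMod.unitOfCoprime c hcN) : Eˣ) : E)⁻¹) * TT N n χ)) := by
  classical
  have hp1 : ‖(p : E)‖ < 1 := (Pool.Agent.Helper60.FM.norm_natCast_lt_one_iff (p := p) p).2 dvd_rfl
  have hp0 : Tendsto (fun M : ℕ => ‖(p : E)‖ ^ M) atTop (nhds 0) :=
    tendsto_pow_atTop_nhds_zero_of_lt_one (norm_nonneg _) hp1
  have hnum := num_lim N n p c hpN hn hcN χ
  refine hnum.congr_dist ?_
  refine squeeze_zero (fun _ => dist_nonneg) (fun M => ?_) hp0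
  rw [dist_comm, dist_eq_norm, ← mul_sub, ← Finset.sum_sub_distrib, norm_mul]
  have hle : ‖(n : E) * (c : E) ^ (n - 1)‖ ≤ 1 := by
    rw [norm_mul, norm_pow]
    exact mul_le_one₀ (IsUltrametricDist.norm_natCast_le_one E n) (by positivity)
      (pow_le_one₀ (norm_nonneg _) (IsUltrametricDist.norm_natCast_le_one E c))
  refine (mul_le_mul_of_nonneg_right hle (norm_nonneg _)).trans ?_
  rw [one_mul]
  refine IsUltrametricDist.norm_sum_le_of_forall_le_of_nonneg (by positivity) fun a _ => ?_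
  have hχ1 : ‖(χ (ZMod.unitsMap (dvd_mul_right N (p ^ M)) a) : E)‖ = 1 := by
    have h1 : ((χ (ZMod.unitsMap (dvd_mul_right N (p ^ M)) a) : Eˣ) : E) ^
        Fintype.card (ZMod (N * p ^ M))ˣ = 1 := by
      rw [← Units.val_pow_eq_pow_val, ← map_pow, ← map_pow, pow_card_eq_one, map_one, map_one,
        Units.val_one]
    exact (isOfFinOrder_iff_pow_eq_one.2 ⟨_, Fintype.card_pos, h1⟩).norm_eq_one
  have hinv : ((p ^ M : ℕ) : ℤ) ∣
      (((a : ZMod (N * p ^ M)).val : ℕ) : ℤ) *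
        ((((a⁻¹ : (ZMod (N * p ^ M))ˣ) : ZMod (N * p ^ M)).val : ℕ) : ℤ) - 1 := by
    have h2 : (((a : ZMod (N * p ^ M)).val *
        ((a⁻¹ : (ZMod (N * p ^ M))ˣ) : ZMod (N * p ^ M)).val : ℕ) : ZMod (N * p ^ M)) =
        ((1 : ℕ) : ZMod (N * p ^ M)) := by
      rw [Nat.cast_mul, ZMod.natCast_zmod_val, ZMod.natCast_zmod_val, Units.mul_inv,
        Nat.cast_one]
    have h3 := ((ZMod.natCast_eq_natCast_iff _ _ _).1 h2).symm.of_dvd
      (dvd_mul_left (p ^ M) N)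
    have h4 := Nat.modEq_iff_dvd.1 h3
    push_cast at h4 ⊢
    exact h4
  have h5 := clsO_dvd (E := E) p M _ hinv
  push_cast at h5
  generalize (fl c (N * p ^ M) a) = f
  generalize (χ (ZMod.unitsMap (dvd_mul_right N (p ^ M)) a) : E) = y at hχ1 ⊢
  generalize (a : ZMod (N * p ^ M)).val = v at h5 ⊢
  generalize ((a⁻¹ : (ZMod (N * p ^ M))ˣ) : ZMod (N * p ^ M)).val = w at h5 ⊢
  obtain ⟨k, rfl⟩ : ∃ k, n = k + 1 := ⟨n - 1, by omega⟩
  have e : (f : E) * (y * (v : E) ^ (k + 1) * (w : E)) - (f : E) * y * (v : E) ^ (k + 1 - 1) =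
      ((f : E) * y * (v : E) ^ k) * ((v : E) * (w : E) - 1) := by
    rw [Nat.add_sub_cancel]
    ring
  rw [e, norm_mul]
  refine (mul_le_mul_of_nonneg_right ?_ (norm_nonneg _)).trans ((one_mul _).trans_le h5)
  rw [norm_mul, norm_mul, hχ1, mul_one, norm_pow]
  exact mul_le_one₀ (IsUltrametricDist.norm_natCast_le_one E f) (by positivity)
    (pow_le_one₀ (norm_nonneg _) (IsUltrametricDist.norm_natCast_le_one E v))

theorem classical_one (N p c : ℕ) [NeZero N] [Fact p.Prime] (hpN : p ∣ N)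
    (hc1 : 1 < c) (hcN : c.Coprime N) {E : Type} [NormedField E] [IsUltrametricDist E]
    [NormedAlgebra ℚ_[p] E] (χ : (ZMod N)ˣ →* Eˣ) (hχ : (χ (-1) : E) = -1)
    (S : Finset ℕ) (hS : ∀ ℓ ∈ S, ℓ.Prime)
    (hN : ∀ ℓ : ℕ, ℓ.Prime → ℓ ∣ N → ∃ u : (ZMod N)ˣ, DecL ℓ N u ∧ χ u ≠ 1)
    (hD : ∀ ℓ ∈ S, ∃ u : (ZMod N)ˣ, DecL ℓ N u ∧ χ u ≠ 1) :
    ∃ u : (M : ℕ) → ℕ → (ZMod (N * p ^ M))ˣ, (∀ M, ∀ ℓ ∈ S, DecL ℓ (N * p ^ M) (u M ℓ)) ∧
      ¬ Tendsto (fun M : ℕ =>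
        (∏ ℓ ∈ S, ((χ (ZMod.unitsMap (dvd_mul_right N (p ^ M)) (u M ℓ)) : E) *
          (((u M ℓ : ZMod (N * p ^ M)).val : ℕ) : E) ^ 1 -
            (((u M ℓ : ZMod (N * p ^ M)).val : ℕ) : E))) *
        ∑ a : (ZMod (N * p ^ M))ˣ, ((fl c (N * p ^ M) a : ℕ) : E) *
          ((χ (ZMod.unitsMap (dvd_mul_right N (p ^ M)) a) : E) *
            (((a : ZMod (N * p ^ M)).val : ℕ) : E) ^ 1 *
            ((((a⁻¹ : (ZMod (N * p ^ M))ˣ) : ZMod (N * p ^ M)).val : ℕ) : E))) atTop (nhds 0) := by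
  classical
  have hcz : CharZero E := charZero_of_injective_algebraMap (algebraMap ℚ_[p] E).injective
  have hp1 : ‖(p : E)‖ < 1 := (Pool.Agent.Helper60.FM.norm_natCast_lt_one_iff (p := p) p).2 dvd_rfl
  have hp0 : Tendsto (fun M : ℕ => ‖(p : E)‖ ^ M) atTop (nhds 0) :=
    tendsto_pow_atTop_nhds_zero_of_lt_one (norm_nonneg _) hp1
  -- the choice of `u`
  have hch : ∀ ℓ : ℕ, ∃ (x : ℕ) (v : (ZMod N)ˣ) (u : ∀ M : ℕ, (ZMod (N * p ^ M))ˣ), ℓ ∈ S →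
      (x ≠ 0 ∧ χ v ≠ 1 ∧ ∀ M : ℕ, DecL ℓ (N * p ^ M) (u M) ∧
        ZMod.unitsMap (dvd_mul_right N (p ^ M)) (u M) = v ∧
          (u M : ZMod (N * p ^ M)).val ≡ x [MOD p ^ M]) := by
    intro ℓ
    by_cases hℓ : ℓ ∈ S
    · obtain ⟨v, hv, hv1⟩ := hD ℓ hℓ
      obtain ⟨x, hx, hu⟩ := clsO_loc N p ℓ hpN (hS ℓ hℓ) v hv
      choose u hu1 using hu
      exact ⟨x, v, u, fun _ => ⟨hx, hv1, hu1⟩⟩
    · exact ⟨0, 1, fun _ => 1, fun h => absurd h hℓ⟩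
  choose x u0 u hu using hch
  refine ⟨fun M ℓ => u ℓ M, fun M ℓ hℓS => ((hu ℓ hℓS).2.2 M).1, ?_⟩
  intro hlim
  -- the factors
  have hfac : ∀ ℓ ∈ S, Tendsto (fun M : ℕ =>
      (χ (ZMod.unitsMap (dvd_mul_right N (p ^ M)) (u ℓ M)) : E) *
          (((u ℓ M : ZMod (N * p ^ M)).val : ℕ) : E) ^ 1 -
            (((u ℓ M : ZMod (N * p ^ M)).val : ℕ) : E)) atTop
      (nhds ((χ (u0 ℓ) : E) * (x ℓ : E) ^ 1 - (x ℓ : E))) := by
    intro ℓ hℓS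
    obtain ⟨-, -, hM⟩ := hu ℓ hℓS
    have h1 : Tendsto (fun M : ℕ => (((u ℓ M : ZMod (N * p ^ M)).val : ℕ) : E)) atTop
        (nhds (x ℓ : E)) := by
      rw [tendsto_iff_dist_tendsto_zero]
      refine squeeze_zero (fun _ => dist_nonneg) (fun M => ?_) hp0
      rw [dist_comm, dist_eq_norm]
      have h2 := Nat.modEq_iff_dvd.1 (hM M).2.2
      have h3 := clsO_dvd (E := E) p M _ h2
      push_cast at h3
      exact h3
    have h4 : (fun M : ℕ =>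
      (χ (ZMod.unitsMap (dvd_mul_right N (p ^ M)) (u ℓ M)) : E) *
          (((u ℓ M : ZMod (N * p ^ M)).val : ℕ) : E) ^ 1 -
            (((u ℓ M : ZMod (N * p ^ M)).val : ℕ) : E)) = fun M : ℕ =>
      (χ (u0 ℓ) : E) * (((u ℓ M : ZMod (N * p ^ M)).val : ℕ) : E) ^ 1 -
            (((u ℓ M : ZMod (N * p ^ M)).val : ℕ) : E) := by
      funext M
      rw [(hM M).2.1]
    rw [h4]
    exact ((h1.pow 1).const_mul _).sub h1
  have hprod := tendsto_finsetProd S hfac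
  have hprod0 : ∏ ℓ ∈ S, ((χ (u0 ℓ) : E) * (x ℓ : E) ^ 1 - (x ℓ : E)) ≠ 0 := by
    refine Finset.prod_ne_zero_iff.2 fun ℓ hℓS => ?_
    obtain ⟨hx, hv1, -⟩ := hu ℓ hℓS
    have h2 : (x ℓ : E) ≠ 0 := Nat.cast_ne_zero.2 hx
    intro h3
    apply hv1
    apply Units.ext
    rw [Units.val_one]
    apply mul_right_cancel₀ h2
    rw [one_mul]
    rw [pow_one] at h3
    exact sub_eq_zero.1 h3
  -- the sum
  have hsum := clsO_sum N 1 p c hpN le_rfl hcN χ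
  have hc0 : ((c : E) ^ 1 - ((χ (ZMod.unitOfCoprime c hcN) : Eˣ) : E)⁻¹) ≠ 0 := by
    intro h1
    apply clsO_ne N χ (ZMod.unitOfCoprime c hcN) c 1 (by omega) (by omega)
    rw [sub_eq_zero.1 h1]
    exact mul_inv_cancel₀ (Units.ne_zero _)
  have hT : (TT N 1 χ : E) ≠ 0 := tt_ne_one N χ hχ hN
  have h1 := hprod.mul hsum
  have h2 := hlim.const_mul (((1 : ℕ) : E) * (c : E) ^ (1 - 1))
  rw [mul_zero] at h2
  have h3 := tendsto_nhds_unique h1 (h2.congr fun M => by ring)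
  exact mul_ne_zero hprod0 (mul_ne_zero hc0 hT) h3

end Pool.Agent.EDV
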