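import Pool.Agent.EDV.Kum
import Pool.Agent.Helper60.FM.ModC2

/-!
# EDV-Eta (1.0h): a root of unity of type `2 z ∑ ν(σ) ψ(σ)`

`β` has type `z`, `β ^ q = α ∈ 𝓞 K` and all valuations of `α` are divisible by `q`; `ν` kills the class
group. Adapt the second half of the proof of `KData.exists_eta` in `Helper60/FM/ModC2.lean`:
`(α) = 𝔞 ^ q` (`exists_ideal_pow`, `𝔞 ≠ ⊥`), `∏ (σ • 𝔞) ^ ν σ = (δ)`, `β₁ = (∏ g_σ(β) ^ ν σ) / δ` with
`g_σ` extending `σ` (`ty_smul`, `ty_pow`, `ty_mul` over a finset, `ty_inv`, `ty_of_mem`) has type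
`y = z ∑ ν σ ψ σ`; `β₁ ^ q = ∏ (σ α) ^ ν σ / δ ^ q = u` is a unit of `𝓞 K` (the ideals `(δ) ^ q` and
`∏ (σ 𝔞) ^ (q ν σ) = (∏ (σ α) ^ ν σ)` are equal). Then complex conjugation: `g β₁ * β₁` has type
`ψ(c) y + y = 0` (commute the factors), `η = β₁ ^ 2 / (g β₁ * β₁)` has type `2 y` and
`η ^ q = u / c(u)` is a root of unity (`IsCMField.unitsMulComplexConjInv`), as there.
-/

open NumberField Pointwise IsDedekindDomain

namespace Pool.Agent.EDV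

open Pool.Agent.Helper60.FM

theorem KQ.exists_etaQ {q : ℕ} [NeZero q] {K : IntermediateField ℚ Qb} [FiniteDimensional ℚ K]
    [IsGalois ℚ K] [IsCMField K] {ω : Gal(K/ℚ) → ℕ} {R : Type*} [CommRing R] (D : KQ q K ω R)
    (ζ : K) (hζ : IsPrimitiveRoot ζ q) (hω : ∀ σ : Gal(K/ℚ), σ ζ = ζ ^ ω σ)
    (hc : ∀ c : Gal(K/ℚ), (∀ x : K, c x = IsCMField.complexConj K x) → D.ψ c = -1)
    (ν : Gal(K/ℚ) → ℕ)
    (hν : ∀ 𝔞 : Ideal (𝓞 K), 𝔞 ≠ ⊥ → (∏ σ, (σ • 𝔞) ^ ν σ).IsPrincipal)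
    (z : R) (β : Qb) (hβ0 : β ≠ 0) (hβ : D.Ty ζ β z) (α : 𝓞 K) (hα : ((α : K) : Qb) = β ^ q)
    (hval : ∀ v : HeightOneSpectrum (𝓞 K), ∃ m : ℤ,
      v.valuation K (α : K) = WithZero.exp ((q : ℤ) * m)) :
    ∃ (η : Qb) (n : ℕ), 0 < n ∧ η ^ n = 1 ∧ D.Ty ζ η (2 * (z * ∑ σ, (ν σ : R) * D.ψ σ)) := by
  classical
  have hqpos : 0 < q := Nat.pos_of_ne_zero (NeZero.ne q)
  have hα0 : α ≠ 0 := by
    rintro rfl
    have h0 : β ^ q = 0 := by rw [← hα]; simp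
    exact pow_ne_zero _ hβ0 h0
  obtain ⟨𝔞, h𝔞⟩ := exists_ideal_pow α hα0 hval
  have h𝔞0 : 𝔞 ≠ ⊥ := by
    rintro rfl
    rw [← Ideal.zero_eq_bot, zero_pow hqpos.ne'] at h𝔞
    exact hα0 (Ideal.span_singleton_eq_bot.1 (by rw [← h𝔞]; rfl))
  obtain ⟨⟨δ, hδ⟩⟩ := hν 𝔞 h𝔞0
  have hδ' : ∏ σ, (σ • 𝔞) ^ ν σ = Ideal.span {δ} := hδ
  -- lifts
  choose g hg using fun σ : Gal(K/ℚ) =>
    AlgEquiv.restrictNormalHom_surjective (F := ℚ) (K₁ := K) Qb σ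
  have hprod : ∀ T : Finset Gal(K/ℚ),
      D.Ty ζ (∏ σ ∈ T, (g σ β) ^ ν σ) (∑ σ ∈ T, (ν σ : R) * (D.ψ σ * z)) := by
    intro T
    induction T using Finset.induction_on with
    | empty => simpa using D.ty_of_mem ζ K.one_mem
    | insert σ T hσ ih =>
      rw [Finset.prod_insert hσ, Finset.sum_insert hσ]
      refine D.ty_mul ζ hζ (D.ty_pow ζ hζ ?_ (ν σ)) ih
      have h1 := D.ty_smul ζ hζ hω hβ (g σ)
      have h2 : res K (g σ) = σ := hg σ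
      rwa [h2] at h1
  obtain ⟨y, hy⟩ : ∃ y : R, y = z * ∑ σ, (ν σ : R) * D.ψ σ := ⟨_, rfl⟩
  rw [← hy]
  obtain ⟨B, hB⟩ : ∃ B : Qb, B = ∏ σ, (g σ β) ^ ν σ := ⟨_, rfl⟩
  have hBty : D.Ty ζ B y := by
    have h1 := hprod Finset.univ
    have h2 : ∑ σ, (ν σ : R) * (D.ψ σ * z) = y := by
      rw [hy, Finset.mul_sum]
      refine Finset.sum_congr rfl fun σ _ => ?_
      ring
    rw [h2, ← hB] at h1
    exact h1
  have hB0 : B ≠ 0 := by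
    rw [hB]
    exact Finset.prod_ne_zero_iff.2 fun σ _ => pow_ne_zero _ ((map_ne_zero (g σ)).2 hβ0)
  obtain ⟨A, hA⟩ : ∃ A : 𝓞 K, A = ∏ σ : Gal(K/ℚ), (σ • α) ^ ν σ := ⟨_, rfl⟩
  have hBq : ((A : K) : Qb) = B ^ q := by
    rw [hA, hB]
    push_cast
    rw [← Finset.prod_pow]
    refine Finset.prod_congr rfl fun σ _ => ?_
    have h1 : ((σ • (α : K) : K) : Qb) = g σ ((α : K) : Qb) := by
      have h2 : (σ • (α : K) : K) = σ (α : K) := rfl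
      rw [h2, ← coe_res]
      have h3 : res K (g σ) = σ := hg σ
      rw [h3]
    rw [h1, hα, map_pow, ← pow_mul, ← pow_mul, mul_comm (ν σ)]
  have hassoc : Associated (δ ^ q) A := by
    rw [← Ideal.span_singleton_eq_span_singleton, ← Ideal.span_singleton_pow, ← hδ', hA,
      ← Ideal.prod_span_singleton, ← Finset.prod_pow]
    refine Finset.prod_congr rfl fun σ _ => ?_
    rw [← Ideal.span_singleton_pow, ← smul_ideal_span, ← h𝔞, smul_ideal_pow, ← pow_mul, ← pow_mul,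
      mul_comm q]
  have hA0 : A ≠ 0 := by
    rintro rfl
    have h0 : B ^ q = 0 := by rw [← hBq]; simp
    exact pow_ne_zero _ hB0 h0
  obtain ⟨u, hu⟩ := hassoc
  have hδ0 : δ ≠ 0 := by
    rintro rfl
    rw [zero_pow hqpos.ne', zero_mul] at hu
    exact hA0 hu.symm
  have hδK0 : ((δ : K) : Qb) ≠ 0 := by
    have h0 : (δ : K) ≠ 0 := by simpa using hδ0
    simpa using h0
  obtain ⟨β₁, hβ₁def⟩ : ∃ β₁ : Qb, β₁ = B * ((δ : K) : Qb)⁻¹ := ⟨_, rfl⟩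
  have hβ₁0 : β₁ ≠ 0 := by
    rw [hβ₁def]
    exact mul_ne_zero hB0 (inv_ne_zero hδK0)
  have hβ₁ : D.Ty ζ β₁ y := by
    have h1 := D.ty_mul ζ hζ hBty (D.ty_inv ζ hζ (D.ty_of_mem ζ (x := ((δ : K) : Qb)) (δ : K).2))
    rw [neg_zero, add_zero, ← hβ₁def] at h1
    exact h1
  have hβ₁p : β₁ ^ q = (((u : 𝓞 K) : K) : Qb) := by
    have h1 : ((A : K) : Qb) = ((δ : K) : Qb) ^ q * (((u : 𝓞 K) : K) : Qb) := by
      rw [← hu]
      push_cast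
      rfl
    rw [hβ₁def, mul_pow, ← hBq, h1, inv_pow]
    field_simp
  -- complex conjugation
  let cK : Gal(K/ℚ) := (IsCMField.complexConj K).restrictScalars ℚ
  have hcK : ∀ x : K, cK x = IsCMField.complexConj K x := fun x => rfl
  have hψc := hc cK hcK
  obtain ⟨g', hg''⟩ := AlgEquiv.restrictNormalHom_surjective (F := ℚ) (K₁ := K) Qb cK
  have hg' : res K g' = cK := hg''
  have hκty : D.Ty ζ (g' β₁ * β₁) 0 := by
    have h1 := D.ty_mul ζ hζ (D.ty_smul ζ hζ hω hβ₁ g') hβ₁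
    rw [hg', hψc] at h1
    simpa using h1
  -- the torsion unit
  obtain ⟨ξ, hξ⟩ : ∃ ξ : Units.torsion K, ξ = IsCMField.unitsMulComplexConjInv K u := ⟨_, rfl⟩
  have hξ' : (((ξ : (𝓞 K)ˣ) : 𝓞 K) : K) * (cK ((u : 𝓞 K) : K)) = ((u : 𝓞 K) : K) := by
    rw [hξ, IsCMField.unitsMulComplexConjInv_apply]
    have h1 : ((((IsCMField.unitsComplexConj K u)⁻¹ : (𝓞 K)ˣ) : 𝓞 K) : K) *
        cK ((u : 𝓞 K) : K) = 1 := by
      have h2 : cK ((u : 𝓞 K) : K) = (((IsCMField.unitsComplexConj K u : (𝓞 K)ˣ) : 𝓞 K) : K) := rfl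
      rw [h2]
      have h3 : (((IsCMField.unitsComplexConj K u)⁻¹ * IsCMField.unitsComplexConj K u :
        (𝓞 K)ˣ) : 𝓞 K) = 1 := by rw [inv_mul_cancel]; rfl
      have h4 := congrArg (fun t : 𝓞 K => (t : K)) h3
      push_cast at h4
      simpa using h4
    push_cast
    rw [mul_assoc, h1, mul_one]
  have hcu : ((cK ((u : 𝓞 K) : K) : K) : Qb) = (g' β₁) ^ q := by
    rw [← hg', coe_res, ← hβ₁p, map_pow]
  have hηp : (β₁ ^ 2 * (g' β₁ * β₁)⁻¹) ^ q = ((((ξ : (𝓞 K)ˣ) : 𝓞 K) : K) : Qb) := by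
    have h1 := congrArg (fun t : K => (t : Qb)) hξ'
    push_cast at h1
    rw [hcu, ← hβ₁p] at h1
    have hgβ : g' β₁ ≠ 0 := (map_ne_zero g').2 hβ₁0
    have h2 : (g' β₁) ^ q ≠ 0 := pow_ne_zero _ hgβ
    have h3 : β₁ ^ 2 * (g' β₁ * β₁)⁻¹ = β₁ * (g' β₁)⁻¹ := by
      field_simp
    rw [h3, mul_pow, inv_pow, ← h1]
    field_simp
  have hfin : IsOfFinOrder (ξ : (𝓞 K)ˣ) := ξ.2
  obtain ⟨m, hm, hξm⟩ := isOfFinOrder_iff_pow_eq_one.1 hfin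
  refine ⟨β₁ ^ 2 * (g' β₁ * β₁)⁻¹, q * m, Nat.mul_pos hqpos hm, ?_, ?_⟩
  · rw [pow_mul, hηp]
    have h1 := congrArg (fun t : (𝓞 K)ˣ => (((t : 𝓞 K) : K) : Qb)) hξm
    push_cast at h1
    exact h1
  · have h1 := D.ty_mul ζ hζ (D.ty_pow ζ hζ hβ₁ 2) (D.ty_inv ζ hζ hκty)
    simpa using h1

end Pool.Agent.EDV
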