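import Mathlib

/-!
# EDV-Fo (0.5h): units of finite order

The subring generated by finitely many elements of finite order in a ring with `q = 0` is a finitely generated torsion abelian group, so it
is finite; hence two powers of a unit in it coincide.
-/

namespace Pool.Agent.EDV

theorem exists_pow_eq_one {q : ℕ} (hq0 : 0 < q) {R : Type*} [CommRing R] (hq : (q : R) = 0)
    (s : Set R) (hs : s.Finite) (h : ∀ x ∈ s, ∃ n : ℕ, 0 < n ∧ x ^ n = 1) (z : R)
    (hz : z ∈ Subring.closure s) (hu : IsUnit z) : ∃ n : ℕ, 0 < n ∧ z ^ n = 1 := by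
  have hint : ∀ x ∈ s, IsIntegral ℤ x := by
    intro x hx
    obtain ⟨n, hn, hxn⟩ := h x hx
    refine ⟨Polynomial.X ^ n - 1, Polynomial.monic_X_pow_sub_C 1 hn.ne', ?_⟩
    rw [Polynomial.eval₂_sub, Polynomial.eval₂_pow, Polynomial.eval₂_X, Polynomial.eval₂_one, hxn, sub_self]
  have hfg : (Subalgebra.toSubmodule (Algebra.adjoin ℤ s)).FG := fg_adjoin_of_finite hs hint
  have hmf : Module.Finite ℤ (Algebra.adjoin ℤ s) := Module.Finite.iff_fg.2 hfg
  have htor : Module.IsTorsion ℤ (Algebra.adjoin ℤ s) := by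
    intro x
    refine ⟨⟨(q : ℤ), mem_nonZeroDivisors_of_ne_zero (by exact_mod_cast hq0.ne')⟩, ?_⟩
    apply Subtype.ext
    show (q : ℤ) • (x : R) = 0
    rw [zsmul_eq_mul, Int.cast_natCast, hq, zero_mul]
  have hfin : Finite (Algebra.adjoin ℤ s) := Module.finite_of_fg_torsion _ htor
  have hzA : z ∈ Algebra.adjoin ℤ s := by
    have h1 : Subring.closure s ≤ (Algebra.adjoin ℤ s).toSubring :=
      Subring.closure_le.2 Algebra.subset_adjoin
    exact h1 hz
  obtain ⟨i, j, hij, he⟩ := Finite.exists_ne_map_eq_of_infinite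
    (fun n : ℕ => (⟨z, hzA⟩ : Algebra.adjoin ℤ s) ^ n)
  have key : ∀ i j : ℕ, i < j → z ^ i = z ^ j → ∃ n : ℕ, 0 < n ∧ z ^ n = 1 := by
    intro i j hlt hzz
    refine ⟨j - i, by omega, ?_⟩
    have h2 : z ^ j = z ^ i * z ^ (j - i) := by
      rw [← pow_add]
      congr 1
      omega
    rw [h2] at hzz
    have h3 : z ^ i * 1 = z ^ i * z ^ (j - i) := by rw [mul_one]; exact hzz
    exact ((hu.pow i).mul_left_cancel h3).symm
  have he' : z ^ i = z ^ j := congrArg Subtype.val he
  rcases lt_or_gt_of_ne hij with h1 | h1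
  · exact key i j h1 he'
  · exact key j i h1 he'.symm

end Pool.Agent.EDV
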