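import Mathlib

/-!
# EDV-Func: additive functions on `R` with values in `ℤ/q`

`R` is killed by `q`. A character of `R` with values in `ℚ/ℤ` has its values in the subgroup of the `a/q`, which is `ℤ/q`.
-/

namespace Pool.Agent.EDV

private theorem Func_zero {q : ℕ} [NeZero q] (a : ℤ) :
    (((a : ℚ) / q : ℚ) : AddCircle (1 : ℚ)) = 0 ↔ (a : ZMod q) = 0 := by
  have hq : (q : ℚ) ≠ 0 := Nat.cast_ne_zero.2 (NeZero.ne q)
  rw [AddCircle.coe_eq_zero_iff, ZMod.intCast_zmod_eq_zero_iff_dvd]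
  constructor
  · rintro ⟨n, hn⟩
    refine ⟨n, ?_⟩
    have h : (n : ℚ) = (a : ℚ) / q := by simpa using hn
    rw [eq_div_iff hq] at h
    have h2 : ((n * (q : ℤ) : ℤ) : ℚ) = ((a : ℤ) : ℚ) := by
      push_cast
      exact h
    have h3 : n * (q : ℤ) = a := by exact_mod_cast h2
    rw [← h3, mul_comm]
  · rintro ⟨n, hn⟩
    refine ⟨n, ?_⟩
    rw [hn]
    push_cast
    field_simp
    simp

private theorem Func_eq {q : ℕ} [NeZero q] (a b : ℤ)
    (h : (((a : ℚ) / q : ℚ) : AddCircle (1 : ℚ)) = (((b : ℚ) / q : ℚ) : AddCircle (1 : ℚ))) :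
    (a : ZMod q) = (b : ZMod q) := by
  have h1 : ((((a - b : ℤ) : ℚ) / q : ℚ) : AddCircle (1 : ℚ)) = 0 := by
    have h2 : (((a - b : ℤ) : ℚ) / q : ℚ) = (a : ℚ) / q - (b : ℚ) / q := by
      push_cast
      ring
    rw [h2, AddCircle.coe_sub, h, sub_self]
  have h3 := (Func_zero (q := q) (a - b)).1 h1
  rw [Int.cast_sub] at h3
  exact sub_eq_zero.1 h3

private theorem Func_ex {q : ℕ} [NeZero q] (t : AddCircle (1 : ℚ)) (ht : q • t = 0) :
    ∃ a : ℤ, (((a : ℚ) / q : ℚ) : AddCircle (1 : ℚ)) = t := by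
  have hq : (q : ℚ) ≠ 0 := Nat.cast_ne_zero.2 (NeZero.ne q)
  obtain ⟨r, rfl⟩ := QuotientAddGroup.mk_surjective t
  have h1 : ((q • r : ℚ) : AddCircle (1 : ℚ)) = 0 := by
    rw [AddCircle.coe_nsmul]
    exact ht
  obtain ⟨n, hn⟩ := (AddCircle.coe_eq_zero_iff (1 : ℚ)).1 h1
  refine ⟨n, ?_⟩
  have h2 : (n : ℚ) = q * r := by simpa using hn
  have h3 : (n : ℚ) / q = r := by
    rw [h2]
    field_simp
  rw [h3]

theorem exists_func {q : ℕ} [NeZero q] {R : Type*} [CommRing R] (hq : (q : R) = 0) (x : R)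
    (hx : x ≠ 0) : ∃ f : R →+ ZMod q, f x ≠ 0 := by
  obtain ⟨c, hc⟩ := CharacterModule.exists_character_apply_ne_zero_of_ne_zero (A := R) hx
  have hk : ∀ y : R, q • c y = 0 := by
    intro y
    rw [← map_nsmul, nsmul_eq_mul, hq, zero_mul, map_zero]
  have hex : ∀ y : R, ∃ a : ℤ, (((a : ℚ) / q : ℚ) : AddCircle (1 : ℚ)) = c y := fun y =>
    Func_ex (c y) (hk y)
  choose a ha using hex
  refine ⟨AddMonoidHom.mk' (fun y => (a y : ZMod q)) ?_, ?_⟩
  · intro y z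
    rw [← Int.cast_add]
    refine Func_eq _ _ ?_
    rw [ha]
    have h2 : (((a y + a z : ℤ) : ℚ) / q : ℚ) = (a y : ℚ) / q + (a z : ℚ) / q := by
      push_cast
      ring
    rw [h2, AddCircle.coe_add, ha, ha, map_add]
  · intro h
    have h1 : (a x : ZMod q) = 0 := h
    exact hc (by rw [← ha x]; exact (Func_zero (q := q) (a x)).2 h1)

end Pool.Agent.EDV
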