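import Pool.Agent.EDV.Res

/-!
# EDV: Kummer data modulo `q`

`F k y = f (y * b k)` with values in `ℤ/q`; an element `x` of `Qb` has type `y` if
`k x = ζ ^ (F k y) x` for all `k` fixing `K`.
-/

open NumberField Pointwise

namespace Pool.Agent.EDV

open Pool.Agent.Helper60.FM

/-- Equivariant Kummer data modulo `q` over a commutative ring `R`. -/
structure KQ (q : ℕ) (K : IntermediateField ℚ Qb) [Normal ℚ K] (ω : Gal(K/ℚ) → ℕ)
    (R : Type*) [CommRing R] where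
  ψ : Gal(K/ℚ) →* R
  F : GQ → R →+ ZMod q
  F_mul : ∀ k ∈ K.fixingSubgroup, ∀ k' ∈ K.fixingSubgroup, ∀ y, F (k * k') y = F k y + F k' y
  F_conj : ∀ g : GQ, ∀ k ∈ K.fixingSubgroup, ∀ y,
    (ω (res K g) : ZMod q) * F (g⁻¹ * k * g) y = F k (ψ (res K g) * y)

section zq

variable {q : ℕ} [NeZero q] {F : Type*} [Field F] {ζ : F} (hζ : IsPrimitiveRoot ζ q)

include hζ

omit [NeZero q] in
theorem zq_natCast (n : ℕ) : ζ ^ ((n : ZMod q)).val = ζ ^ n := by
  rw [ZMod.val_natCast]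
  conv_rhs => rw [← Nat.mod_add_div n q, pow_add, pow_mul, hζ.pow_eq_one, one_pow, mul_one]

theorem zq_add (a b : ZMod q) : ζ ^ (a + b).val = ζ ^ a.val * ζ ^ b.val := by
  have h := zq_natCast hζ (a.val + b.val)
  rw [Nat.cast_add, ZMod.natCast_zmod_val, ZMod.natCast_zmod_val] at h
  rw [h, pow_add]

theorem zq_natmul (n : ℕ) (b : ZMod q) : ζ ^ ((n : ZMod q) * b).val = (ζ ^ b.val) ^ n := by
  have h := zq_natCast hζ (n * b.val)
  rw [Nat.cast_mul, ZMod.natCast_zmod_val] at h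
  rw [h, ← pow_mul, mul_comm]

theorem zq_neg (a : ZMod q) : ζ ^ (-a).val = (ζ ^ a.val)⁻¹ := by
  have h := zq_add hζ (-a) a
  rw [neg_add_cancel, ZMod.val_zero, pow_zero] at h
  exact eq_inv_of_mul_eq_one_left h.symm

theorem zq_ne_zero (a : ZMod q) : ζ ^ a.val ≠ 0 :=
  pow_ne_zero _ (hζ.ne_zero (NeZero.ne q))

theorem zq_inj {a b : ZMod q} (h : ζ ^ a.val = ζ ^ b.val) : a = b := by
  have := hζ.pow_inj (ZMod.val_lt a) (ZMod.val_lt b) h
  exact ZMod.val_injective q this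

end zq

theorem coe_prim {q : ℕ} {K : IntermediateField ℚ Qb} {ζ : K} (hζ : IsPrimitiveRoot ζ q) :
    IsPrimitiveRoot (ζ : Qb) q :=
  hζ.map_of_injective (f := K.val) K.val.injective

namespace KQ

variable {q : ℕ} [NeZero q] {K : IntermediateField ℚ Qb} [FiniteDimensional ℚ K]
  [IsGalois ℚ K] {ω : Gal(K/ℚ) → ℕ} {R : Type*} [CommRing R]
  (D : KQ q K ω R) (ζ : K) (hζ : IsPrimitiveRoot ζ q) (hω : ∀ σ : Gal(K/ℚ), σ ζ = ζ ^ ω σ)

/-- `x ∈ Qb` has type `y ∈ R` -/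
def Ty (D : KQ q K ω R) (ζ : K) (x : Qb) (y : R) : Prop :=
  ∀ k ∈ K.fixingSubgroup, k x = (ζ : Qb) ^ (D.F k y).val * x

include hζ

theorem ty_mul {x x' : Qb} {y y' : R} (h : D.Ty ζ x y) (h' : D.Ty ζ x' y') :
    D.Ty ζ (x * x') (y + y') := by
  intro k hk
  rw [map_mul, h k hk, h' k hk, map_add, zq_add (coe_prim hζ)]
  ring

omit [NeZero q] hζ in
theorem ty_of_mem {x : Qb} (h : x ∈ K) : D.Ty ζ x 0 := by
  intro k hk
  rw [map_zero, ZMod.val_zero, pow_zero, one_mul]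
  exact (IntermediateField.mem_fixingSubgroup_iff K k).1 hk x h

omit [NeZero q] hζ in
theorem mem_of_ty {x : Qb} (h : D.Ty ζ x 0) : x ∈ K := by
  rw [← InfiniteGalois.fixedField_fixingSubgroup K, IntermediateField.mem_fixedField_iff]
  intro k hk
  rw [h k hk, map_zero, ZMod.val_zero, pow_zero, one_mul]

theorem ty_inv {x : Qb} {y : R} (h : D.Ty ζ x y) : D.Ty ζ x⁻¹ (-y) := by
  intro k hk
  rw [map_inv₀, h k hk, map_neg, zq_neg (coe_prim hζ), mul_inv]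

theorem ty_pow {x : Qb} {y : R} (h : D.Ty ζ x y) (n : ℕ) : D.Ty ζ (x ^ n) (n * y) := by
  induction n with
  | zero =>
    rw [pow_zero, Nat.cast_zero, zero_mul]
    exact D.ty_of_mem ζ K.one_mem
  | succ n ih =>
    rw [pow_succ, Nat.cast_succ, add_mul, one_mul]
    exact D.ty_mul ζ hζ ih h

include hω in
theorem ty_smul {x : Qb} {y : R} (h : D.Ty ζ x y) (g : GQ) :
    D.Ty ζ (g x) (D.ψ (res K g) * y) := by
  intro k hk
  have h1 : k (g x) = g ((g⁻¹ * k * g) x) := by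
    change k (g x) = g (g⁻¹ (k (g x)))
    exact (g.apply_symm_apply _).symm
  have h2 : g (ζ : Qb) = (ζ : Qb) ^ ω (res K g) := by
    rw [← coe_res, hω]
    rfl
  rw [h1, h _ (conj_mem_fix K g hk), map_mul, map_pow, h2, ← D.F_conj g k hk y,
    zq_natmul (coe_prim hζ), ← pow_mul, ← pow_mul, mul_comm (ω (res K g))]

theorem ty_unique {x : Qb} (hx : x ≠ 0) {y y' : R} (h : D.Ty ζ x y) (h' : D.Ty ζ x y') :
    ∀ k ∈ K.fixingSubgroup, D.F k y = D.F k y' := by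
  intro k hk
  have := (h k hk).symm.trans (h' k hk)
  exact zq_inj (coe_prim hζ) (mul_right_cancel₀ hx this)

omit [NeZero q] hζ in
theorem F_q (hq : (q : R) = 0) (k : GQ) (y : R) : D.F k ((q : R) * y) = 0 := by
  rw [hq, zero_mul, map_zero]

theorem pow_mem_of_ty {x : Qb} {y : R} (h : D.Ty ζ x y) : x ^ q ∈ K := by
  apply D.mem_of_ty ζ
  intro k hk
  have h1 := D.ty_pow ζ hζ h q k hk
  have h2 : D.F k ((q : R) * y) = 0 := by
    rw [← nsmul_eq_mul, map_nsmul, nsmul_eq_mul, CharP.cast_eq_zero, zero_mul]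
  rw [h2] at h1
  rw [map_zero, h1]

end KQ

end Pool.Agent.EDV
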