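import Pool.Agent.AAP.Defs

/-!
# EDV-Ram (0.8h): finitely many ramified primes

`U` an open subgroup of `GQ`. Only finitely many prime numbers `ℓ` have an inertia element (at some prime
`𝔓` of the ring of all algebraic integers with `ℓ ∈ 𝔓`) which is not in `U`.
Proof: there is a finite extension `M` of `ℚ` in `Qb` with `M.fixingSubgroup ≤ U` (Krull topology,
`krullTopology_mem_nhds_one_iff`), `M = ℚ(θ)` with `θ` integral (primitive element times an integer). If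
`g ∉ U` then `g θ ≠ θ`. `θ` has finitely many conjugates; let `D` be a nonzero integer such that all
`x = θ' - θ`, `θ' ≠ θ` a conjugate of `θ`, divide `D` in `ZQ` (each `x ≠ 0` integral: `x` divides the
constant term of its minimal polynomial over `ℤ`, which is nonzero; `D` = the product over the finite set
of roots `θ'` of the minimal polynomial of `θ`). If `g ∈ In 𝔓`, `g ∉ U`: `g θ - θ ∈ 𝔓`, so `D ∈ 𝔓`, and with
`ℓ ∈ 𝔓` the prime `ℓ` divides `D` (else `1 ∈ 𝔓`). So `ℓ` is in the finite set of divisors of `D`.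
-/

open NumberField Pointwise

namespace Pool.Agent.EDV

open Pool.Agent.Helper60.FM Pool.Agent.AAP

private theorem ram_smul_coe (g : GQ) (x : ZQ) : ((g • x : ZQ) : Qb) = g (x : Qb) := rfl

/-- a nonzero algebraic integer divides a nonzero integer -/
private theorem ram_dvd (x : ZQ) : ∃ D : ℤ, D ≠ 0 ∧ (x ≠ 0 → ∃ y : ZQ, (D : ZQ) = x * y) := by
  by_cases hx : x = 0
  · exact ⟨1, one_ne_zero, fun h => absurd hx h⟩
  · have h1 : IsIntegral ℤ x := by
      have h2 : IsIntegral ℤ (x : Qb) := x.2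
      exact (isIntegral_algHom_iff (integralClosure ℤ Qb).val Subtype.val_injective).1 h2
    have h2 := Ideal.comap_ne_bot_of_integral_mem (I := Ideal.span {x}) hx (Ideal.mem_span_singleton_self x) h1
    obtain ⟨D, hD, hD0⟩ := Submodule.exists_mem_ne_zero_of_ne_bot h2
    rw [Ideal.mem_comap, Ideal.mem_span_singleton] at hD
    obtain ⟨y, hy⟩ := hD
    refine ⟨D, hD0, fun _ => ⟨y, ?_⟩⟩
    rw [← hy]
    rfl

/-- the integers of the prime ideal `𝔓` over `ℓ` are the multiples of `ℓ` -/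
private theorem ram_mem {ℓ : ℕ} (hℓ : ℓ.Prime) {𝔓 : Ideal ZQ} (hP : 𝔓.IsPrime) (h : (ℓ : ZQ) ∈ 𝔓) {D : ℤ}
    (hD : (D : ZQ) ∈ 𝔓) : (ℓ : ℤ) ∣ D := by
  by_contra hc
  have h1 : IsCoprime (ℓ : ℤ) D := (Nat.prime_iff_prime_int.1 hℓ).coprime_iff_not_dvd.2 hc
  obtain ⟨a, b, hab⟩ := h1
  apply hP.ne_top
  rw [Ideal.eq_top_iff_one]
  have h2 : (1 : ZQ) = (a : ZQ) * (ℓ : ZQ) + (b : ZQ) * (D : ZQ) := by
    have h3 := congrArg (Int.cast : ℤ → ZQ) hab
    push_cast at h3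
    exact h3.symm
  rw [h2]
  exact 𝔓.add_mem (𝔓.mul_mem_left _ h) (𝔓.mul_mem_left _ hD)

/-- an open subgroup contains the stabilizer of an algebraic integer -/
private theorem ram_prim (U : Subgroup GQ) (hU : IsOpen (U : Set GQ)) :
    ∃ θ : ZQ, ∀ g : GQ, g • θ = θ → g ∈ U := by
  obtain ⟨M, hM, hMU⟩ := (krullTopology_mem_nhds_one_iff ℚ Qb _).1 (hU.mem_nhds U.one_mem)
  obtain ⟨α, hα⟩ := @Field.exists_primitive_element ℚ M _ _ M.algebra' hM inferInstance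
  have halg : IsAlgebraic ℤ (α : Qb) :=
    (IsFractionRing.isAlgebraic_iff ℤ ℚ Qb).2 (Algebra.IsAlgebraic.isAlgebraic (R := ℚ) (α : Qb))
  obtain ⟨y, hy, hint⟩ := halg.exists_integral_multiple
  refine ⟨⟨y • (α : Qb), hint⟩, fun g hg => hMU ?_⟩
  have h1 : g (y • (α : Qb)) = y • (α : Qb) := congrArg Subtype.val hg
  have h2 : g (α : Qb) = (α : Qb) := by
    rw [map_zsmul] at h1
    exact smul_right_injective Qb hy h1
  have hM2 : M = IntermediateField.adjoin ℚ {(α : Qb)} := by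
    have h4 := congrArg (IntermediateField.lift (K := ℚ) (L := Qb) (F := M)) hα
    rw [IntermediateField.lift_adjoin_simple, IntermediateField.lift_top] at h4
    exact h4.symm
  have h3 : ∀ x ∈ IntermediateField.adjoin ℚ {(α : Qb)}, g • x = x :=
    (IntermediateField.forall_mem_adjoin_smul_eq_self_iff (F := ℚ) (E := Qb) (S := {(α : Qb)}) g).2 (by
      intro x hx
      rw [Set.mem_singleton_iff] at hx
      rw [hx]
      exact h2)
  rw [← hM2] at h3
  show g ∈ M.fixingSubgroup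
  rw [IntermediateField.mem_fixingSubgroup_iff]
  exact h3

theorem finite_ram (U : Subgroup GQ) (hU : IsOpen (U : Set GQ)) :
    {ℓ : ℕ | ℓ.Prime ∧ ∃ 𝔓 : Ideal ZQ, 𝔓.IsPrime ∧ (ℓ : ZQ) ∈ 𝔓 ∧ ∃ g ∈ In 𝔓, g ∉ U}.Finite := by
  obtain ⟨θ, hθ⟩ := ram_prim U hU
  choose D hD0 hD using ram_dvd
  have hint : IsIntegral ℤ θ := by
    have h2 : IsIntegral ℤ (θ : Qb) := θ.2
    exact (isIntegral_algHom_iff (integralClosure ℤ Qb).val Subtype.val_injective).1 h2
  have hf0 : minpoly ℤ θ ≠ 0 := minpoly.ne_zero hint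
  have hsub : {ℓ : ℕ | ℓ.Prime ∧ ∃ 𝔓 : Ideal ZQ, 𝔓.IsPrime ∧ (ℓ : ZQ) ∈ 𝔓 ∧ ∃ g ∈ In 𝔓, g ∉ U} ⊆
      ⋃ t ∈ (minpoly ℤ θ).rootSet ZQ, Set.Iic (D (t - θ)).natAbs := by
    rintro ℓ ⟨hℓ, 𝔓, hP, hℓP, g, hg, hgU⟩
    rw [Set.mem_iUnion₂]
    refine ⟨g • θ, ?_, ?_⟩
    · rw [Polynomial.mem_rootSet]
      refine ⟨hf0, ?_⟩
      rw [Polynomial.aeval_smul, minpoly.aeval, smul_zero]
    · have hne : g • θ - θ ≠ 0 := fun h => hgU (hθ g (sub_eq_zero.1 h))
      obtain ⟨y, hy⟩ := hD (g • θ - θ) hne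
      have h1 : ((D (g • θ - θ) : ℤ) : ZQ) ∈ 𝔓 := by
        rw [hy]
        exact 𝔓.mul_mem_right y (mem_In.1 hg θ)
      have h2 := ram_mem hℓ hP hℓP h1
      have h3 : ℓ ∣ (D (g • θ - θ)).natAbs := Int.natCast_dvd.1 h2
      exact Nat.le_of_dvd (Int.natAbs_pos.2 (hD0 _)) h3
  refine Set.Finite.subset ?_ hsub
  exact Set.Finite.biUnion (Polynomial.rootSet_finite _ _) fun t _ => Set.finite_Iic _

end Pool.Agent.EDV
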