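import Pool.Agent.EDV.Kum
import Pool.Agent.Helper60.FM.CC

/-!
# EDV-Root (1.0h): a root of unity has type 0

`q = p ^ k`, `η` a root of unity of type `y`, `π = ψ(g₀) - ω(g₀)` with `π ^ n = 1`. Then `F k y = 0` for
all `k` fixing `K`.
Proof: Let the order of `η` be `p ^ s t`, `p ∤ t`. `η ^ t` has type `t y` and order `p ^ s`.
If `s ≤ k` then `η ^ t` is a power of `ζ` (`IsPrimitiveRoot.eq_pow_of_pow_eq_one`), in `K`, type 0, so
`F(k, t y) = 0` (`ty_unique`), `t F(k, y) = 0` in `ZMod q` and `t` is a unit there: done.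
If `s > k`: for `g ∈ GQ` let `g (η ^ t) = (η ^ t) ^ a`. `ζ` is a power of `η ^ t` (which is a primitive
`p ^ s`-th root of unity), so `g ζ = ζ ^ a`, and `g ζ = ζ ^ ω(res g)`, so `a ≡ ω(res g)` modulo `q`. `g(η ^ t)`
has type `ψ(res g) t y` and `a t y`, so `F(k, (ψ(res g) - a) t y) = 0` (`ty_unique`); `F(k, a x) = a F(k, x)`
depends only on `a` modulo `q`, so `F(k, (ψ(res g) - ω(res g)) t y) = 0` for all `k` fixing `K` (and `g = g₀`).
The set `Y` of all `x ∈ R` with `F(k, x) = 0` for all `k` fixing `K` is an additive subgroup, stable under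
multiplication by `ψ(res g)` (`F_conj`, `conj_mem_fix`) and by natural numbers, so stable under `π`.
`π t y ∈ Y`, so `π ^ n t y = t y ∈ Y`, and `y ∈ Y` as before.
-/

open NumberField Pointwise

namespace Pool.Agent.EDV

open Pool.Agent.Helper60.FM

section priv

variable {p k : ℕ} [Fact p.Prime] {K : IntermediateField ℚ Qb}
    [FiniteDimensional ℚ K] [IsGalois ℚ K] {ω : Gal(K/ℚ) → ℕ} {R : Type*} [CommRing R]

private theorem EDVRoot_F_natmul (D : KQ (p ^ k) K ω R) (κ : GQ) (n : ℕ) (x : R) :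
    D.F κ ((n : R) * x) = (n : ZMod (p ^ k)) * D.F κ x := by
  rw [← nsmul_eq_mul, map_nsmul, nsmul_eq_mul]

private theorem EDVRoot_stable (D : KQ (p ^ k) K ω R) (g : GQ) (x : R)
    (h : ∀ κ ∈ K.fixingSubgroup, D.F κ x = 0) :
    ∀ κ ∈ K.fixingSubgroup, D.F κ ((D.ψ (res K g) - (ω (res K g) : R)) * x) = 0 := by
  intro κ hκ
  rw [sub_mul, map_sub, EDVRoot_F_natmul D κ, h κ hκ, mul_zero, sub_zero, ← D.F_conj g κ hκ x,
    h _ (conj_mem_fix K g hκ), mul_zero]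

private theorem EDVRoot_unit (D : KQ (p ^ k) K ω R) (t : ℕ) (ht : ¬ p ∣ t) (y : R)
    (h : ∀ κ ∈ K.fixingSubgroup, D.F κ ((t : R) * y) = 0) :
    ∀ κ ∈ K.fixingSubgroup, D.F κ y = 0 := by
  intro κ hκ
  have h1 := h κ hκ
  rw [EDVRoot_F_natmul D κ] at h1
  have hp : p.Prime := Fact.out
  have hc : Nat.Coprime t (p ^ k) :=
    Nat.Coprime.pow_right k ((Nat.Prime.coprime_iff_not_dvd hp).2 ht).symm
  have hu : IsUnit ((t : ZMod (p ^ k))) := (ZMod.isUnit_iff_coprime t (p ^ k)).2 hc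
  exact (hu.mul_right_eq_zero).1 h1

end priv

theorem KQ.F_eq_zero {p k : ℕ} [Fact p.Prime] {K : IntermediateField ℚ Qb}
    [FiniteDimensional ℚ K] [IsGalois ℚ K] {ω : Gal(K/ℚ) → ℕ} {R : Type*} [CommRing R]
    (D : KQ (p ^ k) K ω R) (ζ : K) (hζ : IsPrimitiveRoot ζ (p ^ k))
    (hω : ∀ σ : Gal(K/ℚ), σ ζ = ζ ^ ω σ) (y : R) (η : Qb) (m : ℕ) (hm : 0 < m) (hη : η ^ m = 1)
    (hty : D.Ty ζ η y) (g₀ : GQ) (n : ℕ) (hn : 0 < n)
    (hu : (D.ψ (res K g₀) - (ω (res K g₀) : R)) ^ n = 1) :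
    ∀ κ ∈ K.fixingSubgroup, D.F κ y = 0 := by
  classical
  have hp : p.Prime := Fact.out
  haveI : NeZero (p ^ k) := ⟨pow_ne_zero _ hp.ne_zero⟩
  have hζ' : IsPrimitiveRoot (ζ : Qb) (p ^ k) := coe_prim hζ
  have hη0 : η ≠ 0 := by
    intro h0
    rw [h0, zero_pow hm.ne'] at hη
    exact zero_ne_one hη
  have hN : 0 < orderOf η := orderOf_pos_iff.2 (isOfFinOrder_iff_pow_eq_one.2 ⟨m, hm, hη⟩)
  obtain ⟨s, t, ht, hst⟩ := Nat.exists_eq_pow_mul_and_not_dvd hN.ne' p hp.ne_one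
  have hprim : IsPrimitiveRoot (η ^ t) (p ^ s) :=
    IsPrimitiveRoot.pow hN (IsPrimitiveRoot.orderOf η) (by rw [hst, mul_comm])
  have hTt : D.Ty ζ (η ^ t) ((t : R) * y) := D.ty_pow ζ hζ hty t
  have hx0 : η ^ t ≠ 0 := pow_ne_zero _ hη0
  haveI : NeZero (p ^ s) := ⟨pow_ne_zero _ hp.ne_zero⟩
  rcases le_total s k with hsk | hks
  · have h1 : (η ^ t) ^ (p ^ k) = 1 := by
      obtain ⟨c, hc⟩ := pow_dvd_pow p hsk
      rw [hc, pow_mul, hprim.pow_eq_one, one_pow]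
    obtain ⟨i, _, hi⟩ := hζ'.eq_pow_of_pow_eq_one h1
    have hmem : η ^ t ∈ K := by
      rw [← hi]
      exact pow_mem ζ.2 i
    have h0 : D.Ty ζ (η ^ t) 0 := D.ty_of_mem ζ hmem
    refine EDVRoot_unit D t ht y ?_
    intro κ hκ
    rw [D.ty_unique ζ hζ hx0 hTt h0 κ hκ, map_zero]
  · have h1 : (ζ : Qb) ^ (p ^ s) = 1 := by
      obtain ⟨c, hc⟩ := pow_dvd_pow p hks
      rw [hc, pow_mul, hζ'.pow_eq_one, one_pow]
    obtain ⟨b, _, hb⟩ := hprim.eq_pow_of_pow_eq_one h1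
    have h2 : (g₀ (η ^ t)) ^ (p ^ s) = 1 := by
      rw [← map_pow, hprim.pow_eq_one, map_one]
    obtain ⟨a, _, ha⟩ := hprim.eq_pow_of_pow_eq_one h2
    have h3 : g₀ (ζ : Qb) = (ζ : Qb) ^ a := by
      rw [← hb, map_pow, ← ha]
      exact pow_right_comm _ _ _
    have h4 : g₀ (ζ : Qb) = (ζ : Qb) ^ ω (res K g₀) := by
      rw [← coe_res, hω]
      rfl
    have h5 : ((a : ℕ) : ZMod (p ^ k)) = ((ω (res K g₀) : ℕ) : ZMod (p ^ k)) := by
      apply zq_inj hζ'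
      rw [zq_natCast hζ', zq_natCast hζ', ← h3, h4]
    have h6 : D.Ty ζ (g₀ (η ^ t)) (D.ψ (res K g₀) * ((t : R) * y)) := D.ty_smul ζ hζ hω hTt g₀
    have h7 : D.Ty ζ (g₀ (η ^ t)) ((a : R) * ((t : R) * y)) := by
      rw [← ha]
      exact D.ty_pow ζ hζ hTt a
    have hg0 : g₀ (η ^ t) ≠ 0 := by
      intro h0
      exact hx0 ((map_eq_zero g₀).1 h0)
    have h8 : ∀ κ ∈ K.fixingSubgroup,
        D.F κ ((D.ψ (res K g₀) - (ω (res K g₀) : R)) * ((t : R) * y)) = 0 := by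
      intro κ hκ
      rw [sub_mul, map_sub, D.ty_unique ζ hζ hg0 h6 h7 κ hκ, EDVRoot_F_natmul D κ,
        EDVRoot_F_natmul D κ (ω (res K g₀)), h5, sub_self]
    have h9 : ∀ j : ℕ, ∀ κ ∈ K.fixingSubgroup,
        D.F κ ((D.ψ (res K g₀) - (ω (res K g₀) : R)) ^ (j + 1) * ((t : R) * y)) = 0 := by
      intro j
      induction j with
      | zero =>
        rw [zero_add, pow_one]
        exact h8
      | succ j ih =>
        intro κ hκ
        rw [pow_succ' _ (j + 1), mul_assoc]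
        exact EDVRoot_stable D g₀ _ ih κ hκ
    refine EDVRoot_unit D t ht y ?_
    intro κ hκ
    have h10 := h9 (n - 1) κ hκ
    rw [Nat.sub_add_cancel hn, hu, one_mul] at h10
    exact h10

end Pool.Agent.EDV
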