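import Pool.Agent.Helper60.FM.ModC2
import Pool.Agent.AAP.UnrB

/-!
# EDV-Val (1.2h): valuations of Kummer generators, relative unramified version

`q ≥ 1`, `ζ ∈ K` a primitive `q`-th root of unity, `β ^ q = α ∈ K`, `β ≠ 0`. All inertia elements of
`GQ` at primes over `ℓ` which fix `K` fix `β`. Then `q ∣ v(α)` for `v ∣ ℓ`.

Proof: `N = K(β)` (`IntermediateField.adjoin`, restricted to `ℚ`; or the fixed field of the stabilizer
of `β` in `K.fixingSubgroup`) is Galois over `K`: the conjugates of `β` over `K` are `ζ ^ i β`. Copy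
`val_of_unram` in `Helper60/FM/ModC1.lean` (there `N` is Galois over `ℚ`, this is only used for
`IsGalois K N`); the inertia group of a prime `w` of `N` over `v` in `Gal(N/K)` is trivial: extend
`σ` to `g ∈ GQ` fixing `K`, choose a prime `𝔓` of `ZQ` over `w`, and use `lift_inertia` for
`H = N.fixingSubgroup` (normalized by `g`, as `g N = N`) as in `AAP/UnrB.lean`: there is `k ∈ H` with
`g k ∈ In 𝔓`, `g k` fixes `K`, so `g k β = β`, so `σ β = β`, `σ = 1`.
-/

open NumberField Pointwise IsDedekindDomain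

namespace Pool.Agent.EDV

open Pool.Agent.Helper60.FM Pool.Agent.AAP

private theorem Val_unram {p : ℕ} {K N : Type*} [Field K] [Field N] [NumberField K] [NumberField N]
    [Algebra K N] [IsGalois K N]
    (v : HeightOneSpectrum (𝓞 K)) (w : HeightOneSpectrum (𝓞 N)) [w.asIdeal.LiesOver v.asIdeal]
    (h : ∀ σ : Gal(N/K), (∀ x : 𝓞 N, σ • x - x ∈ w.asIdeal) → σ = 1)
    (α : K) (hα : α ≠ 0) (β : N) (hβ : β ^ p = algebraMap K N α) :
    ∃ m : ℤ, v.valuation K α = WithZero.exp ((p : ℤ) * m) := by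
  have hvp : v.asIdeal.IsPrime := v.isPrime
  have hvm : v.asIdeal.IsMaximal := v.isMaximal
  have hwp : w.asIdeal.IsPrime := w.isPrime
  have hfin : Finite (𝓞 K ⧸ v.asIdeal) := Ring.HasFiniteQuotients.finiteQuotient v.ne_bot
  have hin : Ideal.inertia Gal(N/K) w.asIdeal = ⊥ := by
    rw [eq_bot_iff]
    intro σ hσ
    rw [Subgroup.mem_bot]
    exact h σ hσ
  have hcard : Nat.card (Ideal.inertia Gal(N/K) w.asIdeal) = 1 := by
    rw [hin]; simp
  have he : Ideal.ramificationIdx' v.asIdeal w.asIdeal = 1 := by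
    rw [Ideal.ramificationIdx'_eq_ramificationIdx _ _ v.ne_bot,
      ← Ideal.ramificationIdxIn_eq_ramificationIdx v.asIdeal w.asIdeal Gal(N/K),
      ← Ideal.card_inertia_eq_ramificationIdxIn (G := Gal(N/K)) v.asIdeal w.asIdeal, hcard]
  have hval := HeightOneSpectrum.valuation_liesOver (K := K) N v w α
  rw [he, pow_one, ← hβ, map_pow] at hval
  rcases Nat.eq_zero_or_pos p with rfl | hp
  · refine ⟨0, ?_⟩
    rw [hval, pow_zero, mul_zero, WithZero.exp_zero]
  have hβ0 : β ≠ 0 := by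
    rintro rfl
    rw [zero_pow hp.ne'] at hβ
    exact hα ((algebraMap K N).injective (by rw [← hβ, map_zero]))
  have hw0 : w.valuation N β ≠ 0 := (Valuation.ne_zero_iff _).2 hβ0
  refine ⟨WithZero.log (w.valuation N β), ?_⟩
  rw [hval]
  conv_lhs => rw [← WithZero.exp_log hw0]
  rw [← WithZero.exp_nsmul, nsmul_eq_mul]

/-- the inclusion of rings of integers -/
private noncomputable def Val_toZ (N : Type*) [Field N] [Algebra N Qb] : 𝓞 N →+* ZQ :=
  (((algebraMap N Qb).comp (algebraMap (𝓞 N) N)).codRestrict (integralClosure ℤ Qb).toSubring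
    (fun x => by
      have h : IsIntegral ℤ ((x : N)) := x.2
      exact h.map (algebraMap N Qb).toIntAlgHom))

private theorem Val_coe (N : Type*) [Field N] [Algebra N Qb] (x : 𝓞 N) :
    ((Val_toZ N x : ZQ) : Qb) = algebraMap N Qb (x : N) := rfl

private theorem Val_over (N : Type*) [Field N] [Algebra N Qb] (P : Ideal (𝓞 N)) (hP : P.IsPrime) :
    ∃ 𝔓 : Ideal ZQ, 𝔓.IsPrime ∧ ∀ x : 𝓞 N, Val_toZ N x ∈ 𝔓 ↔ x ∈ P := by
  have hinj : Function.Injective (Val_toZ N) := by
    intro x y h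
    have h1 : algebraMap N Qb (x : N) = algebraMap N Qb (y : N) := by
      rw [← Val_coe, ← Val_coe, h]
    exact RingOfIntegers.ext ((algebraMap N Qb).injective h1)
  have hint : (Val_toZ N).IsIntegral := by
    intro z
    have h1 : IsIntegral ℤ z := integralClosure.isIntegral z
    obtain ⟨p, hp, hz⟩ := h1
    refine ⟨p.map (algebraMap ℤ (𝓞 N)), hp.map _, ?_⟩
    rw [Polynomial.eval₂_map, RingHom.ext_int ((Val_toZ N).comp (algebraMap ℤ (𝓞 N))) (algebraMap ℤ ZQ)]
    exact hz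
  let _ : Algebra (𝓞 N) ZQ := (Val_toZ N).toAlgebra
  have _ : Algebra.IsIntegral (𝓞 N) ZQ := ⟨fun z => hint z⟩
  have hker : RingHom.ker (algebraMap (𝓞 N) ZQ) ≤ P := by
    have h1 : RingHom.ker (algebraMap (𝓞 N) ZQ) = ⊥ :=
      (RingHom.injective_iff_ker_eq_bot _).mp hinj
    rw [h1]
    exact bot_le
  obtain ⟨Q, hQ, hQ2⟩ := Ideal.exists_ideal_over_prime_of_isIntegral_of_isDomain P hker
  refine ⟨Q, hQ, fun x => ?_⟩
  rw [← hQ2]
  rfl

theorem val_of_rel {q : ℕ} (hq : 0 < q) (K : IntermediateField ℚ Qb) [FiniteDimensional ℚ K]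
    [IsGalois ℚ K] (ζ : K) (hζ : IsPrimitiveRoot ζ q) (ℓ : ℕ)
    (α : K) (β : Qb) (hβ0 : β ≠ 0) (hβ : β ^ q = (α : Qb))
    (hfix : ∀ 𝔓 : Ideal ZQ, 𝔓.IsPrime → (ℓ : ZQ) ∈ 𝔓 → ∀ g ∈ In 𝔓, g ∈ K.fixingSubgroup → g β = β)
    (v : HeightOneSpectrum (𝓞 K)) (hv : (ℓ : 𝓞 K) ∈ v.asIdeal) :
    ∃ m : ℤ, v.valuation K α = WithZero.exp ((q : ℤ) * m) := by
  have hq0 : NeZero q := ⟨hq.ne'⟩
  have hα : α ≠ 0 := by
    rintro rfl
    apply hβ0
    apply pow_eq_zero_iff hq.ne' |>.1
    rw [hβ]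
    rfl
  set p : Polynomial K := Polynomial.X ^ q - Polynomial.C α with hp
  have hpne : p ≠ 0 := Polynomial.X_pow_sub_C_ne_zero hq α
  have hroot : ∀ γ : Qb, γ ∈ p.rootSet Qb ↔ γ ^ q = (α : Qb) := by
    intro γ
    rw [Polynomial.mem_rootSet_of_ne hpne, hp, map_sub, map_pow, Polynomial.aeval_X, Polynomial.aeval_C, sub_eq_zero]
    rfl
  set N : IntermediateField K Qb := IntermediateField.adjoin K (p.rootSet Qb) with hN
  have hspl : p.IsSplittingField K N :=
    IntermediateField.adjoin_rootSet_isSplittingField (IsAlgClosed.splits _)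
  have hnor : Normal K N := Normal.of_isSplittingField p
  have hgal : IsGalois K N := {}
  have hfd : FiniteDimensional K N := Polynomial.IsSplittingField.finiteDimensional N p
  have hfdQ : FiniteDimensional ℚ N := Module.Finite.trans K N
  have hNF : NumberField N := {}
  have hβN : β ∈ N := IntermediateField.subset_adjoin K _ ((hroot β).2 hβ)
  have hQb : IsGalois ℚ Qb := C1b_isGalois
  obtain ⟨w, hwmax, hwv⟩ :=
    Ideal.exists_maximal_ideal_liesOver_of_isIntegral (S := 𝓞 N) v.asIdeal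
  have hw0 : w ≠ ⊥ := by
    intro h0
    apply v.ne_bot
    rw [hwv.over, h0]
    exact Ideal.comap_bot_of_injective _ (FaithfulSMul.algebraMap_injective (𝓞 K) (𝓞 N))
  let w' : HeightOneSpectrum (𝓞 N) := ⟨w, hwmax.isPrime, hw0⟩
  have : w'.asIdeal.LiesOver v.asIdeal := hwv
  refine Val_unram v w' ?_ α hα ⟨β, hβN⟩ (Subtype.ext hβ)
  intro σ hσ
  have hnorQb : Normal K Qb := inferInstance
  obtain ⟨g', hg'⟩ := AlgEquiv.restrictNormalHom_surjective (F := K) (K₁ := N) Qb σ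
  have hg'N : ∀ x : N, ((σ x : N) : Qb) = g' (x : Qb) := fun x => by
    rw [← hg']
    exact AlgEquiv.restrictNormal_commutes g' N x
  have hg'i : ∀ x : N, ((σ⁻¹ x : N) : Qb) = g'⁻¹ (x : Qb) := fun x => by
    rw [← hg', ← map_inv]
    exact AlgEquiv.restrictNormal_commutes g'⁻¹ N x
  set g : GQ := AlgEquiv.restrictScalars ℚ g' with hg
  have hgx : ∀ x : Qb, g x = g' x := fun x => rfl
  have hgi : ∀ x : Qb, g⁻¹ x = g'⁻¹ x := fun x => rfl
  set NQ : IntermediateField ℚ Qb := N.restrictScalars ℚ with hNQ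
  have hmem : ∀ x : Qb, x ∈ NQ ↔ x ∈ N := fun x => Iff.rfl
  have hfixH : ∀ k : GQ, k ∈ NQ.fixingSubgroup ↔ ∀ x ∈ N, k x = x := by
    intro k
    rw [IntermediateField.mem_fixingSubgroup_iff]
    rfl
  have hfdNQ : FiniteDimensional ℚ NQ := hfdQ
  obtain ⟨𝔓, hPP, hov⟩ := Val_over N w hwmax.isPrime
  have hlift := lift_inertia NQ.fixingSubgroup (IntermediateField.fixingSubgroup_isClosed NQ) 𝔓 hPP g
    (fun k hk => by
      rw [hfixH] at hk ⊢
      intro x hx
      have h1 := hg'i ⟨x, hx⟩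
      have h2 : g'⁻¹ x ∈ N := by
        have h3 : g'⁻¹ x = ((σ⁻¹ ⟨x, hx⟩ : N) : Qb) := h1.symm
        rw [h3]
        exact (σ⁻¹ ⟨x, hx⟩).2
      rw [AlgEquiv.mul_apply, AlgEquiv.mul_apply, hgi, hk _ h2, ← hgi, ← AlgEquiv.mul_apply, mul_inv_cancel,
        AlgEquiv.one_apply])
    (fun k hk => by
      rw [hfixH] at hk ⊢
      intro x hx
      have h1 := hg'N ⟨x, hx⟩
      have h2 : g' x ∈ N := by
        have h3 : g' x = ((σ ⟨x, hx⟩ : N) : Qb) := h1.symm
        rw [h3]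
        exact (σ ⟨x, hx⟩).2
      rw [AlgEquiv.mul_apply, AlgEquiv.mul_apply, hgx, hk _ h2, ← hgx, ← AlgEquiv.mul_apply, inv_mul_cancel,
        AlgEquiv.one_apply])
    (fun x hx => by
      have h1 : (x : Qb) ∈ IntermediateField.fixedField NQ.fixingSubgroup := by
        rw [IntermediateField.mem_fixedField_iff]
        intro f hf
        exact congrArg Subtype.val (hx f hf)
      rw [InfiniteGalois.fixedField_fixingSubgroup] at h1
      have h1' : (x : Qb) ∈ N := h1
      have h2 : IsIntegral ℤ (⟨(x : Qb), h1'⟩ : N) := by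
        have h3 : IsIntegral ℤ (x : Qb) := x.2
        exact (isIntegral_algHom_iff (N.val.toRingHom.toIntAlgHom) Subtype.val_injective).mp h3
      set y : 𝓞 N := ⟨⟨(x : Qb), h1'⟩, h2⟩ with hy
      have h3 : x = Val_toZ N y := Subtype.ext rfl
      have h4 : g • x = Val_toZ N (σ • y) := by
        apply Subtype.ext
        rw [Val_coe]
        exact (hg'N (y : N)).symm
      rw [h4]
      rw [h3, ← map_sub]
      exact (hov _).mpr (hσ y))
  obtain ⟨k, hk, hgk⟩ := hlift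
  have hℓ𝔓 : (ℓ : ZQ) ∈ 𝔓 := by
    have h1 : Val_toZ N (ℓ : 𝓞 N) = (ℓ : ZQ) := map_natCast _ _
    rw [← h1]
    refine (hov _).mpr ?_
    have h2 : algebraMap (𝓞 K) (𝓞 N) (ℓ : 𝓞 K) ∈ w := by
      have : (ℓ : 𝓞 K) ∈ w.under (𝓞 K) := by
        rw [← hwv.over]
        exact hv
      exact this
    rwa [map_natCast] at h2
  rw [hfixH] at hk
  have hgkK : g * k ∈ K.fixingSubgroup := by
    rw [IntermediateField.mem_fixingSubgroup_iff]
    intro x hx
    have h1 : x ∈ N := N.algebraMap_mem ⟨x, hx⟩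
    rw [AlgEquiv.mul_apply, hk x h1, hgx]
    exact g'.commutes ⟨x, hx⟩
  have hgβ : g' β = β := by
    have h1 := hfix 𝔓 hPP hℓ𝔓 (g * k) hgk hgkK
    rwa [AlgEquiv.mul_apply, hk β hβN] at h1
  have hζQ : IsPrimitiveRoot (ζ : Qb) q := hζ.map_of_injective (f := algebraMap K Qb) (algebraMap K Qb).injective
  have hgζ : g' (ζ : Qb) = (ζ : Qb) := g'.commutes ζ
  have hall : ∀ x ∈ N, g' x = x := by
    intro x hx
    refine IntermediateField.adjoin_induction K (p := fun x _ => g' x = x) ?_ ?_ ?_ ?_ ?_ hx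
    · intro γ hγ
      rw [hroot] at hγ
      have h1 : (γ / β) ^ q = 1 := by
        rw [div_pow, hγ, hβ, div_self]
        rw [← hβ]
        exact pow_ne_zero _ hβ0
      obtain ⟨i, -, hi⟩ := hζQ.eq_pow_of_pow_eq_one h1
      have h2 : γ = (ζ : Qb) ^ i * β := by
        rw [hi, div_mul_cancel₀ _ hβ0]
      rw [h2, map_mul, map_pow, hgζ, hgβ]
    · intro x
      exact g'.commutes x
    · intro x y _ _ h1 h2
      rw [map_add, h1, h2]
    · intro x _ h1
      rw [map_inv₀, h1]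
    · intro x y _ _ h1 h2
      rw [map_mul, h1, h2]
  ext x
  rw [AlgEquiv.one_apply]
  exact (hg'N x).trans (hall x x.2)

end Pool.Agent.EDV
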