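import Pool.Agent.EDV.Kum
import Pool.Agent.Helper60.FM.ModC2

/-!
# EDV-ValA (1.1h): removing the valuations at the primes of a finite set `T`

`β` has type 1 and `q ∣ v(β ^ q)` for all `v` which contain no `ℓ ∈ T`. `s ℓ` fixes all primes
over `ℓ ∈ T`. `K/ℚ` is abelian.
Proof: `a = β ^ q ∈ K` (`pow_mem_of_ty`), `a ≠ 0`.
For `x ∈ Qbˣ` of type `y` and `ℓ ∈ T` let `g` be an extension of `s ℓ` to `Qb`
(`AlgEquiv.restrictNormalHom_surjective`) and `x' = g(x) / x`, of type `(ψ(s ℓ) - 1) y` (`ty_smul`,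
`ty_inv`, `ty_mul`), `x' ^ q = s ℓ (a) / a`, `a = x ^ q`. Do this for all `ℓ ∈ T` (`Finset.induction_on`),
starting with `x = β`. Invariants for `a = x ^ q` and `T'` = the set treated so far:
(i) for `v` over some `ℓ ∈ T'`: `q ∣ v(a)` (in fact `v(a) = 1` just after the step at `ℓ`);
(ii) for `v` containing no `ℓ ∈ T`: `q ∣ v(a)`. For all `ℓ'` the property
`P(ℓ')`: `∃ m, v(a) = exp (q m)` for all `v` containing `ℓ'`, is preserved by `a ↦ σ a / a`
(use `v (σ a) = w(a)`, `w = σ⁻¹ v` contains `ℓ'` too: prove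
`w.valuation K a = v.valuation K (σ a)` if `σ • w.asIdeal = v.asIdeal`, as in the proof of
`valuation_smul_of_stab` in `Helper60/FM/ModC1.lean`), and the step at `ℓ` makes `P(ℓ)` true:
`v(s ℓ (a) / a) = 1` for `v` over `ℓ` by `valuation_smul_of_stab`. The property (ii) is preserved in the
same way. (`K/ℚ` abelian is not even needed: each property only involves one `ℓ'` and all `v` over it.)
At the end multiply `x` by a positive integer `d` (type 0, `ty_of_mem`) to make it integral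
(`IsIntegral.exists_multiple_integral_of_isLocalization` or similar); valuations of `d ^ q` are divisible by
`q`. So `α' = (d x) ^ q ∈ 𝓞 K`.
-/

open NumberField Pointwise IsDedekindDomain

namespace Pool.Agent.EDV

open Pool.Agent.Helper60.FM

/-- transport of the valuation by a Galois element -/
private theorem va_transport {K : Type*} [Field K] [NumberField K]
    (σ : Gal(K/ℚ)) (v w : HeightOneSpectrum (𝓞 K)) (hσ : σ • w.asIdeal = v.asIdeal) (x : K) :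
    v.valuation K (σ x) = w.valuation K x := by
  have hpow : ∀ n : ℕ, σ • (w.asIdeal ^ n) = v.asIdeal ^ n := by
    intro n
    rw [smul_pow', hσ]
  have hint : ∀ a : 𝓞 K, v.intValuation (σ • a) = w.intValuation a := by
    intro a
    by_cases ha : a = 0
    · simp [ha]
    have key : ∀ n : ℕ, σ • a ∈ v.asIdeal ^ n ↔ a ∈ w.asIdeal ^ n := by
      intro n
      rw [← hpow n]
      exact Ideal.smul_mem_pointwise_smul_iff
    have ha' : σ • a ≠ 0 := by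
      intro h0
      apply ha
      have := congrArg (fun y => σ⁻¹ • y) h0
      simpa using this
    apply le_antisymm
    · rw [HeightOneSpectrum.intValuation_if_neg w ha]
      rw [HeightOneSpectrum.intValuation_le_pow_iff_mem]
      rw [key]
      rw [← HeightOneSpectrum.intValuation_le_pow_iff_mem,
        HeightOneSpectrum.intValuation_if_neg w ha]
    · rw [HeightOneSpectrum.intValuation_if_neg v ha']
      rw [HeightOneSpectrum.intValuation_le_pow_iff_mem]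
      rw [← key]
      rw [← HeightOneSpectrum.intValuation_le_pow_iff_mem,
        HeightOneSpectrum.intValuation_if_neg v ha']
  obtain ⟨a, b, hb, rfl⟩ := IsFractionRing.div_surjective (A := 𝓞 K) x
  have h1 : ∀ a : 𝓞 K, σ (algebraMap (𝓞 K) K a) = algebraMap (𝓞 K) K (σ • a) := fun a => rfl
  rw [map_div₀, map_div₀, map_div₀, h1, h1, HeightOneSpectrum.valuation_of_algebraMap,
    HeightOneSpectrum.valuation_of_algebraMap, HeightOneSpectrum.valuation_of_algebraMap,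
    HeightOneSpectrum.valuation_of_algebraMap, hint, hint]

/-- the inverse image of a prime -/
private theorem va_pull {K : Type*} [Field K] [NumberField K]
    (σ : Gal(K/ℚ)) (v : HeightOneSpectrum (𝓞 K)) :
    ∃ w : HeightOneSpectrum (𝓞 K), σ • w.asIdeal = v.asIdeal ∧
      ∀ n : ℕ, (n : 𝓞 K) ∈ w.asIdeal ↔ (n : 𝓞 K) ∈ v.asIdeal := by
  have hvp : v.asIdeal.IsPrime := v.isPrime
  have h1 : (σ⁻¹ • v.asIdeal).IsPrime := by
    rw [Ideal.pointwise_smul_def]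
    exact Ideal.map_isPrime_of_equiv (MulSemiringAction.toRingEquiv Gal(K/ℚ) (𝓞 K) σ⁻¹)
  have h2 : σ⁻¹ • v.asIdeal ≠ ⊥ := by
    intro h0
    apply v.ne_bot
    have h3 : σ • (σ⁻¹ • v.asIdeal) = σ • (⊥ : Ideal (𝓞 K)) := by rw [h0]
    rw [smul_inv_smul] at h3
    rw [h3, Ideal.pointwise_smul_def, Ideal.map_bot]
  refine ⟨⟨σ⁻¹ • v.asIdeal, h1, h2⟩, smul_inv_smul σ v.asIdeal, ?_⟩
  intro n
  show (n : 𝓞 K) ∈ σ⁻¹ • v.asIdeal ↔ _
  have h3 : σ⁻¹ • (n : 𝓞 K) = (n : 𝓞 K) := map_natCast (MulSemiringAction.toRingHom Gal(K/ℚ) (𝓞 K) σ⁻¹) n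
  conv_lhs => rw [← h3]
  exact Ideal.smul_mem_pointwise_smul_iff

private theorem va_div {K : Type*} [Field K] [NumberField K] {q : ℕ} (v : HeightOneSpectrum (𝓞 K)) (a b : K)
    (h : ∃ m : ℤ, v.valuation K a = WithZero.exp ((q : ℤ) * m))
    (h' : ∃ m : ℤ, v.valuation K b = WithZero.exp ((q : ℤ) * m)) :
    ∃ m : ℤ, v.valuation K (a / b) = WithZero.exp ((q : ℤ) * m) := by
  obtain ⟨m, hm⟩ := h
  obtain ⟨m', hm'⟩ := h'
  refine ⟨m - m', ?_⟩
  rw [map_div₀, hm, hm', ← WithZero.exp_sub, mul_sub]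

private theorem va_main {q : ℕ} [NeZero q] {K : IntermediateField ℚ Qb} [FiniteDimensional ℚ K]
    [IsGalois ℚ K] {ω : Gal(K/ℚ) → ℕ} {R : Type*} [CommRing R] (D : KQ q K ω R)
    (ζ : K) (hζ : IsPrimitiveRoot ζ q) (hω : ∀ σ : Gal(K/ℚ), σ ζ = ζ ^ ω σ)
    (T : Finset ℕ) (s : ℕ → Gal(K/ℚ))
    (hs : ∀ ℓ ∈ T, ∀ P : Ideal (𝓞 K), P.IsPrime → (ℓ : 𝓞 K) ∈ P → s ℓ • P = P)
    (β : Qb) (hβ0 : β ≠ 0) (hβ : D.Ty ζ β 1)
    (hval : ∀ α : K, (α : Qb) = β ^ q → ∀ v : HeightOneSpectrum (𝓞 K),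
      (∀ ℓ ∈ T, (ℓ : 𝓞 K) ∉ v.asIdeal) →
      ∃ m : ℤ, v.valuation K α = WithZero.exp ((q : ℤ) * m)) (T' : Finset ℕ) :
    T' ⊆ T → ∃ x : Qb, x ≠ 0 ∧ D.Ty ζ x (∏ ℓ ∈ T', (D.ψ (s ℓ) - 1)) ∧
      ∀ a : K, (a : Qb) = x ^ q → ∀ v : HeightOneSpectrum (𝓞 K),
        ((∀ ℓ ∈ T, (ℓ : 𝓞 K) ∉ v.asIdeal) ∨ ∃ ℓ ∈ T', (ℓ : 𝓞 K) ∈ v.asIdeal) →
        ∃ m : ℤ, v.valuation K a = WithZero.exp ((q : ℤ) * m) := by
  induction T' using Finset.induction_on with
  | empty =>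
    intro _
    refine ⟨β, hβ0, ?_, ?_⟩
    · rw [Finset.prod_empty]
      exact hβ
    · intro a ha v hv
      rcases hv with hv | ⟨ℓ, hℓ, _⟩
      · exact hval a ha v hv
      · exact absurd hℓ (Finset.notMem_empty _)
  | insert ℓ T' hℓT ih =>
    intro hsub
    obtain ⟨x, hx0, hx, hxv⟩ := ih (fun i hi => hsub (Finset.mem_insert_of_mem hi))
    have hℓ : ℓ ∈ T := hsub (Finset.mem_insert_self _ _)
    obtain ⟨g, hg⟩ := AlgEquiv.restrictNormalHom_surjective (F := ℚ) (K₁ := K) Qb (s ℓ)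
    have hg' : res K g = s ℓ := hg
    have hgx0 : g x ≠ 0 := by
      intro h0
      apply hx0
      exact (map_eq_zero g).1 h0
    refine ⟨g x * x⁻¹, mul_ne_zero hgx0 (inv_ne_zero hx0), ?_, ?_⟩
    · have h1 := D.ty_mul ζ hζ (D.ty_smul ζ hζ hω hx g) (D.ty_inv ζ hζ hx)
      rw [hg'] at h1
      rw [Finset.prod_insert hℓT, sub_mul, one_mul, sub_eq_add_neg]
      exact h1
    · intro a' ha' v hv
      let a : K := ⟨x ^ q, D.pow_mem_of_ty ζ hζ hx⟩
      have ha : (a : Qb) = x ^ q := rfl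
      have ha0 : a ≠ 0 := by
        intro h0
        have h1 : (a : Qb) = 0 := by rw [h0]; rfl
        rw [ha] at h1
        exact pow_ne_zero q hx0 h1
      have hsa : ((s ℓ a : K) : Qb) = g (a : Qb) := by
        rw [← hg']
        exact AlgEquiv.restrictNormal_commutes g K a
      have haa : a' = s ℓ a / a := by
        apply Subtype.ext
        rw [ha']
        show (g x * x⁻¹) ^ q = ((s ℓ a / a : K) : Qb)
        have h2 : ((s ℓ a / a : K) : Qb) = ((s ℓ a : K) : Qb) / (a : Qb) := rfl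
        rw [h2, hsa, ha, map_pow, mul_pow, inv_pow, div_eq_mul_inv]
      rw [haa]
      by_cases hv1 : (ℓ : 𝓞 K) ∈ v.asIdeal
      · refine ⟨0, ?_⟩
        have h3 : s ℓ • v.asIdeal = v.asIdeal := hs ℓ hℓ v.asIdeal v.isPrime hv1
        have h4 : v.valuation K a ≠ 0 := (Valuation.ne_zero_iff _).2 ha0
        rw [map_div₀, va_transport (s ℓ) v v h3, div_self h4, mul_zero, WithZero.exp_zero]
      · have hv2 : (∀ ℓ ∈ T, (ℓ : 𝓞 K) ∉ v.asIdeal) ∨ ∃ ℓ ∈ T', (ℓ : 𝓞 K) ∈ v.asIdeal := by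
          rcases hv with hv | ⟨ℓ', h5, h6⟩
          · exact Or.inl hv
          · rcases Finset.mem_insert.1 h5 with h7 | h7
            · rw [h7] at h6
              exact absurd h6 hv1
            · exact Or.inr ⟨ℓ', h7, h6⟩
        obtain ⟨w, hw1, hw2⟩ := va_pull (s ℓ) v
        have hw3 : (∀ ℓ ∈ T, (ℓ : 𝓞 K) ∉ w.asIdeal) ∨ ∃ ℓ ∈ T', (ℓ : 𝓞 K) ∈ w.asIdeal := by
          rcases hv2 with hv | ⟨ℓ', h5, h6⟩
          · left
            intro ℓ' h5 h6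
            exact hv ℓ' h5 ((hw2 ℓ').1 h6)
          · exact Or.inr ⟨ℓ', h5, (hw2 ℓ').2 h6⟩
        apply va_div
        · rw [va_transport (s ℓ) v w hw1]
          exact hxv a ha w hw3
        · exact hxv a ha v hv2

theorem KQ.exists_good {q : ℕ} [NeZero q] {K : IntermediateField ℚ Qb} [FiniteDimensional ℚ K]
    [IsGalois ℚ K] {ω : Gal(K/ℚ) → ℕ} {R : Type*} [CommRing R] (D : KQ q K ω R)
    (ζ : K) (hζ : IsPrimitiveRoot ζ q) (hω : ∀ σ : Gal(K/ℚ), σ ζ = ζ ^ ω σ)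
    (T : Finset ℕ) (s : ℕ → Gal(K/ℚ))
    (hs : ∀ ℓ ∈ T, ∀ P : Ideal (𝓞 K), P.IsPrime → (ℓ : 𝓞 K) ∈ P → s ℓ • P = P)
    (β : Qb) (hβ0 : β ≠ 0) (hβ : D.Ty ζ β 1)
    (hval : ∀ α : K, (α : Qb) = β ^ q → ∀ v : HeightOneSpectrum (𝓞 K),
      (∀ ℓ ∈ T, (ℓ : 𝓞 K) ∉ v.asIdeal) →
      ∃ m : ℤ, v.valuation K α = WithZero.exp ((q : ℤ) * m)) :
    ∃ (β' : Qb) (α' : 𝓞 K), β' ≠ 0 ∧
      ((α' : K) : Qb) = β' ^ q ∧ D.Ty ζ β' (∏ ℓ ∈ T, (D.ψ (s ℓ) - 1)) ∧
      ∀ v : HeightOneSpectrum (𝓞 K), ∃ m : ℤ,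
        v.valuation K (α' : K) = WithZero.exp ((q : ℤ) * m) := by
  obtain ⟨x, hx0, hx, hxv⟩ := va_main D ζ hζ hω T s hs β hβ0 hβ hval T (Finset.Subset.refl T)
  let a : K := ⟨x ^ q, D.pow_mem_of_ty ζ hζ hx⟩
  have ha : (a : Qb) = x ^ q := rfl
  have hav : ∀ v : HeightOneSpectrum (𝓞 K), ∃ m : ℤ, v.valuation K a = WithZero.exp ((q : ℤ) * m) := by
    intro v
    apply hxv a ha v
    by_cases h : ∃ ℓ ∈ T, (ℓ : 𝓞 K) ∈ v.asIdeal
    · exact Or.inr h
    · left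
      intro ℓ h1 h2
      exact h ⟨ℓ, h1, h2⟩
  obtain ⟨n, d, hd, hnd⟩ := IsFractionRing.div_surjective (A := 𝓞 K) a
  have hd0 : d ≠ 0 := nonZeroDivisors.ne_zero hd
  have hdK : (algebraMap (𝓞 K) K d) ≠ 0 := by
    intro h0
    exact hd0 ((IsFractionRing.injective (𝓞 K) K) (by rw [h0, map_zero]))
  have hq : q ≠ 0 := NeZero.ne q
  have hq1 : q = (q - 1) + 1 := by omega
  have hα : ((d ^ (q - 1) * n : 𝓞 K) : K) = (algebraMap (𝓞 K) K d) ^ q * a := by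
    have h1 : ((d ^ (q - 1) * n : 𝓞 K) : K) = (algebraMap (𝓞 K) K d) ^ (q - 1) * algebraMap (𝓞 K) K n := by
      show algebraMap (𝓞 K) K (d ^ (q - 1) * n) = _
      rw [map_mul, map_pow]
    rw [h1, ← hnd]
    conv_rhs => rw [hq1, pow_succ]
    field_simp
  refine ⟨((algebraMap (𝓞 K) K d : K) : Qb) * x, d ^ (q - 1) * n, ?_, ?_, ?_, ?_⟩
  · apply mul_ne_zero _ hx0
    intro h0
    apply hdK
    apply Subtype.ext
    exact h0
  · rw [hα, mul_pow, ← ha]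
    rfl
  · have h1 := D.ty_mul ζ hζ (D.ty_of_mem ζ (x := ((algebraMap (𝓞 K) K d : K) : Qb)) (algebraMap (𝓞 K) K d : K).2) hx
    rw [zero_add] at h1
    exact h1
  · intro v
    obtain ⟨m, hm⟩ := hav v
    have hw0 : v.valuation K (algebraMap (𝓞 K) K d) ≠ 0 := (Valuation.ne_zero_iff _).2 hdK
    refine ⟨WithZero.log (v.valuation K (algebraMap (𝓞 K) K d)) + m, ?_⟩
    rw [hα, map_mul, map_pow, hm]
    conv_lhs => rw [← WithZero.exp_log hw0]
    rw [← WithZero.exp_nsmul, nsmul_eq_mul, ← WithZero.exp_add, mul_add]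

end Pool.Agent.EDV
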