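import Pool.Agent.Helper60.FM.Res
import Pool.Agent.Helper60.FM.ModA

/-!
# EDV-Lat2: the lattice, modulo a ball, characters which need not be residually distinct

As `EDV/Lat.lean`, but `s = ‖f₁ g₀ - f₂ g₀‖` is only the maximum of all `‖f₁ g - f₂ g‖`, with
`0 < s` and `r < s ^ 2`. All congruences hold modulo the ball of radius `r / s`, and `b` has norm at
least `s` at a commutator.
-/

open Matrix

namespace Pool.Agent.EDV

open Pool.Agent.Helper60.FM

variable {E : Type*} [NormedField E] [IsUltrametricDist E] [CompleteSpace E]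

omit [IsUltrametricDist E] [CompleteSpace E] in
private theorem Lat2_mul_left {r : ℝ} {x y : E} (hx : ‖x‖ ≤ 1) (hy : ‖y‖ ≤ r) : ‖x * y‖ ≤ r := by
  rw [norm_mul]
  calc ‖x‖ * ‖y‖ ≤ 1 * ‖y‖ := mul_le_mul_of_nonneg_right hx (norm_nonneg _)
    _ ≤ r := by rwa [one_mul]

omit [IsUltrametricDist E] [CompleteSpace E] in
private theorem Lat2_mul_right {r : ℝ} {x y : E} (hx : ‖x‖ ≤ r) (hy : ‖y‖ ≤ 1) : ‖x * y‖ ≤ r := by
  rw [mul_comm]
  exact Lat2_mul_left hy hx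

/-- Hensel's lemma for a quadratic polynomial with two close roots. -/
private theorem Lat2_root {r s : ℝ} (hr : 0 ≤ r) (hs : 0 < s) (hrs : r < s ^ 2) (hs1 : s ≤ 1)
    (t d c₁ c₂ : E) (h₁ : ‖c₁‖ = 1)
    (ht : ‖t - c₁ - c₂‖ ≤ r) (hd : ‖d - c₁ * c₂‖ ≤ r) (hc : ‖c₁ - c₂‖ = s) :
    ∃ l : E, l * l - t * l + d = 0 ∧ ‖l - c₁‖ ≤ r / s := by
  have hu : c₁ - c₂ ≠ 0 := by
    intro h
    rw [h, norm_zero] at hc
    exact hs.ne hc
  have hρ0 : 0 ≤ r / s := div_nonneg hr hs.le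
  have hrρ : r ≤ r / s := le_div_self hr hs hs1
  have hL0 : 0 ≤ r / s / s := div_nonneg hρ0 hs.le
  have hL1 : r / s / s < 1 := by
    rw [div_div, div_lt_one (by positivity), ← sq]
    exact hrs
  set φ : E → E := fun x => x - (x * x - t * x + d) / (c₁ - c₂) with hφ
  have hlip : ∀ x y : E, ‖x - c₁‖ ≤ r / s → ‖y - c₁‖ ≤ r / s → ‖φ x - φ y‖ ≤ r / s / s * ‖x - y‖ := by
    intro x y hx hy
    have e : φ x - φ y = -(((x - c₁) + (y - c₁) - (t - c₁ - c₂)) / (c₁ - c₂)) * (x - y) := by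
      simp only [hφ]
      field_simp
      ring
    rw [e, norm_mul, norm_neg, norm_div, hc]
    refine mul_le_mul_of_nonneg_right ?_ (norm_nonneg _)
    exact div_le_div_of_nonneg_right (le_sub' (le_add' hx hy) (ht.trans hrρ)) hs.le
  have hc1 : ‖φ c₁ - c₁‖ ≤ r / s := by
    have e : φ c₁ - c₁ = (c₁ * (t - c₁ - c₂) - (d - c₁ * c₂)) / (c₁ - c₂) := by
      simp only [hφ]
      field_simp
      ring
    rw [e, norm_div, hc]
    refine div_le_div_of_nonneg_right (le_sub' ?_ hd) hs.le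
    rw [norm_mul, h₁, one_mul]
    exact ht
  have hmaps : Set.MapsTo φ (Metric.closedBall c₁ (r / s)) (Metric.closedBall c₁ (r / s)) := by
    intro x hx
    rw [Metric.mem_closedBall, dist_eq_norm] at hx ⊢
    have e : φ x - c₁ = (φ x - φ c₁) + (φ c₁ - c₁) := by ring
    rw [e]
    refine le_add' ?_ hc1
    refine (hlip x c₁ hx (by rw [sub_self, norm_zero]; exact hρ0)).trans ?_
    calc r / s / s * ‖x - c₁‖ ≤ 1 * (r / s) := mul_le_mul hL1.le hx (norm_nonneg _) zero_le_one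
      _ = r / s := one_mul _
  have hcomplete : IsComplete (Metric.closedBall c₁ (r / s)) :=
    Metric.isClosed_closedBall.isComplete
  have hcontr : ContractingWith (⟨r / s / s, hL0⟩ : NNReal) (hmaps.restrict φ _ _) := by
    refine ⟨show (⟨r / s / s, hL0⟩ : NNReal) < 1 from NNReal.coe_lt_coe.1 hL1, ?_⟩
    refine LipschitzWith.of_dist_le_mul fun x y => ?_
    rw [Subtype.dist_eq, Subtype.dist_eq, dist_eq_norm, dist_eq_norm]
    have hx := x.2
    have hy := y.2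
    rw [Metric.mem_closedBall, dist_eq_norm] at hx hy
    exact hlip x y hx hy
  obtain ⟨l, hl, hfix, -⟩ := ContractingWith.exists_fixedPoint' hcomplete hmaps hcontr
    (Metric.mem_closedBall_self hρ0) (edist_ne_top c₁ (φ c₁))
  refine ⟨l, ?_, ?_⟩
  · have h := hfix.eq
    simp only [hφ] at h
    rw [sub_eq_self, div_eq_zero_iff] at h
    exact h.resolve_right hu
  · rw [Metric.mem_closedBall, dist_eq_norm] at hl
    exact hl

theorem exists_bJ {G : Type*} [Group G] [TopologicalSpace G] [IsTopologicalGroup G]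
    [CompactSpace G] (V : G →* GL (Fin 2) E) (hV : Continuous V) {r s : ℝ} (hr : 0 ≤ r) (hs : 0 < s)
    (hrs : r < s ^ 2)
    (h2 : ‖(2 : E)‖ = 1) (f₁ f₂ : G → E) (h₁ : ∀ g, ‖f₁ g‖ = 1) (h₂ : ∀ g, ‖f₂ g‖ = 1)
    (hm₁ : ∀ g h, ‖f₁ (g * h) - f₁ g * f₁ h‖ ≤ r) (hm₂ : ∀ g h, ‖f₂ (g * h) - f₂ g * f₂ h‖ ≤ r)
    (htr : ∀ g, ‖trace (V g : Matrix (Fin 2) (Fin 2) E) - f₁ g - f₂ g‖ ≤ r)
    (g₀ : G) (hg₀ : ‖f₁ g₀ - f₂ g₀‖ = s) (hmx : ∀ g, ‖f₁ g - f₂ g‖ ≤ s)
    (N : Subgroup G) (hN₁ : ∀ k ∈ N, ‖f₁ k - 1‖ ≤ r)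
    (hab : ∀ g h : G, g * h * g⁻¹ * h⁻¹ ∈ N)
    (hline : ¬ ∃ v : Fin 2 → E, v ≠ 0 ∧ ∀ g, ∃ c : E,
      (V g : Matrix (Fin 2) (Fin 2) E) *ᵥ v = c • v) :
    ∃ b : G → E, (∀ g, ‖b g‖ ≤ 1) ∧ Continuous b ∧ (∃ g h, s ≤ ‖b (g * h * g⁻¹ * h⁻¹)‖) ∧
      (∀ g h, ‖b (g * h) - (f₁ g * b h + b g * f₂ h)‖ ≤ r / s) ∧
      (∀ g, V g = 1 → b g = 0) ∧
      (∀ (g : G) (t : E), (V g : Matrix (Fin 2) (Fin 2) E) = t • (1 : Matrix (Fin 2) (Fin 2) E) →
        ‖f₁ g - t‖ ≤ r / s ∧ ‖f₂ g - t‖ ≤ r / s) := by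
  classical
  have hs1 : s ≤ 1 := by
    rw [← hg₀]
    exact le_sub' (h₁ _).le (h₂ _).le
  have hr1 : r < 1 := by nlinarith
  have hρ0 : 0 ≤ r / s := div_nonneg hr hs.le
  have hρs : r / s < s := by
    rw [div_lt_iff₀ hs]
    nlinarith
  have hρ1 : r / s < 1 := hρs.trans_le hs1
  have hrρ : r ≤ r / s := le_div_self hr hs hs1
  set T : G → E := fun g => trace (V g : Matrix (Fin 2) (Fin 2) E) with hT
  have hTl : ∀ g, ‖T g‖ ≤ 1 := by
    intro g
    have e : T g = (T g - f₁ g - f₂ g) + (f₁ g + f₂ g) := by ring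
    rw [e]
    exact le_add' ((htr g).trans hr1.le) (le_add' (h₁ g).le (h₂ g).le)
  -- the determinant
  have hdet : ∀ g, ‖det (V g : Matrix (Fin 2) (Fin 2) E) - f₁ g * f₂ g‖ ≤ r := by
    intro g
    have hT2 : T (g * g) = T g * T g - 2 * det (V g : Matrix (Fin 2) (Fin 2) E) := by
      have e1 : (V (g * g) : Matrix (Fin 2) (Fin 2) E) =
          (V g : Matrix (Fin 2) (Fin 2) E) * (V g : Matrix (Fin 2) (Fin 2) E) := by
        rw [map_mul, Units.val_mul]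
      simp only [hT]
      rw [e1, trace_fin_two, trace_fin_two, det_fin_two]
      simp only [mul_apply, Fin.sum_univ_two]
      ring
    have e : 2 * (det (V g : Matrix (Fin 2) (Fin 2) E) - f₁ g * f₂ g) =
        (T g - f₁ g - f₂ g) * (T g + (f₁ g + f₂ g)) - (T (g * g) - f₁ (g * g) - f₂ (g * g)) -
          (f₁ (g * g) - f₁ g * f₁ g) - (f₂ (g * g) - f₂ g * f₂ g) := by
      rw [hT2]
      ring
    have h : ‖2 * (det (V g : Matrix (Fin 2) (Fin 2) E) - f₁ g * f₂ g)‖ ≤ r := by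
      rw [e]
      refine le_sub' (le_sub' (le_sub' ?_ (htr _)) (hm₁ g g)) (hm₂ g g)
      exact Lat2_mul_right (htr g) (le_add' (hTl g) (le_add' (h₁ g).le (h₂ g).le))
    rwa [norm_mul, h2, one_mul] at h
  obtain ⟨l₁, hl₁, hl₁c⟩ := Lat2_root hr hs hrs hs1 (T g₀)
    (det (V g₀ : Matrix (Fin 2) (Fin 2) E)) (f₁ g₀) (f₂ g₀) (h₁ g₀) (htr g₀) (hdet g₀) hg₀
  set l₂ : E := T g₀ - l₁ with hl₂
  have hl₂c : ‖l₂ - f₂ g₀‖ ≤ r / s := by
    have e : l₂ - f₂ g₀ = (T g₀ - f₁ g₀ - f₂ g₀) - (l₁ - f₁ g₀) := by rw [hl₂]; ring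
    rw [e]
    exact le_sub' ((htr g₀).trans hrρ) hl₁c
  have hl12 : ‖l₁ - l₂‖ = s := by
    have e : l₁ - l₂ = (f₁ g₀ - f₂ g₀) + ((l₁ - f₁ g₀) - (l₂ - f₂ g₀)) := by ring
    have h3 : ‖(l₁ - f₁ g₀) - (l₂ - f₂ g₀)‖ < ‖f₁ g₀ - f₂ g₀‖ := by
      rw [hg₀]
      exact (le_sub' hl₁c hl₂c).trans_lt hρs
    rw [e, IsUltrametricDist.norm_add_eq_max_of_norm_ne_norm h3.ne', max_eq_left h3.le, hg₀]
  have hl12' : l₁ - l₂ ≠ 0 := by
    intro h
    rw [h, norm_zero] at hl12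
    exact hs.ne hl12
  have hl₁n : ‖l₁‖ = 1 := norm_one_of_sub (h₁ g₀) (hl₁c.trans_lt hρ1)
  obtain ⟨P, hP⟩ := exists_diag (V g₀ : Matrix (Fin 2) (Fin 2) E) l₁ l₂ (sub_ne_zero.1 hl12')
    (by rw [hl₂]; ring) (by rw [hl₂]; linear_combination hl₁)
  -- the conjugated representation
  set W : G → Matrix (Fin 2) (Fin 2) E :=
    fun g => ((P⁻¹ * V g * P : GL (Fin 2) E) : Matrix (Fin 2) (Fin 2) E) with hW
  have hWmul : ∀ g h, W (g * h) = W g * W h := by
    intro g h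
    simp only [hW]
    rw [← Units.val_mul, map_mul]
    congr 1
    group
  have hWone : ∀ g, V g = 1 → W g = 1 := by
    intro g hg
    simp only [hW]
    rw [hg, mul_one, inv_mul_cancel, Units.val_one]
  have hWs : ∀ (g : G) (s : E), (V g : Matrix (Fin 2) (Fin 2) E) =
      s • (1 : Matrix (Fin 2) (Fin 2) E) → W g = s • (1 : Matrix (Fin 2) (Fin 2) E) := by
    intro g s hg
    simp only [hW]
    rw [Units.val_mul, Units.val_mul, hg, mul_smul_comm, mul_one, smul_mul_assoc, ← Units.val_mul,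
      inv_mul_cancel, Units.val_one]
  have hPW : ∀ g, (V g : Matrix (Fin 2) (Fin 2) E) * (P : Matrix (Fin 2) (Fin 2) E)
      = (P : Matrix (Fin 2) (Fin 2) E) * W g := by
    intro g
    simp only [hW]
    rw [← Units.val_mul, ← Units.val_mul]
    congr 1
    group
  have hW0 : W g₀ = !![l₁, 0; 0, l₂] := by
    have h := (hPW g₀).symm.trans hP
    have h2 := congrArg (fun M => ((P⁻¹ : GL (Fin 2) E) : Matrix (Fin 2) (Fin 2) E) * M) h
    simp only [← mul_assoc] at h2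
    rw [← Units.val_mul, inv_mul_cancel, Units.val_one, one_mul, one_mul] at h2
    exact h2
  have hWtr : ∀ g, W g 0 0 + W g 1 1 = T g := by
    intro g
    have : trace (W g) = T g := by
      simp only [hW, hT, Units.val_mul]
      rw [trace_mul_comm, ← mul_assoc, ← Units.val_mul, mul_inv_cancel, Units.val_one, one_mul]
    rw [← this, trace_fin_two]
  have hWcont : ∀ i j, Continuous fun g => W g i j := by
    intro i j
    have h1 : Continuous fun g => (V g : Matrix (Fin 2) (Fin 2) E) := Units.continuous_val.comp hV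
    have h2 : Continuous W := by
      simp only [hW, Units.val_mul]
      exact (continuous_const.matrix_mul h1).matrix_mul continuous_const
    exact h2.matrix_elem i j
  -- the diagonal entries
  have hT0 : ∀ g, T (g₀ * g) = l₁ * W g 0 0 + l₂ * W g 1 1 := by
    intro g
    rw [← hWtr, hWmul, hW0]
    simp [mul_apply, Fin.sum_univ_two]
  have ha : ∀ g, ‖W g 0 0 - f₁ g‖ ≤ r / s := by
    intro g
    have e : (l₁ - l₂) * (W g 0 0 - f₁ g)
        = (T (g₀ * g) - f₁ (g₀ * g) - f₂ (g₀ * g)) + (f₁ (g₀ * g) - f₁ g₀ * f₁ g) +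
          (f₂ (g₀ * g) - f₂ g₀ * f₂ g) - l₂ * (T g - f₁ g - f₂ g)
          - f₂ g * (T g₀ - f₁ g₀ - f₂ g₀) - (l₁ - f₁ g₀) * (f₁ g - f₂ g) := by
      linear_combination (-1 : E) * hT0 g - l₂ * hWtr g - f₂ g * hl₂
    have hl₂n : ‖l₂‖ ≤ 1 := (norm_one_of_sub (h₂ g₀) (hl₂c.trans_lt hρ1)).le
    have h : ‖(l₁ - l₂) * (W g 0 0 - f₁ g)‖ ≤ r := by
      rw [e]
      refine le_sub' (le_sub' (le_sub' (le_add' (le_add' (htr _) (hm₁ _ _)) (hm₂ _ _)) ?_) ?_) ?_
      · exact Lat2_mul_left hl₂n (htr _)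
      · exact Lat2_mul_left (h₂ _).le (htr _)
      · rw [norm_mul]
        calc ‖l₁ - f₁ g₀‖ * ‖f₁ g - f₂ g‖ ≤ r / s * s :=
              mul_le_mul hl₁c (hmx g) (norm_nonneg _) hρ0
          _ = r := div_mul_cancel₀ r hs.ne'
    rw [norm_mul, hl12] at h
    rw [le_div_iff₀ hs, mul_comm]
    exact h
  have hd : ∀ g, ‖W g 1 1 - f₂ g‖ ≤ r / s := by
    intro g
    have e : W g 1 1 - f₂ g = (T g - f₁ g - f₂ g) - (W g 0 0 - f₁ g) := by
      rw [← hWtr]; ring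
    rw [e]
    exact le_sub' ((htr g).trans hrρ) (ha g)
  have hdn : ∀ g, ‖W g 1 1‖ = 1 := fun g => norm_one_of_sub (h₂ g) ((hd g).trans_lt hρ1)
  -- the upper right entry
  have hbne : ∃ g, W g 0 1 ≠ 0 := by
    by_contra hcon
    push Not at hcon
    refine hline ⟨(P : Matrix (Fin 2) (Fin 2) E) *ᵥ Pi.single 1 1, ?_, fun g => ⟨W g 1 1, ?_⟩⟩
    · intro h0
      have h3 := congrArg
        (fun v => ((P⁻¹ : GL (Fin 2) E) : Matrix (Fin 2) (Fin 2) E) *ᵥ v) h0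
      simp only [mulVec_mulVec, mulVec_zero] at h3
      rw [← Units.val_mul, inv_mul_cancel, Units.val_one, one_mulVec] at h3
      have := congrFun h3 1
      simp at this
    · rw [mulVec_mulVec, hPW g, ← mulVec_mulVec, ← mulVec_smul]
      congr 1
      funext i
      fin_cases i
      · simp [hcon g]
      · simp
  obtain ⟨g₁, -, hg₁⟩ := isCompact_univ.exists_isMaxOn (s := (Set.univ : Set G))
    ⟨1, Set.mem_univ _⟩ (hWcont 0 1).norm.continuousOn
  have hmax : ∀ g, ‖W g 0 1‖ ≤ ‖W g₁ 0 1‖ := fun g => hg₁ (Set.mem_univ g)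
  have hb1 : W g₁ 0 1 ≠ 0 := by
    obtain ⟨g, hg⟩ := hbne
    intro h0
    have := hmax g
    rw [h0, norm_zero] at this
    exact hg (norm_eq_zero.1 (le_antisymm this (norm_nonneg _)))
  have hb1' : 0 < ‖W g₁ 0 1‖ := norm_pos_iff.2 hb1
  set b : G → E := fun g => W g 0 1 / W g₁ 0 1 with hb
  have hble : ∀ g, ‖b g‖ ≤ 1 := by
    intro g
    simp only [hb]
    rw [norm_div, div_le_one hb1']
    exact hmax g
  have hbg₁ : b g₁ = 1 := div_self hb1
  have hbmul : ∀ g h, b (g * h) = W g 0 0 * b h + b g * W h 1 1 := by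
    intro g h
    simp only [hb]
    rw [hWmul, mul_apply, Fin.sum_univ_two]
    ring
  have hbg₀ : b g₀ = 0 := by
    simp only [hb]
    rw [hW0]
    simp
  refine ⟨b, hble, (hWcont 0 1).div_const _, ?_, ?_, ?_, ?_⟩
  · refine ⟨g₁, g₀, ?_⟩
    by_contra hcon
    rw [not_le] at hcon
    set k : G := g₁ * g₀ * g₁⁻¹ * g₀⁻¹ with hk
    have hkN : k ∈ N := hab g₁ g₀
    have hkey : k * (g₀ * g₁) = g₁ * g₀ := by rw [hk]; group
    have e1 : b (g₁ * g₀) = b g₁ * l₂ := by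
      rw [hbmul, hbg₀, mul_zero, zero_add, hW0]
      simp
    have e2 : b (g₀ * g₁) = l₁ * b g₁ := by
      rw [hbmul, hbg₀, zero_mul, add_zero, hW0]
      simp
    have e3 : b g₁ * (l₂ - l₁) = (W k 0 0 - 1) * (l₁ * b g₁) + b k * W (g₀ * g₁) 1 1 := by
      have h := hbmul k (g₀ * g₁)
      rw [hkey, e1, e2] at h
      linear_combination h
    have h4 : ‖W k 0 0 - 1‖ < s := by
      have e4 : W k 0 0 - 1 = (W k 0 0 - f₁ k) + (f₁ k - 1) := by ring
      rw [e4]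
      exact (le_add' (ha k) ((hN₁ k hkN).trans hrρ)).trans_lt hρs
    have h5 : ‖b g₁ * (l₂ - l₁)‖ < s := by
      rw [e3]
      refine (IsUltrametricDist.norm_add_le_max _ _).trans_lt (max_lt ?_ ?_)
      · rw [norm_mul, norm_mul, hl₁n, one_mul, hbg₁, norm_one, mul_one]
        exact h4
      · rw [norm_mul, hdn, mul_one]
        exact hcon
    rw [hbg₁, one_mul, norm_sub_rev, hl12] at h5
    exact lt_irrefl _ h5
  · intro g h
    have e : b (g * h) - (f₁ g * b h + b g * f₂ h)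
        = (W g 0 0 - f₁ g) * b h + b g * (W h 1 1 - f₂ h) := by
      rw [hbmul]; ring
    rw [e]
    exact le_add' (Lat2_mul_right (ha g) (hble h)) (Lat2_mul_left (hble g) (hd h))
  · intro g hg
    simp only [hb]
    rw [hWone g hg]
    simp
  · intro g s hg
    have hw := hWs g s hg
    have h00 := ha g
    have h11 := hd g
    rw [hw] at h00 h11
    have e0 : (s • (1 : Matrix (Fin 2) (Fin 2) E)) 0 0 = s := by simp
    have e1 : (s • (1 : Matrix (Fin 2) (Fin 2) E)) 1 1 = s := by simp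
    rw [e0, norm_sub_rev] at h00
    rw [e1, norm_sub_rev] at h11
    exact ⟨h00, h11⟩

end Pool.Agent.EDV
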