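import Pool.Agent.EDV.Res
import Pool.Agent.EDV.Kum
import Pool.Agent.EDV.Val
import Pool.Agent.EDV.Lat2
import Pool.Agent.EDV.Func
import Pool.Agent.EDV.Beta
import Pool.Agent.EDV.ValA
import Pool.Agent.EDV.Eta
import Pool.Agent.EDV.Ram
import Pool.Agent.Helper60.FM.MainB

/-!
# EDV-Core2: the core theorem for a subfield `K` of `Qb`, without residual hypothesis

As `EDV/Core.lean`, but `f₁` and `f₂` need not be residually distinct: with `s` any value of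
`‖f₁ σ - f₂ σ‖` the conclusion has the factor `s ^ 2`. The element `k₀` with `s ≤ ‖b k₀‖` is a
commutator, so it fixes all roots of unity; this replaces the unit `π` of `EDV/Core.lean`.
-/

open NumberField Pointwise Matrix

namespace Pool.Agent.EDV

open Pool.Agent.Helper60.FM Pool.Agent.AAP

/-- commutators fix the roots of unity -/
private theorem comm_root {n : ℕ} (hn : 0 < n) {η : Qb} (hη : η ^ n = 1) (g h : GQ) :
    (g * h * g⁻¹ * h⁻¹) η = η := by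
  have : NeZero n := ⟨hn.ne'⟩
  have key : ∀ (σ : GQ) (x : Qb), x ^ n = 1 → ∃ a : ℕ, σ x = x ^ a := by
    intro σ x hx
    obtain ⟨a, ha⟩ := map_rootsOfUnity_eq_pow_self σ (rootsOfUnity.mkOfPowEq x hx)
    exact ⟨a, by simpa using ha⟩
  set x : Qb := g⁻¹ (h⁻¹ η) with hx
  have hxn : x ^ n = 1 := by rw [hx, ← map_pow, ← map_pow, hη, map_one, map_one]
  obtain ⟨a, ha⟩ := key g x hxn
  obtain ⟨b, hb⟩ := key h x hxn
  have e1 : h (g x) = η := by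
    rw [hx]
    change h (g (g⁻¹ (h⁻¹ η))) = η
    have e3 : g (g⁻¹ (h⁻¹ η)) = h⁻¹ η := g.apply_symm_apply _
    have e4 : h (h⁻¹ η) = η := h.apply_symm_apply _
    rw [e3, e4]
  have e2 : (g * h * g⁻¹ * h⁻¹) η = g (h x) := rfl
  rw [e2, ← e1, ha, hb, map_pow, map_pow, ha, hb, ← pow_mul, ← pow_mul, mul_comm]

/-- an even involution acts as a scalar -/
private theorem scalar_of_even {E : Type*} [Field E] (h2 : (2 : E) ≠ 0)
    (A : Matrix (Fin 2) (Fin 2) E) (hA : A * A = 1) (hd : det A = 1) :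
    ∃ s : E, A = s • (1 : Matrix (Fin 2) (Fin 2) E) := by
  have h1 : A * A = trace A • A - det A • (1 : Matrix (Fin 2) (Fin 2) E) := by
    ext i j
    rw [Matrix.trace_fin_two, Matrix.det_fin_two]
    fin_cases i <;> fin_cases j <;>
      simp [Matrix.mul_apply, Fin.sum_univ_two] <;> ring
  rw [hA, hd, one_smul] at h1
  have h3 : trace A • A = (2 : E) • (1 : Matrix (Fin 2) (Fin 2) E) := by
    rw [two_smul]
    exact (eq_add_of_sub_eq h1.symm)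
  have ht : trace A ≠ 0 := by
    intro h0
    rw [h0, zero_smul] at h3
    have h4 := congrFun (congrFun h3 0) 0
    simp at h4
    exact h2 h4.symm
  refine ⟨(trace A)⁻¹ * 2, ?_⟩
  rw [mul_smul, ← h3, smul_smul, inv_mul_cancel₀ ht, one_smul]

section

variable {q : ℕ} {K : Type*} [Field K] [NumberField K] {ζ : K} {ω : Gal(K/ℚ) → ℕ}

private theorem cast_eq_of_pow {R : Type*} [CommRing R] (hζ : IsPrimitiveRoot ζ q) (hq : q ≠ 0)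
    (hR : (q : R) = 0) {a b : ℕ} (h : ζ ^ a = ζ ^ b) : (a : R) = (b : R) := by
  obtain ⟨c, hc⟩ := dvd_of_pow_eq hζ (hζ.ne_zero hq) h
  have h3 := congrArg (fun z : ℤ => (z : R)) hc
  simp only [Int.cast_sub, Int.cast_natCast, Int.cast_mul, hR, zero_mul] at h3
  exact (sub_eq_zero.1 h3).symm

private theorem om_mul {R : Type*} [CommRing R] (hζ : IsPrimitiveRoot ζ q) (hq : q ≠ 0)
    (hω : ∀ σ : Gal(K/ℚ), σ ζ = ζ ^ ω σ) (hR : (q : R) = 0) (σ τ : Gal(K/ℚ)) :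
    (ω (σ * τ) : R) = ω σ * ω τ := by
  have h1 : ζ ^ ω (σ * τ) = ζ ^ (ω σ * ω τ) := by
    rw [← hω, AlgEquiv.mul_apply, hω τ, map_pow, hω σ, ← pow_mul]
  rw [cast_eq_of_pow hζ hq hR h1, Nat.cast_mul]

private theorem om_one {R : Type*} [CommRing R] (hζ : IsPrimitiveRoot ζ q) (hq : q ≠ 0)
    (hω : ∀ σ : Gal(K/ℚ), σ ζ = ζ ^ ω σ) (hR : (q : R) = 0) : (ω (1 : Gal(K/ℚ)) : R) = 1 := by
  have h1 : ζ ^ ω (1 : Gal(K/ℚ)) = ζ ^ 1 := by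
    rw [← hω, pow_one]
    rfl
  rw [cast_eq_of_pow hζ hq hR h1, Nat.cast_one]

private theorem om_conj [IsCMField K] (hq : q ≠ 0) {R : Type*} [CommRing R]
    (hζ : IsPrimitiveRoot ζ q) (hω : ∀ σ : Gal(K/ℚ), σ ζ = ζ ^ ω σ) (hR : (q : R) = 0)
    (c : Gal(K/ℚ)) (hc : ∀ x : K, c x = IsCMField.complexConj K x) : (ω c : R) = -1 := by
  have h1 : c ζ = ζ⁻¹ := by
    rw [hc]
    let φ : K →+* ℂ := Classical.choice (inferInstance : Nonempty _)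
    apply φ.injective
    rw [IsCMField.complexEmbedding_complexConj, map_inv₀]
    have h2 : (φ ζ) ^ q = 1 := by rw [← map_pow, hζ.pow_eq_one, map_one]
    have h3 : ‖φ ζ‖ = 1 := Complex.norm_eq_one_of_pow_eq_one h2 hq
    exact (Complex.inv_eq_conj h3).symm
  have h2 : ζ ^ (ω c + 1) = 1 := by
    rw [pow_succ, ← hω, h1, inv_mul_cancel₀ (hζ.ne_zero hq)]
  have h3 := hζ.dvd_of_pow_eq_one _ h2
  obtain ⟨d, hd⟩ := h3
  have h4 : ((ω c + 1 : ℕ) : R) = 0 := by rw [hd, Nat.cast_mul, hR, zero_mul]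
  rw [Nat.cast_add, Nat.cast_one] at h4
  exact eq_neg_of_add_eq_zero_left h4

end

theorem coreJ {p k : ℕ} [Fact p.Prime] (hp : p ≠ 2) (hk : 1 ≤ k) {E : Type*} [NormedField E]
    [IsUltrametricDist E] [CompleteSpace E] [NormedAlgebra ℚ_[p] E]
    (K : IntermediateField ℚ Qb) [FiniteDimensional ℚ K] [IsAbelianGalois ℚ K]
    (ζ : K) (hζ : IsPrimitiveRoot ζ (p ^ k)) (ω : Gal(K/ℚ) → ℕ) (hω : ∀ σ, σ ζ = ζ ^ ω σ)
    {r₀ : ℝ} (hpr₀ : ‖(p : E)‖ ^ k ≤ r₀)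
    (f₁ f₂ : Gal(K/ℚ) → E) (h₁ : ∀ σ, ‖f₁ σ‖ = 1) (h₂ : ∀ σ, ‖f₂ σ‖ = 1)
    (hm₁₀ : ∀ σ τ, ‖f₁ (σ * τ) - f₁ σ * f₁ τ‖ ≤ r₀)
    (hm₂₀ : ∀ σ τ, ‖f₂ (σ * τ) - f₂ σ * f₂ τ‖ ≤ r₀)
    (σ₁ : Gal(K/ℚ))
    (V : GQ →* GL (Fin 2) E) (hV : Continuous V) (heven : IsEven V) (hline : ¬ HasLine V)
    (htr₀ : ∀ g, ‖tr V g - f₁ (res K g) - f₂ (res K g)‖ ≤ r₀)
    (S : Set ℕ) (htame : ∀ ℓ : ℕ, ℓ.Prime → ℓ ∉ S → ∀ 𝔓 : Ideal ZQ, 𝔓.IsPrime → (ℓ : ZQ) ∈ 𝔓 →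
      ∀ g ∈ In 𝔓, ∃ m : ℕ, ¬ p ∣ m ∧ V g ^ m = 1)
    (s : ℕ → Gal(K/ℚ)) (hs : ∀ ℓ ∈ S, ℓ.Prime → ∀ P : Ideal (𝓞 K), P.IsPrime →
      (ℓ : 𝓞 K) ∈ P → s ℓ • P = P)
    (ν : Gal(K/ℚ) → ℕ)
    (hν : ∀ 𝔞 : Ideal (𝓞 K), 𝔞 ≠ ⊥ → (∏ σ, (σ • 𝔞) ^ ν σ).IsPrincipal) :
    ∃ T : Finset ℕ, (∀ ℓ ∈ T, ℓ ∈ S ∧ ℓ.Prime) ∧
      ‖f₁ σ₁ - f₂ σ₁‖ ^ 2 * ((∏ ℓ ∈ T, ‖(ω (s ℓ) : E) * f₂ (s ℓ) - f₁ (s ℓ)‖) *
        ‖∑ σ, (ν σ : E) * ((ω σ : E) * f₂ σ * (f₁ σ)⁻¹)‖) ≤ r₀ := by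
  classical
  -- the trivial case
  have hω1 : ∀ σ, ‖(ω σ : E)‖ ≤ 1 := fun σ => norm_natCast_le_one _
  have htriv : ∀ x y : Gal(K/ℚ), ‖(ω y : E) * f₂ x - f₁ x‖ ≤ 1 := by
    intro x y
    refine le_sub' ?_ (h₁ x).le
    rw [norm_mul, h₂, mul_one]
    exact hω1 y
  have hr₀ : 0 < r₀ := by
    refine lt_of_lt_of_le (pow_pos (norm_pos_iff.2 ?_) k) hpr₀
    have h1 : (p : E) = algebraMap ℚ_[p] E (p : ℚ_[p]) := by simp
    rw [h1]
    exact (map_ne_zero _).2 (Nat.cast_ne_zero.2 (Fact.out : p.Prime).ne_zero)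
  obtain ⟨σ₀, -, hσ₀⟩ := Finset.exists_max_image Finset.univ (fun σ => ‖f₁ σ - f₂ σ‖)
    ⟨1, Finset.mem_univ _⟩
  set w : ℝ := ‖f₁ σ₀ - f₂ σ₀‖ with hw
  have hmx : ∀ σ, ‖f₁ σ - f₂ σ‖ ≤ w := fun σ => hσ₀ σ (Finset.mem_univ _)
  have hYn : ‖∑ σ, (ν σ : E) * ((ω σ : E) * f₂ σ * (f₁ σ)⁻¹)‖ ≤ 1 := by
    refine IsUltrametricDist.norm_sum_le_of_forall_le_of_nonneg zero_le_one fun σ _ => ?_
    rw [norm_mul, norm_mul, norm_mul, norm_inv, h₁, h₂, inv_one, mul_one, mul_one]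
    exact mul_le_one₀ (norm_natCast_le_one _) (norm_nonneg _) (norm_natCast_le_one _)
  have hPn : ∀ T : Finset ℕ, ∏ ℓ ∈ T, ‖(ω (s ℓ) : E) * f₂ (s ℓ) - f₁ (s ℓ)‖ ≤ 1 :=
    fun T => Finset.prod_le_one (fun _ _ => norm_nonneg _) fun ℓ _ => htriv _ _
  have hP0 : ∀ T : Finset ℕ, 0 ≤ ∏ ℓ ∈ T, ‖(ω (s ℓ) : E) * f₂ (s ℓ) - f₁ (s ℓ)‖ :=
    fun T => Finset.prod_nonneg fun _ _ => norm_nonneg _
  have hw1 : w ≤ 1 := le_sub' (h₁ _).le (h₂ _).le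
  suffices hmain : ∃ T : Finset ℕ, (∀ ℓ ∈ T, ℓ ∈ S ∧ ℓ.Prime) ∧
      w ^ 2 * ((∏ ℓ ∈ T, ‖(ω (s ℓ) : E) * f₂ (s ℓ) - f₁ (s ℓ)‖) *
        ‖∑ σ, (ν σ : E) * ((ω σ : E) * f₂ σ * (f₁ σ)⁻¹)‖) ≤ r₀ by
    obtain ⟨T, hT, h⟩ := hmain
    refine ⟨T, hT, le_trans (mul_le_mul_of_nonneg_right ?_ (mul_nonneg (hP0 T) (norm_nonneg _))) h⟩
    exact pow_le_pow_left₀ (norm_nonneg _) (hmx σ₁) 2
  rcases le_or_gt (w ^ 2) r₀ with hwr | hwr
  · refine ⟨∅, by simp, le_trans ?_ hwr⟩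
    exact mul_le_of_le_one_right (by positivity) (mul_le_one₀ (hPn ∅) (norm_nonneg _) hYn)
  have hw0 : 0 < w := by
    rcases (norm_nonneg (f₁ σ₀ - f₂ σ₀)).eq_or_lt with h | h
    · rw [hw, ← h] at hwr
      norm_num at hwr
      exact absurd hwr (not_lt.2 hr₀.le)
    · exact h
  set r : ℝ := r₀ / w with hrdef0
  have hr₀r : r₀ ≤ r := le_div_self hr₀.le hw0 hw1
  have hr1 : r < 1 := by
    rw [hrdef0, div_lt_one hw0]
    nlinarith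
  have hpr : ‖(p : E)‖ ^ k ≤ r := hpr₀.trans hr₀r
  have hm₁ : ∀ σ τ, ‖f₁ (σ * τ) - f₁ σ * f₁ τ‖ ≤ r := fun σ τ => (hm₁₀ σ τ).trans hr₀r
  have hm₂ : ∀ σ τ, ‖f₂ (σ * τ) - f₂ σ * f₂ τ‖ ≤ r := fun σ τ => (hm₂₀ σ τ).trans hr₀r
  have hpp : p.Prime := Fact.out
  have hq0 : p ^ k ≠ 0 := pow_ne_zero _ hpp.ne_zero
  have : NeZero (p ^ k) := ⟨hq0⟩
  have hpE0 : (p : E) ≠ 0 := by
    have h1 : (p : E) = algebraMap ℚ_[p] E (p : ℚ_[p]) := by simp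
    rw [h1]
    exact (map_ne_zero _).2 (Nat.cast_ne_zero.2 hpp.ne_zero)
  have hr0 : 0 < r := (pow_pos (norm_pos_iff.2 hpE0) k).trans_le hpr
  have h2E : ‖(2 : E)‖ = 1 := by
    have := norm_natCast_eq_one (p := p) (E := E) (n := 2)
      (fun h => hp ((Nat.prime_dvd_prime_iff_eq hpp Nat.prime_two).1 h))
    exact_mod_cast this
  have h20 : (2 : E) ≠ 0 := by
    intro h
    rw [h, norm_zero] at h2E
    exact zero_ne_one h2E
  have hcm : IsCMField K := by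
    have h1 : IsPrimitiveRoot (ζ ^ p ^ (k - 1)) p := by
      refine hζ.pow (Nat.pos_of_ne_zero hq0) ?_
      rw [← pow_succ]
      congr 1
      omega
    have : IsTotallyComplex K := isTotallyComplex_of_prim
      (lt_of_le_of_ne hpp.two_le (Ne.symm hp)) K _ h1
    infer_instance
  set hr : 0 ≤ r := hr0.le with hrdef
  have hqR : ((p ^ k : ℕ) : RE E r hr) = 0 := natCast_pow_eq_zero hr p k hpr
  -- values at 1
  have hone : ∀ f : Gal(K/ℚ) → E, (∀ σ, ‖f σ‖ = 1) →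
      (∀ σ τ, ‖f (σ * τ) - f σ * f τ‖ ≤ r) → ‖f 1 - 1‖ ≤ r := by
    intro f hf hm
    have h1 := hm 1 1
    rw [mul_one] at h1
    have h3 : f 1 - f 1 * f 1 = -(f 1 * (f 1 - 1)) := by ring
    rwa [h3, norm_neg, norm_mul, hf, one_mul] at h1
  have hone₀ : ‖f₁ 1 - 1‖ ≤ r₀ := by
    have h1 := hm₁₀ 1 1
    rw [mul_one] at h1
    have h3 : f₁ 1 - f₁ 1 * f₁ 1 = -(f₁ 1 * (f₁ 1 - 1)) := by ring
    rwa [h3, norm_neg, norm_mul, h₁, one_mul] at h1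
  -- the lattice
  obtain ⟨g₀, hg₀⟩ := AlgEquiv.restrictNormalHom_surjective (F := ℚ) (K₁ := K) Qb σ₀
  have hg₀' : res K g₀ = σ₀ := hg₀
  obtain ⟨b, hb1, hbc, ⟨x₀, y₀, hbk₀⟩, hbmul, hbker, hbs⟩ := exists_bJ V hV hr₀.le hw0 hwr h2E
    (fun g => f₁ (res K g)) (fun g => f₂ (res K g)) (fun g => h₁ _) (fun g => h₂ _)
    (fun g h => by rw [map_mul]; exact hm₁₀ _ _) (fun g h => by rw [map_mul]; exact hm₂₀ _ _)
    htr₀ g₀ (by rw [hg₀']) (fun g => hmx _)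
    K.fixingSubgroup
    (fun k hk => by
      rw [(mem_fix_iff_res K k).1 hk]
      exact hone₀)
    (comm_mem_fix K) hline
  set k₀ : GQ := x₀ * y₀ * x₀⁻¹ * y₀⁻¹ with hk₀def
  have hk₀ : k₀ ∈ K.fixingSubgroup := comm_mem_fix K x₀ y₀
  -- reductions
  let R := RE E r hr
  have hmulc : ∀ f : Gal(K/ℚ) → E, (∀ σ, ‖f σ‖ = 1) →
      (∀ σ τ, ‖f (σ * τ) - f σ * f τ‖ ≤ r) → ∀ σ τ, rd hr (f (σ * τ)) = rd hr (f σ) * rd hr (f τ) := by
    intro f hf hm σ τ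
    rw [← rd_mul hr (hf σ).le (hf τ).le, rd_eq_rd hr (hf _).le
      (by rw [norm_mul, hf, hf, one_mul])]
    exact hm σ τ
  have honec : ∀ f : Gal(K/ℚ) → E, (∀ σ, ‖f σ‖ = 1) →
      (∀ σ τ, ‖f (σ * τ) - f σ * f τ‖ ≤ r) → rd hr (f 1) = 1 := by
    intro f hf hm
    rw [← rd_one hr, rd_eq_rd hr (hf _).le (by simp)]
    exact hone f hf hm
  let C₁ : Gal(K/ℚ) →* R :=
    { toFun := fun σ => rd hr (f₁ σ), map_one' := honec f₁ h₁ hm₁, map_mul' := hmulc f₁ h₁ hm₁ }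
  let C₂ : Gal(K/ℚ) →* R :=
    { toFun := fun σ => rd hr (f₂ σ), map_one' := honec f₂ h₂ hm₂, map_mul' := hmulc f₂ h₂ hm₂ }
  have h₁i : ∀ σ, ‖(f₁ σ)⁻¹‖ = 1 := fun σ => by rw [norm_inv, h₁, inv_one]
  have h₁0 : ∀ σ, f₁ σ ≠ 0 := fun σ h => by
    have := h₁ σ
    rw [h, norm_zero] at this
    exact zero_ne_one this
  have hCinv : ∀ σ, C₁ σ * rd hr ((f₁ σ)⁻¹) = 1 := by
    intro σ
    change rd hr (f₁ σ) * rd hr ((f₁ σ)⁻¹) = 1
    rw [← rd_mul hr (h₁ σ).le (h₁i σ).le, mul_inv_cancel₀ (h₁0 σ), rd_one]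
  let C₁i : Gal(K/ℚ) →* R :=
    { toFun := fun σ => rd hr ((f₁ σ)⁻¹)
      map_one' := by
        have h1 := hCinv 1
        rwa [map_one, one_mul] at h1
      map_mul' := by
        intro σ τ
        have h1 := hCinv (σ * τ)
        rw [map_mul] at h1
        have h3 := hCinv σ
        have h4 := hCinv τ
        calc rd hr ((f₁ (σ * τ))⁻¹)
            = (C₁ σ * rd hr ((f₁ σ)⁻¹)) * (C₁ τ * rd hr ((f₁ τ)⁻¹)) * rd hr ((f₁ (σ * τ))⁻¹) := by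
              rw [h3, h4, one_mul, one_mul]
          _ = (C₁ σ * C₁ τ * rd hr ((f₁ (σ * τ))⁻¹)) * (rd hr ((f₁ σ)⁻¹) * rd hr ((f₁ τ)⁻¹)) := by
              ring
          _ = rd hr ((f₁ σ)⁻¹) * rd hr ((f₁ τ)⁻¹) := by rw [h1, one_mul] }
  have hC₁i : ∀ σ, C₁ σ * C₁i σ = 1 := hCinv
  let Ω : Gal(K/ℚ) →* R :=
    { toFun := fun σ => (ω σ : R), map_one' := om_one hζ hq0 hω hqR, map_mul' := om_mul hζ hq0 hω hqR }
  let ψ : Gal(K/ℚ) →* R := Ω * C₂ * C₁i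
  have hψ : ∀ σ, ψ σ = (ω σ : R) * C₂ σ * C₁i σ := fun σ => rfl
  let B : GQ → R := fun g => rd hr (b g)
  have hBmul : ∀ g h, B (g * h) = C₁ (res K g) * B h + B g * C₂ (res K h) := by
    intro g h
    have e1 : ‖f₁ (res K g) * b h‖ ≤ 1 := by
      rw [norm_mul, h₁, one_mul]; exact hb1 h
    have e2 : ‖b g * f₂ (res K h)‖ ≤ 1 := by
      rw [norm_mul, h₂, mul_one]; exact hb1 g
    have e3 := (rd_eq_rd hr (hb1 (g * h)) (norm_add_le_one E e1 e2)).2 (hbmul g h)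
    change rd hr (b (g * h)) = _
    rw [e3, rd_add hr e1 e2, rd_mul hr (h₁ _).le (hb1 h), rd_mul hr (hb1 g) (h₂ _).le]
    rfl
  have hB0 : ∀ g, B g = 0 ↔ ‖b g‖ ≤ r := fun g => rd_eq_zero hr (hb1 g)
  have hBfix : ∀ g ∈ K.fixingSubgroup, ∀ h ∈ K.fixingSubgroup, B (g * h) = B g + B h := by
    intro g hg h hh
    rw [hBmul, (mem_fix_iff_res K g).1 hg, (mem_fix_iff_res K h).1 hh, map_one, map_one, one_mul,
      mul_one, add_comm]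
  have hBV : ∀ g, V g = 1 → B g = 0 := by
    intro g hg
    change rd hr (b g) = 0
    rw [hbker g hg, rd_zero]
  have hB1 : B 1 = 0 := hBV 1 (map_one V)
  have hBpow : ∀ g ∈ K.fixingSubgroup, ∀ n : ℕ, B (g ^ n) = (n : R) * B g := by
    intro g hg n
    induction n with
    | zero => rw [pow_zero, hB1, Nat.cast_zero, zero_mul]
    | succ n ih =>
      rw [pow_succ, hBfix _ (Subgroup.pow_mem _ hg n) _ hg, ih, Nat.cast_succ]
      ring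
  -- the open subgroup
  let U : Subgroup GQ :=
    { carrier := {g | g ∈ K.fixingSubgroup ∧ B g = 0}
      one_mem' := ⟨Subgroup.one_mem _, hB1⟩
      mul_mem' := by
        rintro g h ⟨hg, hg0⟩ ⟨hh, hh0⟩
        exact ⟨Subgroup.mul_mem _ hg hh, by rw [hBfix g hg h hh, hg0, hh0, add_zero]⟩
      inv_mem' := by
        rintro g ⟨hg, hg0⟩
        refine ⟨Subgroup.inv_mem _ hg, ?_⟩
        have h1 := hBfix g hg g⁻¹ (Subgroup.inv_mem _ hg)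
        rw [mul_inv_cancel, hB1, hg0, zero_add] at h1
        exact h1.symm }
  have hUmem : ∀ g, g ∈ U ↔ g ∈ K.fixingSubgroup ∧ B g = 0 := fun g => Iff.rfl
  have hball : IsOpen {g : GQ | ‖b g‖ ≤ r} := by
    have h1 : {g : GQ | ‖b g‖ ≤ r} = b ⁻¹' (Metric.closedBall 0 r) := by
      ext g
      simp
    rw [h1]
    exact (IsUltrametricDist.isOpen_closedBall (0 : E) hr0.ne').preimage hbc
  have hUopen : IsOpen (U : Set GQ) := by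
    have h1 : (U : Set GQ) = (K.fixingSubgroup : Set GQ) ∩ {g : GQ | ‖b g‖ ≤ r} := by
      ext g
      rw [SetLike.mem_coe, hUmem, hB0]
      rfl
    rw [h1]
    exact (IntermediateField.fixingSubgroup_isOpen K).inter hball
  let T : Finset ℕ := (finite_ram U hUopen).toFinset.filter (· ∈ S)
  have hT : ∀ ℓ ∈ T, ℓ ∈ S ∧ ℓ.Prime := by
    intro ℓ hℓ
    rw [Finset.mem_filter, Set.Finite.mem_toFinset] at hℓ
    exact ⟨hℓ.2, hℓ.1.1⟩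
  have hinert : ∀ ℓ : ℕ, ℓ.Prime → ℓ ∉ T → ∀ 𝔓 : Ideal ZQ, 𝔓.IsPrime → (ℓ : ZQ) ∈ 𝔓 →
      ∀ g ∈ In 𝔓, g ∈ K.fixingSubgroup → B g = 0 := by
    intro ℓ hℓ hℓT 𝔓 h𝔓 hℓ𝔓 g hg hgK
    by_cases hℓS : ℓ ∈ S
    · by_contra hcon
      apply hℓT
      rw [Finset.mem_filter, Set.Finite.mem_toFinset]
      exact ⟨⟨hℓ, 𝔓, h𝔓, hℓ𝔓, g, hg, fun h => hcon ((hUmem g).1 h).2⟩, hℓS⟩
    · obtain ⟨m, hm, hVm⟩ := htame ℓ hℓ hℓS 𝔓 h𝔓 hℓ𝔓 g hg
      have h1 := hBpow g hgK m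
      rw [hBV (g ^ m) (by rw [map_pow, hVm])] at h1
      have h3 : (m : R) * B g = rd hr ((m : E) * b g) := by
        rw [rd_mul hr (norm_natCast_le_one _) (hb1 g), rd_natCast]
      rw [h3] at h1
      have h4 := (rd_eq_zero hr (by
        rw [norm_mul, norm_natCast_eq_one (p := p) hm, one_mul]
        exact hb1 g)).1 h1.symm
      rw [norm_mul, norm_natCast_eq_one (p := p) hm, one_mul] at h4
      exact (hB0 g).2 h4
  -- the lifts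
  let z : R := ∏ ℓ ∈ T, (ψ (s ℓ) - 1)
  let W : R := ∑ σ, (ν σ : R) * ψ σ
  have hωn1 : ∀ σ, ‖(ω σ : E)‖ = 1 := by
    intro σ
    apply norm_natCast_eq_one (p := p)
    intro hdvd
    have h1 : ζ ^ (ω σ * ω σ⁻¹) = ζ ^ 1 := by
      have h3 : (σ * σ⁻¹) ζ = ζ := by rw [mul_inv_cancel]; rfl
      rw [AlgEquiv.mul_apply, hω σ⁻¹, map_pow, hω σ, ← pow_mul] at h3
      rw [h3, pow_one]
    have h3 : ω σ * ω σ⁻¹ ≡ 1 [MOD p ^ k] := by
      rw [Nat.modEq_iff_dvd]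
      exact dvd_of_pow_eq hζ (hζ.ne_zero hq0) h1
    have h4 : ω σ * ω σ⁻¹ ≡ 1 [MOD p] := h3.of_dvd (dvd_pow_self p (by omega))
    have h5 : p ∣ ω σ * ω σ⁻¹ := Dvd.dvd.mul_right hdvd _
    have h6 : p ∣ 1 := (Nat.modEq_zero_iff_dvd.1 (h4.symm.trans (Nat.modEq_zero_iff_dvd.2 h5)))
    exact hpp.one_lt.ne' (Nat.dvd_one.1 h6)
  have hxn : ∀ σ, ‖(ω σ : E) * f₂ σ * (f₁ σ)⁻¹‖ = 1 := by
    intro σ
    rw [norm_mul, norm_mul, hωn1, h₂, h₁i, one_mul, one_mul]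
  have hxψ : ∀ σ, rd hr ((ω σ : E) * f₂ σ * (f₁ σ)⁻¹) = ψ σ := by
    intro σ
    rw [rd_mul hr (by rw [norm_mul, hωn1, h₂, one_mul]) (h₁i σ).le,
      rd_mul hr (hωn1 σ).le (h₂ σ).le, rd_natCast]
    rfl
  have hzl : ‖∏ ℓ ∈ T, ((ω (s ℓ) : E) * f₂ (s ℓ) * (f₁ (s ℓ))⁻¹ - 1)‖ ≤ 1 ∧
      rd hr (∏ ℓ ∈ T, ((ω (s ℓ) : E) * f₂ (s ℓ) * (f₁ (s ℓ))⁻¹ - 1)) = z := by
    have h1 := rd_prod hr T (fun ℓ => (ω (s ℓ) : E) * f₂ (s ℓ) * (f₁ (s ℓ))⁻¹ - 1) (fun ℓ _ => by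
      rw [sub_eq_add_neg]
      exact norm_add_le_one E (hxn _).le (by rw [norm_neg, norm_one]))
    refine ⟨h1.1, h1.2.trans (Finset.prod_congr rfl fun ℓ _ => ?_)⟩
    rw [rd_sub hr (hxn _).le (by simp), hxψ, rd_one]
  have hWl : ‖∑ σ, (ν σ : E) * ((ω σ : E) * f₂ σ * (f₁ σ)⁻¹)‖ ≤ 1 ∧
      rd hr (∑ σ, (ν σ : E) * ((ω σ : E) * f₂ σ * (f₁ σ)⁻¹)) = W := by
    have h1 := rd_sum hr Finset.univ (fun σ => (ν σ : E) * ((ω σ : E) * f₂ σ * (f₁ σ)⁻¹))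
      (fun σ _ => by
        rw [norm_mul, hxn, mul_one]
        exact norm_natCast_le_one _)
    refine ⟨h1.1, h1.2.trans (Finset.sum_congr rfl fun σ _ => ?_)⟩
    rw [rd_mul hr (norm_natCast_le_one _) (hxn _).le, hxψ, rd_natCast]
  -- the key claim
  have hkey : ∀ f : R →+ ZMod (p ^ k), f (2 * (z * W) * B k₀) = 0 := by
    intro f
    clear_value T
    have hnat : ∀ (n : ℕ) (y : R), f ((n : R) * y) = (n : ZMod (p ^ k)) * f y := by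
      intro n y
      rw [← nsmul_eq_mul, map_nsmul, nsmul_eq_mul]
    let D : KQ (p ^ k) K ω R :=
      { ψ := ψ
        F := fun κ => f.comp (AddMonoidHom.mulRight (B κ))
        F_mul := by
          intro κ hκ κ' hκ' y
          change f (y * B (κ * κ')) = f (y * B κ) + f (y * B κ')
          rw [hBfix κ hκ κ' hκ', mul_add, map_add]
        F_conj := by
          intro g κ hκ y
          change (ω (res K g) : ZMod (p ^ k)) * f (y * B (g⁻¹ * κ * g)) =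
            f (ψ (res K g) * y * B κ)
          have hκ1 := (mem_fix_iff_res K κ).1 hκ
          have hκ2 := (mem_fix_iff_res K _).1 (conj_mem_fix K g hκ)
          have e1 : B (κ * g) = B g + B κ * C₂ (res K g) := by
            rw [hBmul, hκ1, map_one, one_mul]
          have e2 : B (g * (g⁻¹ * κ * g)) = C₁ (res K g) * B (g⁻¹ * κ * g) + B g := by
            rw [hBmul, hκ2, map_one, mul_one]
          have e3 : g * (g⁻¹ * κ * g) = κ * g := by group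
          rw [e3, e1, add_comm] at e2
          have e4 : B κ * C₂ (res K g) = C₁ (res K g) * B (g⁻¹ * κ * g) := add_right_cancel e2
          have e6 : B (g⁻¹ * κ * g) = C₂ (res K g) * C₁i (res K g) * B κ := by
            calc B (g⁻¹ * κ * g) = C₁ (res K g) * C₁i (res K g) * B (g⁻¹ * κ * g) := by
                  rw [hC₁i, one_mul]
              _ = C₁i (res K g) * (C₁ (res K g) * B (g⁻¹ * κ * g)) := by ring
              _ = C₂ (res K g) * C₁i (res K g) * B κ := by rw [← e4]; ring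
          rw [e6, ← hnat, hψ]
          congr 1
          ring }
    have hDF : ∀ κ y, D.F κ y = f (y * B κ) := fun κ y => rfl
    have hDψ : ∀ σ, D.ψ σ = ψ σ := fun σ => rfl
    -- the Kummer generator
    obtain ⟨β, hβ0, hβ⟩ := exists_betaQ K ζ hζ (fun κ => D.F κ 1)
      (fun κ hκ κ' hκ' => D.F_mul κ hκ κ' hκ' 1)
      (by
        let Wf : Subgroup GQ :=
          { carrier := {κ : GQ | κ ∈ K.fixingSubgroup ∧ D.F κ 1 = 0}
            one_mem' := ⟨Subgroup.one_mem _, by rw [hDF, hB1, mul_zero, map_zero]⟩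
            mul_mem' := by
              rintro g h ⟨hg, hg0⟩ ⟨hh, hh0⟩
              exact ⟨Subgroup.mul_mem _ hg hh, by rw [D.F_mul g hg h hh, hg0, hh0, add_zero]⟩
            inv_mem' := by
              rintro g ⟨hg, hg0⟩
              refine ⟨Subgroup.inv_mem _ hg, ?_⟩
              have h1 := D.F_mul g hg g⁻¹ (Subgroup.inv_mem _ hg) 1
              rw [mul_inv_cancel, hg0, zero_add, hDF 1, hB1, mul_zero, map_zero] at h1
              exact h1.symm }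
        refine Subgroup.isOpen_mono (H₁ := U) (H₂ := Wf) ?_ hUopen
        intro g hg
        refine ⟨((hUmem g).1 hg).1, ?_⟩
        rw [hDF, ((hUmem g).1 hg).2, mul_zero, map_zero])
    have hβty : D.Ty ζ β 1 := hβ
    obtain ⟨β', α', hβ'0, hα', hβ'ty, hval'⟩ := D.exists_good ζ hζ hω T s
      (fun ℓ hℓ P hP hℓP => hs ℓ (hT ℓ hℓ).1 (hT ℓ hℓ).2 P hP hℓP) β hβ0 hβty
      (by
        intro α hα v hv
        obtain ⟨ℓ, hℓ, hℓv⟩ := exists_prime_mem v.asIdeal v.ne_bot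
        refine val_of_rel (Nat.pos_of_ne_zero hq0) K ζ hζ ℓ α β hβ0 hα.symm ?_ v hℓv
        intro 𝔓 h𝔓 hℓ𝔓 g hg hgK
        have h1 := hβ g hgK
        rw [h1, hDF, hinert ℓ hℓ (fun h => hv ℓ h hℓv) 𝔓 h𝔓 hℓ𝔓 g hg hgK, mul_zero, map_zero,
          ZMod.val_zero, pow_zero, one_mul])
    obtain ⟨η, n, hn, hηn, hηty⟩ := D.exists_etaQ ζ hζ hω
      (by
        intro c hc
        obtain ⟨c', hc'⟩ := exists_isCC
        have e1 : res K c' = c := by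
          ext x
          rw [isCC_res hc' K x, hc x]
        have e2 : (V c' : Matrix (Fin 2) (Fin 2) E) * (V c' : Matrix (Fin 2) (Fin 2) E) = 1 := by
          rw [← Units.val_mul, ← map_mul, isCC_mul_self hc', map_one, Units.val_one]
        obtain ⟨t, ht⟩ := scalar_of_even h20 _ e2 (heven c' hc')
        obtain ⟨e3, e4⟩ := hbs c' t ht
        have e5 : C₁ c = C₂ c := by
          change rd hr (f₁ c) = rd hr (f₂ c)
          rw [rd_eq_rd hr (h₁ _).le (h₂ _).le, ← e1]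
          have e6 : f₁ (res K c') - f₂ (res K c') = (f₁ (res K c') - t) - (f₂ (res K c') - t) := by
            ring
          rw [e6]
          exact le_sub' e3 e4
        rw [hDψ, hψ, om_conj hq0 hζ hω hqR c hc, ← e5, mul_assoc, hC₁i, mul_one])
      ν hν z β' hβ'0 (by exact hβ'ty) α' hα' hval'
    -- `k₀` fixes the root of unity `η`
    have h1 := hηty k₀ hk₀
    have hη0 : η ≠ 0 := by
      intro h0
      rw [h0, zero_pow hn.ne'] at hηn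
      exact zero_ne_one hηn
    have h3 : k₀ η = η := comm_root hn hηn x₀ y₀
    rw [h3] at h1
    have h4 : (ζ : Qb) ^ (D.F k₀ (2 * (z * W))).val = 1 := by
      have h5 : ((ζ : Qb) ^ (D.F k₀ (2 * (z * W))).val - 1) * η = 0 := by
        rw [sub_mul, one_mul, sub_eq_zero]
        exact h1.symm
      exact sub_eq_zero.1 ((mul_eq_zero.1 h5).resolve_right hη0)
    have h5 : (ζ : Qb) ^ (D.F k₀ (2 * (z * W))).val = (ζ : Qb) ^ ((0 : ZMod (p ^ k))).val := by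
      rw [h4, ZMod.val_zero, pow_zero]
    have h6 := zq_inj (coe_prim hζ) h5
    rw [hDF] at h6
    exact h6
  -- the conclusion
  have hzero : 2 * (z * W) * B k₀ = 0 := by
    by_contra hcon
    obtain ⟨f, hf⟩ := exists_func hqR _ hcon
    exact hf (hkey f)
  refine ⟨T, hT, ?_⟩
  set Z : E := ∏ ℓ ∈ T, ((ω (s ℓ) : E) * f₂ (s ℓ) * (f₁ (s ℓ))⁻¹ - 1) with hZ
  set Y : E := ∑ σ, (ν σ : E) * ((ω σ : E) * f₂ σ * (f₁ σ)⁻¹) with hY
  have n1 : ‖Z * Y‖ ≤ 1 := by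
    rw [norm_mul]
    exact mul_le_one₀ hzl.1 (norm_nonneg _) hWl.1
  have n2 : ‖2 * (Z * Y)‖ ≤ 1 := by
    rw [norm_mul, h2E, one_mul]
    exact n1
  have n3 : ‖2 * (Z * Y) * b k₀‖ ≤ 1 := by
    rw [norm_mul]
    exact mul_le_one₀ n2 (norm_nonneg _) (hb1 k₀)
  have e2 : rd hr (2 : E) = 2 := by
    have h1 := rd_natCast (E := E) hr 2
    rwa [Nat.cast_ofNat, Nat.cast_ofNat] at h1
  have h1 : rd hr (2 * (Z * Y) * b k₀) = 0 := by
    rw [rd_mul hr n2 (hb1 k₀), rd_mul hr h2E.le n1, rd_mul hr hzl.1 hWl.1, hzl.2, hWl.2, e2]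
    exact hzero
  rw [rd_eq_zero hr n3, norm_mul, norm_mul, h2E, one_mul, norm_mul] at h1
  have h3 : ‖Z‖ = ∏ ℓ ∈ T, ‖(ω (s ℓ) : E) * f₂ (s ℓ) - f₁ (s ℓ)‖ := by
    rw [hZ, norm_prod]
    refine Finset.prod_congr rfl fun ℓ _ => ?_
    have e3 : (ω (s ℓ) : E) * f₂ (s ℓ) * (f₁ (s ℓ))⁻¹ - 1 =
        ((ω (s ℓ) : E) * f₂ (s ℓ) - f₁ (s ℓ)) * (f₁ (s ℓ))⁻¹ := by
      have := h₁0 (s ℓ)
      field_simp
    rw [e3, norm_mul, h₁i, mul_one]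
  rw [← h3]
  have h5 : ‖Z‖ * ‖Y‖ * w ≤ r := le_trans
    (mul_le_mul_of_nonneg_left hbk₀ (mul_nonneg (norm_nonneg _) (norm_nonneg _))) h1
  rw [hrdef0, le_div_iff₀ hw0] at h5
  calc w ^ 2 * (‖Z‖ * ‖Y‖) = ‖Z‖ * ‖Y‖ * w * w := by ring
    _ ≤ r₀ := h5

end Pool.Agent.EDV
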