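import Pool.Agent.Helper60.FM.MainA

/-!
# EDV-Cpt (0.6h): a compact subring; finitely many characters

* `exists_cpt`: `C` = the set of all `∑ x_z z`, `z` in the range of `η` (finite, closed under
  multiplication, contains 1), `x_z ∈ ℤ_[p]`: a subring (`Algebra.adjoin ℤ_[p]`, or directly), the image of
  the compact space `range → ℤ_[p]` (`PadicInt` is compact) under a continuous map. Norms `≤ 1`: ultrametric.
* `finite_hom`: each value is an `n`-th root of unity, `n = |G|`; there are finitely many.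
-/

namespace Pool.Agent.EDV

theorem exists_cpt (p : ℕ) [Fact p.Prime] {E : Type*} [NormedField E] [IsUltrametricDist E]
    [NormedAlgebra ℚ_[p] E] {G : Type*} [CommGroup G] [Finite G] (η : G →* Eˣ) :
    ∃ C : Subring E, IsCompact (C : Set E) ∧ (∀ x ∈ C, ‖x‖ ≤ 1) ∧ ∀ g, (η g : E) ∈ C := by
  classical
  have : Fintype G := Fintype.ofFinite G
  obtain ⟨φ, hφc, hφn⟩ : ∃ φ : ℤ_[p] →+* E, Continuous φ ∧ ∀ a, ‖φ a‖ ≤ 1 := by
    refine ⟨(algebraMap ℚ_[p] E).comp PadicInt.Coe.ringHom, ?_, fun a => ?_⟩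
    · exact (continuous_algebraMap ℚ_[p] E).comp continuous_subtype_val
    · change ‖algebraMap ℚ_[p] E (a : ℚ_[p])‖ ≤ 1
      rw [norm_algebraMap']
      exact a.2
  obtain ⟨Φ, hΦ⟩ : ∃ Φ : (G → ℤ_[p]) → E, ∀ x, Φ x = ∑ g, φ (x g) * (η g : E) :=
    ⟨_, fun _ => rfl⟩
  have hsingle : ∀ g, Φ (Pi.single g 1) = (η g : E) := by
    intro g
    rw [hΦ, Finset.sum_eq_single g]
    · rw [Pi.single_eq_same, map_one, one_mul]
    · intro h _ hh
      rw [Pi.single_eq_of_ne hh, map_zero, zero_mul]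
    · intro h
      exact absurd (Finset.mem_univ g) h
  have hmul : ∀ x y, Φ x * Φ y = Φ (fun k => ∑ g, x g * y (g⁻¹ * k)) := by
    intro x y
    rw [hΦ, hΦ, hΦ, Finset.sum_mul]
    have h1 : ∀ k, φ (∑ g, x g * y (g⁻¹ * k)) * (η k : E) =
        ∑ g, φ (x g) * φ (y (g⁻¹ * k)) * (η k : E) := by
      intro k
      rw [map_sum, Finset.sum_mul]
      refine Finset.sum_congr rfl fun g _ => ?_
      rw [map_mul]
    rw [Finset.sum_congr rfl fun k _ => h1 k, Finset.sum_comm]
    refine Finset.sum_congr rfl fun g _ => ?_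
    have h2 : ∑ k, φ (x g) * φ (y (g⁻¹ * k)) * (η k : E) =
        ∑ h, φ (x g) * φ (y (g⁻¹ * (g * h))) * (η (g * h) : E) :=
      (Equiv.sum_comp (Equiv.mulLeft g) fun k => φ (x g) * φ (y (g⁻¹ * k)) * (η k : E)).symm
    rw [h2, Finset.mul_sum]
    refine Finset.sum_congr rfl fun h _ => ?_
    rw [inv_mul_cancel_left, map_mul, Units.val_mul]
    ring
  let C : Subring E :=
    { carrier := Set.range Φ
      mul_mem' := by
        rintro _ _ ⟨x, rfl⟩ ⟨y, rfl⟩
        exact ⟨_, (hmul x y).symm⟩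
      one_mem' := ⟨Pi.single 1 1, by rw [hsingle, map_one, Units.val_one]⟩
      add_mem' := by
        rintro _ _ ⟨x, rfl⟩ ⟨y, rfl⟩
        refine ⟨x + y, ?_⟩
        rw [hΦ, hΦ, hΦ, ← Finset.sum_add_distrib]
        refine Finset.sum_congr rfl fun g _ => ?_
        rw [Pi.add_apply, map_add, add_mul]
      zero_mem' := by
        refine ⟨0, ?_⟩
        rw [hΦ]
        refine Finset.sum_eq_zero fun g _ => ?_
        rw [Pi.zero_apply, map_zero, zero_mul]
      neg_mem' := by
        rintro _ ⟨x, rfl⟩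
        refine ⟨-x, ?_⟩
        rw [hΦ, hΦ, ← Finset.sum_neg_distrib]
        refine Finset.sum_congr rfl fun g _ => ?_
        rw [Pi.neg_apply, map_neg, neg_mul] }
  have hcont : Continuous Φ := by
    have h1 : Φ = fun x => ∑ g, φ (x g) * (η g : E) := funext hΦ
    rw [h1]
    exact continuous_finsetSum _ fun g _ =>
      (hφc.comp (continuous_apply g)).mul continuous_const
  refine ⟨C, isCompact_range hcont, ?_, fun g => ⟨Pi.single g 1, hsingle g⟩⟩
  rintro _ ⟨x, rfl⟩
  rw [hΦ]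
  refine IsUltrametricDist.norm_sum_le_of_forall_le_of_nonneg zero_le_one fun g _ => ?_
  have hη : ‖(η g : E)‖ = 1 := by
    have h1 : ‖(η g : E)‖ ^ Nat.card G = 1 := by
      rw [← norm_pow, ← Units.val_pow_eq_pow_val, ← map_pow, pow_card_eq_one', map_one,
        Units.val_one, norm_one]
    exact (pow_eq_one_iff_of_nonneg (norm_nonneg _) Nat.card_pos.ne').1 h1
  rw [norm_mul, hη, mul_one]
  exact hφn _

theorem finite_hom {E : Type*} [Field E] (G : Type*) [Group G] [Finite G] :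
    Finite (G →* Eˣ) := by
  have hn : NeZero (Nat.card G) := ⟨Nat.card_pos.ne'⟩
  have h1 : Finite (rootsOfUnity (Nat.card G) E) := inferInstance
  have h2 : ∀ (ψ : G →* Eˣ) (g : G), ψ g ∈ rootsOfUnity (Nat.card G) E := by
    intro ψ g
    rw [mem_rootsOfUnity, ← map_pow, pow_card_eq_one', map_one]
  refine Finite.of_injective
    (fun (ψ : G →* Eˣ) (g : G) => (⟨ψ g, h2 ψ g⟩ : rootsOfUnity (Nat.card G) E)) ?_
  intro ψ ψ' h
  ext g
  have h3 := congrArg Subtype.val (congrFun h g)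
  exact congrArg Units.val h3

end Pool.Agent.EDV
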