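import Pool.Agent.EDV.Abs
import Pool.Agent.EDV.Defs
import Pool.Agent.AAP.StickAll
import Pool.Agent.AAP.RedE
import Pool.Agent.AAP.StmtB

/-!
# EDV-CycC: the core theorem for the cyclotomic field `ℚ(ζ_m)`

`absCore` is applied to the field `K` of `exists_cyc m`, with `ζ = zt m K ^ (m / p ^ k)`, `ω σ` the value of
`gq m K σ` in `[0, m)` (`gq_pow`), `f i σ = F i (gq m K σ)`, `s ℓ = (gq m K).symm (u ℓ)` (`stabP`) and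
`ν σ = fl c m (gq m K σ)⁻¹` (`stickAll`).
In the sum one substitutes `σ = (gq m K).symm a⁻¹`: the term is `fl c m a * ([a⁻¹] F₂(a⁻¹) F₁(a⁻¹)⁻¹)`, and
`F₂(a⁻¹) F₁(a⁻¹)⁻¹ ≡ F₁(a) F₂(a)⁻¹` modulo `r` (`F i (a) F i (a⁻¹) ≡ F i (1) ≡ 1`, as `F i (1) ≡ F i (1) ^ 2`).
So the two sums differ by an element of norm `≤ r`.
-/

open NumberField Pointwise Matrix

namespace Pool.Agent.EDV

open Pool.Agent.Helper60.FM Pool.Agent.AAP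

private theorem CycC_inv {G : Type} [Group G] {E : Type} [NormedField E] [IsUltrametricDist E]
    {r : ℝ} (F : G → E) (h : ∀ a, ‖F a‖ = 1) (hm : ∀ a b, ‖F (a * b) - F a * F b‖ ≤ r) (a : G) :
    ‖F a * F a⁻¹ - 1‖ ≤ r := by
  have h1 : ‖F 1 - 1‖ ≤ r := by
    have h2 := hm 1 1
    rw [mul_one] at h2
    have h3 : F 1 - F 1 * F 1 = F 1 * (1 - F 1) := by ring
    rw [h3, norm_mul, h, one_mul, norm_sub_rev] at h2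
    exact h2
  have h2 := hm a a⁻¹
  rw [mul_inv_cancel] at h2
  have h3 : F a * F a⁻¹ - 1 = -(F 1 - F a * F a⁻¹) + (F 1 - 1) := by ring
  rw [h3]
  refine (IsUltrametricDist.norm_add_le_max _ _).trans (max_le ?_ h1)
  rw [norm_neg]
  exact h2

private theorem CycC_quot {G : Type} [Group G] {E : Type} [NormedField E] [IsUltrametricDist E]
    {r : ℝ} (F₁ F₂ : G → E) (h₁ : ∀ a, ‖F₁ a‖ = 1) (h₂ : ∀ a, ‖F₂ a‖ = 1)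
    (hm₁ : ∀ a b, ‖F₁ (a * b) - F₁ a * F₁ b‖ ≤ r) (hm₂ : ∀ a b, ‖F₂ (a * b) - F₂ a * F₂ b‖ ≤ r)
    (a : G) : ‖F₂ a⁻¹ * (F₁ a⁻¹)⁻¹ - F₁ a * (F₂ a)⁻¹‖ ≤ r := by
  have n₁ : F₁ a⁻¹ ≠ 0 := by
    intro h
    have h3 := h₁ a⁻¹
    rw [h, norm_zero] at h3
    exact zero_ne_one h3
  have n₂ : F₂ a ≠ 0 := by
    intro h
    have h3 := h₂ a
    rw [h, norm_zero] at h3
    exact zero_ne_one h3
  have h3 : F₂ a⁻¹ * (F₁ a⁻¹)⁻¹ - F₁ a * (F₂ a)⁻¹ =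
      ((F₂ a * F₂ a⁻¹ - 1) + -(F₁ a * F₁ a⁻¹ - 1)) * ((F₁ a⁻¹)⁻¹ * (F₂ a)⁻¹) := by
    field_simp
    ring
  rw [h3, norm_mul, norm_mul, norm_inv, norm_inv, h₁, h₂, inv_one, mul_one, mul_one]
  refine (IsUltrametricDist.norm_add_le_max _ _).trans (max_le (CycC_inv F₂ h₂ hm₂ a) ?_)
  rw [norm_neg]
  exact CycC_inv F₁ h₁ hm₁ a

private theorem CycC_stick (m c : ℕ) [NeZero m] (hm : 2 < m) (hc1 : 1 < c) (hc2 : c < m)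
    (hcm : c.Coprime m) (K : Type) [Field K] [NumberField K] [IsCyclotomicExtension {m} ℚ K]
    (𝔞 : Ideal (𝓞 K)) (h𝔞 : 𝔞 ≠ ⊥) :
    (∏ σ : Gal(K/ℚ), (σ • 𝔞) ^ fl c m (gq m K σ)⁻¹).IsPrincipal := by
  have h2 := stickAll m c hm hc1 hc2 hcm K 𝔞 h𝔞
  rw [← Equiv.prod_comp ((gq m K).toEquiv.trans (Equiv.inv _))] at h2
  have h3 : ∏ σ : Gal(K/ℚ), ((gq m K).symm
      (((gq m K).toEquiv.trans (Equiv.inv _)) σ)⁻¹ • 𝔞) ^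
        fl c m (((gq m K).toEquiv.trans (Equiv.inv _)) σ) =
      ∏ σ : Gal(K/ℚ), (σ • 𝔞) ^ fl c m (gq m K σ)⁻¹ := by
    refine Finset.prod_congr rfl fun σ _ => ?_
    change ((gq m K).symm (((gq m K σ)⁻¹)⁻¹) • 𝔞) ^ fl c m ((gq m K σ)⁻¹) = _
    rw [inv_inv, MulEquiv.symm_apply_apply]
  rw [h3] at h2
  exact h2

theorem cycCore (m p k c : ℕ) [NeZero m] [Fact p.Prime] (hp : p ≠ 2) (hk : 1 ≤ k)
    (hkm : p ^ k ∣ m) (hc1 : 1 < c) (hc2 : c < m) (hcm : c.Coprime m)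
    {E : Type} [NormedField E] [IsUltrametricDist E] [CompleteSpace E] [NormedAlgebra ℚ_[p] E]
    {r : ℝ} (hr1 : r < 1) (hpr : ‖(p : E)‖ ^ k ≤ r)
    (F₁ F₂ : (ZMod m)ˣ → E) (h₁ : ∀ a, ‖F₁ a‖ = 1) (h₂ : ∀ a, ‖F₂ a‖ = 1)
    (hm₁ : ∀ a b, ‖F₁ (a * b) - F₁ a * F₁ b‖ ≤ r) (hm₂ : ∀ a b, ‖F₂ (a * b) - F₂ a * F₂ b‖ ≤ r)
    (hne : ∃ a, 1 ≤ ‖F₁ a - F₂ a‖)
    (V : Gam →* GL2 E) (hV : Continuous V) (heven : Even2 V) (hline : ¬ Line V)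
    (htr : ∀ (g : Gam) (a : (ZMod m)ˣ), Acts m g (a : ZMod m).val →
      ‖trc V g - F₁ a - F₂ a‖ ≤ r)
    (S : Set ℕ) (htame : ∀ ℓ : ℕ, ℓ.Prime → ℓ ∉ S → TameAt p ℓ V)
    (u : ℕ → (ZMod m)ˣ) (hu : ∀ ℓ ∈ S, ℓ.Prime → DecL ℓ m (u ℓ)) :
    ∃ T : Finset ℕ, (∀ ℓ ∈ T, ℓ ∈ S ∧ ℓ.Prime) ∧
      (∏ ℓ ∈ T, ‖F₁ (u ℓ) - ((((u ℓ : (ZMod m)ˣ) : ZMod m).val : ℕ) : E) * F₂ (u ℓ)‖) *
        ‖∑ a : (ZMod m)ˣ, ((fl c m a : ℕ) : E) *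
          (F₁ a * (F₂ a)⁻¹ * ((((a⁻¹ : (ZMod m)ˣ) : ZMod m).val : ℕ) : E))‖ ≤ r := by
  classical
  obtain ⟨K, _, _, hK, _⟩ := exists_cyc m
  have : IsAbelianGalois ℚ K := IsCyclotomicExtension.isAbelianGalois {m} ℚ K
  have hpp : p.Prime := Fact.out
  have hm0 : 0 < m := Nat.pos_of_ne_zero (NeZero.ne _)
  have hm2 : 2 < m := by
    have h1 : p ≤ m := Nat.le_of_dvd hm0 ((dvd_pow_self p (by omega)).trans hkm)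
    have h2 := hpp.two_le
    omega
  have hr0 : 0 ≤ r := le_trans (by positivity) hpr
  let j : K →+* Qb := (IsAlgClosed.lift : K →ₐ[ℚ] Qb).toRingHom
  have hζ : IsPrimitiveRoot (zt m K ^ (m / p ^ k)) (p ^ k) :=
    (zt_spec m K).pow hm0 (Nat.div_mul_cancel hkm).symm
  let s : ℕ → Gal(K/ℚ) := fun ℓ => (gq m K).symm (u ℓ)
  have hs : ∀ ℓ, gq m K (s ℓ) = u ℓ := fun ℓ => (gq m K).apply_symm_apply (u ℓ)
  obtain ⟨T, hT, h⟩ := absCore hp hk K j (zt m K ^ (m / p ^ k)) hζ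
    (fun σ => ((gq m K σ : (ZMod m)ˣ) : ZMod m).val) (fun σ => gq_pow m K σ _) hr1 hpr
    (fun σ => F₁ (gq m K σ)) (fun σ => F₂ (gq m K σ)) (fun σ => h₁ _) (fun σ => h₂ _)
    (fun σ τ => by
      show ‖F₁ (gq m K (σ * τ)) - F₁ (gq m K σ) * F₁ (gq m K τ)‖ ≤ r
      rw [map_mul]
      exact hm₁ _ _)
    (fun σ τ => by
      show ‖F₂ (gq m K (σ * τ)) - F₂ (gq m K σ) * F₂ (gq m K τ)‖ ≤ r
      rw [map_mul]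
      exact hm₂ _ _)
    (by
      obtain ⟨a, ha⟩ := hne
      refine ⟨(gq m K).symm a, ?_⟩
      show 1 ≤ ‖F₁ (gq m K ((gq m K).symm a)) - F₂ (gq m K ((gq m K).symm a))‖
      rw [(gq m K).apply_symm_apply]
      exact ha)
    (old V) hV heven hline
    (by
      intro g σ hg
      have h3 := acts m K j g σ hg m dvd_rfl
      have h4 : ZMod.unitsMap (dvd_refl m) (gq m K σ) = gq m K σ := by
        rw [ZMod.unitsMap_self]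
        rfl
      rw [h4] at h3
      exact htr g (gq m K σ) h3)
    S
    (by
      intro ℓ hℓ hℓS 𝔓 hP hℓP g hg
      exact htame ℓ hℓ hℓS 𝔓 hP hℓP g ((iner_iff 𝔓 (g : Gam)).2 hg))
    s
    (by
      intro ℓ hℓ hℓp P hP hℓP
      obtain ⟨i, l, m', hm, hcop, hi⟩ := hu ℓ hℓ hℓp
      refine stabP m ℓ l m' i hℓp hm hcop K (s ℓ) ?_ P hP hℓP
      rw [hs, ← Nat.cast_pow, ZMod.natCast_eq_natCast_iff]
      exact hi)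
    (fun σ => fl c m (gq m K σ)⁻¹)
    (fun 𝔞 h𝔞 => CycC_stick m c hm2 hc1 hc2 hcm K 𝔞 h𝔞)
  refine ⟨T, hT, ?_⟩
  have hprod : ∏ ℓ ∈ T, ‖((((gq m K (s ℓ) : (ZMod m)ˣ) : ZMod m).val : ℕ) : E) *
      F₂ (gq m K (s ℓ)) - F₁ (gq m K (s ℓ))‖ =
      ∏ ℓ ∈ T, ‖F₁ (u ℓ) - ((((u ℓ : (ZMod m)ˣ) : ZMod m).val : ℕ) : E) * F₂ (u ℓ)‖ := by
    refine Finset.prod_congr rfl fun ℓ _ => ?_
    rw [hs, norm_sub_rev]
  have hsum : ∑ σ : Gal(K/ℚ), ((fl c m (gq m K σ)⁻¹ : ℕ) : E) *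
      (((((gq m K σ : (ZMod m)ˣ) : ZMod m).val : ℕ) : E) * F₂ (gq m K σ) * (F₁ (gq m K σ))⁻¹) =
      ∑ a : (ZMod m)ˣ, ((fl c m a : ℕ) : E) *
        (((((a⁻¹ : (ZMod m)ˣ) : ZMod m).val : ℕ) : E) * F₂ a⁻¹ * (F₁ a⁻¹)⁻¹) := by
    rw [← Equiv.sum_comp ((gq m K).toEquiv.trans (Equiv.inv _))]
    refine Finset.sum_congr rfl fun σ _ => ?_
    show _ = ((fl c m (gq m K σ)⁻¹ : ℕ) : E) *
      ((((((gq m K σ)⁻¹)⁻¹ : (ZMod m)ˣ) : ZMod m).val : ℕ) * F₂ ((gq m K σ)⁻¹)⁻¹ *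
        (F₁ ((gq m K σ)⁻¹)⁻¹)⁻¹)
    rw [inv_inv]
  have h5 : (∏ ℓ ∈ T, ‖F₁ (u ℓ) - ((((u ℓ : (ZMod m)ˣ) : ZMod m).val : ℕ) : E) * F₂ (u ℓ)‖) *
      ‖∑ a : (ZMod m)ˣ, ((fl c m a : ℕ) : E) *
        (((((a⁻¹ : (ZMod m)ˣ) : ZMod m).val : ℕ) : E) * F₂ a⁻¹ * (F₁ a⁻¹)⁻¹)‖ ≤ r := by
    rw [← hprod, ← hsum]
    exact h
  set P : ℝ := ∏ ℓ ∈ T, ‖F₁ (u ℓ) - ((((u ℓ : (ZMod m)ˣ) : ZMod m).val : ℕ) : E) * F₂ (u ℓ)‖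
    with hPdef
  set X : E := ∑ a : (ZMod m)ˣ, ((fl c m a : ℕ) : E) *
        (((((a⁻¹ : (ZMod m)ˣ) : ZMod m).val : ℕ) : E) * F₂ a⁻¹ * (F₁ a⁻¹)⁻¹) with hX
  set Y : E := ∑ a : (ZMod m)ˣ, ((fl c m a : ℕ) : E) *
          (F₁ a * (F₂ a)⁻¹ * ((((a⁻¹ : (ZMod m)ˣ) : ZMod m).val : ℕ) : E)) with hY
  have hP0 : 0 ≤ P := Finset.prod_nonneg fun ℓ _ => norm_nonneg _
  have hP1 : P ≤ 1 := by
    refine Finset.prod_le_one (fun ℓ _ => norm_nonneg _) fun ℓ _ => ?_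
    rw [sub_eq_add_neg]
    refine (IsUltrametricDist.norm_add_le_max _ _).trans (max_le (h₁ _).le ?_)
    rw [norm_neg, norm_mul, h₂, mul_one]
    exact norm_natCast_le_one _
  have hXY : ‖Y - X‖ ≤ r := by
    rw [hX, hY, ← Finset.sum_sub_distrib]
    refine IsUltrametricDist.norm_sum_le_of_forall_le_of_nonneg hr0 fun a _ => ?_
    have h6 : ((fl c m a : ℕ) : E) *
        (F₁ a * (F₂ a)⁻¹ * ((((a⁻¹ : (ZMod m)ˣ) : ZMod m).val : ℕ) : E)) -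
        ((fl c m a : ℕ) : E) *
        (((((a⁻¹ : (ZMod m)ˣ) : ZMod m).val : ℕ) : E) * F₂ a⁻¹ * (F₁ a⁻¹)⁻¹) =
        (((fl c m a : ℕ) : E) * ((((a⁻¹ : (ZMod m)ˣ) : ZMod m).val : ℕ) : E)) *
          (F₁ a * (F₂ a)⁻¹ - F₂ a⁻¹ * (F₁ a⁻¹)⁻¹) := by ring
    rw [h6, norm_mul, norm_sub_rev]
    have h7 := CycC_quot F₁ F₂ h₁ h₂ hm₁ hm₂ a
    have h8 : ‖((fl c m a : ℕ) : E) * ((((a⁻¹ : (ZMod m)ˣ) : ZMod m).val : ℕ) : E)‖ ≤ 1 := by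
      rw [norm_mul]
      exact mul_le_one₀ (norm_natCast_le_one _) (norm_nonneg _) (norm_natCast_le_one _)
    calc _ ≤ 1 * r := mul_le_mul h8 h7 (norm_nonneg _) zero_le_one
      _ = r := one_mul r
  have hYX : ‖Y‖ ≤ max ‖Y - X‖ ‖X‖ := by
    have h6 : Y = (Y - X) + X := by ring
    conv_lhs => rw [h6]
    exact IsUltrametricDist.norm_add_le_max _ _
  rcases le_total ‖Y - X‖ ‖X‖ with h6 | h6
  · rw [max_eq_right h6] at hYX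
    exact (mul_le_mul_of_nonneg_left hYX hP0).trans h5
  · rw [max_eq_left h6] at hYX
    calc P * ‖Y‖ ≤ 1 * r := mul_le_mul hP1 (hYX.trans hXY) (norm_nonneg _) zero_le_one
      _ = r := one_mul r

end Pool.Agent.EDV
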