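import Pool.Agent.AAP.Cg
import Pool.Agent.AAP.Defs

/-!
# EDV: the residue ring modulo a ball of radius `r`
-/

namespace Pool.Agent.EDV

open Pool.Agent.Helper60.FM

section

variable (E : Type*) [NormedField E] [IsUltrametricDist E]

/-- the closed ball of radius `r` as an ideal of the closed unit ball -/
def iE (r : ℝ) (hr : 0 ≤ r) : Ideal (OE E) where
  carrier := {x | ‖(x : E)‖ ≤ r}
  zero_mem' := by simpa using hr
  add_mem' := by
    intro x y hx hy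
    simp only [Set.mem_setOf_eq, Subring.coe_add] at *
    exact (IsUltrametricDist.norm_add_le_max _ _).trans (max_le hx hy)
  smul_mem' := by
    intro c x hx
    simp only [Set.mem_setOf_eq, smul_eq_mul, Subring.coe_mul, norm_mul] at *
    calc ‖(c : E)‖ * ‖(x : E)‖ ≤ 1 * ‖(x : E)‖ := mul_le_mul_of_nonneg_right c.2 (norm_nonneg _)
      _ ≤ r := by rw [one_mul]; exact hx

theorem mem_iE (r : ℝ) (hr : 0 ≤ r) (x : OE E) : x ∈ iE E r hr ↔ ‖(x : E)‖ ≤ r := Iff.rfl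

/-- the residue ring -/
abbrev RE (r : ℝ) (hr : 0 ≤ r) : Type _ := OE E ⧸ iE E r hr

variable {E}
variable {r : ℝ} (hr : 0 ≤ r)

open Classical in
/-- reduction -/
noncomputable def rd (x : E) : RE E r hr :=
  if h : ‖x‖ ≤ 1 then Ideal.Quotient.mk (iE E r hr) ⟨x, h⟩ else 0

theorem rd_eq {x : E} (h : ‖x‖ ≤ 1) : rd hr x = Ideal.Quotient.mk (iE E r hr) ⟨x, h⟩ := by
  rw [rd, dif_pos h]

theorem rd_surj (y : RE E r hr) : ∃ x : E, ‖x‖ ≤ 1 ∧ rd hr x = y := by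
  obtain ⟨x, rfl⟩ := Ideal.Quotient.mk_surjective y
  exact ⟨x, x.2, rd_eq hr x.2⟩

theorem rd_add {x y : E} (hx : ‖x‖ ≤ 1) (hy : ‖y‖ ≤ 1) : rd hr (x + y) = rd hr x + rd hr y := by
  rw [rd_eq hr hx, rd_eq hr hy, rd_eq hr (norm_add_le_one E hx hy), ← map_add]
  rfl

theorem rd_mul {x y : E} (hx : ‖x‖ ≤ 1) (hy : ‖y‖ ≤ 1) : rd hr (x * y) = rd hr x * rd hr y := by
  have h : ‖x * y‖ ≤ 1 := by rw [norm_mul]; exact mul_le_one₀ hx (norm_nonneg _) hy
  rw [rd_eq hr hx, rd_eq hr hy, rd_eq hr h, ← map_mul]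
  rfl

theorem rd_one : rd hr (1 : E) = 1 := by
  rw [rd_eq hr (by simp), ← map_one (Ideal.Quotient.mk (iE E r hr))]
  rfl

theorem rd_zero : rd hr (0 : E) = 0 := by
  rw [rd_eq hr (by simp), ← map_zero (Ideal.Quotient.mk (iE E r hr))]
  rfl

theorem rd_neg {x : E} (hx : ‖x‖ ≤ 1) : rd hr (-x) = - rd hr x := by
  have h := rd_add (E := E) hr (x := -x) (y := x) (by simpa using hx) hx
  rw [neg_add_cancel, rd_zero] at h
  exact eq_neg_of_add_eq_zero_left h.symm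

theorem rd_sub {x y : E} (hx : ‖x‖ ≤ 1) (hy : ‖y‖ ≤ 1) : rd hr (x - y) = rd hr x - rd hr y := by
  rw [sub_eq_add_neg, rd_add hr hx (by simpa using hy), rd_neg hr hy, sub_eq_add_neg]

theorem rd_eq_zero {x : E} (hx : ‖x‖ ≤ 1) : rd hr x = 0 ↔ ‖x‖ ≤ r := by
  rw [rd_eq hr hx, Ideal.Quotient.eq_zero_iff_mem, mem_iE]

theorem rd_eq_rd {x y : E} (hx : ‖x‖ ≤ 1) (hy : ‖y‖ ≤ 1) : rd hr x = rd hr y ↔ ‖x - y‖ ≤ r := by
  rw [← sub_eq_zero, ← rd_sub hr hx hy, rd_eq_zero hr]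
  rw [sub_eq_add_neg]
  exact norm_add_le_one E hx (by simpa using hy)

theorem rd_natCast (n : ℕ) : rd hr (n : E) = (n : RE E r hr) := by
  induction n with
  | zero => rw [Nat.cast_zero, Nat.cast_zero, rd_zero]
  | succ n ih =>
    rw [Nat.cast_succ, Nat.cast_succ, rd_add hr (norm_natCast_le_one n) (by simp), ih, rd_one]

theorem rd_sum {ι : Type*} (s : Finset ι) (f : ι → E) (hf : ∀ i ∈ s, ‖f i‖ ≤ 1) :
    ‖∑ i ∈ s, f i‖ ≤ 1 ∧ rd hr (∑ i ∈ s, f i) = ∑ i ∈ s, rd hr (f i) := by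
  classical
  induction s using Finset.induction_on with
  | empty => simp [rd_zero]
  | insert a s ha ih =>
    have h1 := ih (fun i hi => hf i (Finset.mem_insert_of_mem hi))
    have h2 := hf a (Finset.mem_insert_self a s)
    rw [Finset.sum_insert ha, Finset.sum_insert ha]
    exact ⟨norm_add_le_one E h2 h1.1, by rw [rd_add hr h2 h1.1, h1.2]⟩

theorem rd_prod {ι : Type*} (s : Finset ι) (f : ι → E) (hf : ∀ i ∈ s, ‖f i‖ ≤ 1) :
    ‖∏ i ∈ s, f i‖ ≤ 1 ∧ rd hr (∏ i ∈ s, f i) = ∏ i ∈ s, rd hr (f i) := by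
  classical
  induction s using Finset.induction_on with
  | empty => simp [rd_one]
  | insert a s ha ih =>
    have h1 := ih (fun i hi => hf i (Finset.mem_insert_of_mem hi))
    have h2 := hf a (Finset.mem_insert_self a s)
    rw [Finset.prod_insert ha, Finset.prod_insert ha]
    refine ⟨?_, by rw [rd_mul hr h2 h1.1, h1.2]⟩
    rw [norm_mul]
    exact mul_le_one₀ h2 (norm_nonneg _) h1.1

/-- `p ^ k = 0` in the residue ring if `‖p‖ ^ k ≤ r` -/
theorem natCast_pow_eq_zero (p k : ℕ) (h : ‖(p : E)‖ ^ k ≤ r) : ((p ^ k : ℕ) : RE E r hr) = 0 := by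
  rw [← rd_natCast (E := E) hr, rd_eq_zero hr (norm_natCast_le_one _), Nat.cast_pow, norm_pow]
  exact h

end

end Pool.Agent.EDV
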