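import Pool.Agent.EDV.LimV
import Pool.Agent.EDV.Res

/-!
# EDV-ParA: values of limits at the generators

`parA_char`: the cyclotomic character modulo `m`. `par_neg`: `h(-1) c` acts trivially at all levels, for a complex conjugation
`c`, because it acts by a class `x` with `x ^ 2 = 1` which is `1` modulo `N₀ p` (`parA_num`). `par_lt`: in the residue field
`(κ(e) - 1) ^ (p ^ M) = κ(e) ^ (p ^ M) - 1 = 0`. `par_inj`: every element acts at level `M` as some `h s * e ^ i`.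
-/

open NumberField Filter

namespace Pool.Agent.EDV

open Pool.Agent.AAP

section

private theorem parA_char (m : ℕ) [NeZero m] : ∃ χ : Gam →* (ZMod m)ˣ, (∀ g, Acts m g (χ g : ZMod m).val) ∧
    (∀ g (u : (ZMod m)ˣ), Acts m g (u : ZMod m).val → χ g = u) ∧ ∀ g, χ g = 1 ↔ Acts m g 1 := by
  have hinj : ∀ (g : Gam) (u v : (ZMod m)ˣ), Acts m g (u : ZMod m).val → Acts m g (v : ZMod m).val → u = v := by
    intro g u v hu hv
    have h1 := acts_inj hu hv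
    have h2 := (ZMod.natCast_eq_natCast_iff _ _ _).2 h1
    rw [ZMod.natCast_zmod_val, ZMod.natCast_zmod_val] at h2
    exact Units.ext h2
  have hone : ∀ g : Gam, Acts m g ((1 : (ZMod m)ˣ) : ZMod m).val ↔ Acts m g 1 := by
    intro g
    have h1 : ((1 : (ZMod m)ˣ) : ZMod m).val ≡ 1 [MOD m] := by
      rw [Units.val_one, ← ZMod.natCast_eq_natCast_iff, ZMod.natCast_zmod_val, Nat.cast_one]
    exact ⟨fun h => acts_mod h h1, fun h => acts_mod h h1.symm⟩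
  choose f hf using acts_exists m
  have hmul : ∀ g g', f (g * g') = f g * f g' := by
    intro g g'
    refine hinj _ _ _ (hf _) ?_
    refine acts_mod (acts_mul (hf g) (hf g')) ?_
    rw [← ZMod.natCast_eq_natCast_iff, Nat.cast_mul, ZMod.natCast_zmod_val, ZMod.natCast_zmod_val,
      ZMod.natCast_zmod_val, Units.val_mul]
  refine ⟨MonoidHom.mk' f hmul, hf, fun g u hu => hinj g _ _ (hf g) hu, fun g => ⟨fun h => ?_, fun h => ?_⟩⟩
  · have h1 : f g = 1 := h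
    have h2 := hf g
    rw [h1] at h2
    exact (hone g).1 h2
  · exact hinj g _ _ (hf g) ((hone g).2 h)

private theorem parA_num {N₀ p M : ℕ} (hp : p.Prime) (hp2 : p ≠ 2) (hpN : ¬ p ∣ N₀) {X : ℤ}
    (h1 : ((N₀ * p : ℕ) : ℤ) ∣ X - 1) (h2 : ((N₀ * p * p ^ M : ℕ) : ℤ) ∣ X ^ 2 - 1) :
    ((N₀ * p * p ^ M : ℕ) : ℤ) ∣ X - 1 := by
  have hpZ : Prime (p : ℤ) := Nat.prime_iff_prime_int.1 hp
  have h3 : (N₀ : ℤ) ∣ X - 1 := dvd_trans (by push_cast; exact dvd_mul_right _ _) h1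
  have h4 : (p : ℤ) ∣ X - 1 := dvd_trans (by push_cast; exact dvd_mul_left _ _) h1
  have h5 : ¬ (p : ℤ) ∣ X + 1 := by
    intro h
    have h6 : (p : ℤ) ∣ 2 := by
      have h7 := dvd_sub h h4
      have e : X + 1 - (X - 1) = 2 := by ring
      rwa [e] at h7
    have h7 : p ∣ 2 := by exact_mod_cast h6
    exact hp2 ((Nat.prime_dvd_prime_iff_eq hp Nat.prime_two).1 h7)
  have h6 : (p : ℤ) ^ (M + 1) ∣ (X - 1) * (X + 1) := by
    have e : (X - 1) * (X + 1) = X ^ 2 - 1 := by ring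
    rw [e]
    refine dvd_trans ?_ h2
    push_cast
    exact ⟨N₀, by ring⟩
  have h7 : (p : ℤ) ^ (M + 1) ∣ X - 1 := by
    have hc : IsCoprime ((p : ℤ) ^ (M + 1)) (X + 1) := (hpZ.coprime_iff_not_dvd.2 h5).pow_left
    exact hc.dvd_of_dvd_mul_right h6
  have h8 : IsCoprime (N₀ : ℤ) ((p : ℤ) ^ (M + 1)) := by
    apply IsCoprime.pow_right
    rw [Nat.isCoprime_iff_coprime]
    exact ((Nat.Prime.coprime_iff_not_dvd hp).2 hpN).symm
  have h9 := h8.mul_dvd h3 h7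
  have e : ((N₀ * p * p ^ M : ℕ) : ℤ) = (N₀ : ℤ) * (p : ℤ) ^ (M + 1) := by
    push_cast
    ring
  rw [e]
  exact h9

/-- an involution modulo `N₀ p ^ (M + 1)` which is `1` modulo `N₀ p` -/
private theorem parA_inv {N₀ p M : ℕ} [NeZero N₀] (hp : p.Prime) (hp2 : p ≠ 2) (hpN : ¬ p ∣ N₀)
    (a : (ZMod (N₀ * p * p ^ M))ˣ) (ha : a * a = 1)
    (h1 : ZMod.unitsMap (dvd_mul_right (N₀ * p) (p ^ M)) a = -1) : a * -1 = 1 := by
  have i1 : NeZero (N₀ * p) := ⟨mul_ne_zero (NeZero.ne N₀) hp.ne_zero⟩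
  have i2 : NeZero (N₀ * p * p ^ M) := ⟨mul_ne_zero (NeZero.ne _) (pow_ne_zero _ hp.ne_zero)⟩
  have h2 : ZMod.castHom (dvd_mul_right (N₀ * p) (p ^ M)) (ZMod (N₀ * p)) (a : ZMod (N₀ * p * p ^ M)) = -1 :=
    congrArg (fun u : (ZMod (N₀ * p))ˣ => (u : ZMod (N₀ * p))) h1
  have h3 : (((a : ZMod (N₀ * p * p ^ M)).val : ℕ) : ZMod (N₀ * p)) = -1 := by
    rw [← h2]
    conv_rhs => rw [← ZMod.natCast_zmod_val (a : ZMod (N₀ * p * p ^ M))]
    rw [map_natCast]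
  have h4 : (a : ZMod (N₀ * p * p ^ M)) * a = 1 := congrArg (fun u : (ZMod (N₀ * p * p ^ M))ˣ => (u : ZMod (N₀ * p * p ^ M))) ha
  have h5 := parA_num (M := M) (X := -(((a : ZMod (N₀ * p * p ^ M)).val : ℕ) : ℤ)) hp hp2 hpN (by
    rw [← ZMod.intCast_zmod_eq_zero_iff_dvd]
    push_cast
    rw [h3]
    ring) (by
    rw [← ZMod.intCast_zmod_eq_zero_iff_dvd]
    push_cast
    rw [ZMod.natCast_zmod_val, neg_sq, sq, h4, sub_self])
  rw [← ZMod.intCast_zmod_eq_zero_iff_dvd] at h5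
  push_cast at h5
  rw [ZMod.natCast_zmod_val] at h5
  apply Units.ext
  rw [Units.val_mul, Units.val_neg, Units.val_one, mul_neg, mul_one]
  exact sub_eq_zero.1 h5

open Pool.Agent.Helper60.FM in
private theorem parA_red {E : Type} [NormedField E] [IsUltrametricDist E] {w : E} (hw : ‖w‖ ≤ 1) (n : ℕ) :
    red (w ^ n) = red w ^ n := by
  induction n with
  | zero => rw [pow_zero, pow_zero, red_one]
  | succ n ih => rw [pow_succ, pow_succ, red_mul (by rw [norm_pow]; exact pow_le_one₀ (norm_nonneg _) hw) hw, ih]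

open Pool.Agent.Helper60.FM in
private theorem parA_lt {p : ℕ} [Fact p.Prime] {E : Type} [NormedField E] [IsUltrametricDist E] [NormedAlgebra ℚ_[p] E]
    {w : E} (hw : ‖w‖ = 1) {M : ℕ} (h : ‖w ^ (p ^ M) - 1‖ < 1) : ‖w - 1‖ < 1 := by
  have hc : CharP (kE E) p := charP_kE p E
  have hwp : ‖w ^ (p ^ M)‖ ≤ 1 := by rw [norm_pow, hw, one_pow]
  have h1 : ‖(1 : E)‖ ≤ 1 := by rw [norm_one]
  have h3 : red (w ^ (p ^ M)) = red (1 : E) := (red_eq_red hwp h1).2 h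
  rw [parA_red hw.le, red_one] at h3
  have h4 : (red w - 1) ^ (p ^ M) = 0 := by
    rw [sub_pow_char_pow, one_pow, h3, sub_self]
  have h5 : red w - 1 = 0 := eq_zero_of_pow_eq_zero h4
  rw [← red_eq_red hw.le h1, red_one]
  exact sub_eq_zero.1 h5

end

variable {p N₀ : ℕ} [NeZero N₀] [Fact p.Prime]
  {E : Type} [NormedField E] [IsUltrametricDist E] [CompleteSpace E] [NormedAlgebra ℚ_[p] E]

theorem par_hom (h : (ZMod (N₀ * p))ˣ → Gam)
    (hmul : ∀ M s t, Acts (N₀ * p * p ^ M) (h (s * t) * (h s * h t)⁻¹) 1)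
    {κ : Gam →* Eˣ} (hκ : Level p (N₀ * p) κ) (s t : (ZMod (N₀ * p))ˣ) :
    κ (h (s * t)) = κ (h s) * κ (h t) := by
  have h1 := hκ.2 _ fun k => hmul k s t
  rw [map_mul, map_inv, map_mul] at h1
  exact mul_inv_eq_one.1 h1

theorem par_neg (hp : p ≠ 2) (hpN : ¬ p ∣ N₀) (h : (ZMod (N₀ * p))ˣ → Gam) (e : Gam)
    (A : (M : ℕ) → (ZMod (N₀ * p))ˣ → ℕ → (ZMod (N₀ * p * p ^ M))ˣ)
    (hA : ∀ M s i, Acts (N₀ * p * p ^ M) (h s * e ^ i) (A M s i : ZMod (N₀ * p * p ^ M)).val)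
    (hmap : ∀ M s i, ZMod.unitsMap (dvd_mul_right (N₀ * p) (p ^ M)) (A M s i) = s)
    (hmul : ∀ M s t, Acts (N₀ * p * p ^ M) (h (s * t) * (h s * h t)⁻¹) 1)
    {S : Finset ℕ} {κ : Gam →* Eˣ} (hκ : Limit p (N₀ * p) S κ) : κ (h (-1)) = 1 := by
  have hpp : p.Prime := Fact.out
  have i1 : NeZero (N₀ * p) := ⟨mul_ne_zero (NeZero.ne N₀) hpp.ne_zero⟩
  obtain ⟨c, hc⟩ := exists_cc
  have hκc : κ c = 1 := Limit.cc hp hκ hc
  have key : ∀ M, Acts (N₀ * p * p ^ M) (h (-1) * c) 1 := by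
    intro M
    have i2 : NeZero (N₀ * p * p ^ M) := ⟨mul_ne_zero (NeZero.ne _) (pow_ne_zero _ hpp.ne_zero)⟩
    obtain ⟨χ, hχ, hu, h1⟩ := parA_char (N₀ * p * p ^ M)
    have e1 : χ (h 1) = 1 := by
      have h2 := (h1 _).2 (hmul M 1 1)
      rw [map_mul, map_inv, map_mul, mul_one (1 : (ZMod (N₀ * p))ˣ)] at h2
      have h3 := mul_inv_eq_one.1 h2
      exact mul_eq_left.1 h3.symm
    have e2 : χ (h (-1)) * χ (h (-1)) = 1 := by
      have h2 := (h1 _).2 (hmul M (-1) (-1))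
      rw [map_mul, map_inv, map_mul, neg_mul_neg, mul_one (1 : (ZMod (N₀ * p))ˣ), e1] at h2
      exact (mul_inv_eq_one.1 h2).symm
    have e3 : χ c = -1 := by
      refine hu c (-1) (acts_cc hc _ _ ?_)
      rw [← ZMod.natCast_eq_natCast_iff, Nat.cast_add, ZMod.natCast_zmod_val, Units.val_neg, Units.val_one,
        Nat.cast_one, Nat.cast_zero, neg_add_cancel]
    have e4 : χ (h (-1)) = A M (-1) 0 := by
      refine hu _ _ ?_
      have h2 := hA M (-1) 0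
      rwa [pow_zero, mul_one] at h2
    rw [e4] at e2
    rw [← h1, map_mul, e3, e4]
    exact parA_inv hpp hp hpN _ e2 (hmap M (-1) 0)
  have h2 := hκ.1.2 _ key
  rwa [map_mul, hκc, mul_one] at h2

theorem par_lt (e : Gam) (hep : ∀ M, Acts (N₀ * p * p ^ M) (e ^ (p ^ M)) 1)
    {κ : Gam →* Eˣ} (hκ : Level p (N₀ * p) κ) : ‖(κ e : E) - 1‖ < 1 := by
  have hpp : p.Prime := Fact.out
  have i1 : NeZero (N₀ * p) := ⟨mul_ne_zero (NeZero.ne N₀) hpp.ne_zero⟩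
  obtain ⟨M, hM⟩ := hκ.small (r := 1 / 2) (by norm_num)
  have h1 := hM M le_rfl _ (hep M)
  rw [map_pow, Units.val_pow_eq_pow_val] at h1
  exact parA_lt (hκ.norm_one e) (h1.trans_lt (by norm_num))

theorem par_inj (h : (ZMod (N₀ * p))ˣ → Gam) (e : Gam)
    (A : (M : ℕ) → (ZMod (N₀ * p))ˣ → ℕ → (ZMod (N₀ * p * p ^ M))ˣ)
    (hA : ∀ M s i, Acts (N₀ * p * p ^ M) (h s * e ^ i) (A M s i : ZMod (N₀ * p * p ^ M)).val)
    (hbij : ∀ M, Function.Bijective fun x : (ZMod (N₀ * p))ˣ × Fin (p ^ M) => A M x.1 x.2)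
    {κ κ' : Gam →* Eˣ} (hκ : Level p (N₀ * p) κ) (hκ' : Level p (N₀ * p) κ')
    (hs : ∀ s, κ (h s) = κ' (h s)) (he : κ e = κ' e) : κ = κ' := by
  have hpp : p.Prime := Fact.out
  have i1 : NeZero (N₀ * p) := ⟨mul_ne_zero (NeZero.ne N₀) hpp.ne_zero⟩
  refine MonoidHom.ext fun g => Units.ext ?_
  by_contra hne
  have hpos : 0 < ‖(κ g : E) - κ' g‖ := norm_pos_iff.2 (sub_ne_zero.2 hne)
  obtain ⟨M1, h1⟩ := hκ.small (r := ‖(κ g : E) - κ' g‖ / 3) (by positivity)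
  obtain ⟨M2, h2⟩ := hκ'.small (r := ‖(κ g : E) - κ' g‖ / 3) (by positivity)
  obtain ⟨M, hM1, hM2⟩ : ∃ M, M1 ≤ M ∧ M2 ≤ M := ⟨max M1 M2, le_max_left _ _, le_max_right _ _⟩
  have i2 : NeZero (N₀ * p * p ^ M) := ⟨mul_ne_zero (NeZero.ne _) (pow_ne_zero _ hpp.ne_zero)⟩
  obtain ⟨χ, hχ, hu, hone⟩ := parA_char (N₀ * p * p ^ M)
  obtain ⟨⟨s, i⟩, hsi⟩ := (hbij M).2 (χ g)
  have h3 : χ (h s * e ^ (i : ℕ)) = A M s i := hu _ _ (hA M s i)
  have h4 : Acts (N₀ * p * p ^ M) (g * (h s * e ^ (i : ℕ))⁻¹) 1 := by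
    have h5 : χ g = A M s i := hsi.symm
    rw [← hone, map_mul, map_inv, h3, h5, mul_inv_cancel]
  have key : ∀ {φ : Gam →* Eˣ} (_ : Level p (N₀ * p) φ) (x y : Gam) (r : ℝ), ‖(φ (x * y⁻¹) : E) - 1‖ ≤ r →
      ‖(φ x : E) - φ y‖ ≤ r := by
    intro φ hφ x y r hr
    have e1 : (φ x : E) - φ y = ((φ (x * y⁻¹) : E) - 1) * φ y := by
      rw [sub_mul, one_mul, ← Units.val_mul, ← map_mul, inv_mul_cancel_right]
    rw [e1, norm_mul, hφ.norm_one y, mul_one]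
    exact hr
  have h5 := key hκ g _ _ (h1 M hM1 _ h4)
  have h6 := key hκ' g _ _ (h2 M hM2 _ h4)
  have h7 : κ (h s * e ^ (i : ℕ)) = κ' (h s * e ^ (i : ℕ)) := by
    rw [map_mul, map_mul, map_pow, map_pow, hs, he]
  rw [h7] at h5
  rw [norm_sub_rev] at h6
  have h8 := norm_sub_le_norm_sub_add_norm_sub (κ g : E) (κ' (h s * e ^ (i : ℕ)) : E) (κ' g : E)
  linarith

end Pool.Agent.EDV
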