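import Pool.Agent.EDV.Tei
import Pool.Agent.EDV.ParA
import Pool.Agent.EDV.Lev

/-!
# EDV-DchA (0.6h): a character of level `M p^∞` modulo the maximal ideal

`ψ` has `Level p M`, `p ∤ M`. There is a character `η` of `(ℤ/Mp)ˣ` with `ψ g ≡ η s` if `g` acts as `[s]` on
the `Mp`-th roots of unity.
Proof: `exists_he p M hp hpM E` gives `h`, `e`, `A`, ... . `hψ' : Level p (M * p) ψ` (`Level.of_dvd`).
`η s := ψ (h s)` is a homomorphism (`par_hom`, `MonoidHom.mk'`). `‖ψ e - 1‖ < 1` (`par_lt`). Let `g` act as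
`[s]` on the `Mp`-th roots of unity. Choose `K` with `Level.small` for the radius `1 / 2`: `g` acts on the
`M p p ^ K`-th roots of unity as `[a]` (`acts_exists`), `a = A K t i` for some `t`, `i` (`hbij`), `t = s`
(`hmap`, `acts_of_dvd`, `acts_inj`), so `g * (h s * e ^ i)⁻¹` acts trivially there and
`‖ψ g - ψ (h s) ψ (e) ^ i‖ ≤ 1 / 2 < 1` (`Level.norm_one`); `‖ψ (e) ^ i - 1‖ < 1`. See the proofs of `par_inj` and
`par_lt` in `EDV/ParA.lean`.
-/

namespace Pool.Agent.EDV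

open Pool.Agent.AAP

private theorem dchA_char (m : ℕ) [NeZero m] : ∃ χ : Gam →* (ZMod m)ˣ, (∀ g, Acts m g (χ g : ZMod m).val) ∧
    (∀ g (u : (ZMod m)ˣ), Acts m g (u : ZMod m).val → χ g = u) ∧ ∀ g, χ g = 1 ↔ Acts m g 1 := by
  have hinj : ∀ (g : Gam) (u v : (ZMod m)ˣ), Acts m g (u : ZMod m).val → Acts m g (v : ZMod m).val → u = v := by
    intro g u v hu hv
    have h1 := acts_inj hu hv
    have h2 := (ZMod.natCast_eq_natCast_iff _ _ _).2 h1
    rw [ZMod.natCast_zmod_val, ZMod.natCast_zmod_val] at h2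
    exact Units.ext h2
  have hone : ∀ g : Gam, Acts m g ((1 : (ZMod m)ˣ) : ZMod m).val ↔ Acts m g 1 := by
    intro g
    have h1 : ((1 : (ZMod m)ˣ) : ZMod m).val ≡ 1 [MOD m] := by
      rw [Units.val_one, ← ZMod.natCast_eq_natCast_iff, ZMod.natCast_zmod_val, Nat.cast_one]
    exact ⟨fun h => acts_mod h h1, fun h => acts_mod h h1.symm⟩
  choose f hf using acts_exists m
  have hmul : ∀ g g', f (g * g') = f g * f g' := by
    intro g g'
    refine hinj _ _ _ (hf _) ?_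
    refine acts_mod (acts_mul (hf g) (hf g')) ?_
    rw [← ZMod.natCast_eq_natCast_iff, Nat.cast_mul, ZMod.natCast_zmod_val, ZMod.natCast_zmod_val,
      ZMod.natCast_zmod_val, Units.val_mul]
  refine ⟨MonoidHom.mk' f hmul, hf, fun g u hu => hinj g _ _ (hf g) hu, fun g => ⟨fun h => ?_, fun h => ?_⟩⟩
  · have h1 : f g = 1 := h
    have h2 := hf g
    rw [h1] at h2
    exact (hone g).1 h2
  · exact hinj g _ _ (hf g) ((hone g).2 h)

private theorem dchA_pow {E : Type} [NormedField E] [IsUltrametricDist E] {x : E} (hx : ‖x - 1‖ < 1) (i : ℕ) :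
    ‖x ^ i - 1‖ < 1 := by
  have h1 : ‖x‖ ≤ 1 := by
    have h2 : ‖(x - 1) + 1‖ ≤ max ‖x - 1‖ ‖(1 : E)‖ := IsUltrametricDist.norm_add_le_max _ _
    rw [sub_add_cancel, norm_one] at h2
    exact h2.trans (max_le hx.le le_rfl)
  induction i with
  | zero => rw [pow_zero, sub_self, norm_zero]; exact zero_lt_one
  | succ n ih =>
    have e1 : x ^ (n + 1) - 1 = (x ^ n - 1) * x + (x - 1) := by ring
    rw [e1]
    refine (IsUltrametricDist.norm_add_le_max _ _).trans_lt (max_lt ?_ hx)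
    rw [norm_mul]
    exact (mul_le_of_le_one_right (norm_nonneg _) h1).trans_lt ih

theorem level_eta {p M : ℕ} [Fact p.Prime] (hp : p ≠ 2) [NeZero M] (hpM : ¬ p ∣ M)
    {E : Type} [NormedField E] [IsUltrametricDist E] [CompleteSpace E] [NormedAlgebra ℚ_[p] E]
    {ψ : Gam →* Eˣ} (hψ : Level p M ψ) :
    ∃ η : (ZMod (M * p))ˣ →* Eˣ, ∀ (g : Gam) (s : (ZMod (M * p))ˣ),
      Acts (M * p) g (s : ZMod (M * p)).val → Equ (ψ g : E) (η s) := by
  have hpp : p.Prime := Fact.out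
  have i1 : NeZero (M * p) := ⟨mul_ne_zero (NeZero.ne M) hpp.ne_zero⟩
  obtain ⟨h, e, ω, A, hA, hmap, hbij, hmul, hep, -⟩ := exists_he p M hp hpM E
  have hψ' : Level p (M * p) ψ := hψ.of_dvd (dvd_mul_right M p)
  have hlt : ‖(ψ e : E) - 1‖ < 1 := par_lt e hep hψ'
  refine ⟨MonoidHom.mk' (fun s => ψ (h s)) (fun s t => par_hom h hmul hψ' s t), fun g s hg => ?_⟩
  change ‖(ψ g : E) - (ψ (h s) : E)‖ < 1
  obtain ⟨K, hK⟩ := hψ'.small (r := 1 / 2) (by norm_num)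
  have i2 : NeZero (M * p * p ^ K) := ⟨mul_ne_zero (NeZero.ne _) (pow_ne_zero _ hpp.ne_zero)⟩
  obtain ⟨χ, hχ, hu, hone⟩ := dchA_char (M * p * p ^ K)
  obtain ⟨⟨t, i⟩, hti⟩ := (hbij K).2 (χ g)
  have h5 : χ g = A K t i := hti.symm
  have hts : t = s := by
    have e1 : Acts (M * p) g ((A K t i : (ZMod (M * p * p ^ K))ˣ) : ZMod (M * p * p ^ K)).val := by
      have e2 := hχ g
      rw [h5] at e2
      exact acts_of_dvd (dvd_mul_right (M * p) (p ^ K)) e2
    have e2 := (ZMod.natCast_eq_natCast_iff _ _ _).2 (acts_inj e1 hg)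
    rw [ZMod.natCast_zmod_val] at e2
    have e3 := congrArg (fun u : (ZMod (M * p))ˣ => (u : ZMod (M * p))) (hmap K t i)
    have e4 : ((ZMod.unitsMap (dvd_mul_right (M * p) (p ^ K)) (A K t i) : (ZMod (M * p))ˣ) : ZMod (M * p)) =
        (((A K t i : (ZMod (M * p * p ^ K))ˣ) : ZMod (M * p * p ^ K)).val : ZMod (M * p)) := by
      rw [ZMod.unitsMap_val, ZMod.natCast_val]
    refine Units.ext ?_
    rw [← e2, ← e4]
    exact e3.symm
  subst hts
  have h3 : χ (h t * e ^ (i : ℕ)) = A K t i := hu _ _ (hA K t i)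
  have h4 : Acts (M * p * p ^ K) (g * (h t * e ^ (i : ℕ))⁻¹) 1 := by
    rw [← hone, map_mul, map_inv, h3, h5, mul_inv_cancel]
  have h6 : ‖(ψ g : E) - ψ (h t * e ^ (i : ℕ))‖ < 1 := by
    have e1 : (ψ g : E) - ψ (h t * e ^ (i : ℕ)) =
        ((ψ (g * (h t * e ^ (i : ℕ))⁻¹) : E) - 1) * ψ (h t * e ^ (i : ℕ)) := by
      rw [sub_mul, one_mul, ← Units.val_mul, ← map_mul, inv_mul_cancel_right]
    rw [e1, norm_mul, hψ'.norm_one, mul_one]
    exact (hK K le_rfl _ h4).trans_lt (by norm_num)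
  have h7 : ‖(ψ (h t * e ^ (i : ℕ)) : E) - ψ (h t)‖ < 1 := by
    have e1 : (ψ (h t * e ^ (i : ℕ)) : E) - ψ (h t) = ψ (h t) * ((ψ e : E) ^ (i : ℕ) - 1) := by
      rw [map_mul, map_pow, Units.val_mul, Units.val_pow_eq_pow_val, mul_sub, mul_one]
    rw [e1, norm_mul, hψ'.norm_one, one_mul]
    exact dchA_pow hlt i
  have e1 : (ψ g : E) - ψ (h t) = ((ψ g : E) - ψ (h t * e ^ (i : ℕ))) +
      ((ψ (h t * e ^ (i : ℕ)) : E) - ψ (h t)) := (sub_add_sub_cancel _ _ _).symm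
  rw [e1]
  exact (IsUltrametricDist.norm_add_le_max _ _).trans_lt (max_lt h6 h7)

end Pool.Agent.EDV
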