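import Pool.Agent.AAP.Stmt3
import Pool.Agent.Helper60.FM.Res

/-!
# EDV-DchB: characters of `(ℤ/Mp)ˣ` modulo the maximal ideal

`p ∤ M`, `η` a character of `(ℤ/Mp)ˣ` with values in `Eˣ`, `E` ultrametric over `ℚ_p`. There are a character `β`
of `(ℤ/M)ˣ` and `1 ≤ n < p` with `η s ≡ β (s mod M) s ^ n` modulo the maximal ideal.
Proof: by the Chinese remainder theorem (`ZMod.chineseRemainder`, `Units.mapEquiv`, `MulEquiv.prodUnits`;
or: for `a ∈ (ℤ/M)ˣ` let `i a ∈ (ℤ/Mp)ˣ` be the class which is `a` modulo `M` and `1` modulo `p`, and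
`j b` the class which is `1` modulo `M` and `b` modulo `p`) `s = i(s mod M) j(s mod p)`; `β = η ∘ i`. The character
`η ∘ j` of `(ℤ/p)ˣ`: let `w` be a generator of `(ℤ/p)ˣ` (`IsCyclic`), `x = η (j w)`, `x ^ (p - 1) = 1`. In the
residue ring `kE E` (`Helper60/FM/Res.lean`: a domain of characteristic `p`, `red`, `charP_kE`) `red x` is a root of
`X ^ (p - 1) - 1`, which has the `p - 1` roots `1, .., p - 1` (`ZMod.pow_card_sub_one_eq_one`, image of
`ZMod p → kE E`), so `red x` is the image of some `u ∈ (ℤ/p)ˣ`, `u = w ^ n` and `n` can be taken in `[1, p - 1]` as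
`w ^ (p - 1) = 1`. Then `red (η (j (w ^ i))) = red x ^ i` is the image of `w ^ (n i)`, the `n`-th power of `w ^ i`. The norm
of a value of `η` is 1 (finite order, `Helper60.FM.norm_chi`); `Equ x y ↔ red x = red y` (`red_eq_red`).
-/

namespace Pool.Agent.EDV

open Pool.Agent.AAP

private theorem DchB_norm {E : Type} [NormedField E] {G : Type*} [Group G] [Finite G] (χ : G →* Eˣ) (g : G) :
    ‖(χ g : E)‖ = 1 := by
  have h1 : (χ g : E) ^ Nat.card G = 1 := by
    rw [← Units.val_pow_eq_pow_val, ← map_pow, pow_card_eq_one', map_one, Units.val_one]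
  have h2 : ‖(χ g : E)‖ ^ Nat.card G = 1 := by rw [← norm_pow, h1, norm_one]
  exact (pow_eq_one_iff_of_nonneg (norm_nonneg _) Nat.card_pos.ne').1 h2

open Polynomial in
private theorem DchB_prod (p : ℕ) [hp : Fact p.Prime] :
    ∏ a : ZMod p, (X - C a) = (X ^ p - X : (ZMod p)[X]) := by
  have h1 : (X ^ p - X : (ZMod p)[X]).roots = Finset.univ.val := by
    have h := FiniteField.roots_X_pow_card_sub_X (ZMod p)
    rwa [ZMod.card] at h
  have h2 : (X ^ p - X : (ZMod p)[X]).Monic := by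
    apply monic_X_pow_sub
    rw [degree_X]
    exact_mod_cast hp.out.one_lt
  have h3 : Multiset.card (X ^ p - X : (ZMod p)[X]).roots = (X ^ p - X : (ZMod p)[X]).natDegree := by
    rw [h1, FiniteField.X_pow_card_sub_X_natDegree_eq _ hp.out.one_lt]
    exact (Finset.card_univ).trans (ZMod.card p)
  have h4 := prod_multiset_X_sub_C_of_monic_of_roots_card_eq h2 h3
  rw [h1] at h4
  exact h4

open Polynomial in
private theorem DchB_root {p : ℕ} [hp : Fact p.Prime] {R : Type*} [CommRing R] [IsDomain R]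
    (φ : ZMod p →+* R) {x : R} (hx : x ^ p = x) : ∃ a : ZMod p, x = φ a := by
  have h1 : ∏ a : ZMod p, (x - φ a) = 0 := by
    have h2 := congrArg (eval₂ φ x) (DchB_prod p)
    rw [eval₂_finsetProd] at h2
    simp only [eval₂_sub, eval₂_X, eval₂_C, eval₂_pow] at h2
    rw [h2, hx, sub_self]
  rw [Finset.prod_eq_zero_iff] at h1
  obtain ⟨a, -, ha⟩ := h1
  exact ⟨a, sub_eq_zero.1 ha⟩

private theorem DchB_alg {p : ℕ} [hp : Fact p.Prime] {R : Type*} [CommRing R] [IsDomain R]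
    (φ : ZMod p →+* R) (ψ : (ZMod p)ˣ →* R) :
    ∃ n : ℕ, 1 ≤ n ∧ n < p ∧ ∀ u : (ZMod p)ˣ, ψ u = φ (u : ZMod p) ^ n := by
  have hp2 := hp.out.two_le
  obtain ⟨w, hw⟩ := IsCyclic.exists_generator (α := (ZMod p)ˣ)
  have hpow : ∀ u : (ZMod p)ˣ, ∃ k : ℕ, w ^ k = u := by
    intro u
    obtain ⟨k, hk⟩ : u ∈ Submonoid.powers w := by
      rw [mem_powers_iff_mem_zpowers]
      exact hw u
    exact ⟨k, hk⟩
  have hw1 : w ^ (p - 1) = 1 := ZMod.units_pow_card_sub_one_eq_one p w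
  have hx1 : ψ w ^ (p - 1) = 1 := by rw [← map_pow, hw1, map_one]
  have hx : ψ w ^ p = ψ w := by
    calc ψ w ^ p = ψ w ^ (p - 1) * ψ w := by rw [← pow_succ, Nat.sub_add_cancel hp.out.one_lt.le]
      _ = ψ w := by rw [hx1, one_mul]
  obtain ⟨a, ha⟩ := DchB_root φ hx
  have ha0 : a ≠ 0 := by
    rintro rfl
    rw [map_zero] at ha
    rw [ha, zero_pow (by omega)] at hx1
    exact zero_ne_one hx1
  obtain ⟨m, hm⟩ := hpow (Units.mk0 a ha0)
  obtain ⟨n, hn1, hn2, hn⟩ : ∃ n : ℕ, 1 ≤ n ∧ n < p ∧ w ^ n = Units.mk0 a ha0 := by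
    have h1 : w ^ (m % (p - 1)) = w ^ m := by
      conv_rhs => rw [← Nat.div_add_mod m (p - 1), pow_add, pow_mul, hw1, one_pow, one_mul]
    have h2 : m % (p - 1) < p - 1 := Nat.mod_lt _ (by omega)
    rcases Nat.eq_zero_or_pos (m % (p - 1)) with h | h
    · refine ⟨p - 1, by omega, by omega, ?_⟩
      rw [hw1, ← hm, ← h1, h, pow_zero]
    · exact ⟨m % (p - 1), h, by omega, h1.trans hm⟩
  refine ⟨n, hn1, hn2, fun u => ?_⟩
  obtain ⟨k, rfl⟩ := hpow u
  have h3 : (a : ZMod p) = (w : ZMod p) ^ n := by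
    have h4 := congrArg (fun u : (ZMod p)ˣ => (u : ZMod p)) hn
    simpa using h4.symm
  rw [map_pow, ha, h3, Units.val_pow_eq_pow_val, map_pow, map_pow]
  exact pow_right_comm _ _ _

theorem eta_split {p M : ℕ} [Fact p.Prime] (hp : p ≠ 2) [NeZero M] (hpM : ¬ p ∣ M)
    {E : Type} [NormedField E] [IsUltrametricDist E] [CompleteSpace E] [NormedAlgebra ℚ_[p] E]
    (η : (ZMod (M * p))ˣ →* Eˣ) :
    ∃ (β : (ZMod M)ˣ →* Eˣ) (n : ℕ), 1 ≤ n ∧ n < p ∧ ∀ s : (ZMod (M * p))ˣ,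
      Equ (η s : E) (β (ZMod.unitsMap (dvd_mul_right M p) s) *
        (((s : ZMod (M * p)).val : ℕ) : E) ^ n) := by
  have hpp : p.Prime := Fact.out
  have hne : NeZero (M * p) := ⟨mul_ne_zero (NeZero.ne M) hpp.ne_zero⟩
  have hcop : M.Coprime p := ((Nat.Prime.coprime_iff_not_dvd hpp).2 hpM).symm
  set e := ZMod.chineseRemainder hcop with he
  set F : (ZMod (M * p))ˣ ≃* (ZMod M)ˣ × (ZMod p)ˣ :=
    (Units.mapEquiv e.toMulEquiv).trans MulEquiv.prodUnits with hF
  have hF1 : ∀ s : (ZMod (M * p))ˣ, (F s).1 = ZMod.unitsMap (dvd_mul_right M p) s := by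
    intro s
    apply Units.ext
    have h1 : (RingHom.fst (ZMod M) (ZMod p)).comp (e : ZMod (M * p) →+* ZMod M × ZMod p) =
        ZMod.castHom (dvd_mul_right M p) (ZMod M) := RingHom.ext_zmod _ _
    exact congrArg (fun f : ZMod (M * p) →+* ZMod M => f (s : ZMod (M * p))) h1
  have hF2 : ∀ s : (ZMod (M * p))ˣ, (((F s).2 : (ZMod p)ˣ) : ZMod p) = (((s : ZMod (M * p)).val : ℕ) : ZMod p) := by
    intro s
    have h1 : (RingHom.snd (ZMod M) (ZMod p)).comp (e : ZMod (M * p) →+* ZMod M × ZMod p)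
        (((s : ZMod (M * p)).val : ℕ) : ZMod (M * p)) = (((s : ZMod (M * p)).val : ℕ) : ZMod p) := map_natCast _ _
    rw [ZMod.natCast_zmod_val] at h1
    exact h1
  have hchar : CharP (Helper60.FM.kE E) p := Helper60.FM.charP_kE p E
  set θ : (ZMod p)ˣ →* Eˣ := (η.comp F.symm.toMonoidHom).comp (MonoidHom.inr _ _) with hθ
  set β : (ZMod M)ˣ →* Eˣ := (η.comp F.symm.toMonoidHom).comp (MonoidHom.inl _ _) with hβ
  have hsplit : ∀ s : (ZMod (M * p))ˣ, η s = β (F s).1 * θ (F s).2 := by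
    intro s
    rw [hβ, hθ]
    change η s = η (F.symm ((F s).1, 1)) * η (F.symm (1, (F s).2))
    rw [← map_mul, ← map_mul, Prod.mk_mul_mk, mul_one, one_mul]
    exact congrArg η (F.symm_apply_apply s).symm
  let ψ : (ZMod p)ˣ →* Helper60.FM.kE E :=
    { toFun := fun g => Helper60.FM.red (θ g : E)
      map_one' := by rw [map_one, Units.val_one, Helper60.FM.red_one]
      map_mul' := by
        intro g h
        rw [map_mul, Units.val_mul, Helper60.FM.red_mul (DchB_norm θ g).le (DchB_norm θ h).le] }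
  obtain ⟨n, hn1, hn2, hn⟩ := DchB_alg (ZMod.castHom dvd_rfl (Helper60.FM.kE E)) ψ
  refine ⟨β, n, hn1, hn2, fun s => ?_⟩
  have b1 : ‖(β (ZMod.unitsMap (dvd_mul_right M p) s) : E)‖ ≤ 1 := (DchB_norm β _).le
  have b2 : ‖(((s : ZMod (M * p)).val : ℕ) : E)‖ ≤ 1 := Helper60.FM.norm_natCast_le_one _
  have b3 : ∀ k : ℕ, ‖(((s : ZMod (M * p)).val : ℕ) : E) ^ k‖ ≤ 1 := by
    intro k
    rw [norm_pow]
    exact pow_le_one₀ (norm_nonneg _) b2
  have b4 : ∀ k : ℕ, Helper60.FM.red ((((s : ZMod (M * p)).val : ℕ) : E) ^ k) =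
      ((((s : ZMod (M * p)).val : ℕ) : Helper60.FM.kE E)) ^ k := by
    intro k
    induction k with
    | zero => rw [pow_zero, pow_zero, Helper60.FM.red_one]
    | succ k ih => rw [pow_succ, pow_succ, Helper60.FM.red_mul (b3 k) b2, ih, Helper60.FM.red_natCast]
  have b5 : ‖(β (ZMod.unitsMap (dvd_mul_right M p) s) : E) * (((s : ZMod (M * p)).val : ℕ) : E) ^ n‖ ≤ 1 := by
    rw [norm_mul]
    exact mul_le_one₀ b1 (norm_nonneg _) (b3 n)
  apply (Helper60.FM.red_eq_red (DchB_norm η s).le b5).1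
  rw [Helper60.FM.red_mul b1 (b3 n), b4, hsplit s, Units.val_mul,
    Helper60.FM.red_mul (DchB_norm β _).le (DchB_norm θ _).le, hF1 s]
  congr 1
  have h5 := hn (F s).2
  rw [hF2 s, map_natCast] at h5
  exact h5

end Pool.Agent.EDV
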