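import Pool.Agent.EDV.Defs2
import Pool.Agent.EDV.Lev

/-!
# EDV-Dec (1.0h): decomposition groups in `(ℤ/m)ˣ`

`g` stabilizes the prime `𝔓` of `AI` (the ring of all algebraic integers, see `AAP/Stmt.lean`,
`AAP/StmtB.lean`), `ℓ ∈ 𝔓`, `g` acts on the `m`-th roots of unity as `[u]`. Then `u` is a power of `ℓ`
modulo the part `m'` of `m` prime to `ℓ`.
Proof: `m = ℓ ^ j m'`, `ℓ ∤ m'` (`Nat.exists_eq_pow_mul_and_not_dvd`). `F = AI / 𝔓` is a domain of
characteristic `ℓ`, `g` induces an endomorphism `γ` of `F` (`g` maps `AI` to `AI` and `𝔓` to `𝔓`). Let `z`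
be the image in `F` of a primitive `m'`-th root of unity `ζ` of `Qbar`: it is primitive again: if `z ^ i = 1`,
`0 < i < m'`, then `1 - ζ ^ i ∈ 𝔓`, but `∏_{0 < i < m'} (1 - ζ ^ i) = m'` is not in `𝔓` (or: `X ^ m' - 1` is
separable modulo `ℓ`; its `m'` roots `ζ ^ i` have distinct images as the derivative `m' X ^ (m' - 1)` does not
vanish at `z ^ i`). `γ z = z ^ [u]`.
Choose `f > 0` with `ℓ ^ f ≡ 1` modulo `m'`. `P(X) = ∏_{i < f} (X - z ^ (ℓ ^ i)) ∈ F[X]`; applying the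
Frobenius `x ↦ x ^ ℓ` of `F` to the coefficients permutes the factors, so all coefficients `x` of `P` satisfy
`x ^ ℓ = x`, so they are images of natural numbers (`X ^ ℓ - X` has the `ℓ` roots `0, .., ℓ - 1` in `F` and no
others) and `γ x = x`. So `P(γ z) = γ(P(z)) = 0`, `z ^ [u] = γ z = z ^ (ℓ ^ i)` for some `i`, and
`[u] ≡ ℓ ^ i` modulo `m'` as `z` is primitive.
-/

open NumberField Pointwise Matrix

namespace Pool.Agent.EDV

open Pool.Agent.AAP

open Pool.Agent.Helper60.FM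

private theorem dec_fix {F : Type*} [CommRing F] [IsDomain F] (ℓ : ℕ) [Fact ℓ.Prime] [CharP F ℓ]
    (γ : F →+* F) (x : F) (hx : x ^ ℓ = x) : γ x = x := by
  have hinj : Function.Injective (algebraMap F (FractionRing F)) :=
    IsFractionRing.injective F (FractionRing F)
  have : CharP (FractionRing F) ℓ := charP_of_injective_algebraMap hinj ℓ
  have h1 : algebraMap F (FractionRing F) x ∈ (⊥ : Subfield (FractionRing F)) := by
    rw [Subfield.mem_bot_iff_pow_eq_self (FractionRing F) ℓ, ← map_pow, hx]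
  rw [← ZMod.fieldRange_castHom_eq_bot ℓ] at h1
  obtain ⟨a, ha⟩ := h1
  rw [ZMod.castHom_apply, ← ZMod.natCast_val, ← map_natCast (algebraMap F (FractionRing F))] at ha
  rw [← hinj ha, map_natCast]

private theorem dec_mod {F : Type*} [CommRing F] {z : F} {k a b : ℕ} (hz : IsPrimitiveRoot z k)
    (hab : a ≡ b [MOD k]) : z ^ a = z ^ b := by
  rw [← pow_mod_orderOf z a, ← pow_mod_orderOf z b, ← hz.eq_orderOf]
  rw [hab]

private theorem dec_frob {F : Type*} [CommRing F] [IsDomain F] (ℓ : ℕ) [Fact ℓ.Prime] [CharP F ℓ]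
    (γ : F →+* F) (z : F) (k : ℕ) [NeZero k] (hz : IsPrimitiveRoot z k) (hk : ℓ.Coprime k) :
    ∃ i : ℕ, γ z = z ^ ℓ ^ i := by
  classical
  have hf : z ^ ℓ ^ k.totient = z := by
    have h1 : ℓ ^ k.totient ≡ 1 [MOD k] := Nat.ModEq.pow_totient hk
    rw [dec_mod hz h1, pow_one]
  have hf0 : 0 < k.totient := Nat.totient_pos.2 (NeZero.pos k)
  generalize k.totient = f at hf hf0
  let h : ℕ → Polynomial F := fun i => Polynomial.X - Polynomial.C (z ^ ℓ ^ i)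
  let P : Polynomial F := ∏ i ∈ Finset.range f, h i
  have hPF : P.map (frobenius F ℓ) = P := by
    have e1 : P.map (frobenius F ℓ) = ∏ i ∈ Finset.range f, h (i + 1) := by
      rw [Polynomial.map_prod]
      refine Finset.prod_congr rfl fun i _ => ?_
      change (Polynomial.X - Polynomial.C (z ^ ℓ ^ i)).map (frobenius F ℓ) =
        Polynomial.X - Polynomial.C (z ^ ℓ ^ (i + 1))
      rw [Polynomial.map_sub, Polynomial.map_X, Polynomial.map_C, frobenius_def, ← pow_mul,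
        ← pow_succ]
    have e2 := Finset.prod_range_succ h f
    have e3 := Finset.prod_range_succ' h f
    have e4 : h f = h 0 := by
      change Polynomial.X - Polynomial.C (z ^ ℓ ^ f) = Polynomial.X - Polynomial.C (z ^ ℓ ^ 0)
      rw [hf, pow_zero, pow_one]
    have e5 : h 0 ≠ 0 := Polynomial.X_sub_C_ne_zero _
    rw [e1]
    apply mul_right_cancel₀ e5
    rw [← e3, e2, e4]
  have hPγ : P.map γ = P := by
    ext n
    rw [Polynomial.coeff_map]
    apply dec_fix ℓ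
    conv_rhs => rw [← hPF]
    rw [Polynomial.coeff_map, frobenius_def]
  have hz0 : P.eval z = 0 := by
    rw [Polynomial.eval_prod]
    refine Finset.prod_eq_zero (Finset.mem_range.2 hf0) ?_
    change (Polynomial.X - Polynomial.C (z ^ ℓ ^ 0)).eval z = 0
    rw [pow_zero, pow_one, Polynomial.eval_sub, Polynomial.eval_X, Polynomial.eval_C, sub_self]
  have h0 : P.eval (γ z) = 0 := by
    rw [← hPγ, Polynomial.eval_map, Polynomial.eval₂_at_apply, hz0, map_zero]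
  rw [Polynomial.eval_prod, Finset.prod_eq_zero_iff] at h0
  obtain ⟨i, -, hi⟩ := h0
  refine ⟨i, ?_⟩
  change (Polynomial.X - Polynomial.C (z ^ ℓ ^ i)).eval (γ z) = 0 at hi
  rw [Polynomial.eval_sub, Polynomial.eval_X, Polynomial.eval_C] at hi
  exact sub_eq_zero.1 hi

theorem dcm_dec {ℓ m : ℕ} [NeZero m] (hℓ : ℓ.Prime) {g : Gam} (hg : Dcm ℓ g) {u : (ZMod m)ˣ}
    (hu : Acts m g (u : ZMod m).val) : DecL ℓ m u := by
  have hF : Fact ℓ.Prime := ⟨hℓ⟩
  obtain ⟨𝔓', hP', hℓP', hst'⟩ := hg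
  let 𝔓 : Ideal ZQ := 𝔓'
  have hP : 𝔓.IsPrime := hP'
  have hℓP : (ℓ : ZQ) ∈ 𝔓 := hℓP'
  let g' : GQ := g
  have hst : ∀ x : ZQ, x ∈ 𝔓 ↔ g' • x ∈ 𝔓 := fun x => hst' x (sm g' x : AI) rfl
  obtain ⟨j, m', hm', hm⟩ := Nat.exists_eq_pow_mul_and_not_dvd (NeZero.ne m) ℓ hℓ.ne_one
  have hco : ℓ.Coprime m' := (Nat.Prime.coprime_iff_not_dvd hℓ).2 hm'
  have hm0 : NeZero m' := ⟨fun h => hm' (h ▸ dvd_zero ℓ)⟩
  have hd : IsDomain (ZQ ⧸ 𝔓) := Ideal.Quotient.isDomain 𝔓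
  have hc : CharP (ZQ ⧸ 𝔓) ℓ := (CharP.charP_iff_prime_eq_zero hℓ).2 (by
    have h1 := Ideal.Quotient.eq_zero_iff_mem.2 hℓP
    rw [map_natCast] at h1
    exact h1)
  let σ : ZQ →+* ZQ := MulSemiringAction.toRingHom GQ ZQ g'
  let γ : (ZQ ⧸ 𝔓) →+* (ZQ ⧸ 𝔓) := Ideal.quotientMap 𝔓 σ (fun x hx => (hst x).1 hx)
  obtain ⟨ζ, hζ⟩ : ∃ ζ : Qb, IsPrimitiveRoot ζ m' := by
    have h1 : HasEnoughRootsOfUnity Qb m' := inferInstance
    exact h1.prim
  have hint : IsIntegral ℤ ζ := hζ.isIntegral (NeZero.pos m')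
  let z0 : ZQ := ⟨ζ, hint⟩
  have hz0 : IsPrimitiveRoot z0 m' := by
    have h1 : IsPrimitiveRoot (algebraMap ZQ Qb z0) m' := hζ
    exact h1.of_map_of_injective (FaithfulSMul.algebraMap_injective ZQ Qb)
  have hz1 : IsPrimitiveRoot (Ideal.Quotient.mk 𝔓 z0) m' := by
    have hne : NeZero ((m' : ℕ) : ZQ ⧸ 𝔓) :=
      ⟨fun h => hm' ((CharP.cast_eq_zero_iff (ZQ ⧸ 𝔓) ℓ m').1 h)⟩
    rw [← Polynomial.isRoot_cyclotomic_iff]
    have h1 := hz0.isRoot_cyclotomic (NeZero.pos m')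
    have h2 := h1.map (f := Ideal.Quotient.mk 𝔓)
    rwa [Polynomial.map_cyclotomic] at h2
  obtain ⟨i, hi⟩ := dec_frob ℓ γ _ m' hz1 hco
  refine ⟨i, j, m', hm, hco, ?_⟩
  have h3 : γ (Ideal.Quotient.mk 𝔓 z0) = Ideal.Quotient.mk 𝔓 z0 ^ (u : ZMod m).val := by
    have h4 : σ z0 = z0 ^ (u : ZMod m).val := by
      apply Subtype.ext
      have h5 : ζ ^ m = 1 := by
        rw [hm, mul_comm, pow_mul, hζ.pow_eq_one, one_pow]
      exact hu ζ h5
    have h6 : γ (Ideal.Quotient.mk 𝔓 z0) = Ideal.Quotient.mk 𝔓 (σ z0) := rfl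
    rw [h6, h4, map_pow]
  rw [h3] at hi
  have h7 : Ideal.Quotient.mk 𝔓 z0 ^ ((u : ZMod m).val % m') =
      Ideal.Quotient.mk 𝔓 z0 ^ (ℓ ^ i % m') := by
    rw [dec_mod hz1 (Nat.mod_modEq _ _), dec_mod hz1 (Nat.mod_modEq _ _)]
    exact hi
  exact hz1.pow_inj (Nat.mod_lt _ (NeZero.pos m')) (Nat.mod_lt _ (NeZero.pos m')) h7

end Pool.Agent.EDV
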