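import Pool.Agent.EDV.Defs

/-!
# Even Galois representations: accumulation and divisibility, definitions, second part
-/

open Matrix

namespace Pool.Agent.EDV

open Pool.Agent.AAP

/-- `g` is in the decomposition group of a prime above `ℓ` of the ring of all algebraic integers -/
def Dcm (ℓ : ℕ) (g : Gam) : Prop :=
  ∃ 𝔓 : Ideal AI, 𝔓.IsPrime ∧ (ℓ : AI) ∈ 𝔓 ∧ ∀ x y : AI, y.val = g.ap x.val → (x ∈ 𝔓 ↔ y ∈ 𝔓)

variable {E : Type} [NormedField E]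

/-- `y` is the value of the `p`-adic cyclotomic character `ε` at `g` -/
def Cyclo (p : ℕ) (g : Gam) (y : E) : Prop :=
  ∀ k b : ℕ, Acts (p ^ k) g b → ‖y - b‖ ≤ ‖(p : E)‖ ^ k

/-- `x` is a value of `χ ε ^ n` -/
def GVal (p N n : ℕ) (χ : (ZMod N)ˣ →* Eˣ) (x : E) : Prop :=
  ∃ (g : Gam) (a : (ZMod N)ˣ) (y : E), Acts N g (a : ZMod N).val ∧ Cyclo p g y ∧ x = χ a * y ^ n

/-- `x` is the value of `χ ε ^ n` at an element of a decomposition group above `ℓ` -/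
def DVal (p N n : ℕ) (χ : (ZMod N)ˣ →* Eˣ) (ℓ : ℕ) (x : E) : Prop :=
  ∃ (g : Gam) (a : (ZMod N)ˣ) (y : E), Dcm ℓ g ∧ Acts N g (a : ZMod N).val ∧ Cyclo p g y ∧
    x = χ a * y ^ n

/-- at all primes `ℓ` not in `S`, `V` is `TameAt ℓ` or `χ ε ^ (n - 1)` is residually not trivial on the
decomposition groups above `ℓ` -/
def LocalOut (p N n : ℕ) (χ : (ZMod N)ˣ →* Eˣ) (S : Finset ℕ) (V : Gam →* GL2 E) : Prop :=
  ∀ ℓ : ℕ, ℓ.Prime → ℓ ∉ S → TameAt p ℓ V ∨ ∃ x : E, DVal p N (n - 1) χ ℓ x ∧ ¬ Equ x 1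

end Pool.Agent.EDV
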