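import Pool.Agent.EDV.Defs

/-!
# Even Galois representations: accumulation, definitions, third part
-/

open Matrix

namespace Pool.Agent.EDV

open Pool.Agent.AAP

variable {E : Type} [NormedField E]

/-- `ψ` is a continuous character of `Gal(ℚ(ζ_{N p^∞})/ℚ)` for some `N > 0` whose prime factors are
in `S` -/
def LevelS (p : ℕ) (S : Finset ℕ) (ψ : Gam →* Eˣ) : Prop :=
  ∃ N : ℕ, N ≠ 0 ∧ (∀ ℓ : ℕ, ℓ.Prime → ℓ ∣ N → ℓ ∈ S) ∧ Level p N ψ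

/-- `κ` is not trivial, and `1 ⊕ κ` is up to twist a limit of even irreducible representations which
are `TameAt` all primes not in `S` -/
def LimitS (p : ℕ) (S : Finset ℕ) (κ : Gam →* Eˣ) : Prop :=
  LevelS p S κ ∧ κ ≠ 1 ∧
    ∀ r : ℝ, 0 < r → ∃ (V : Gam →* GL2 E) (τ : Gam →* Eˣ), Continuous V ∧ Even2 V ∧ ¬ Line V ∧
      LevelS p S τ ∧ (∀ ℓ : ℕ, ℓ.Prime → ℓ ∉ S → TameAt p ℓ V) ∧
      ∀ g, ‖trc V g - τ g * (1 + κ g)‖ ≤ r

end Pool.Agent.EDV
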