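import Pool.Agent.EDV.CycC
import Pool.Agent.EDV.Lev
import Pool.Agent.EDV.Num
import Pool.Agent.AAP.Stmt3

/-!
# EDV-Div (1.3h): divisibility of generalized Bernoulli numbers

`p ∣ N`. For all large `M` (`m = N p ^ M`) there is `T : (ℤ/m)ˣ → E`, of norm 1, multiplicative modulo `r`,
with `tr V(g) ≡ T(a) (1 + χ(a) [a] ^ n)` modulo `r` if `g` acts as `[a]` on the `m`-th roots of unity.
Let `c` = the value of the `u` in `hne` in `[0, N)` (`1 < c < N`: `c = 1` would give `u = 1`;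
`c` prime to `N`; note `N > 1` as `p ∣ N`). Let `S` = the set of all `ℓ` with not `TameAt p ℓ V`; for a prime
`ℓ ∈ S` there is by `hloc` an `x ∈ (ℤ/N)ˣ` with `DecL ℓ N x`. It lifts to `u ℓ ∈ (ℤ/m)ˣ` with
`DecL ℓ m (u ℓ)` and `u ℓ ≡ x` modulo `N`: if `N = ℓ ^ j N'`, `[x] ≡ ℓ ^ i` modulo `N'`: for `ℓ = p` any lift
(`ZMod.unitsMap_surjective`) works (`m = p ^ (j + M) N'`); for `ℓ ≠ p` `m = ℓ ^ j (N' p ^ M)`, choose
`u ≡ ℓ ^ i` modulo `N' p ^ M`, `≡ x` modulo `ℓ ^ j` (`exists_unit` in `AAP/RedC.lean`); then `u ≡ x` modulo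
`N = ℓ ^ j N'`. (`DecL` gives some decomposition, it is unique: `N' ` is prime to `ℓ`.)
Apply `cycCore` with `k = M`, `F₁ a = T(a) χ(a) [a] ^ n`, `F₂ a = T(a)` (`χ(a) = χ(unitsMap a)`; multiplicative
modulo `r` as `[a b] ≡ [a][b]` modulo `p ^ M`; norms 1: `[a]` is prime to `p`). The factor at `ℓ` has norm
`‖[u] T(u) (χ(u) [u] ^ (n - 1) - 1)‖ = 1` (`p ∣ N` so `[u] ≡ [x]` modulo `p`), the product over `T'` is 1. So
`‖∑ fl c m a (F₁ a F₂ a⁻¹ [a⁻¹])‖ ≤ r`; the term is `fl χ(a) [a] ^ n [a⁻¹] ≡ fl χ(a) [a] ^ (n - 1)` modulo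
`p ^ M`. So `‖U_M‖ ≤ r` for all large `M`, `U_M` the sum in `num_lim`; in the limit
`‖(c ^ n - χ(c)⁻¹) TT N n χ‖ ≤ ‖n‖ ‖c ^ (n - 1)‖ r`, and `‖c ^ (n-1)‖ = 1`,
`‖c ^ n - χ(c)⁻¹‖ = ‖χ(c) c ^ n - 1‖ = 1` by the choice of `c`. `genBern` and `TT` are equal by definition.
-/

open NumberField Filter Matrix

namespace Pool.Agent.EDV

open Pool.Agent.AAP

private theorem Div_mod {N m : ℕ} [NeZero N] [NeZero m] (h : N ∣ m) (u : (ZMod m)ˣ)
    (x : (ZMod N)ˣ) :
    ZMod.unitsMap h u = x ↔ (u : ZMod m).val ≡ (x : ZMod N).val [MOD N] := by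
  rw [← ZMod.natCast_eq_natCast_iff, ZMod.natCast_zmod_val, ZMod.natCast_val, Units.ext_iff,
    ZMod.unitsMap_def, Units.coe_map]
  rfl

private theorem Div_unit (m m1 m2 : ℕ) (hm : m = m1 * m2) [NeZero m] (co : m1.Coprime m2)
    (a1 a2 : ℕ) (h1 : a1.Coprime m1) (h2 : a2.Coprime m2) :
    ∃ u : (ZMod m)ˣ, (u : ZMod m).val ≡ a1 [MOD m1] ∧ (u : ZMod m).val ≡ a2 [MOD m2] := by
  subst hm
  obtain ⟨u, hu1, hu2⟩ := exists_unit m1 m2 co a1 a2 h1 h2
  exact ⟨u, (ZMod.natCast_eq_natCast_iff _ _ _).1 hu1, (ZMod.natCast_eq_natCast_iff _ _ _).1 hu2⟩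

private theorem Div_lift (p N M : ℕ) [NeZero N] [Fact p.Prime] {ℓ : ℕ} (hℓ : ℓ.Prime)
    (x : (ZMod N)ˣ) (h : DecL ℓ N x) :
    ∃ u : (ZMod (N * p ^ M))ˣ, DecL ℓ (N * p ^ M) u ∧
      ZMod.unitsMap (dvd_mul_right N (p ^ M)) u = x := by
  have hp0 : p ≠ 0 := (Fact.out : p.Prime).ne_zero
  have hm0 : NeZero (N * p ^ M) := ⟨mul_ne_zero (NeZero.ne N) (pow_ne_zero _ hp0)⟩
  obtain ⟨i, j, m', hN, hco, hx⟩ := h
  have hm'N : m' ∣ N := Dvd.intro_left _ hN.symm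
  by_cases hlp : ℓ = p
  · subst hlp
    obtain ⟨u, hu⟩ := ZMod.unitsMap_surjective (dvd_mul_right N (ℓ ^ M)) x
    refine ⟨u, ⟨i, j + M, m', ?_, hco, ?_⟩, hu⟩
    · rw [pow_add]
      conv_lhs => rw [hN]
      ring
    · exact (((Div_mod _ u x).1 hu).of_dvd hm'N).trans hx
  · have hlp2 : ℓ.Coprime p := (Nat.coprime_primes hℓ Fact.out).2 hlp
    have hxN : (x : ZMod N).val.Coprime N := ZMod.val_coe_unit_coprime x
    have hjN : ℓ ^ j ∣ N := Dvd.intro _ hN.symm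
    obtain ⟨u, hu1, hu2⟩ := Div_unit (N * p ^ M) (ℓ ^ j) (m' * p ^ M)
      (by
        conv_lhs => rw [hN]
        ring)
      (Nat.Coprime.pow_left _ (hco.mul_right (hlp2.pow_right _)))
      (x : ZMod N).val (ℓ ^ i) (hxN.coprime_dvd_right hjN)
      (Nat.Coprime.pow_left _ (hco.mul_right (hlp2.pow_right _)))
    refine ⟨u, ⟨i, j, m' * p ^ M, ?_, hco.mul_right (hlp2.pow_right _), hu2⟩, ?_⟩
    · conv_lhs => rw [hN]
      ring
    · rw [Div_mod]
      have h1 : (u : ZMod (N * p ^ M)).val ≡ (x : ZMod N).val [MOD m'] :=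
        (hu2.of_dvd (dvd_mul_right _ _)).trans hx.symm
      have h2 := (Nat.modEq_and_modEq_iff_modEq_mul (hco.pow_left j)).1 ⟨hu1, h1⟩
      rwa [← hN] at h2

private theorem Div_nat {p : ℕ} [Fact p.Prime] {E : Type} [NormedField E] [IsUltrametricDist E]
    (k : ℕ) {a b : ℕ} (h : a ≡ b [MOD p ^ k]) : ‖(a : E) - (b : E)‖ ≤ ‖(p : E)‖ ^ k := by
  obtain ⟨d, hd⟩ := Nat.modEq_iff_dvd.1 h
  have h1 : (a : E) - (b : E) = -((p : E) ^ k * ((d : ℤ) : E)) := by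
    have h2 := congrArg (fun t : ℤ => (t : E)) hd
    push_cast at h2
    rw [← h2]
    ring
  rw [h1, norm_neg, norm_mul, norm_pow]
  exact mul_le_of_le_one_right (pow_nonneg (norm_nonneg _) _)
    (IsUltrametricDist.norm_intCast_le_one E d)

private theorem Div_pow {E : Type} [NormedField E] [IsUltrametricDist E] {x y : E} {r : ℝ}
    (hx : ‖x‖ ≤ 1) (hy : ‖y‖ ≤ 1) (hr : 0 ≤ r) (h : ‖x - y‖ ≤ r) (n : ℕ) :
    ‖x ^ n - y ^ n‖ ≤ r := by
  induction n with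
  | zero => rw [pow_zero, pow_zero, sub_self, norm_zero]; exact hr
  | succ n ih =>
    have h1 : x ^ (n + 1) - y ^ (n + 1) = x ^ n * (x - y) + (x ^ n - y ^ n) * y := by ring
    rw [h1]
    refine (IsUltrametricDist.norm_add_le_max _ _).trans (max_le ?_ ?_)
    · rw [norm_mul, norm_pow]
      exact (mul_le_of_le_one_left (norm_nonneg _) (pow_le_one₀ (norm_nonneg _) hx)).trans h
    · rw [norm_mul]
      exact (mul_le_of_le_one_right (norm_nonneg _) hy).trans ih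

private theorem Div_far {E : Type} [NormedField E] [IsUltrametricDist E] {x y : E}
    (hx : ¬ Equ x 1) (h : ‖y - x‖ < 1) : 1 ≤ ‖y - 1‖ := by
  by_contra hcon
  push Not at hcon
  apply hx
  show ‖x - 1‖ < 1
  have h1 : x - 1 = (y - 1) + -(y - x) := by ring
  rw [h1]
  refine (IsUltrametricDist.norm_add_le_max _ _).trans_lt (max_lt hcon ?_)
  rw [norm_neg]
  exact h

theorem div_half (p N n : ℕ) [NeZero N] [Fact p.Prime] (hp : p ≠ 2) (hpN : p ∣ N) (hn : 1 ≤ n)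
    {E : Type} [NormedField E] [IsUltrametricDist E] [CompleteSpace E] [NormedAlgebra ℚ_[p] E]
    {r : ℝ} (hr0 : 0 < r) (hr1 : r < 1) (χ : (ZMod N)ˣ →* Eˣ)
    (hne : ∃ u : (ZMod N)ˣ, ¬ Equ ((χ u : E) * (((u : ZMod N).val : ℕ) : E) ^ n) 1)
    (V : Gam →* GL2 E) (hV : Continuous V) (heven : Even2 V) (hline : ¬ Line V)
    (htr : ∃ M₀ : ℕ, ∀ M, M₀ ≤ M → ∃ T : (ZMod (N * p ^ M))ˣ → E, (∀ a, ‖T a‖ = 1) ∧
      (∀ a b, ‖T (a * b) - T a * T b‖ ≤ r) ∧
      ∀ (g : Gam) (a : (ZMod (N * p ^ M))ˣ), Acts (N * p ^ M) g (a : ZMod (N * p ^ M)).val →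
        ‖trc V g - T a * (1 + χ (ZMod.unitsMap (dvd_mul_right N (p ^ M)) a) *
          (((a : ZMod (N * p ^ M)).val : ℕ) : E) ^ n)‖ ≤ r)
    (hloc : LocalCond p N n χ V) : ‖genBern N n χ‖ ≤ r * ‖(n : E)‖ := by
  classical
  have hpp : p.Prime := Fact.out
  have hp1 : ‖(p : E)‖ < 1 := (Helper60.FM.norm_natCast_lt_one_iff (p := p) p).2 dvd_rfl
  have : CharZero E := charZero_of_injective_algebraMap (algebraMap ℚ_[p] E).injective
  have hr0' : 0 ≤ r := hr0.le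
  obtain ⟨u0, hu0⟩ := hne
  have hv1 : ∀ (m : ℕ) [NeZero m], p ∣ m → ∀ a : (ZMod m)ˣ,
      ‖((((a : ZMod m).val : ℕ)) : E)‖ = 1 := by
    intro m _ hpm a
    refine Helper60.FM.norm_natCast_eq_one (p := p) fun h1 => ?_
    have h2 := ZMod.val_coe_unit_coprime a
    have h3 := Nat.dvd_gcd h1 hpm
    rw [h2] at h3
    exact hpp.one_lt.ne' (Nat.dvd_one.1 h3)
  set c : ℕ := (u0 : ZMod N).val with hc
  have hcN : c.Coprime N := ZMod.val_coe_unit_coprime u0
  have hN1 : 1 < N := lt_of_lt_of_le hpp.one_lt (Nat.le_of_dvd (Nat.pos_of_ne_zero (NeZero.ne N)) hpN)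
  have hclt : c < N := ZMod.val_lt _
  have hc0 : c ≠ 0 := by
    intro h
    rw [h, Nat.coprime_zero_left] at hcN
    omega
  have hc1 : c ≠ 1 := by
    intro h
    apply hu0
    have h1 : u0 = 1 := by
      apply Units.ext
      rw [← ZMod.natCast_zmod_val (u0 : ZMod N), ← hc, h, Nat.cast_one, Units.val_one]
    show ‖(χ u0 : E) * (c : E) ^ n - 1‖ < 1
    rw [h1, h, map_one, Units.val_one, Nat.cast_one, one_pow, mul_one, sub_self, norm_zero]
    exact one_pos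
  have hcu : ZMod.unitOfCoprime c hcN = u0 := by
    apply Units.ext
    rw [ZMod.coe_unitOfCoprime, hc, ZMod.natCast_zmod_val]
  have hχ1 : ∀ a : (ZMod N)ˣ, ‖(χ a : E)‖ = 1 := fun a => Helper60.FM.norm_chi χ a
  obtain ⟨M₀, htr⟩ := htr
  obtain ⟨M₁, hM₁⟩ : ∃ M₁ : ℕ, ∀ M, M₁ ≤ M → ‖(p : E)‖ ^ M ≤ r := by
    obtain ⟨M₁, h1⟩ := exists_pow_lt_of_lt_one hr0 hp1
    exact ⟨M₁, fun M hM => (pow_le_pow_of_le_one (norm_nonneg _) hp1.le hM).trans h1.le⟩
  -- the bound for the sums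
  have key : ∀ M, M₀ ≤ M → M₁ ≤ M → 1 ≤ M → ‖∑ a : (ZMod (N * p ^ M))ˣ,
      ((fl c (N * p ^ M) a : ℕ) : E) * χ (ZMod.unitsMap (dvd_mul_right N (p ^ M)) a) *
          (((a : ZMod (N * p ^ M)).val : ℕ) : E) ^ (n - 1)‖ ≤ r := by
    intro M hM0 hM1 hM
    have hm0 : NeZero (N * p ^ M) := ⟨mul_ne_zero (NeZero.ne N) (pow_ne_zero _ hpp.ne_zero)⟩
    obtain ⟨T, hT1, hTm, hT⟩ := htr M hM0
    have hpr : ‖(p : E)‖ ^ M ≤ r := hM₁ M hM1
    have hpm : p ∣ N * p ^ M := hpN.mul_right _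
    have hpMm : p ^ M ∣ N * p ^ M := dvd_mul_left _ _
    have hv := hv1 (N * p ^ M) hpm
    have hχm : ∀ a : (ZMod (N * p ^ M))ˣ,
        ‖(χ (ZMod.unitsMap (dvd_mul_right N (p ^ M)) a) : E)‖ = 1 := fun a => hχ1 _
    have hval : ∀ a b : (ZMod (N * p ^ M))ˣ,
        ‖((((a * b : (ZMod (N * p ^ M))ˣ) : ZMod (N * p ^ M)).val : ℕ) : E) -
          (((a : ZMod (N * p ^ M)).val : ℕ) : E) * (((b : ZMod (N * p ^ M)).val : ℕ) : E)‖ ≤ r := by
      intro a b
      rw [← Nat.cast_mul]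
      refine (Div_nat M ?_).trans hpr
      rw [Units.val_mul, ZMod.val_mul]
      exact (Nat.mod_modEq _ _).of_dvd hpMm
    have hF1 : ∀ a : (ZMod (N * p ^ M))ˣ, ‖T a * χ (ZMod.unitsMap (dvd_mul_right N (p ^ M)) a) *
        (((a : ZMod (N * p ^ M)).val : ℕ) : E) ^ n‖ = 1 := by
      intro a
      rw [norm_mul, norm_mul, norm_pow, hT1, hχm, hv, one_pow, one_mul, one_mul]
    -- lifts of the elements of the decomposition groups
    have hex : ∀ ℓ : ℕ, ∃ u : (ZMod (N * p ^ M))ˣ, ℓ.Prime → ¬ TameAt p ℓ V →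
        DecL ℓ (N * p ^ M) u ∧
          1 ≤ ‖(χ (ZMod.unitsMap (dvd_mul_right N (p ^ M)) u) : E) *
            (((u : ZMod (N * p ^ M)).val : ℕ) : E) ^ (n - 1) - 1‖ := by
      intro ℓ
      by_cases hℓ : ℓ.Prime ∧ ¬ TameAt p ℓ V
      · obtain ⟨h1, h2⟩ := hℓ
        rcases hloc ℓ h1 with h3 | ⟨x, hx, hx2⟩
        · exact absurd h3 h2
        · obtain ⟨u, hu, hux⟩ := Div_lift p N M h1 x hx
          refine ⟨u, fun _ _ => ⟨hu, ?_⟩⟩
          rw [hux]
          refine Div_far hx2 ?_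
          rw [← mul_sub, norm_mul, hχ1, one_mul]
          have h4 : (u : ZMod (N * p ^ M)).val ≡ (x : ZMod N).val [MOD p ^ 1] := by
            rw [pow_one]
            exact ((Div_mod _ u x).1 hux).of_dvd hpN
          have h5 := Div_nat (p := p) (E := E) 1 h4
          rw [pow_one] at h5
          exact (Div_pow (hv _).le (hv1 N hpN x).le (norm_nonneg _) h5 (n - 1)).trans_lt hp1
      · exact ⟨1, fun h1 h2 => absurd ⟨h1, h2⟩ hℓ⟩
    choose u hu using hex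
    obtain ⟨T', hT', hfin⟩ := cycCore (N * p ^ M) p M c hp hM hpMm (by omega)
      (hclt.trans_le (Nat.le_mul_of_pos_right N (pow_pos hpp.pos M)))
      (Nat.Coprime.mul_right hcN (Nat.Coprime.pow_right M (hcN.coprime_dvd_right hpN))) hr1 hpr
      (fun a => T a * χ (ZMod.unitsMap (dvd_mul_right N (p ^ M)) a) *
        (((a : ZMod (N * p ^ M)).val : ℕ) : E) ^ n) T hF1 hT1
      (by
        intro a b
        have e : T (a * b) * χ (ZMod.unitsMap (dvd_mul_right N (p ^ M)) (a * b)) *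
            ((((a * b : (ZMod (N * p ^ M))ˣ) : ZMod (N * p ^ M)).val : ℕ) : E) ^ n -
            T a * χ (ZMod.unitsMap (dvd_mul_right N (p ^ M)) a) *
              (((a : ZMod (N * p ^ M)).val : ℕ) : E) ^ n *
            (T b * χ (ZMod.unitsMap (dvd_mul_right N (p ^ M)) b) *
              (((b : ZMod (N * p ^ M)).val : ℕ) : E) ^ n) =
            (T (a * b) - T a * T b) * (χ (ZMod.unitsMap (dvd_mul_right N (p ^ M)) (a * b)) *
              ((((a * b : (ZMod (N * p ^ M))ˣ) : ZMod (N * p ^ M)).val : ℕ) : E) ^ n) +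
            T a * T b * χ (ZMod.unitsMap (dvd_mul_right N (p ^ M)) (a * b)) *
              (((((a * b : (ZMod (N * p ^ M))ˣ) : ZMod (N * p ^ M)).val : ℕ) : E) ^ n -
                ((((a : ZMod (N * p ^ M)).val : ℕ) : E) *
                  (((b : ZMod (N * p ^ M)).val : ℕ) : E)) ^ n) := by
          rw [map_mul, map_mul, Units.val_mul]
          ring
        show ‖T (a * b) * χ (ZMod.unitsMap (dvd_mul_right N (p ^ M)) (a * b)) *
            ((((a * b : (ZMod (N * p ^ M))ˣ) : ZMod (N * p ^ M)).val : ℕ) : E) ^ n -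
            T a * χ (ZMod.unitsMap (dvd_mul_right N (p ^ M)) a) *
              (((a : ZMod (N * p ^ M)).val : ℕ) : E) ^ n *
            (T b * χ (ZMod.unitsMap (dvd_mul_right N (p ^ M)) b) *
              (((b : ZMod (N * p ^ M)).val : ℕ) : E) ^ n)‖ ≤ r
        rw [e]
        refine (IsUltrametricDist.norm_add_le_max _ _).trans (max_le ?_ ?_)
        · rw [norm_mul, norm_mul, norm_pow, hχm, hv, one_pow, mul_one, mul_one]
          exact hTm a b
        · rw [norm_mul, norm_mul, norm_mul, hT1, hT1, hχm, one_mul, one_mul, one_mul]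
          refine Div_pow (hv _).le ?_ hr0' (hval a b) n
          rw [norm_mul, hv, hv, one_mul])
      hTm
      (by
        obtain ⟨a, ha⟩ := ZMod.unitsMap_surjective (dvd_mul_right N (p ^ M)) u0
        refine ⟨a, ?_⟩
        have e : T a * χ (ZMod.unitsMap (dvd_mul_right N (p ^ M)) a) *
            (((a : ZMod (N * p ^ M)).val : ℕ) : E) ^ n - T a =
            T a * (χ u0 * (((a : ZMod (N * p ^ M)).val : ℕ) : E) ^ n - 1) := by
          rw [ha]
          ring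
        show 1 ≤ ‖T a * χ (ZMod.unitsMap (dvd_mul_right N (p ^ M)) a) *
            (((a : ZMod (N * p ^ M)).val : ℕ) : E) ^ n - T a‖
        rw [e, norm_mul, hT1, one_mul]
        refine Div_far hu0 ?_
        rw [← mul_sub, norm_mul, hχ1, one_mul]
        have h4 : (a : ZMod (N * p ^ M)).val ≡ (u0 : ZMod N).val [MOD p ^ 1] := by
          rw [pow_one]
          exact ((Div_mod _ a u0).1 ha).of_dvd hpN
        have h5 := Div_nat (p := p) (E := E) 1 h4
        rw [pow_one] at h5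
        exact (Div_pow (hv _).le (hv1 N hpN u0).le (norm_nonneg _) h5 n).trans_lt hp1)
      V hV heven hline
      (by
        intro g a hga
        have h1 := hT g a hga
        have e : trc V g - T a * χ (ZMod.unitsMap (dvd_mul_right N (p ^ M)) a) *
            (((a : ZMod (N * p ^ M)).val : ℕ) : E) ^ n - T a =
            trc V g - T a * (1 + χ (ZMod.unitsMap (dvd_mul_right N (p ^ M)) a) *
              (((a : ZMod (N * p ^ M)).val : ℕ) : E) ^ n) := by ring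
        show ‖trc V g - T a * χ (ZMod.unitsMap (dvd_mul_right N (p ^ M)) a) *
            (((a : ZMod (N * p ^ M)).val : ℕ) : E) ^ n - T a‖ ≤ r
        rw [e]
        exact h1)
      {ℓ | ¬ TameAt p ℓ V}
      (by
        intro ℓ _ hS
        by_contra hcon
        exact hS hcon)
      u (fun ℓ hS hℓ => (hu ℓ hℓ hS).1)
    have hP : 1 ≤ ∏ ℓ ∈ T', ‖T (u ℓ) * χ (ZMod.unitsMap (dvd_mul_right N (p ^ M)) (u ℓ)) *
        (((u ℓ : ZMod (N * p ^ M)).val : ℕ) : E) ^ n -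
          ((((u ℓ : (ZMod (N * p ^ M))ˣ) : ZMod (N * p ^ M)).val : ℕ) : E) * T (u ℓ)‖ := by
      have h1 : ∏ ℓ ∈ T', (1 : ℝ) ≤ ∏ ℓ ∈ T',
          ‖T (u ℓ) * χ (ZMod.unitsMap (dvd_mul_right N (p ^ M)) (u ℓ)) *
        (((u ℓ : ZMod (N * p ^ M)).val : ℕ) : E) ^ n -
          ((((u ℓ : (ZMod (N * p ^ M))ˣ) : ZMod (N * p ^ M)).val : ℕ) : E) * T (u ℓ)‖ := by
        refine Finset.prod_le_prod (fun _ _ => zero_le_one) fun ℓ hℓ => ?_
        obtain ⟨h2, h3⟩ := hT' ℓ hℓ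
        have h4 := (hu ℓ h3 h2).2
        have e : T (u ℓ) * χ (ZMod.unitsMap (dvd_mul_right N (p ^ M)) (u ℓ)) *
            (((u ℓ : ZMod (N * p ^ M)).val : ℕ) : E) ^ n -
            ((((u ℓ : (ZMod (N * p ^ M))ˣ) : ZMod (N * p ^ M)).val : ℕ) : E) * T (u ℓ) =
            T (u ℓ) * (((u ℓ : ZMod (N * p ^ M)).val : ℕ) : E) *
              ((χ (ZMod.unitsMap (dvd_mul_right N (p ^ M)) (u ℓ)) : E) *
            (((u ℓ : ZMod (N * p ^ M)).val : ℕ) : E) ^ (n - 1) - 1) := by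
          obtain ⟨n', rfl⟩ : ∃ n', n = n' + 1 := ⟨n - 1, by omega⟩
          rw [Nat.add_sub_cancel, pow_succ]
          ring
        rw [e, norm_mul, norm_mul, hT1, hv, one_mul, one_mul]
        exact h4
      rwa [Finset.prod_const_one] at h1
    -- the sum of the core theorem
    have hX : ‖∑ a : (ZMod (N * p ^ M))ˣ, ((fl c (N * p ^ M) a : ℕ) : E) *
        (T a * χ (ZMod.unitsMap (dvd_mul_right N (p ^ M)) a) *
          (((a : ZMod (N * p ^ M)).val : ℕ) : E) ^ n * (T a)⁻¹ *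
            ((((a⁻¹ : (ZMod (N * p ^ M))ˣ) : ZMod (N * p ^ M)).val : ℕ) : E))‖ ≤ r :=
      (le_mul_of_one_le_left (norm_nonneg _) hP).trans hfin
    have hdiff : ‖∑ a : (ZMod (N * p ^ M))ˣ,
        ((fl c (N * p ^ M) a : ℕ) : E) * χ (ZMod.unitsMap (dvd_mul_right N (p ^ M)) a) *
          (((a : ZMod (N * p ^ M)).val : ℕ) : E) ^ (n - 1) -
        ∑ a : (ZMod (N * p ^ M))ˣ, ((fl c (N * p ^ M) a : ℕ) : E) *
        (T a * χ (ZMod.unitsMap (dvd_mul_right N (p ^ M)) a) *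
          (((a : ZMod (N * p ^ M)).val : ℕ) : E) ^ n * (T a)⁻¹ *
            ((((a⁻¹ : (ZMod (N * p ^ M))ˣ) : ZMod (N * p ^ M)).val : ℕ) : E))‖ ≤ r := by
      rw [← Finset.sum_sub_distrib]
      refine IsUltrametricDist.norm_sum_le_of_forall_le_of_nonneg hr0' fun a _ => ?_
      have hTa : T a ≠ 0 := by
        intro h0
        have h1 := hT1 a
        rw [h0, norm_zero] at h1
        exact zero_ne_one h1
      have e : ((fl c (N * p ^ M) a : ℕ) : E) * χ (ZMod.unitsMap (dvd_mul_right N (p ^ M)) a) *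
          (((a : ZMod (N * p ^ M)).val : ℕ) : E) ^ (n - 1) -
          ((fl c (N * p ^ M) a : ℕ) : E) *
        (T a * χ (ZMod.unitsMap (dvd_mul_right N (p ^ M)) a) *
          (((a : ZMod (N * p ^ M)).val : ℕ) : E) ^ n * (T a)⁻¹ *
            ((((a⁻¹ : (ZMod (N * p ^ M))ˣ) : ZMod (N * p ^ M)).val : ℕ) : E)) =
          ((fl c (N * p ^ M) a : ℕ) : E) * (χ (ZMod.unitsMap (dvd_mul_right N (p ^ M)) a) *
            (((a : ZMod (N * p ^ M)).val : ℕ) : E) ^ (n - 1) *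
            (1 - (((a : ZMod (N * p ^ M)).val : ℕ) : E) *
              ((((a⁻¹ : (ZMod (N * p ^ M))ˣ) : ZMod (N * p ^ M)).val : ℕ) : E))) := by
        obtain ⟨n', rfl⟩ : ∃ n', n = n' + 1 := ⟨n - 1, by omega⟩
        rw [Nat.add_sub_cancel, pow_succ]
        field_simp
      rw [e, norm_mul, norm_mul, norm_mul, norm_pow, hχm, hv, one_pow, one_mul, one_mul]
      refine (mul_le_of_le_one_left (norm_nonneg _) (Helper60.FM.norm_natCast_le_one _)).trans ?_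
      have h1 := hval a a⁻¹
      have h2 : ((((a * a⁻¹ : (ZMod (N * p ^ M))ˣ) : ZMod (N * p ^ M)).val : ℕ) : E) = 1 := by
        rw [mul_inv_cancel, Units.val_one]
        have h3 : (1 : ZMod (N * p ^ M)).val = 1 := by
          have h4 : Fact (1 < N * p ^ M) :=
            ⟨hN1.trans_le (Nat.le_mul_of_pos_right N (pow_pos hpp.pos M))⟩
          exact ZMod.val_one _
        rw [h3, Nat.cast_one]
      rw [h2] at h1
      exact h1
    have h1 := (IsUltrametricDist.norm_add_le_max _ _).trans (max_le hdiff hX)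
    rwa [sub_add_cancel] at h1
  -- the limit
  have hlim := (num_lim N n p c hpN hn hcN χ).norm
  have h2 : ‖((c : E) ^ n - ((χ (ZMod.unitOfCoprime c hcN) : Eˣ) : E)⁻¹) * TT N n χ‖ ≤
      r * ‖(n : E)‖ := by
    refine le_of_tendsto hlim ?_
    filter_upwards [eventually_ge_atTop M₀, eventually_ge_atTop M₁, eventually_ge_atTop 1] with
      M h1 h2 h3
    have h4 := key M h1 h2 h3
    rw [norm_mul, norm_mul, norm_pow]
    have h5 : ‖(c : E)‖ ^ (n - 1) ≤ 1 := pow_le_one₀ (norm_nonneg _) (Helper60.FM.norm_natCast_le_one _)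
    calc ‖(n : E)‖ * ‖(c : E)‖ ^ (n - 1) * _ ≤ ‖(n : E)‖ * 1 * r := by
          gcongr
      _ = r * ‖(n : E)‖ := by ring
  have h3 : 1 ≤ ‖(c : E) ^ n - ((χ (ZMod.unitOfCoprime c hcN) : Eˣ) : E)⁻¹‖ := by
    rw [hcu]
    have hne0 : (χ u0 : E) ≠ 0 := Units.ne_zero _
    have e : (c : E) ^ n - ((χ u0 : Eˣ) : E)⁻¹ = ((χ u0 : Eˣ) : E)⁻¹ * ((χ u0 : E) * (c : E) ^ n - 1) := by
      rw [mul_sub, ← mul_assoc, inv_mul_cancel₀ hne0, one_mul, mul_one]
    rw [e, norm_mul, norm_inv, hχ1, inv_one, one_mul]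
    by_contra hcon
    push Not at hcon
    exact hu0 hcon
  have h4 : genBern N n χ = TT N n χ := rfl
  rw [h4]
  rw [norm_mul] at h2
  exact (le_mul_of_one_le_left (norm_nonneg _) h3).trans h2

end Pool.Agent.EDV
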