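import Pool.Agent.EDV.CycC2
import Pool.Agent.EDV.Dec
import Pool.Agent.EDV.Num
import Pool.Agent.AAP.Stmt3

/-!
# EDV-Div3: divisibility of generalized Bernoulli numbers, with local factors, without residual
hypothesis
-/

open NumberField Filter Matrix

namespace Pool.Agent.EDV

open Pool.Agent.AAP

private theorem DivC_mod {N m : ℕ} [NeZero N] [NeZero m] (h : N ∣ m) (u : (ZMod m)ˣ)
    (x : (ZMod N)ˣ) :
    ZMod.unitsMap h u = x ↔ (u : ZMod m).val ≡ (x : ZMod N).val [MOD N] := by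
  rw [← ZMod.natCast_eq_natCast_iff, ZMod.natCast_zmod_val, ZMod.natCast_val, Units.ext_iff,
    ZMod.unitsMap_def, Units.coe_map]
  rfl

private theorem DivC_nat {p : ℕ} [Fact p.Prime] {E : Type} [NormedField E] [IsUltrametricDist E]
    (k : ℕ) {a b : ℕ} (h : a ≡ b [MOD p ^ k]) : ‖(a : E) - (b : E)‖ ≤ ‖(p : E)‖ ^ k := by
  obtain ⟨d, hd⟩ := Nat.modEq_iff_dvd.1 h
  have h1 : (a : E) - (b : E) = -((p : E) ^ k * ((d : ℤ) : E)) := by
    have h2 := congrArg (fun t : ℤ => (t : E)) hd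
    push_cast at h2
    rw [← h2]
    ring
  rw [h1, norm_neg, norm_mul, norm_pow]
  exact mul_le_of_le_one_right (pow_nonneg (norm_nonneg _) _)
    (IsUltrametricDist.norm_intCast_le_one E d)

private theorem DivC_pow {E : Type} [NormedField E] [IsUltrametricDist E] {x y : E} {r : ℝ}
    (hx : ‖x‖ ≤ 1) (hy : ‖y‖ ≤ 1) (hr : 0 ≤ r) (h : ‖x - y‖ ≤ r) (n : ℕ) :
    ‖x ^ n - y ^ n‖ ≤ r := by
  induction n with
  | zero => rw [pow_zero, pow_zero, sub_self, norm_zero]; exact hr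
  | succ n ih =>
    have h1 : x ^ (n + 1) - y ^ (n + 1) = x ^ n * (x - y) + (x ^ n - y ^ n) * y := by ring
    rw [h1]
    refine (IsUltrametricDist.norm_add_le_max _ _).trans (max_le ?_ ?_)
    · rw [norm_mul, norm_pow]
      exact (mul_le_of_le_one_left (norm_nonneg _) (pow_le_one₀ (norm_nonneg _) hx)).trans h
    · rw [norm_mul]
      exact (mul_le_of_le_one_right (norm_nonneg _) hy).trans ih

private theorem DivC_close {E : Type} [NormedField E] [IsUltrametricDist E] {x y : E}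
    (h : ‖y - x‖ < ‖x - 1‖) : ‖y - 1‖ = ‖x - 1‖ := by
  have e : y - 1 = (x - 1) + (y - x) := by ring
  rw [e, IsUltrametricDist.norm_add_eq_max_of_norm_ne_norm h.ne', max_eq_left h.le]

private theorem DivC_far {E : Type} [NormedField E] [IsUltrametricDist E] {x y : E}
    (hx : ¬ Equ x 1) (h : ‖y - x‖ < 1) : 1 ≤ ‖y - 1‖ := by
  by_contra hcon
  push Not at hcon
  apply hx
  show ‖x - 1‖ < 1
  have h1 : x - 1 = (y - 1) + -(y - x) := by ring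
  rw [h1]
  refine (IsUltrametricDist.norm_add_le_max _ _).trans_lt (max_lt hcon ?_)
  rw [norm_neg]
  exact h

theorem div3 (p N n : ℕ) [NeZero N] [Fact p.Prime] (hp : p ≠ 2) (hpN : p ∣ N) (hn : 1 ≤ n)
    {E : Type} [NormedField E] [IsUltrametricDist E] [CompleteSpace E] [NormedAlgebra ℚ_[p] E]
    {r : ℝ} (hr0 : 0 < r) (χ : (ZMod N)ˣ →* Eˣ) {z : E} (hz : GVal p N n χ z)
    (V : Gam →* GL2 E) (hV : Continuous V) (heven : Even2 V) (hline : ¬ Line V)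
    (htr : ∃ M₀ : ℕ, ∀ M, M₀ ≤ M → ∃ T : (ZMod (N * p ^ M))ˣ → E, (∀ a, ‖T a‖ = 1) ∧
      (∀ a b, ‖T (a * b) - T a * T b‖ ≤ r) ∧
      ∀ (g : Gam) (a : (ZMod (N * p ^ M))ˣ), Acts (N * p ^ M) g (a : ZMod (N * p ^ M)).val →
        ‖trc V g - T a * (1 + χ (ZMod.unitsMap (dvd_mul_right N (p ^ M)) a) *
          (((a : ZMod (N * p ^ M)).val : ℕ) : E) ^ n)‖ ≤ r)
    (S : Finset ℕ) (x : ℕ → E) (hx : ∀ ℓ ∈ S, DVal p N (n - 1) χ ℓ (x ℓ))
    (hloc : LocalOut p N n χ S V) :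
    ‖z - 1‖ ^ 3 * (∏ ℓ ∈ S, ‖x ℓ - 1‖) * ‖genBern N n χ‖ ≤ r * ‖(n : E)‖ := by
  classical
  have hpp : p.Prime := Fact.out
  have hp1 : ‖(p : E)‖ < 1 := (Helper60.FM.norm_natCast_lt_one_iff (p := p) p).2 dvd_rfl
  have : CharZero E := charZero_of_injective_algebraMap (algebraMap ℚ_[p] E).injective
  have hr0' : 0 ≤ r := hr0.le
  rcases (norm_nonneg (z - 1)).eq_or_lt with hz0 | hz0
  · rw [← hz0]
    have : (0 : ℝ) ^ 3 = 0 := by norm_num
    rw [this, zero_mul, zero_mul]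
    exact mul_nonneg hr0' (norm_nonneg _)
  obtain ⟨g₀, a₀, y₀, hga, hgy, hzy⟩ := hz
  set w : ℝ := ‖z - 1‖ with hw
  have hv1 : ∀ (m : ℕ) [NeZero m], p ∣ m → ∀ a : (ZMod m)ˣ,
      ‖((((a : ZMod m).val : ℕ)) : E)‖ = 1 := by
    intro m _ hpm a
    refine Helper60.FM.norm_natCast_eq_one (p := p) fun h1 => ?_
    have h2 := ZMod.val_coe_unit_coprime a
    have h3 := Nat.dvd_gcd h1 hpm
    rw [h2] at h3
    exact hpp.one_lt.ne' (Nat.dvd_one.1 h3)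
  have hχ1 : ∀ a : (ZMod N)ˣ, ‖(χ a : E)‖ = 1 := fun a => Helper60.FM.norm_chi χ a
  have hN1 : 1 < N := lt_of_lt_of_le hpp.one_lt (Nat.le_of_dvd (Nat.pos_of_ne_zero (NeZero.ne N)) hpN)
  have hmM : ∀ M : ℕ, NeZero (N * p ^ M) :=
    fun M => ⟨mul_ne_zero (NeZero.ne N) (pow_ne_zero _ hpp.ne_zero)⟩
  -- the class of `g₀`
  obtain ⟨L, hL⟩ := exists_pow_lt_of_lt_one hz0 hp1
  have hcl : ∀ M, ∃ a : (ZMod (N * p ^ M))ˣ, Acts (N * p ^ M) g₀ (a : ZMod (N * p ^ M)).val :=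
    fun M => acts_exists (N * p ^ M) g₀
  choose cl hcl using hcl
  have hclN : ∀ M, ZMod.unitsMap (dvd_mul_right N (p ^ M)) (cl M) = a₀ := by
    intro M
    rw [DivC_mod]
    exact acts_inj (acts_of_dvd (dvd_mul_right N (p ^ M)) (hcl M)) hga
  have hcly : ∀ M, ‖y₀ - (((cl M : ZMod (N * p ^ M)).val : ℕ) : E)‖ ≤ ‖(p : E)‖ ^ M := fun M =>
    hgy M _ (acts_of_dvd (dvd_mul_left (p ^ M) N) (hcl M))
  have hy₀1 : ‖y₀‖ ≤ 1 := by
    have h1 := (hcly 0).trans_eq (pow_zero _)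
    have h2 := (IsUltrametricDist.norm_add_le_max (y₀ - _) _).trans
      (max_le h1 (Helper60.FM.norm_natCast_le_one (cl 0 : ZMod (N * p ^ 0)).val))
    rwa [sub_add_cancel] at h2
  have hclw : ∀ M, L ≤ M →
      ‖(χ a₀ : E) * (((cl M : ZMod (N * p ^ M)).val : ℕ) : E) ^ n - 1‖ = w := by
    intro M hM
    rw [hw]
    refine DivC_close ?_
    rw [← hw, hzy, ← mul_sub, norm_mul, hχ1, one_mul, norm_sub_rev]
    refine lt_of_le_of_lt (DivC_pow hy₀1 (Helper60.FM.norm_natCast_le_one _)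
      (pow_nonneg (norm_nonneg _) _) (hcly M) n) ?_
    exact (pow_le_pow_of_le_one (norm_nonneg _) hp1.le hM).trans_lt hL
  set c : ℕ := (cl L : ZMod (N * p ^ L)).val with hc
  have hcL : c.Coprime (N * p ^ L) := ZMod.val_coe_unit_coprime (cl L)
  have hcN : c.Coprime N := hcL.coprime_dvd_right (dvd_mul_right _ _)
  have hclt : c < N * p ^ L := ZMod.val_lt _
  have hc0 : c ≠ 0 := by
    intro h
    rw [h, Nat.coprime_zero_left] at hcN
    omega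
  have hcw := hclw L le_rfl
  rw [← hc] at hcw
  have hcu : ZMod.unitOfCoprime c hcN = a₀ := by
    rw [← hclN L]
    apply Units.ext
    rw [ZMod.coe_unitOfCoprime, hc, ZMod.unitsMap_def, Units.coe_map, ZMod.natCast_val]
    rfl
  have hc1 : c ≠ 1 := by
    intro h
    have h1 : a₀ = 1 := by
      rw [← hcu]
      apply Units.ext
      rw [ZMod.coe_unitOfCoprime, h, Nat.cast_one, Units.val_one]
    rw [h, h1, map_one, Units.val_one, Nat.cast_one, one_pow, mul_one, sub_self, norm_zero] at hcw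
    exact hz0.ne hcw
  obtain ⟨M₀, htr⟩ := htr
  obtain ⟨M₁, hM₁⟩ : ∃ M₁ : ℕ, ∀ M, M₁ ≤ M → ‖(p : E)‖ ^ M ≤ r := by
    obtain ⟨M₁, h1⟩ := exists_pow_lt_of_lt_one hr0 hp1
    exact ⟨M₁, fun M hM => (pow_le_pow_of_le_one (norm_nonneg _) hp1.le hM).trans h1.le⟩
  -- elements of the decomposition groups
  have hex : ∀ ℓ : ℕ, ∃ (g : Gam) (a : (ZMod N)ˣ) (y : E), (ℓ ∈ S ∨ (ℓ.Prime ∧ ¬ TameAt p ℓ V)) →
      Dcm ℓ g ∧ Acts N g (a : ZMod N).val ∧ Cyclo p g y ∧ (ℓ ∈ S → x ℓ = χ a * y ^ (n - 1)) ∧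
        (ℓ ∉ S → ¬ Equ ((χ a : E) * y ^ (n - 1)) 1) := by
    intro ℓ
    by_cases hS : ℓ ∈ S
    · obtain ⟨g, a, y, h1, h2, h3, h4⟩ := hx ℓ hS
      exact ⟨g, a, y, fun _ => ⟨h1, h2, h3, fun _ => h4, fun h => absurd hS h⟩⟩
    · by_cases hℓ : ℓ.Prime ∧ ¬ TameAt p ℓ V
      · rcases hloc ℓ hℓ.1 hS with h5 | ⟨x', ⟨g, a, y, h1, h2, h3, h4⟩, h6⟩
        · exact absurd h5 hℓ.2
        · exact ⟨g, a, y, fun _ => ⟨h1, h2, h3, fun h => absurd h hS, fun _ => by rwa [← h4]⟩⟩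
      · exact ⟨1, 1, 1, fun h => absurd h (not_or.2 ⟨hS, hℓ⟩)⟩
  choose gg aa yy hgg using hex
  have hexu : ∀ M ℓ : ℕ, ∃ u : (ZMod (N * p ^ M))ˣ,
      Acts (N * p ^ M) (gg ℓ) (u : ZMod (N * p ^ M)).val := fun M ℓ =>
    acts_exists (N * p ^ M) (gg ℓ)
  choose u hu using hexu
  have huN : ∀ M ℓ, (ℓ ∈ S ∨ (ℓ.Prime ∧ ¬ TameAt p ℓ V)) →
      ZMod.unitsMap (dvd_mul_right N (p ^ M)) (u M ℓ) = aa ℓ := by
    intro M ℓ h
    rw [DivC_mod]
    exact acts_inj (acts_of_dvd (dvd_mul_right N (p ^ M)) (hu M ℓ)) (hgg ℓ h).2.1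
  have huy : ∀ M ℓ, (ℓ ∈ S ∨ (ℓ.Prime ∧ ¬ TameAt p ℓ V)) →
      ‖yy ℓ - (((u M ℓ : ZMod (N * p ^ M)).val : ℕ) : E)‖ ≤ ‖(p : E)‖ ^ M := fun M ℓ h =>
    (hgg ℓ h).2.2.1 M _ (acts_of_dvd (dvd_mul_left (p ^ M) N) (hu M ℓ))
  have hyy1 : ∀ ℓ, (ℓ ∈ S ∨ (ℓ.Prime ∧ ¬ TameAt p ℓ V)) → ‖yy ℓ‖ ≤ 1 := by
    intro ℓ h
    have h1 := (huy 0 ℓ h).trans_eq (pow_zero _)
    have h2 := (IsUltrametricDist.norm_add_le_max (yy ℓ - _) _).trans
      (max_le h1 (Helper60.FM.norm_natCast_le_one (u 0 ℓ : ZMod (N * p ^ 0)).val))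
    rwa [sub_add_cancel] at h2
  let fac : ℕ → ℕ → ℝ := fun M ℓ =>
    ‖(χ (ZMod.unitsMap (dvd_mul_right N (p ^ M)) (u M ℓ)) : E) *
      (((u M ℓ : ZMod (N * p ^ M)).val : ℕ) : E) ^ (n - 1) - 1‖
  have hfac1 : ∀ M ℓ, fac M ℓ ≤ 1 := by
    intro M ℓ
    show ‖(χ (ZMod.unitsMap (dvd_mul_right N (p ^ M)) (u M ℓ)) : E) *
      (((u M ℓ : ZMod (N * p ^ M)).val : ℕ) : E) ^ (n - 1) - 1‖ ≤ 1
    rw [sub_eq_add_neg]
    refine Helper60.FM.norm_add_le_one E ?_ (by rw [norm_neg, norm_one])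
    rw [norm_mul, hχ1, one_mul, norm_pow]
    exact pow_le_one₀ (norm_nonneg _) (Helper60.FM.norm_natCast_le_one _)
  have hfac0 : ∀ M ℓ, 0 ≤ fac M ℓ := fun M ℓ => norm_nonneg _
  have hfd : ∀ M ℓ, (ℓ ∈ S ∨ (ℓ.Prime ∧ ¬ TameAt p ℓ V)) →
      ‖((χ (ZMod.unitsMap (dvd_mul_right N (p ^ M)) (u M ℓ)) : E) *
      (((u M ℓ : ZMod (N * p ^ M)).val : ℕ) : E) ^ (n - 1) - 1) -
        ((χ (aa ℓ) : E) * yy ℓ ^ (n - 1) - 1)‖ ≤ ‖(p : E)‖ ^ M := by
    intro M ℓ h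
    rw [huN M ℓ h, sub_sub_sub_cancel_right, ← mul_sub, norm_mul, hχ1, one_mul, norm_sub_rev]
    exact DivC_pow (hyy1 ℓ h) (Helper60.FM.norm_natCast_le_one _)
      (pow_nonneg (norm_nonneg _) _) (huy M ℓ h) (n - 1)
  have hfacS : ∀ ℓ ∈ S, Tendsto (fun M => fac M ℓ) atTop (nhds ‖x ℓ - 1‖) := by
    intro ℓ hℓ
    have h1 : Tendsto (fun M : ℕ => (χ (ZMod.unitsMap (dvd_mul_right N (p ^ M)) (u M ℓ)) : E) *
      (((u M ℓ : ZMod (N * p ^ M)).val : ℕ) : E) ^ (n - 1) - 1) atTop (nhds (x ℓ - 1)) := by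
      rw [tendsto_iff_norm_sub_tendsto_zero]
      refine squeeze_zero (fun _ => norm_nonneg _) (fun M => ?_)
        (tendsto_pow_atTop_nhds_zero_of_lt_one (norm_nonneg _) hp1)
      rw [(hgg ℓ (Or.inl hℓ)).2.2.2.1 hℓ]
      exact hfd M ℓ (Or.inl hℓ)
    exact h1.norm
  have hfacN : ∀ M, 1 ≤ M → ∀ ℓ, ℓ ∉ S → ℓ.Prime → ¬ TameAt p ℓ V → 1 ≤ fac M ℓ := by
    intro M hM ℓ hS h1 h2
    have h3 : ℓ ∈ S ∨ (ℓ.Prime ∧ ¬ TameAt p ℓ V) := Or.inr ⟨h1, h2⟩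
    refine DivC_far ((hgg ℓ h3).2.2.2.2 hS) ?_
    have h4 := hfd M ℓ h3
    rw [sub_sub_sub_cancel_right] at h4
    exact h4.trans_lt (pow_lt_one₀ (norm_nonneg _) hp1 (by omega))
  -- the bound for the sums
  have key : ∀ M, M₀ ≤ M → M₁ ≤ M → 1 ≤ M → L ≤ M →
      w ^ 2 * ((∏ ℓ ∈ S, fac M ℓ) * ‖∑ a : (ZMod (N * p ^ M))ˣ,
      ((fl c (N * p ^ M) a : ℕ) : E) * χ (ZMod.unitsMap (dvd_mul_right N (p ^ M)) a) *
          (((a : ZMod (N * p ^ M)).val : ℕ) : E) ^ (n - 1)‖) ≤ r := by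
    intro M hM0 hM1 hM hLM
    have hm0 : NeZero (N * p ^ M) := ⟨mul_ne_zero (NeZero.ne N) (pow_ne_zero _ hpp.ne_zero)⟩
    obtain ⟨T, hT1, hTm, hT⟩ := htr M hM0
    have hpr : ‖(p : E)‖ ^ M ≤ r := hM₁ M hM1
    have hpm : p ∣ N * p ^ M := hpN.mul_right _
    have hpMm : p ^ M ∣ N * p ^ M := dvd_mul_left _ _
    have hv := hv1 (N * p ^ M) hpm
    have hχm : ∀ a : (ZMod (N * p ^ M))ˣ,
        ‖(χ (ZMod.unitsMap (dvd_mul_right N (p ^ M)) a) : E)‖ = 1 := fun a => hχ1 _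
    have hval : ∀ a b : (ZMod (N * p ^ M))ˣ,
        ‖((((a * b : (ZMod (N * p ^ M))ˣ) : ZMod (N * p ^ M)).val : ℕ) : E) -
          (((a : ZMod (N * p ^ M)).val : ℕ) : E) * (((b : ZMod (N * p ^ M)).val : ℕ) : E)‖ ≤ r := by
      intro a b
      rw [← Nat.cast_mul]
      refine (DivC_nat M ?_).trans hpr
      rw [Units.val_mul, ZMod.val_mul]
      exact (Nat.mod_modEq _ _).of_dvd hpMm
    have hF1 : ∀ a : (ZMod (N * p ^ M))ˣ, ‖T a * χ (ZMod.unitsMap (dvd_mul_right N (p ^ M)) a) *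
        (((a : ZMod (N * p ^ M)).val : ℕ) : E) ^ n‖ = 1 := by
      intro a
      rw [norm_mul, norm_mul, norm_pow, hT1, hχm, hv, one_pow, one_mul, one_mul]
    obtain ⟨T', hT', hfin⟩ := cycCore2 (N * p ^ M) p M c hp hM hpMm (by omega)
      (hclt.trans_le (Nat.mul_le_mul_left N (Nat.pow_le_pow_right hpp.pos hLM)))
      (Nat.Coprime.mul_right hcN (Nat.Coprime.pow_right M (hcN.coprime_dvd_right hpN))) hpr
      (fun a => T a * χ (ZMod.unitsMap (dvd_mul_right N (p ^ M)) a) *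
        (((a : ZMod (N * p ^ M)).val : ℕ) : E) ^ n) T hF1 hT1
      (by
        intro a b
        have e : T (a * b) * χ (ZMod.unitsMap (dvd_mul_right N (p ^ M)) (a * b)) *
            ((((a * b : (ZMod (N * p ^ M))ˣ) : ZMod (N * p ^ M)).val : ℕ) : E) ^ n -
            T a * χ (ZMod.unitsMap (dvd_mul_right N (p ^ M)) a) *
              (((a : ZMod (N * p ^ M)).val : ℕ) : E) ^ n *
            (T b * χ (ZMod.unitsMap (dvd_mul_right N (p ^ M)) b) *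
              (((b : ZMod (N * p ^ M)).val : ℕ) : E) ^ n) =
            (T (a * b) - T a * T b) * (χ (ZMod.unitsMap (dvd_mul_right N (p ^ M)) (a * b)) *
              ((((a * b : (ZMod (N * p ^ M))ˣ) : ZMod (N * p ^ M)).val : ℕ) : E) ^ n) +
            T a * T b * χ (ZMod.unitsMap (dvd_mul_right N (p ^ M)) (a * b)) *
              (((((a * b : (ZMod (N * p ^ M))ˣ) : ZMod (N * p ^ M)).val : ℕ) : E) ^ n -
                ((((a : ZMod (N * p ^ M)).val : ℕ) : E) *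
                  (((b : ZMod (N * p ^ M)).val : ℕ) : E)) ^ n) := by
          rw [map_mul, map_mul, Units.val_mul]
          ring
        show ‖T (a * b) * χ (ZMod.unitsMap (dvd_mul_right N (p ^ M)) (a * b)) *
            ((((a * b : (ZMod (N * p ^ M))ˣ) : ZMod (N * p ^ M)).val : ℕ) : E) ^ n -
            T a * χ (ZMod.unitsMap (dvd_mul_right N (p ^ M)) a) *
              (((a : ZMod (N * p ^ M)).val : ℕ) : E) ^ n *
            (T b * χ (ZMod.unitsMap (dvd_mul_right N (p ^ M)) b) *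
              (((b : ZMod (N * p ^ M)).val : ℕ) : E) ^ n)‖ ≤ r
        rw [e]
        refine (IsUltrametricDist.norm_add_le_max _ _).trans (max_le ?_ ?_)
        · rw [norm_mul, norm_mul, norm_pow, hχm, hv, one_pow, mul_one, mul_one]
          exact hTm a b
        · rw [norm_mul, norm_mul, norm_mul, hT1, hT1, hχm, one_mul, one_mul, one_mul]
          refine DivC_pow (hv _).le ?_ hr0' (hval a b) n
          rw [norm_mul, hv, hv, one_mul])
      hTm (cl M)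
      V hV heven hline
      (by
        intro g a hga'
        have h1 := hT g a hga'
        have e : trc V g - T a * χ (ZMod.unitsMap (dvd_mul_right N (p ^ M)) a) *
            (((a : ZMod (N * p ^ M)).val : ℕ) : E) ^ n - T a =
            trc V g - T a * (1 + χ (ZMod.unitsMap (dvd_mul_right N (p ^ M)) a) *
              (((a : ZMod (N * p ^ M)).val : ℕ) : E) ^ n) := by ring
        show ‖trc V g - T a * χ (ZMod.unitsMap (dvd_mul_right N (p ^ M)) a) *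
            (((a : ZMod (N * p ^ M)).val : ℕ) : E) ^ n - T a‖ ≤ r
        rw [e]
        exact h1)
      {ℓ | ¬ TameAt p ℓ V}
      (by
        intro ℓ _ hS
        by_contra hcon
        exact hS hcon)
      (u M) (fun ℓ hS hℓ => dcm_dec hℓ (hgg ℓ (Or.inr ⟨hℓ, hS⟩)).1 (hu M ℓ))
    have hwe : ‖T (cl M) * χ (ZMod.unitsMap (dvd_mul_right N (p ^ M)) (cl M)) *
        (((cl M : ZMod (N * p ^ M)).val : ℕ) : E) ^ n - T (cl M)‖ = w := by
      have e : T (cl M) * χ (ZMod.unitsMap (dvd_mul_right N (p ^ M)) (cl M)) *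
          (((cl M : ZMod (N * p ^ M)).val : ℕ) : E) ^ n - T (cl M) =
          T (cl M) * (χ a₀ * (((cl M : ZMod (N * p ^ M)).val : ℕ) : E) ^ n - 1) := by
        rw [hclN M]
        ring
      rw [e, norm_mul, hT1, one_mul]
      exact hclw M hLM
    have hPe : ∏ ℓ ∈ T', ‖T (u M ℓ) * χ (ZMod.unitsMap (dvd_mul_right N (p ^ M)) (u M ℓ)) *
        (((u M ℓ : ZMod (N * p ^ M)).val : ℕ) : E) ^ n -
          ((((u M ℓ : (ZMod (N * p ^ M))ˣ) : ZMod (N * p ^ M)).val : ℕ) : E) * T (u M ℓ)‖ =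
        ∏ ℓ ∈ T', fac M ℓ := by
      refine Finset.prod_congr rfl fun ℓ _ => ?_
      have e : T (u M ℓ) * χ (ZMod.unitsMap (dvd_mul_right N (p ^ M)) (u M ℓ)) *
            (((u M ℓ : ZMod (N * p ^ M)).val : ℕ) : E) ^ n -
            ((((u M ℓ : (ZMod (N * p ^ M))ˣ) : ZMod (N * p ^ M)).val : ℕ) : E) * T (u M ℓ) =
            T (u M ℓ) * (((u M ℓ : ZMod (N * p ^ M)).val : ℕ) : E) *
              ((χ (ZMod.unitsMap (dvd_mul_right N (p ^ M)) (u M ℓ)) : E) *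
            (((u M ℓ : ZMod (N * p ^ M)).val : ℕ) : E) ^ (n - 1) - 1) := by
        obtain ⟨n', rfl⟩ : ∃ n', n = n' + 1 := ⟨n - 1, by omega⟩
        rw [Nat.add_sub_cancel, pow_succ]
        ring
      rw [e, norm_mul, norm_mul, hT1, hv, one_mul, one_mul]
    have hPS : ∏ ℓ ∈ S, fac M ℓ ≤ ∏ ℓ ∈ T', fac M ℓ := by
      have h1 : ∏ ℓ ∈ S, fac M ℓ ≤ ∏ ℓ ∈ S ∩ T', fac M ℓ := by
        rw [← Finset.prod_inter_mul_prod_diff S T' (fac M)]
        exact mul_le_of_le_one_right (Finset.prod_nonneg fun ℓ _ => hfac0 M ℓ)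
          (Finset.prod_le_one (fun ℓ _ => hfac0 M ℓ) fun ℓ _ => hfac1 M ℓ)
      have h2 : ∏ ℓ ∈ S ∩ T', fac M ℓ ≤ ∏ ℓ ∈ T', fac M ℓ := by
        rw [← Finset.prod_inter_mul_prod_diff T' S (fac M), Finset.inter_comm S T']
        refine le_mul_of_one_le_right (Finset.prod_nonneg fun ℓ _ => hfac0 M ℓ) ?_
        have h3 : ∏ ℓ ∈ T' \ S, (1 : ℝ) ≤ ∏ ℓ ∈ T' \ S, fac M ℓ := by
          refine Finset.prod_le_prod (fun _ _ => zero_le_one) fun ℓ hℓ => ?_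
          rw [Finset.mem_sdiff] at hℓ
          obtain ⟨h4, h5⟩ := hT' ℓ hℓ.1
          exact hfacN M hM ℓ hℓ.2 h5 h4
        rwa [Finset.prod_const_one] at h3
      exact h1.trans h2
    -- the sum of the core theorem
    have hX : w ^ 2 * ((∏ ℓ ∈ S, fac M ℓ) * ‖∑ a : (ZMod (N * p ^ M))ˣ,
        ((fl c (N * p ^ M) a : ℕ) : E) *
        (T a * χ (ZMod.unitsMap (dvd_mul_right N (p ^ M)) a) *
          (((a : ZMod (N * p ^ M)).val : ℕ) : E) ^ n * (T a)⁻¹ *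
            ((((a⁻¹ : (ZMod (N * p ^ M))ˣ) : ZMod (N * p ^ M)).val : ℕ) : E))‖) ≤ r := by
      refine le_trans ?_ hfin
      rw [hPe, hwe]
      exact mul_le_mul_of_nonneg_left (mul_le_mul_of_nonneg_right hPS (norm_nonneg _))
        (by positivity)
    have hdiff : ‖∑ a : (ZMod (N * p ^ M))ˣ,
        ((fl c (N * p ^ M) a : ℕ) : E) * χ (ZMod.unitsMap (dvd_mul_right N (p ^ M)) a) *
          (((a : ZMod (N * p ^ M)).val : ℕ) : E) ^ (n - 1) -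
        ∑ a : (ZMod (N * p ^ M))ˣ, ((fl c (N * p ^ M) a : ℕ) : E) *
        (T a * χ (ZMod.unitsMap (dvd_mul_right N (p ^ M)) a) *
          (((a : ZMod (N * p ^ M)).val : ℕ) : E) ^ n * (T a)⁻¹ *
            ((((a⁻¹ : (ZMod (N * p ^ M))ˣ) : ZMod (N * p ^ M)).val : ℕ) : E))‖ ≤ r := by
      rw [← Finset.sum_sub_distrib]
      refine IsUltrametricDist.norm_sum_le_of_forall_le_of_nonneg hr0' fun a _ => ?_
      have hTa : T a ≠ 0 := by
        intro h0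
        have h1 := hT1 a
        rw [h0, norm_zero] at h1
        exact zero_ne_one h1
      have e : ((fl c (N * p ^ M) a : ℕ) : E) * χ (ZMod.unitsMap (dvd_mul_right N (p ^ M)) a) *
          (((a : ZMod (N * p ^ M)).val : ℕ) : E) ^ (n - 1) -
          ((fl c (N * p ^ M) a : ℕ) : E) *
        (T a * χ (ZMod.unitsMap (dvd_mul_right N (p ^ M)) a) *
          (((a : ZMod (N * p ^ M)).val : ℕ) : E) ^ n * (T a)⁻¹ *
            ((((a⁻¹ : (ZMod (N * p ^ M))ˣ) : ZMod (N * p ^ M)).val : ℕ) : E)) =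
          ((fl c (N * p ^ M) a : ℕ) : E) * (χ (ZMod.unitsMap (dvd_mul_right N (p ^ M)) a) *
            (((a : ZMod (N * p ^ M)).val : ℕ) : E) ^ (n - 1) *
            (1 - (((a : ZMod (N * p ^ M)).val : ℕ) : E) *
              ((((a⁻¹ : (ZMod (N * p ^ M))ˣ) : ZMod (N * p ^ M)).val : ℕ) : E))) := by
        obtain ⟨n', rfl⟩ : ∃ n', n = n' + 1 := ⟨n - 1, by omega⟩
        rw [Nat.add_sub_cancel, pow_succ]
        field_simp
      rw [e, norm_mul, norm_mul, norm_mul, norm_pow, hχm, hv, one_pow, one_mul, one_mul]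
      refine (mul_le_of_le_one_left (norm_nonneg _) (Helper60.FM.norm_natCast_le_one _)).trans ?_
      have h1 := hval a a⁻¹
      have h2 : ((((a * a⁻¹ : (ZMod (N * p ^ M))ˣ) : ZMod (N * p ^ M)).val : ℕ) : E) = 1 := by
        rw [mul_inv_cancel, Units.val_one]
        have h3 : (1 : ZMod (N * p ^ M)).val = 1 := by
          have h4 : Fact (1 < N * p ^ M) :=
            ⟨hN1.trans_le (Nat.le_mul_of_pos_right N (pow_pos hpp.pos M))⟩
          exact ZMod.val_one _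
        rw [h3, Nat.cast_one]
      rw [h2] at h1
      exact h1
    have hPS0 : 0 ≤ ∏ ℓ ∈ S, fac M ℓ := Finset.prod_nonneg fun ℓ _ => hfac0 M ℓ
    have hPS1 : ∏ ℓ ∈ S, fac M ℓ ≤ 1 :=
      Finset.prod_le_one (fun ℓ _ => hfac0 M ℓ) fun ℓ _ => hfac1 M ℓ
    have h1 := IsUltrametricDist.norm_add_le_max
      (∑ a : (ZMod (N * p ^ M))ˣ,
        ((fl c (N * p ^ M) a : ℕ) : E) * χ (ZMod.unitsMap (dvd_mul_right N (p ^ M)) a) *
          (((a : ZMod (N * p ^ M)).val : ℕ) : E) ^ (n - 1) -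
        ∑ a : (ZMod (N * p ^ M))ˣ, ((fl c (N * p ^ M) a : ℕ) : E) *
        (T a * χ (ZMod.unitsMap (dvd_mul_right N (p ^ M)) a) *
          (((a : ZMod (N * p ^ M)).val : ℕ) : E) ^ n * (T a)⁻¹ *
            ((((a⁻¹ : (ZMod (N * p ^ M))ˣ) : ZMod (N * p ^ M)).val : ℕ) : E)))
      (∑ a : (ZMod (N * p ^ M))ˣ, ((fl c (N * p ^ M) a : ℕ) : E) *
        (T a * χ (ZMod.unitsMap (dvd_mul_right N (p ^ M)) a) *
          (((a : ZMod (N * p ^ M)).val : ℕ) : E) ^ n * (T a)⁻¹ *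
            ((((a⁻¹ : (ZMod (N * p ^ M))ˣ) : ZMod (N * p ^ M)).val : ℕ) : E)))
    rw [sub_add_cancel] at h1
    have hw20 : (0 : ℝ) ≤ w ^ 2 := by positivity
    have hw21 : w ^ 2 ≤ 1 := by
      refine pow_le_one₀ hz0.le ?_
      rw [← hwe, sub_eq_add_neg]
      refine Helper60.FM.norm_add_le_one E ?_ (by rw [norm_neg, hT1])
      exact (hF1 (cl M)).le
    refine (mul_le_mul_of_nonneg_left (mul_le_mul_of_nonneg_left h1 hPS0) hw20).trans ?_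
    rw [mul_max_of_nonneg _ _ hPS0, mul_max_of_nonneg _ _ hw20]
    refine max_le ?_ hX
    exact (mul_le_of_le_one_left (mul_nonneg hPS0 (norm_nonneg _)) hw21).trans
      ((mul_le_of_le_one_left (norm_nonneg _) hPS1).trans hdiff)
  -- the limit
  have hlim := (num_lim N n p c hpN hn hcN χ).norm
  have hlimP : Tendsto (fun M => ∏ ℓ ∈ S, fac M ℓ) atTop (nhds (∏ ℓ ∈ S, ‖x ℓ - 1‖)) :=
    tendsto_finset_prod S hfacS
  have hprod0 : 0 ≤ ∏ ℓ ∈ S, ‖x ℓ - 1‖ := Finset.prod_nonneg fun ℓ _ => norm_nonneg _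
  have h2 : w ^ 2 * (∏ ℓ ∈ S, ‖x ℓ - 1‖) *
      ‖((c : E) ^ n - ((χ (ZMod.unitOfCoprime c hcN) : Eˣ) : E)⁻¹) * TT N n χ‖ ≤
      r * ‖(n : E)‖ := by
    refine le_of_tendsto ((hlimP.const_mul (w ^ 2)).mul hlim) ?_
    filter_upwards [eventually_ge_atTop M₀, eventually_ge_atTop M₁, eventually_ge_atTop 1,
      eventually_ge_atTop L] with M h1 h2 h3 h3'
    have h4 := key M h1 h2 h3 h3'
    rw [norm_mul, norm_mul, norm_pow]
    have h5 : ‖(c : E)‖ ^ (n - 1) ≤ 1 := pow_le_one₀ (norm_nonneg _) (Helper60.FM.norm_natCast_le_one _)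
    have h6 : ∀ v P A B W : ℝ, v * P * (A * B * W) = A * B * (v * (P * W)) :=
      fun _ _ _ _ _ => by ring
    rw [h6]
    refine (mul_le_mul (mul_le_mul_of_nonneg_left h5 (norm_nonneg _)) h4
      (mul_nonneg (by positivity)
        (mul_nonneg (Finset.prod_nonneg fun ℓ _ => hfac0 M ℓ) (norm_nonneg _)))
      (by rw [mul_one]; exact norm_nonneg _)).trans_eq ?_
    ring
  have h3 : ‖(c : E) ^ n - ((χ (ZMod.unitOfCoprime c hcN) : Eˣ) : E)⁻¹‖ = w := by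
    rw [hcu]
    have hne0 : (χ a₀ : E) ≠ 0 := Units.ne_zero _
    have e : (c : E) ^ n - ((χ a₀ : Eˣ) : E)⁻¹ = ((χ a₀ : Eˣ) : E)⁻¹ * ((χ a₀ : E) * (c : E) ^ n - 1) := by
      rw [mul_sub, ← mul_assoc, inv_mul_cancel₀ hne0, one_mul, mul_one]
    rw [e, norm_mul, norm_inv, hχ1, inv_one, one_mul]
    exact hcw
  have h4 : genBern N n χ = TT N n χ := rfl
  rw [h4]
  rw [norm_mul, h3] at h2
  calc w ^ 3 * (∏ ℓ ∈ S, ‖x ℓ - 1‖) * ‖TT N n χ‖ =
      w ^ 2 * (∏ ℓ ∈ S, ‖x ℓ - 1‖) * (w * ‖TT N n χ‖) := by ring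
    _ ≤ r * ‖(n : E)‖ := h2

end Pool.Agent.EDV
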