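import Pool.Agent.EDV.Div

/-!
# EDV-DivM (0.9h): divisibility, both halves

From `div_half`. `τ` is a character of level `N`, `T(a) = τ(g_a)` for a chosen `g_a` acting as `[a]` on the
`N p ^ M`-th roots of unity (`exists_acts`), `M` so large that `τ ≡ 1` modulo `r` on all `g` acting trivially
on them (`Level.small`) and `‖p‖ ^ M ≤ r`, `M ≥ k`. First half: the hypothesis for `g`, `a` modulo `N`
(`val_unitsMap` in `AAP/RedA.lean`, `acts_of_dvd`, `acts_mod`), `b = [a]` (`p ^ k ∣ N p ^ M`).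
Second half: `div_half` for `n'`, `χ⁻¹`, `T'(a) = τ(g_a) χ(a) [a] ^ n`: modulo `r`
`T'(a) (1 + χ(a)⁻¹ [a] ^ n') = τ(g_a) (χ(a) [a] ^ n + [a] ^ (n + n')) ≡ τ(g_a) (1 + χ(a) [a] ^ n)` as
`[a] ^ (n + n') ≡ 1` modulo `p ^ k` (`(p - 1) p ^ (k - 1) = φ(p ^ k)` divides `n + n'`) and `‖p‖ ^ k ≤ r`.
`hne` for `χ⁻¹`, `n'`: `χ(u)⁻¹ [u] ^ n'` is residually `(χ(u) [u] ^ n)⁻¹`, not 1.
-/

open NumberField Filter Matrix

namespace Pool.Agent.EDV

open Pool.Agent.AAP

open Pool.Agent.Helper60.FM in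
private theorem DivM_mod {E : Type} [NormedField E] [IsUltrametricDist E] {p k a b : ℕ}
    (h : a ≡ b [MOD p ^ k]) : ‖(a : E) - (b : E)‖ ≤ ‖(p : E)‖ ^ k := by
  obtain ⟨c, hc⟩ := Nat.modEq_iff_dvd.1 h.symm
  have h1 : (a : E) - (b : E) = (p : E) ^ k * (c : E) := by
    have h2 := congrArg (Int.cast : ℤ → E) hc
    push_cast at h2
    exact h2
  rw [h1, norm_mul, norm_pow]
  exact mul_le_of_le_one_right (pow_nonneg (norm_nonneg _) _)
    (IsUltrametricDist.norm_intCast_le_one E c)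

private theorem DivM_add {E : Type} [NormedField E] [IsUltrametricDist E] {x y : E} {r : ℝ}
    (hx : ‖x‖ ≤ r) (hy : ‖y‖ ≤ r) : ‖x + y‖ ≤ r :=
  (IsUltrametricDist.norm_add_le_max x y).trans (max_le hx hy)

private theorem DivM_tau {p N : ℕ} {E : Type} [NormedField E] [IsUltrametricDist E] {r : ℝ}
    {τ : Gam →* Eˣ} (hτ : Level p N τ) {m : ℕ} [NeZero m]
    (hs : ∀ g, Acts m g 1 → ‖(τ g : E) - 1‖ ≤ r) (u : (ZMod m)ˣ) {g h : Gam}
    (hg : Acts m g (u : ZMod m).val) (hh : Acts m h (u : ZMod m).val) :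
    ‖(τ g : E) - τ h‖ ≤ r := by
  have h1 : (u : ZMod m).val * ((u⁻¹ : (ZMod m)ˣ) : ZMod m).val ≡ 1 [MOD m] := by
    rw [← ZMod.natCast_eq_natCast_iff, Nat.cast_mul, ZMod.natCast_zmod_val, ZMod.natCast_zmod_val,
      Units.mul_inv, Nat.cast_one]
  have h2 : Acts m (g⁻¹ * h) 1 := by
    refine acts_mod (acts_mul (acts_inv hg h1) hh) ?_
    rw [mul_comm]
    exact h1
  have h3 : (τ g : E) - τ h = τ g * (1 - τ (g⁻¹ * h)) := by
    have h4 : (τ h : E) = τ g * τ (g⁻¹ * h) := by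
      rw [← Units.val_mul, ← map_mul, mul_inv_cancel_left]
    rw [h4]
    ring
  rw [h3, norm_mul, hτ.norm_one, one_mul, norm_sub_rev]
  exact hs _ h2

private theorem DivM_one {p n n' k b : ℕ} (hp : p.Prime) (hk : 1 ≤ k)
    (hnn : (p - 1) * p ^ (k - 1) ∣ n + n') (hb : b.Coprime p) : b ^ (n + n') ≡ 1 [MOD p ^ k] := by
  obtain ⟨q, hq⟩ := hnn
  have h1 : b ^ Nat.totient (p ^ k) ≡ 1 [MOD p ^ k] := Nat.ModEq.pow_totient (hb.pow_right k)
  rw [Nat.totient_prime_pow hp hk, mul_comm] at h1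
  rw [hq, pow_mul]
  have h2 := h1.pow q
  rw [one_pow] at h2
  exact h2

open Pool.Agent.Helper60.FM in
theorem div_main (p N n n' k : ℕ) [NeZero N] [Fact p.Prime] (hp : p ≠ 2) (hpN : p ∣ N)
    (hk : 1 ≤ k) (hn : 1 ≤ n) (hn' : 1 ≤ n') (hnn : (p - 1) * p ^ (k - 1) ∣ n + n')
    {E : Type} [NormedField E] [IsUltrametricDist E] [CompleteSpace E] [NormedAlgebra ℚ_[p] E]
    {r : ℝ} (hpr : ‖(p : E)‖ ^ k ≤ r) (hr1 : r < 1) (χ : (ZMod N)ˣ →* Eˣ)
    (hne : ∃ u : (ZMod N)ˣ, ¬ Equ ((χ u : E) * (((u : ZMod N).val : ℕ) : E) ^ n) 1)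
    (V : Gam →* GL2 E) (hV : Continuous V) (heven : Even2 V) (hline : ¬ Line V)
    (τ : Gam →* Eˣ) (hτ : Level p N τ)
    (htr : ∀ (g : Gam) (a : (ZMod N)ˣ) (b : ℕ), Acts N g (a : ZMod N).val → Acts (p ^ k) g b →
      ‖trc V g - τ g * (1 + χ a * (b : E) ^ n)‖ ≤ r) :
    (LocalCond p N n χ V → ‖genBern N n χ‖ ≤ r * ‖(n : E)‖) ∧
      (LocalCond p N n' χ⁻¹ V → ‖genBern N n' χ⁻¹‖ ≤ r * ‖(n' : E)‖) := by
  have hp0 : p.Prime := Fact.out
  have : CharZero E := charZero_of_injective_algebraMap (algebraMap ℚ_[p] E).injective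
  have hpos : 0 < ‖(p : E)‖ := norm_pos_iff.2 (Nat.cast_ne_zero.2 hp0.ne_zero)
  have hr0 : 0 < r := lt_of_lt_of_le (pow_pos hpos k) hpr
  have hχ : ∀ u, ‖(χ u : E)‖ = 1 := fun u => norm_chi χ u
  have hτ1 := hτ.norm_one
  obtain ⟨M₀, hM₀⟩ := hτ.small hr0
  have hnat : ∀ b : ℕ, ‖(b : E)‖ ≤ 1 := fun b => norm_natCast_le_one b
  have hcop : ∀ {b : ℕ}, b.Coprime p → ‖(b : E)‖ = 1 := fun {b} hb =>
    norm_natCast_eq_one (p := p) ((Nat.Prime.coprime_iff_not_dvd hp0).1 hb.symm)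
  have hadd : ∀ (x b : E), ‖x‖ = 1 → ‖b‖ ≤ 1 → ‖1 + x * b ^ n‖ ≤ 1 := by
    intro x b hx hb
    refine DivM_add norm_one.le ?_
    rw [norm_mul, hx, one_mul, norm_pow]
    exact pow_le_one₀ (norm_nonneg _) hb
  have key : ∀ M, max M₀ k ≤ M → ∃ T : (ZMod (N * p ^ M))ˣ → E, (∀ a, ‖T a‖ = 1) ∧
      (∀ a b, ‖T (a * b) - T a * T b‖ ≤ r) ∧
      ∀ (g : Gam) (a : (ZMod (N * p ^ M))ˣ), Acts (N * p ^ M) g (a : ZMod (N * p ^ M)).val →
        ‖trc V g - T a * (1 + χ (ZMod.unitsMap (dvd_mul_right N (p ^ M)) a) *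
          (((a : ZMod (N * p ^ M)).val : ℕ) : E) ^ n)‖ ≤ r := by
    intro M hM
    have hM1 : M₀ ≤ M := (le_max_left _ _).trans hM
    have hM2 : k ≤ M := (le_max_right _ _).trans hM
    have : NeZero (N * p ^ M) := ⟨mul_ne_zero (NeZero.ne N) (pow_ne_zero _ hp0.ne_zero)⟩
    choose γ hγ using exists_acts (N * p ^ M)
    refine ⟨fun a => τ (γ a), fun a => hτ1 _, ?_, ?_⟩
    · intro a b
      have h1 : Acts (N * p ^ M) (γ a * γ b) ((a * b : (ZMod (N * p ^ M))ˣ) : ZMod (N * p ^ M)).val := by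
        refine acts_mod (acts_mul (hγ a) (hγ b)) ?_
        rw [Units.val_mul, ZMod.val_mul]
        exact (Nat.mod_modEq _ _).symm
      have h2 := DivM_tau hτ (hM₀ M hM1) (a * b) (hγ (a * b)) h1
      rw [map_mul, Units.val_mul] at h2
      exact h2
    · intro g a hg
      have h1 : Acts N g ((ZMod.unitsMap (dvd_mul_right N (p ^ M)) a : (ZMod N)ˣ) : ZMod N).val := by
        rw [val_unitsMap]
        exact acts_mod (acts_of_dvd (dvd_mul_right N (p ^ M)) hg) (Nat.mod_modEq _ _).symm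
      have h2 : Acts (p ^ k) g (a : ZMod (N * p ^ M)).val :=
        acts_of_dvd ((pow_dvd_pow p hM2).trans (dvd_mul_left _ _)) hg
      have h3 := htr g _ _ h1 h2
      have h4 := DivM_tau hτ (hM₀ M hM1) a hg (hγ a)
      have h5 : trc V g - (τ (γ a) : E) * (1 + χ (ZMod.unitsMap (dvd_mul_right N (p ^ M)) a) *
          (((a : ZMod (N * p ^ M)).val : ℕ) : E) ^ n) =
          (trc V g - (τ g : E) * (1 + χ (ZMod.unitsMap (dvd_mul_right N (p ^ M)) a) *
            (((a : ZMod (N * p ^ M)).val : ℕ) : E) ^ n)) +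
          ((τ g : E) - τ (γ a)) * (1 + χ (ZMod.unitsMap (dvd_mul_right N (p ^ M)) a) *
            (((a : ZMod (N * p ^ M)).val : ℕ) : E) ^ n) := by ring
      dsimp only
      rw [h5]
      refine DivM_add h3 ?_
      rw [norm_mul]
      exact (mul_le_mul h4 (hadd _ _ (hχ _) (hnat _)) (norm_nonneg _) hr0.le).trans_eq (mul_one r)
  refine ⟨fun hloc => div_half p N n hp hpN hn hr0 hr1 χ hne V hV heven hline ⟨_, key⟩ hloc,
    fun hloc => div_half p N n' hp hpN hn' hr0 hr1 χ⁻¹ ?_ V hV heven hline ⟨max M₀ k, ?_⟩ hloc⟩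
  · obtain ⟨u, hu⟩ := hne
    refine ⟨u, fun hu' => hu ?_⟩
    have hc : (u : ZMod N).val.Coprime p :=
      Nat.Coprime.coprime_dvd_right hpN (ZMod.val_coe_unit_coprime u)
    have h1 : ‖(((u : ZMod N).val : ℕ) : E) ^ (n + n') - 1‖ ≤ r := by
      have h2 := DivM_mod (E := E) (DivM_one hp0 hk hnn hc)
      rw [Nat.cast_pow, Nat.cast_one] at h2
      exact h2.trans hpr
    unfold Equ at hu' ⊢
    rw [MonoidHom.inv_apply, Units.val_inv_eq_inv_val] at hu'
    have h3 : (χ u : E) ≠ 0 := Units.ne_zero _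
    have h4 : (χ u : E) * (((u : ZMod N).val : ℕ) : E) ^ n - 1 =
        -((χ u : E) * (((u : ZMod N).val : ℕ) : E) ^ n *
          ((χ u : E)⁻¹ * (((u : ZMod N).val : ℕ) : E) ^ n' - 1)) +
        ((((u : ZMod N).val : ℕ) : E) ^ (n + n') - 1) := by
      rw [pow_add]
      field_simp
      ring
    rw [h4]
    refine lt_of_le_of_lt (IsUltrametricDist.norm_add_le_max _ _) (max_lt ?_ (h1.trans_lt hr1))
    rw [norm_neg, norm_mul, norm_mul, hχ, one_mul, norm_pow]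
    exact lt_of_le_of_lt (mul_le_of_le_one_left (norm_nonneg _)
      (pow_le_one₀ (norm_nonneg _) (hnat _))) hu'
  · intro M hM
    have hM2 : k ≤ M := (le_max_right _ _).trans hM
    have : NeZero (N * p ^ M) := ⟨mul_ne_zero (NeZero.ne N) (pow_ne_zero _ hp0.ne_zero)⟩
    obtain ⟨T, hT1, hT2, hT3⟩ := key M hM
    have hdvd : p ∣ N * p ^ M := hpN.trans (dvd_mul_right _ _)
    have hc : ∀ a : (ZMod (N * p ^ M))ˣ, (a : ZMod (N * p ^ M)).val.Coprime p := fun a =>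
      Nat.Coprime.coprime_dvd_right hdvd (ZMod.val_coe_unit_coprime a)
    have hpk : p ^ k ∣ N * p ^ M := (pow_dvd_pow p hM2).trans (dvd_mul_left _ _)
    refine ⟨fun a => T a * (χ (ZMod.unitsMap (dvd_mul_right N (p ^ M)) a) *
      (((a : ZMod (N * p ^ M)).val : ℕ) : E) ^ n), ?_, ?_, ?_⟩
    · intro a
      dsimp only
      rw [norm_mul, norm_mul, norm_pow, hT1, hχ, hcop (hc a), one_pow, one_mul, one_mul]
    · intro a b
      dsimp only
      rw [map_mul, map_mul, Units.val_mul]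
      have h1 : ‖((((a * b : (ZMod (N * p ^ M))ˣ) : ZMod (N * p ^ M)).val : ℕ) : E) ^ n -
          ((((a : ZMod (N * p ^ M)).val : ℕ) : E) * (((b : ZMod (N * p ^ M)).val : ℕ) : E)) ^ n‖ ≤ r := by
        have h2 : (((a * b : (ZMod (N * p ^ M))ˣ) : ZMod (N * p ^ M)).val) ^ n ≡
            ((a : ZMod (N * p ^ M)).val * (b : ZMod (N * p ^ M)).val) ^ n [MOD p ^ k] := by
          refine Nat.ModEq.pow n (Nat.ModEq.of_dvd hpk ?_)
          rw [Units.val_mul, ZMod.val_mul]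
          exact Nat.mod_modEq _ _
        have h3 := DivM_mod (E := E) h2
        rw [Nat.cast_pow, Nat.cast_pow, Nat.cast_mul] at h3
        exact h3.trans hpr
      generalize ((((a * b : (ZMod (N * p ^ M))ˣ) : ZMod (N * p ^ M)).val : ℕ) : E) = ab at h1 ⊢
      have hab : ‖ab ^ n‖ ≤ 1 := by
        have h5 : ab ^ n = (ab ^ n - ((((a : ZMod (N * p ^ M)).val : ℕ) : E) *
          (((b : ZMod (N * p ^ M)).val : ℕ) : E)) ^ n) + ((((a : ZMod (N * p ^ M)).val : ℕ) : E) *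
          (((b : ZMod (N * p ^ M)).val : ℕ) : E)) ^ n := by ring
        rw [h5]
        refine DivM_add (h1.trans hr1.le) ?_
        rw [norm_pow, norm_mul, hcop (hc a), hcop (hc b), one_mul, one_pow]
      have h4 : T (a * b) * (χ (ZMod.unitsMap (dvd_mul_right N (p ^ M)) a) *
          χ (ZMod.unitsMap (dvd_mul_right N (p ^ M)) b) * ab ^ n) -
          T a * (χ (ZMod.unitsMap (dvd_mul_right N (p ^ M)) a) * (((a : ZMod (N * p ^ M)).val : ℕ) : E) ^ n) *
          (T b * (χ (ZMod.unitsMap (dvd_mul_right N (p ^ M)) b) * (((b : ZMod (N * p ^ M)).val : ℕ) : E) ^ n)) =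
          (T (a * b) - T a * T b) * (χ (ZMod.unitsMap (dvd_mul_right N (p ^ M)) a) *
            χ (ZMod.unitsMap (dvd_mul_right N (p ^ M)) b) * ab ^ n) +
          T a * T b * (χ (ZMod.unitsMap (dvd_mul_right N (p ^ M)) a) *
            χ (ZMod.unitsMap (dvd_mul_right N (p ^ M)) b)) *
            (ab ^ n - ((((a : ZMod (N * p ^ M)).val : ℕ) : E) *
              (((b : ZMod (N * p ^ M)).val : ℕ) : E)) ^ n) := by
        rw [mul_pow]
        ring
      rw [h4]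
      refine DivM_add ?_ ?_
      · rw [norm_mul, norm_mul, norm_mul, hχ, hχ, one_mul, one_mul]
        exact (mul_le_mul (hT2 a b) hab (norm_nonneg _) hr0.le).trans_eq (mul_one r)
      · rw [norm_mul, norm_mul, norm_mul, norm_mul, hT1, hT1, hχ, hχ, one_mul, one_mul, one_mul]
        exact h1
    · intro g a hg
      have h1 := hT3 g a hg
      have h2 : ‖1 - (((a : ZMod (N * p ^ M)).val : ℕ) : E) ^ (n + n')‖ ≤ r := by
        have h3 := DivM_mod (E := E) (DivM_one hp0 hk hnn (hc a))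
        rw [Nat.cast_pow, Nat.cast_one] at h3
        rw [norm_sub_rev]
        exact h3.trans hpr
      have h3 : (χ (ZMod.unitsMap (dvd_mul_right N (p ^ M)) a) : E) ≠ 0 := Units.ne_zero _
      dsimp only
      rw [MonoidHom.inv_apply, Units.val_inv_eq_inv_val]
      have h4 : trc V g - T a * (χ (ZMod.unitsMap (dvd_mul_right N (p ^ M)) a) *
          (((a : ZMod (N * p ^ M)).val : ℕ) : E) ^ n) *
          (1 + (χ (ZMod.unitsMap (dvd_mul_right N (p ^ M)) a) : E)⁻¹ *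
            (((a : ZMod (N * p ^ M)).val : ℕ) : E) ^ n') =
          (trc V g - T a * (1 + χ (ZMod.unitsMap (dvd_mul_right N (p ^ M)) a) *
            (((a : ZMod (N * p ^ M)).val : ℕ) : E) ^ n)) +
          T a * (1 - (((a : ZMod (N * p ^ M)).val : ℕ) : E) ^ (n + n')) := by
        rw [pow_add]
        field_simp
        ring
      rw [h4]
      refine DivM_add h1 ?_
      rw [norm_mul, hT1, one_mul]
      exact h2

end Pool.Agent.EDV
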