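import Pool.Agent.EDV.Lev

/-!
# EDV-Drp (0.6h): lowering the level

`κ` has `Level p M`, `p ∤ M`, all prime factors of `M` divide `N₁`, and `κ(g) ≡ 1` if `g` acts trivially on the roots of
unity of order `gcd(M, N₁)` and `p`. Then `κ` has `Level p N₁`.
Proof: let `g` act trivially on the roots of unity of order `N₁ p ^ k` for all `k`. Then `‖κ g - 1‖ < 1` (`acts_of_dvd`). Let `g` act
on the `M`-th roots of unity as `[a]` (`acts_exists`); `a ≡ 1` modulo `gcd(M, N₁)` (`acts_inj`), so modulo all prime factors of `M`. Hence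
`a ^ M ≡ 1` modulo `M`: for a prime power `ℓ ^ e` dividing `M` exactly, `a ^ (ℓ ^ i) ≡ 1` modulo `ℓ ^ (i + 1)` by induction
(`Int.ModEq` / `dvd_sub_pow_of_dvd_sub`), and `ℓ ^ e ∣ M`, `e ≤ ℓ ^ e`; then `Nat.Coprime` factors
(`Nat.dvd_of_factors...`, or `Nat.eq_of_...`; e.g. `(Nat.dvd_iff_prime_pow_dvd_dvd _ _).2`). So `g ^ M` acts trivially
on the `M`-th roots of unity, and on the `p ^ k`-th ones; so on those of order `M p ^ k` (coprime: an `M p ^ k`-th root of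
unity is a product of one of order `M` and one of order `p ^ k`; or with `acts_exists` for `M p ^ k` and
`Nat.modEq_and_modEq_iff_modEq_mul`). `κ(g) ^ M = κ(g ^ M) = 1` by `hκ.2`. Finally `x ^ M = 1`, `‖x - 1‖ < 1` imply `x = 1`:
`x ^ M - 1 = (x - 1) ∑_{i < M} x ^ i` and the sum is congruent to `M`, which has norm 1
(`Helper60.FM.norm_natCast_eq_one`).
-/

namespace Pool.Agent.EDV

open Pool.Agent.AAP

private theorem drp_num {a M : ℕ} (h : ∀ ℓ : ℕ, ℓ.Prime → ℓ ∣ M → a ≡ 1 [MOD ℓ]) :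
    a ^ M ≡ 1 [MOD M] := by
  have key : M ∣ ((1 : ℤ) - (a : ℤ) ^ M).natAbs := by
    rw [Nat.dvd_iff_prime_pow_dvd_dvd]
    intro ℓ k hℓ hk
    rcases Nat.eq_zero_or_pos k with rfl | hk0
    · rw [pow_zero]
      exact one_dvd _
    have h1 : ℓ ∣ M := (dvd_pow_self ℓ hk0.ne').trans hk
    have h2 : (ℓ : ℤ) ∣ 1 - (a : ℤ) := by
      have h3 := (Nat.modEq_iff_dvd.1 (h ℓ hℓ h1))
      rwa [Nat.cast_one] at h3
    have h3 : (ℓ : ℤ) ^ (k + 1) ∣ (1 : ℤ) ^ (ℓ ^ k) - (a : ℤ) ^ (ℓ ^ k) :=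
      dvd_sub_pow_of_dvd_sub h2 k
    obtain ⟨m, hm⟩ := hk
    have h4 : (1 : ℤ) ^ (ℓ ^ k) - (a : ℤ) ^ (ℓ ^ k) ∣ (1 : ℤ) - (a : ℤ) ^ M := by
      have h5 := sub_dvd_pow_sub_pow ((1 : ℤ) ^ (ℓ ^ k)) ((a : ℤ) ^ (ℓ ^ k)) m
      rw [← pow_mul, ← pow_mul, ← hm] at h5
      rw [one_pow M] at h5
      exact h5
    have h5 : (ℓ : ℤ) ^ k ∣ (1 : ℤ) - (a : ℤ) ^ M :=
      ((pow_dvd_pow _ (Nat.le_succ k)).trans h3).trans h4
    rw [← Int.natCast_dvd_natCast]
    rw [Int.dvd_natAbs, Nat.cast_pow]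
    exact h5
  rw [Nat.modEq_iff_dvd]
  rw [← Int.natCast_dvd_natCast, Int.dvd_natAbs] at key
  rw [Nat.cast_pow, Nat.cast_one]
  exact key

private theorem drp_pow {m a : ℕ} {g : Gam} (hg : Acts m g a) (i : ℕ) :
    Acts m (g ^ i) (a ^ i) := by
  induction i with
  | zero =>
    intro ζ _
    rw [pow_zero, pow_zero, pow_one]
    rfl
  | succ i ih =>
    rw [pow_succ, pow_succ]
    exact acts_mul ih hg

private theorem drp_one {p M : ℕ} [Fact p.Prime] (hpM : ¬ p ∣ M)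
    {E : Type} [NormedField E] [IsUltrametricDist E] [NormedAlgebra ℚ_[p] E]
    (x : E) (h1 : ‖x - 1‖ < 1) (hx : x ^ M = 1) : x = 1 := by
  by_contra hne
  have hx1 : ‖x‖ ≤ 1 := by
    have h2 : x = (x - 1) + 1 := by ring
    rw [h2]
    refine (IsUltrametricDist.norm_add_le_max _ _).trans (max_le h1.le ?_)
    rw [norm_one]
  have h2 : ∑ i ∈ Finset.range M, x ^ i = 0 := by
    have h3 : (∑ i ∈ Finset.range M, x ^ i) * (x - 1) = 0 := by
      rw [geom_sum_mul, hx, sub_self]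
    rcases mul_eq_zero.1 h3 with h4 | h4
    · exact h4
    · exact absurd (sub_eq_zero.1 h4) hne
  have hpow : ∀ i : ℕ, ‖x ^ i - 1‖ < 1 := by
    intro i
    induction i with
    | zero =>
      rw [pow_zero, sub_self, norm_zero]
      exact one_pos
    | succ i ih =>
      have h3 : x ^ (i + 1) - 1 = x ^ i * (x - 1) + (x ^ i - 1) := by ring
      rw [h3]
      refine (IsUltrametricDist.norm_add_le_max _ _).trans_lt (max_lt ?_ ih)
      rw [norm_mul, norm_pow]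
      exact (mul_le_of_le_one_left (norm_nonneg _) (pow_le_one₀ (norm_nonneg _) hx1)).trans_lt h1
  have hsum : ∀ n : ℕ, ‖∑ i ∈ Finset.range n, x ^ i - (n : E)‖ < 1 := by
    intro n
    induction n with
    | zero =>
      rw [Finset.sum_range_zero, Nat.cast_zero, sub_zero, norm_zero]
      exact one_pos
    | succ n ih =>
      have h3 : ∑ i ∈ Finset.range (n + 1), x ^ i - ((n + 1 : ℕ) : E) =
          (∑ i ∈ Finset.range n, x ^ i - (n : E)) + (x ^ n - 1) := by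
        rw [Finset.sum_range_succ, Nat.cast_add, Nat.cast_one]
        ring
      rw [h3]
      exact (IsUltrametricDist.norm_add_le_max _ _).trans_lt (max_lt ih (hpow n))
  have h3 := hsum M
  rw [h2, zero_sub, norm_neg, Pool.Agent.Helper60.FM.norm_natCast_eq_one (p := p) hpM] at h3
  exact lt_irrefl _ h3

theorem level_drop {p M N₁ : ℕ} [Fact p.Prime] [NeZero M] [NeZero N₁] (hpM : ¬ p ∣ M)
    (hM : ∀ ℓ : ℕ, ℓ.Prime → ℓ ∣ M → ℓ ∣ N₁)
    {E : Type} [NormedField E] [IsUltrametricDist E] [CompleteSpace E] [NormedAlgebra ℚ_[p] E]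
    {κ : Gam →* Eˣ} (hκ : Level p M κ)
    (h : ∀ g, Acts (M.gcd N₁) g 1 → Acts p g 1 → Equ (κ g : E) 1) : Level p N₁ κ := by
  have hp : p.Prime := Fact.out
  refine ⟨hκ.1, fun g hg => ?_⟩
  have hN : Acts N₁ g 1 := by
    have h1 := hg 0
    rwa [pow_zero, mul_one] at h1
  have hd : Acts (M.gcd N₁) g 1 := acts_of_dvd (Nat.gcd_dvd_right M N₁) hN
  have hpk : ∀ k, Acts (p ^ k) g 1 := fun k => acts_of_dvd (Dvd.intro_left N₁ rfl) (hg k)
  have hp1 : Acts p g 1 := by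
    have h1 := hpk 1
    rwa [pow_one] at h1
  have h1 : ‖(κ g : E) - 1‖ < 1 := h g hd hp1
  have h2 : ∀ k, Acts (M * p ^ k) (g ^ M) 1 := by
    intro k
    have hne : NeZero (M * p ^ k) := ⟨mul_ne_zero (NeZero.ne M) (pow_ne_zero _ hp.ne_zero)⟩
    obtain ⟨u, hu⟩ := acts_exists (M * p ^ k) g
    obtain ⟨a, ha⟩ : ∃ a : ℕ, a = (u : ZMod (M * p ^ k)).val := ⟨_, rfl⟩
    rw [← ha] at hu
    have hne2 : NeZero (p ^ k) := ⟨pow_ne_zero _ hp.ne_zero⟩
    have hne3 : NeZero (M.gcd N₁) := ⟨(Nat.gcd_pos_of_pos_left _ (NeZero.pos M)).ne'⟩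
    have h3 : a ≡ 1 [MOD p ^ k] :=
      acts_inj (acts_of_dvd (Dvd.intro_left M rfl) hu) (hpk k)
    have h4 : a ≡ 1 [MOD M.gcd N₁] :=
      acts_inj (acts_of_dvd ((Nat.gcd_dvd_left M N₁).trans (Dvd.intro _ rfl)) hu) hd
    have h5 : a ^ M ≡ 1 [MOD M] := drp_num fun ℓ hℓ hℓM =>
      h4.of_dvd (Nat.dvd_gcd hℓM (hM ℓ hℓ hℓM))
    have h6 : a ^ M ≡ 1 [MOD p ^ k] := by
      have h7 := h3.pow M
      rwa [one_pow] at h7
    have hcop : M.Coprime (p ^ k) := Nat.Coprime.pow_right k ((hp.coprime_iff_not_dvd.2 hpM).symm)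
    exact acts_mod (drp_pow hu M) ((Nat.modEq_and_modEq_iff_modEq_mul hcop).1 ⟨h5, h6⟩)
  have h3 : κ (g ^ M) = 1 := hκ.2 _ h2
  have h4 : (κ g : E) ^ M = 1 := by
    rw [map_pow] at h3
    rw [← Units.val_pow_eq_pow_val, h3, Units.val_one]
  exact Units.ext (drp_one hpM _ h1 h4)

end Pool.Agent.EDV
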