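import Pool.Agent.EDV.Par

/-!
# EDV-Fin (0.5h): finitely many limits

`N = N₀ p ^ j` with `p ∤ N₀` (`Nat.exists_eq_pow_mul_and_not_dvd`). `Limit.pow_iff`, `Limit.of_dvd`: the set is
contained in the set for `N₀ p`. `exists_he`; for `κ` of level `N₀ p` the map `s ↦ κ(h s)` is a homomorphism
(`hmul` and `Level`), so the set is the union of the sets of `par_fin` over the finitely many `η`
(`finite_hom`).
-/

open NumberField Filter

namespace Pool.Agent.EDV

open Pool.Agent.AAP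

theorem limit_finite (p N : ℕ) [NeZero N] [Fact p.Prime] (hp : p ≠ 2)
    {E : Type} [NormedField E] [IsUltrametricDist E] [CompleteSpace E] [NormedAlgebra ℚ_[p] E]
    (S : Finset ℕ) : {κ : Gam →* Eˣ | Limit p N S κ}.Finite := by
  have hp1 : p.Prime := Fact.out
  obtain ⟨j, N₀, hN₀, hN⟩ := Nat.exists_eq_pow_mul_and_not_dvd (NeZero.ne N) p hp1.ne_one
  have hN0 : N₀ ≠ 0 := by
    rintro rfl
    exact NeZero.ne N (by rw [hN, mul_zero])
  have : NeZero N₀ := ⟨hN0⟩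
  have : NeZero (N₀ * p) := ⟨mul_ne_zero hN0 hp1.ne_zero⟩
  have hdvd : N ∣ N₀ * p * p ^ j := by
    rw [hN]
    exact ⟨p, by ring⟩
  obtain ⟨h, e, ω, A, hA, hmap, hbij, hmul, hep, hval⟩ := exists_he p N₀ hp hN₀ E
  have hfin : Finite ((ZMod (N₀ * p))ˣ →* Eˣ) := finite_hom (ZMod (N₀ * p))ˣ
  refine (Set.finite_iUnion fun η : (ZMod (N₀ * p))ˣ →* Eˣ =>
    par_fin p N₀ hp hN₀ S h e ω A hA hmap hbij hmul hep hval η).subset ?_
  intro κ hκ
  have h1 : Limit p (N₀ * p) S κ := Limit.pow_iff.1 (Limit.of_dvd hdvd hκ)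
  exact Set.mem_iUnion.2 ⟨MonoidHom.mk' (fun s => κ (h s)) fun s t => par_hom h hmul h1.1 s t,
    h1, fun s => rfl⟩

end Pool.Agent.EDV
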