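import Pool.Agent.EDV.Defs2
import Pool.Agent.EDV.Defs3
import Pool.Agent.EDV.Lev

/-!
# EDV-GeoD: the conductor of `χ` if `χ ε ^ n` has level `S^∞`
-/

open NumberField Filter Matrix

namespace Pool.Agent.EDV

open Pool.Agent.AAP

private theorem geoD_acts {N m : ℕ} [NeZero m] (hd : N ∣ m) {g : Gam} {a : (ZMod m)ˣ}
    (ha : Acts m g (a : ZMod m).val) : Acts N g (ZMod.unitsMap hd a : ZMod N).val := by
  have h1 := acts_of_dvd hd ha
  refine acts_mod h1 ?_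
  rw [val_unitsMap]
  exact (Nat.mod_modEq _ _).symm

private theorem geoD_split (S : Finset ℕ) (N : ℕ) (hN : N ≠ 0) : ∃ A B : ℕ, N = A * B ∧
    (∀ ℓ : ℕ, ℓ.Prime → ℓ ∣ A → ℓ ∈ S) ∧ (∀ ℓ : ℕ, ℓ.Prime → ℓ ∣ B → ℓ ∉ S) := by
  induction N using Nat.recOnMul with
  | zero => exact absurd rfl hN
  | one =>
    exact ⟨1, 1, rfl, fun ℓ hℓ h => absurd (Nat.dvd_one.1 h) hℓ.ne_one,
      fun ℓ hℓ h => absurd (Nat.dvd_one.1 h) hℓ.ne_one⟩
  | prime q hq =>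
    by_cases h : q ∈ S
    · refine ⟨q, 1, (mul_one q).symm, fun ℓ hℓ h1 => ?_,
        fun ℓ hℓ h1 => absurd (Nat.dvd_one.1 h1) hℓ.ne_one⟩
      rw [(Nat.prime_dvd_prime_iff_eq hℓ hq).1 h1]
      exact h
    · refine ⟨1, q, (one_mul q).symm, fun ℓ hℓ h1 => absurd (Nat.dvd_one.1 h1) hℓ.ne_one,
        fun ℓ hℓ h1 => ?_⟩
      rw [(Nat.prime_dvd_prime_iff_eq hℓ hq).1 h1]
      exact h
  | mul a b iha ihb =>
    obtain ⟨A, B, h1, h2, h3⟩ := iha (left_ne_zero_of_mul hN)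
    obtain ⟨A', B', h1', h2', h3'⟩ := ihb (right_ne_zero_of_mul hN)
    refine ⟨A * A', B * B', by rw [h1, h1']; ring, fun ℓ hℓ h => ?_, fun ℓ hℓ h => ?_⟩
    · exact ((Nat.Prime.dvd_mul hℓ).1 h).elim (h2 ℓ hℓ) (h2' ℓ hℓ)
    · exact ((Nat.Prime.dvd_mul hℓ).1 h).elim (h3 ℓ hℓ) (h3' ℓ hℓ)

variable {E : Type} [NormedField E] [IsUltrametricDist E]

/-- `χ` is trivial on the units which are `1` modulo the `S`-part of `N` -/
private theorem geoD_one {p : ℕ} [Fact p.Prime] [NormedAlgebra ℚ_[p] E] {S : Finset ℕ} (hpS : p ∈ S)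
    {κ : Gam →* Eˣ} (hκ : LevelS p S κ) {A B n : ℕ} [NeZero (A * B)]
    (hA : ∀ ℓ : ℕ, ℓ.Prime → ℓ ∣ A → ℓ ∈ S) (hB : ∀ ℓ : ℕ, ℓ.Prime → ℓ ∣ B → ℓ ∉ S)
    (χ : (ZMod (A * B))ˣ →* Eˣ) (hg : Geo p (A * B) n χ κ) (a : (ZMod (A * B))ˣ)
    (ha : (a : ZMod (A * B)).val ≡ 1 [MOD A]) : χ a = 1 := by
  have hpp : p.Prime := Fact.out
  obtain ⟨N₁, hN₁, hN₁S, hlev⟩ := hκ
  have i1 : NeZero N₁ := ⟨hN₁⟩
  have hAB : A * B ≠ 0 := NeZero.ne _
  have key : ∀ r : ℝ, 0 < r → ‖(χ a : E) - 1‖ ≤ r := by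
    intro r hr
    obtain ⟨M₀, hM₀⟩ := hlev.small hr
    have hp1 : ‖(p : E)‖ < 1 := by
      have h1 : (p : E) = algebraMap ℚ_[p] E (p : ℚ_[p]) := (map_natCast _ _).symm
      rw [h1, norm_algebraMap', Padic.norm_p]
      exact inv_lt_one_of_one_lt₀ (by exact_mod_cast hpp.one_lt)
    obtain ⟨M₁, hM₁⟩ := exists_pow_lt_of_lt_one hr hp1
    let M := max M₀ M₁
    have hP : N₁ * p ^ M ≠ 0 := mul_ne_zero hN₁ (pow_ne_zero _ hpp.ne_zero)
    have hco : (A * (N₁ * p ^ M)).Coprime B := by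
      refine Nat.Coprime.symm (Nat.coprime_of_dvd fun ℓ hℓ h1 h2 => hB ℓ hℓ h1 ?_)
      rcases (Nat.Prime.dvd_mul hℓ).1 h2 with h3 | h3
      · exact hA ℓ hℓ h3
      · rcases (Nat.Prime.dvd_mul hℓ).1 h3 with h4 | h4
        · exact hN₁S ℓ hℓ h4
        · rw [(Nat.prime_dvd_prime_iff_eq hℓ hpp).1 (hℓ.dvd_of_dvd_pow h4)]
          exact hpS
    obtain ⟨c, hc1, hc2⟩ := Nat.chineseRemainder hco 1 (a : ZMod (A * B)).val
    have hm0 : A * (N₁ * p ^ M) * B ≠ 0 :=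
      mul_ne_zero (mul_ne_zero (left_ne_zero_of_mul hAB) hP) (right_ne_zero_of_mul hAB)
    have i2 : NeZero (A * (N₁ * p ^ M) * B) := ⟨hm0⟩
    have haB : ((a : ZMod (A * B)).val).Coprime B :=
      (ZMod.val_coe_unit_coprime a).coprime_dvd_right (dvd_mul_left B A)
    have hcc : c.Coprime (A * (N₁ * p ^ M) * B) := by
      refine Nat.Coprime.mul_right ?_ ?_
      · have h1 : c.gcd (A * (N₁ * p ^ M)) = Nat.gcd 1 (A * (N₁ * p ^ M)) := hc1.gcd_eq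
        rw [Nat.Coprime, h1, Nat.gcd_one_left]
      · have h1 : c.gcd B = ((a : ZMod (A * B)).val).gcd B := hc2.gcd_eq
        rw [Nat.Coprime, h1]
        exact haB
    obtain ⟨g, hgu⟩ := exists_acts (A * (N₁ * p ^ M) * B) (ZMod.unitOfCoprime c hcc)
    have hgc : Acts (A * (N₁ * p ^ M) * B) g c := by
      refine acts_mod hgu ?_
      rw [ZMod.coe_unitOfCoprime, ZMod.val_natCast]
      exact Nat.mod_modEq _ _
    have hgA : Acts (A * B) g (a : ZMod (A * B)).val := by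
      have h1 : A * B ∣ A * (N₁ * p ^ M) * B := mul_dvd_mul_right (dvd_mul_right _ _) B
      refine acts_mod (acts_of_dvd h1 hgc) ?_
      have hcoAB : A.Coprime B := hco.coprime_dvd_left (dvd_mul_right _ _)
      refine (Nat.modEq_and_modEq_iff_modEq_mul hcoAB).1 ⟨?_, hc2⟩
      exact (hc1.of_dvd (dvd_mul_right _ _)).trans ha.symm
    have hg1 : Acts (N₁ * p ^ M) g 1 := by
      have h1 : N₁ * p ^ M ∣ A * (N₁ * p ^ M) * B := (dvd_mul_left _ A).mul_right B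
      exact acts_mod (acts_of_dvd h1 hgc) (hc1.of_dvd (dvd_mul_left _ _))
    have hg2 : Acts (p ^ M) g 1 := acts_of_dvd (dvd_mul_left _ _) hg1
    have h1 := hg g a M 1 hgA hg2
    rw [Nat.cast_one, one_pow, mul_one] at h1
    have h2 := hM₀ M (le_max_left _ _) g hg1
    have h3 : ‖(p : E)‖ ^ M ≤ r :=
      (pow_le_pow_of_le_one (norm_nonneg _) hp1.le (le_max_right _ _)).trans hM₁.le
    have h4 : (χ a : E) - 1 = ((κ g : E) - 1) - ((κ g : E) - χ a) := by ring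
    rw [h4, sub_eq_add_neg]
    refine (IsUltrametricDist.norm_add_le_max _ _).trans (max_le h2 ?_)
    rw [norm_neg]
    exact h1.trans h3
  have h1 : ‖(χ a : E) - 1‖ ≤ 0 := le_of_forall_pos_le_add fun r hr => by
    rw [zero_add]
    exact key r hr
  exact Units.ext (sub_eq_zero.1 (norm_le_zero_iff.1 h1))

theorem geo_level {p : ℕ} [Fact p.Prime] [NormedAlgebra ℚ_[p] E] {S : Finset ℕ} (hpS : p ∈ S)
    {κ : Gam →* Eˣ} (hκ : LevelS p S κ) {N n : ℕ} [NeZero N] (χ : (ZMod N)ˣ →* Eˣ)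
    (hg : Geo p N n χ κ) : ∃ (A : ℕ) (_ : NeZero A) (χ' : (ZMod A)ˣ →* Eˣ),
      (∀ ℓ : ℕ, ℓ.Prime → ℓ ∣ A → ℓ ∈ S) ∧ Geo p A n χ' κ ∧
      ∀ ℓ x, DVal p N 0 χ ℓ x → DVal p A 0 χ' ℓ x := by
  obtain ⟨A, B, hAB, hA, hB⟩ := geoD_split S N (NeZero.ne N)
  subst hAB
  have i1 : NeZero A := ⟨left_ne_zero_of_mul (NeZero.ne (A * B))⟩
  have hd : A ∣ A * B := dvd_mul_right A B
  have hsurj := ZMod.unitsMap_surjective hd
  have hker : (ZMod.unitsMap hd).ker ≤ χ.ker := by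
    intro a ha
    refine geoD_one hpS hκ hA hB χ hg a ?_
    have h1 : ZMod.unitsMap hd a = 1 := ha
    have h2 := congrArg (fun u : (ZMod A)ˣ => (u : ZMod A)) h1
    have h3 : ((ZMod.unitsMap hd a : (ZMod A)ˣ) : ZMod A) = (((a : ZMod (A * B)).val : ℕ) : ZMod A) := by
      rw [ZMod.unitsMap_val, ZMod.cast_eq_val]
    refine (ZMod.natCast_eq_natCast_iff _ _ _).1 ?_
    rw [← h3, Nat.cast_one]
    exact h2
  let χ' : (ZMod A)ˣ →* Eˣ := (ZMod.unitsMap hd).liftOfSurjective hsurj ⟨χ, hker⟩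
  have hχ' : ∀ a, χ' (ZMod.unitsMap hd a) = χ a := fun a =>
    MonoidHom.liftOfRightInverse_comp_apply _ _ _ ⟨χ, hker⟩ a
  refine ⟨A, i1, χ', hA, ?_, ?_⟩
  · intro g a k b ha hb
    obtain ⟨u, hu⟩ := acts_exists (A * B) g
    have h1 : ZMod.unitsMap hd u = a := by
      have h4 := acts_inj (geoD_acts hd hu) ha
      have h5 := (ZMod.natCast_eq_natCast_iff _ _ _).2 h4
      rw [ZMod.natCast_zmod_val, ZMod.natCast_zmod_val] at h5
      exact Units.ext h5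
    rw [← h1, hχ']
    exact hg g u k b hu hb
  · rintro ℓ x ⟨g, a, y, h1, h2, h3, h4⟩
    refine ⟨g, ZMod.unitsMap hd a, y, h1, geoD_acts hd h2, h3, ?_⟩
    rw [hχ']
    exact h4

end Pool.Agent.EDV
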