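import Mathlib

/-!
# EDV-HzA (1.2h): the Fourier series of the sawtooth function

`∑_{n ≥ 1} sin(2 π n x) / n = π (1 / 2 - x)` for `0 < x < 1`, as a limit of partial sums.
Proof: `z = exp(2 π i x) ≠ 1`. The partial sums of `z ^ n` are bounded (`geom_sum`), so the partial sums of
`z ^ n / n` converge by Dirichlet's test (`Monotone.cauchySeq_series_mul_of_tendsto_zero_of_bounded` or
`Antitone.cauchySeq_series_mul_of_tendsto_zero_of_bounded`). By Abel's limit theorem
(`Complex.tendsto_tsum_powerSeries_nhdsWithin_lt`, file `Mathlib/Analysis/Complex/AbelLimit.lean`) the limit is the limit of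
`∑ z ^ n r ^ n / n = - log(1 - r z)` (`Complex.hasSum_taylorSeries_neg_log`, norm `r < 1`) for `r → 1`, `r < 1`, which is
`- log(1 - z)` (`1 - z` is in the slit plane: its real part `1 - cos(2 π x)` is positive). The imaginary part is
`- arg(1 - z)`, and `1 - z = 2 sin(π x) exp(i (π x - π / 2))`, so `arg(1 - z) = π x - π / 2` (`Complex.arg_mul_cos_add_sin_mul_I` or
`Complex.arg_real_mul`, `Complex.arg_exp_mul_I`; the angle is in `(-π / 2, π / 2)` and `sin(π x) > 0`).
-/

open Filter Topology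

namespace Pool.Agent.EDV

/-- Abel summation of the logarithmic series on the unit circle. -/
private theorem hzA_log {z : ℂ} (hz : ‖z‖ = 1) (hz1 : z ≠ 1) (hs : 1 - z ∈ Complex.slitPlane) :
    Tendsto (fun M : ℕ => ∑ n ∈ Finset.range M, z ^ (n + 1) / ((n : ℂ) + 1)) atTop
      (𝓝 (- Complex.log (1 - z))) := by
  have hb : ∀ M : ℕ, ‖∑ n ∈ Finset.range M, z ^ (n + 1)‖ ≤ 2 / ‖z - 1‖ := by
    intro M
    have h1 : ∑ n ∈ Finset.range M, z ^ (n + 1) = z * ((z ^ M - 1) / (z - 1)) := by
      rw [← geom_sum_eq hz1, Finset.mul_sum]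
      exact Finset.sum_congr rfl fun n _ => pow_succ' z n
    rw [h1, norm_mul, hz, one_mul, norm_div]
    gcongr
    calc ‖z ^ M - 1‖ ≤ ‖z ^ M‖ + ‖(1 : ℂ)‖ := norm_sub_le _ _
      _ = 2 := by rw [norm_pow, hz, one_pow, norm_one]; norm_num
  have hanti : Antitone (fun n : ℕ => (1 : ℝ) / ((n : ℝ) + 1)) := by
    intro a b hab
    have : (a : ℝ) ≤ b := by exact_mod_cast hab
    apply one_div_le_one_div_of_le
    · positivity
    · linarith
  have hc := hanti.cauchySeq_series_mul_of_tendsto_zero_of_bounded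
    tendsto_one_div_add_atTop_nhds_zero_nat hb
  obtain ⟨l, hl⟩ := cauchySeq_tendsto_of_complete hc
  have hl' : Tendsto (fun M : ℕ => ∑ n ∈ Finset.range M, z ^ (n + 1) / ((n : ℂ) + 1)) atTop
      (𝓝 l) := by
    refine hl.congr fun M => Finset.sum_congr rfl fun n _ => ?_
    rw [Complex.real_smul]
    push_cast
    ring
  have hA := Complex.tendsto_tsum_powerSeries_nhdsWithin_lt hl'
  rw [tendsto_map'_iff] at hA
  have hB : Tendsto (fun r : ℝ => - Complex.log (1 - r * z) / r) (𝓝[<] (1 : ℝ))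
      (𝓝 (- Complex.log (1 - (1 : ℝ) * z) / (1 : ℝ))) := by
    have h2 : ContinuousAt (fun r : ℝ => - Complex.log (1 - r * z) / r) 1 := by
      have h3 : ContinuousAt (fun r : ℝ => (1 : ℂ) - r * z) 1 := by fun_prop
      have h4 : ContinuousAt (fun r : ℝ => Complex.log (1 - r * z)) 1 :=
        h3.clog (by simpa using hs)
      exact h4.neg.div Complex.continuous_ofReal.continuousAt (by simp)
    exact h2.tendsto.mono_left nhdsWithin_le_nhds
  have hC : Tendsto (fun r : ℝ => - Complex.log (1 - r * z) / r) (𝓝[<] (1 : ℝ)) (𝓝 l) := by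
    refine hA.congr' ?_
    have h5 : ∀ᶠ r : ℝ in 𝓝[<] (1 : ℝ), r ∈ Set.Ioo (0 : ℝ) 1 :=
      Ioo_mem_nhdsLT one_pos
    filter_upwards [h5] with r hr
    have hr0 : (r : ℂ) ≠ 0 := by exact_mod_cast hr.1.ne'
    have hn : ‖(r : ℂ) * z‖ < 1 := by
      rw [norm_mul, hz, mul_one, Complex.norm_real, Real.norm_eq_abs, abs_of_pos hr.1]
      exact hr.2
    have h6 := (Complex.hasSum_taylorSeries_neg_log' hn).div_const (r : ℂ)
    rw [Function.comp_apply, ← h6.tsum_eq]
    refine tsum_congr fun n => ?_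
    rw [mul_pow, pow_succ (r : ℂ) n]
    field_simp
  have h7 := tendsto_nhds_unique hC hB
  rw [Complex.ofReal_one, one_mul, div_one] at h7
  rw [← h7]
  exact hl'

theorem tendsto_sin_sum {x : ℝ} (h0 : 0 < x) (h1 : x < 1) :
    Tendsto (fun M : ℕ => ∑ n ∈ Finset.range M, Real.sin (2 * Real.pi * (n + 1) * x) / (n + 1))
      atTop (𝓝 (Real.pi * (1 / 2 - x))) := by
  have hpi := Real.pi_pos
  have hs0 : 0 < Real.sin (Real.pi * x) := by
    apply Real.sin_pos_of_pos_of_lt_pi
    · positivity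
    · nlinarith
  obtain ⟨z, hz⟩ : ∃ z : ℂ, z = Complex.exp (((2 * Real.pi * x : ℝ) : ℂ) * Complex.I) := ⟨_, rfl⟩
  have hn : ‖z‖ = 1 := by rw [hz]; exact Complex.norm_exp_ofReal_mul_I _
  have hf : 1 - z = ((2 * Real.sin (Real.pi * x) : ℝ) : ℂ) *
      (((Real.cos (Real.pi * x - Real.pi / 2) : ℝ) : ℂ) +
        ((Real.sin (Real.pi * x - Real.pi / 2) : ℝ) : ℂ) * Complex.I) := by
    have e1 : 2 * Real.pi * x = 2 * (Real.pi * x) := by ring
    have e2 : Real.sin (Real.pi * x - Real.pi / 2) = - Real.cos (Real.pi * x) :=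
      Real.sin_sub_pi_div_two _
    have e3 : Real.cos (Real.pi * x - Real.pi / 2) = Real.sin (Real.pi * x) :=
      Real.cos_sub_pi_div_two _
    have e4 : Real.cos (2 * (Real.pi * x)) = 1 - 2 * Real.sin (Real.pi * x) ^ 2 := by
      rw [Real.cos_two_mul, Real.sin_sq]; ring
    rw [hz, Complex.exp_mul_I, ← Complex.ofReal_cos, ← Complex.ofReal_sin, e1, e2, e3, e4,
      Real.sin_two_mul]
    push_cast
    ring
  have hre : 0 < (1 - z).re := by
    rw [hf, Real.cos_sub_pi_div_two, Complex.re_ofReal_mul]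
    have : (((Real.sin (Real.pi * x) : ℝ) : ℂ) +
        ((Real.sin (Real.pi * x - Real.pi / 2) : ℝ) : ℂ) * Complex.I).re =
        Real.sin (Real.pi * x) := by
      rw [Complex.add_re, Complex.ofReal_re, Complex.re_ofReal_mul, Complex.I_re, mul_zero,
        add_zero]
    rw [this]
    positivity
  have hsl : 1 - z ∈ Complex.slitPlane := Or.inl hre
  have hz1 : z ≠ 1 := by
    intro h
    rw [h, sub_self, Complex.zero_re] at hre
    exact lt_irrefl _ hre
  have harg : Complex.arg (1 - z) = Real.pi * x - Real.pi / 2 := by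
    rw [hf, Complex.ofReal_cos, Complex.ofReal_sin]
    apply Complex.arg_mul_cos_add_sin_mul_I
    · positivity
    · constructor
      · nlinarith
      · nlinarith
  have h2 := hzA_log hn hz1 hsl
  have h3 := (Complex.continuous_im.tendsto _).comp h2
  have h4 : (- Complex.log (1 - z)).im = Real.pi * (1 / 2 - x) := by
    rw [Complex.neg_im, Complex.log_im, harg]
    ring
  rw [h4] at h3
  refine h3.congr fun M => ?_
  rw [Function.comp_apply, Complex.im_sum]
  refine Finset.sum_congr rfl fun n _ => ?_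
  have h5 : z ^ (n + 1) = Complex.exp (((2 * Real.pi * (n + 1) * x : ℝ) : ℂ) * Complex.I) := by
    rw [hz, ← Complex.exp_nat_mul]
    congr 1
    push_cast
    ring
  have h6 : ((n : ℂ) + 1) = (((n : ℝ) + 1 : ℝ) : ℂ) := by push_cast; rfl
  rw [h5, h6, Complex.div_ofReal_im, Complex.exp_ofReal_mul_I_im]

end Pool.Agent.EDV
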