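import Mathlib

/-!
# EDV-HzB (1.2h): the value of `sinZeta` at 1

`0 < x < 1`, the partial sums of `sin(2 π n x) / n` tend to `L`. Then `sinZeta x 1 = L`: summation by parts
(the partial sums of `sin(2 π n x)` are bounded) and dominated convergence for `s → 1`, `s > 1`.
-/

open Filter Topology

namespace Pool.Agent.EDV

private theorem hzb_A {x : ℝ} (M : ℕ) : 2 * Real.sin (Real.pi * x) *
    ∑ n ∈ Finset.range M, Real.sin (2 * Real.pi * (n + 1) * x) =
      Real.cos (Real.pi * x) - Real.cos ((2 * M + 1) * (Real.pi * x)) := by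
  induction M with
  | zero => simp
  | succ M ih =>
    rw [Finset.sum_range_succ, mul_add, ih]
    have h1 : Real.cos ((2 * M + 1) * (Real.pi * x)) - Real.cos ((2 * (M + 1 : ℕ) + 1) * (Real.pi * x)) =
        2 * Real.sin (Real.pi * x) * Real.sin (2 * Real.pi * (M + 1) * x) := by
      have e1 : (2 * (M : ℝ) + 1) * (Real.pi * x) = 2 * Real.pi * (M + 1) * x - Real.pi * x := by ring
      have e2 : (2 * ((M + 1 : ℕ) : ℝ) + 1) * (Real.pi * x) = 2 * Real.pi * (M + 1) * x + Real.pi * x := by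
        push_cast
        ring
      rw [e1, e2, Real.cos_sub, Real.cos_add]
      ring
    linarith

private theorem hzb_bd {x : ℝ} (h0 : 0 < x) (h1 : x < 1) : ∃ C : ℝ, 0 ≤ C ∧ ∀ M : ℕ,
    |∑ n ∈ Finset.range M, Real.sin (2 * Real.pi * (n + 1) * x)| ≤ C := by
  have hs : 0 < Real.sin (Real.pi * x) := by
    refine Real.sin_pos_of_pos_of_lt_pi (by positivity) ?_
    calc Real.pi * x < Real.pi * 1 := mul_lt_mul_of_pos_left h1 Real.pi_pos
      _ = Real.pi := mul_one _
  refine ⟨(Real.sin (Real.pi * x))⁻¹, (inv_pos.2 hs).le, fun M => ?_⟩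
  have h2 := hzb_A (x := x) M
  have h3 : |Real.cos (Real.pi * x) - Real.cos ((2 * M + 1) * (Real.pi * x))| ≤ 2 := by
    rw [abs_le]
    constructor
    · linarith [Real.neg_one_le_cos (Real.pi * x), Real.cos_le_one ((2 * M + 1) * (Real.pi * x))]
    · linarith [Real.cos_le_one (Real.pi * x), Real.neg_one_le_cos ((2 * M + 1) * (Real.pi * x))]
  rw [← h2, abs_mul, abs_of_pos (by positivity)] at h3
  rw [← one_div, le_div_iff₀ hs]
  linarith

private theorem hzb_parts (a : ℕ → ℝ) (w : ℕ → ℝ) (M : ℕ) : ∑ n ∈ Finset.range M, a n * w n =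
    (∑ n ∈ Finset.range M, a n) * w M +
      ∑ n ∈ Finset.range M, (∑ m ∈ Finset.range (n + 1), a m) * (w n - w (n + 1)) := by
  induction M with
  | zero => simp
  | succ M ih =>
    rw [Finset.sum_range_succ, ih, Finset.sum_range_succ _ M, Finset.sum_range_succ (fun n =>
      (∑ m ∈ Finset.range (n + 1), a m) * (w n - w (n + 1))), Finset.sum_range_succ (fun n => a n)]
    ring

/-- the weights -/
private noncomputable def hzbW (s : ℝ) (n : ℕ) : ℝ := ((n : ℝ) + 1) ^ (-s)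

private theorem hzb_w {s : ℝ} (h1 : 1 ≤ s) (h2 : s ≤ 2) (n : ℕ) :
    |hzbW s n - hzbW s (n + 1)| ≤ 2 / (((n : ℝ) + 1) * ((n : ℝ) + 2)) := by
  have ht : (0 : ℝ) < n + 1 := by positivity
  have hu : (0 : ℝ) < n + 2 := by positivity
  have ht1 : (1 : ℝ) ≤ n + 1 := by
    have := Nat.cast_nonneg (α := ℝ) n
    linarith
  have e0 : (((n + 1 : ℕ) : ℝ) + 1) = (n : ℝ) + 2 := by push_cast; ring
  have e1 : hzbW s (n + 1) = hzbW s n * (((n : ℝ) + 1) / (n + 2)) ^ s := by
    rw [hzbW, hzbW, e0, Real.div_rpow ht.le hu.le, Real.rpow_neg hu.le, Real.rpow_neg ht.le]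
    have := (Real.rpow_pos_of_pos ht s).ne'
    field_simp
  have hq0 : 0 < ((n : ℝ) + 1) / (n + 2) := by positivity
  have hq1 : ((n : ℝ) + 1) / (n + 2) ≤ 1 := by
    rw [div_le_one hu]
    linarith
  have e2 : (((n : ℝ) + 1) / (n + 2)) ^ (2 : ℕ) ≤ (((n : ℝ) + 1) / (n + 2)) ^ s := by
    rw [← Real.rpow_natCast]
    exact Real.rpow_le_rpow_of_exponent_ge hq0 hq1 (by exact_mod_cast h2)
  have e3 : (((n : ℝ) + 1) / (n + 2)) ^ s ≤ 1 := Real.rpow_le_one hq0.le hq1 (by linarith)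
  have e4 : 0 < hzbW s n := Real.rpow_pos_of_pos ht _
  have e5 : hzbW s n ≤ ((n : ℝ) + 1)⁻¹ := by
    rw [← Real.rpow_neg_one]
    exact Real.rpow_le_rpow_of_exponent_le ht1 (by linarith)
  have e6 : hzbW s n - hzbW s (n + 1) = hzbW s n * (1 - (((n : ℝ) + 1) / (n + 2)) ^ s) := by
    rw [e1]
    ring
  have e7 : 1 - (((n : ℝ) + 1) / (n + 2)) ^ s ≤ 2 / ((n : ℝ) + 2) := by
    have h3 : 1 - (((n : ℝ) + 1) / (n + 2)) ^ (2 : ℕ) ≤ 2 / ((n : ℝ) + 2) := by
      rw [div_pow, sub_le_iff_le_add, ← sub_le_iff_le_add', le_div_iff₀ (by positivity)]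
      have h4 : (1 - 2 / ((n : ℝ) + 2)) * (n + 2) ^ 2 = (n + 2) ^ 2 - 2 * (n + 2) := by
        field_simp
      rw [h4]
      nlinarith
    linarith
  rw [e6, abs_of_nonneg (mul_nonneg e4.le (by linarith))]
  calc hzbW s n * (1 - (((n : ℝ) + 1) / (n + 2)) ^ s) ≤ ((n : ℝ) + 1)⁻¹ * (2 / ((n : ℝ) + 2)) :=
        mul_le_mul e5 e7 (by linarith) (by positivity)
    _ = 2 / (((n : ℝ) + 1) * ((n : ℝ) + 2)) := by
        rw [inv_mul_eq_div, div_div, mul_comm ((n : ℝ) + 2)]

private theorem hzb_sum (C : ℝ) : Summable fun n : ℕ => C * (2 / (((n : ℝ) + 1) * ((n : ℝ) + 2))) := by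
  refine Summable.mul_left C ?_
  have h1 : Summable fun n : ℕ => 2 * (1 / ((n : ℝ) + 1) ^ 2) := by
    refine Summable.mul_left 2 ?_
    have h2 := (summable_nat_add_iff 1).2 (Real.summable_one_div_nat_pow.2 (by norm_num : 1 < 2))
    refine h2.congr fun n => ?_
    push_cast
    rfl
  refine Summable.of_nonneg_of_le (fun n => by positivity) (fun n => ?_) h1
  rw [mul_one_div]
  refine div_le_div_of_nonneg_left (by norm_num) (by positivity) ?_
  rw [sq]
  refine mul_le_mul_of_nonneg_left (by linarith) (by positivity)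

/-- the partial sums of the series -/
private theorem hzb_series {x : ℝ} (h0 : 0 < x) (h1 : x < 1) {s : ℝ} (hs1 : 1 ≤ s) (hs2 : s ≤ 2) :
    Tendsto (fun M : ℕ => ∑ n ∈ Finset.range M, Real.sin (2 * Real.pi * (n + 1) * x) * hzbW s n) atTop
      (𝓝 (∑' n : ℕ, (∑ m ∈ Finset.range (n + 1), Real.sin (2 * Real.pi * (m + 1) * x)) *
        (hzbW s n - hzbW s (n + 1)))) := by
  obtain ⟨C, hC, hb⟩ := hzb_bd h0 h1
  have hsum : Summable fun n : ℕ => (∑ m ∈ Finset.range (n + 1), Real.sin (2 * Real.pi * (m + 1) * x)) *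
      (hzbW s n - hzbW s (n + 1)) := by
    refine Summable.of_norm_bounded (hzb_sum C) fun n => ?_
    rw [norm_mul, Real.norm_eq_abs, Real.norm_eq_abs]
    exact mul_le_mul (hb _) (hzb_w hs1 hs2 n) (abs_nonneg _) hC
  have h2 := hsum.hasSum.tendsto_sum_nat
  have h3 : Tendsto (fun M : ℕ => (∑ n ∈ Finset.range M, Real.sin (2 * Real.pi * (n + 1) * x)) * hzbW s M)
      atTop (𝓝 0) := by
    have h4 : Tendsto (fun M : ℕ => C * ((M : ℝ) + 1)⁻¹) atTop (𝓝 0) := by
      have h5 : Tendsto (fun M : ℕ => ((M : ℝ) + 1)⁻¹) atTop (𝓝 0) := by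
        have := tendsto_one_div_add_atTop_nhds_zero_nat (𝕜 := ℝ)
        simpa using this
      simpa using h5.const_mul C
    refine squeeze_zero_norm (fun M => ?_) h4
    rw [norm_mul, Real.norm_eq_abs, Real.norm_eq_abs]
    refine mul_le_mul (hb _) ?_ (abs_nonneg _) hC
    have ht : (0 : ℝ) < M + 1 := by positivity
    have ht1 : (1 : ℝ) ≤ M + 1 := by
      have := Nat.cast_nonneg (α := ℝ) M
      linarith
    rw [hzbW, abs_of_pos (Real.rpow_pos_of_pos ht _), ← Real.rpow_neg_one]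
    exact Real.rpow_le_rpow_of_exponent_le ht1 (by linarith)
  have h4 := h3.add h2
  rw [zero_add] at h4
  refine h4.congr fun M => ?_
  exact (hzb_parts (fun n => Real.sin (2 * Real.pi * (n + 1) * x)) (hzbW s) M).symm

theorem sinZeta_one {x : ℝ} (h0 : 0 < x) (h1 : x < 1) {L : ℝ}
    (h : Tendsto (fun M : ℕ => ∑ n ∈ Finset.range M,
      Real.sin (2 * Real.pi * (n + 1) * x) / (n + 1)) atTop (𝓝 L)) :
    HurwitzZeta.sinZeta (x : UnitAddCircle) 1 = (L : ℂ) := by
  obtain ⟨C, hC, hb⟩ := hzb_bd h0 h1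
  set G : ℝ → ℝ := fun s => ∑' n : ℕ, (∑ m ∈ Finset.range (n + 1), Real.sin (2 * Real.pi * (m + 1) * x)) *
    (hzbW s n - hzbW s (n + 1)) with hG
  -- the value at one
  have hG1 : G 1 = L := by
    refine tendsto_nhds_unique (hzb_series h0 h1 le_rfl one_le_two) (h.congr fun M => ?_)
    refine Finset.sum_congr rfl fun n _ => ?_
    rw [hzbW, Real.rpow_neg_one, div_eq_mul_inv]
  -- continuity from the right
  have hGc : Tendsto G (𝓝[>] 1) (𝓝 (G 1)) := by
    refine tendsto_tsum_of_dominated_convergence (hzb_sum C) (fun n => ?_) ?_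
    · have c1 : ∀ m : ℕ, Continuous fun s : ℝ => hzbW s m := by
        intro m
        have hm : (m : ℝ) + 1 ≠ 0 := by positivity
        exact (Real.continuous_const_rpow hm).comp continuous_neg
      have c2 : Continuous fun s : ℝ => (∑ m ∈ Finset.range (n + 1), Real.sin (2 * Real.pi * (m + 1) * x)) *
          (hzbW s n - hzbW s (n + 1)) := continuous_const.mul ((c1 n).sub (c1 (n + 1)))
      exact (c2.tendsto 1).mono_left nhdsWithin_le_nhds
    · have h2 : Set.Ioc (1 : ℝ) 2 ∈ 𝓝[>] (1 : ℝ) := Ioc_mem_nhdsGT one_lt_two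
      filter_upwards [h2] with s hs n
      rw [norm_mul, Real.norm_eq_abs, Real.norm_eq_abs]
      exact mul_le_mul (hb _) (hzb_w hs.1.le hs.2 n) (abs_nonneg _) hC
  -- the values for `1 < s`
  have hGs : ∀ s : ℝ, 1 < s → s ≤ 2 → HurwitzZeta.sinZeta (x : UnitAddCircle) (s : ℂ) = (G s : ℂ) := by
    intro s hs hs2
    have h2 := HurwitzZeta.hasSum_nat_sinZeta x (s := (s : ℂ)) (by simpa using hs)
    have h3 := (hasSum_nat_add_iff' 1).2 h2
    have h4 := h3.tendsto_sum_nat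
    have h5 := (Complex.continuous_ofReal.tendsto _).comp (hzb_series h0 h1 hs.le hs2)
    refine tendsto_nhds_unique ?_ h5
    have e0 : HurwitzZeta.sinZeta (x : UnitAddCircle) (s : ℂ) - ∑ i ∈ Finset.range 1,
        (Real.sin (2 * Real.pi * x * (i : ℕ)) : ℂ) / ((i : ℕ) : ℂ) ^ (s : ℂ) =
        HurwitzZeta.sinZeta (x : UnitAddCircle) (s : ℂ) := by
      simp
    rw [e0] at h4
    refine h4.congr fun M => ?_
    rw [Function.comp_apply, Complex.ofReal_sum]
    refine Finset.sum_congr rfl fun n _ => ?_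
    have ht : (0 : ℝ) ≤ (n : ℝ) + 1 := by positivity
    rw [Complex.ofReal_mul, hzbW, Complex.ofReal_cpow ht, div_eq_mul_inv]
    congr 1
    · congr 2
      push_cast
      ring
    · rw [Complex.ofReal_neg, Complex.cpow_neg]
      push_cast
      rfl
  have h6 : Tendsto (fun s : ℝ => HurwitzZeta.sinZeta (x : UnitAddCircle) (s : ℂ)) (𝓝[>] 1)
      (𝓝 (HurwitzZeta.sinZeta (x : UnitAddCircle) 1)) := by
    have c1 : Continuous fun s : ℝ => HurwitzZeta.sinZeta (x : UnitAddCircle) (s : ℂ) :=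
      (HurwitzZeta.differentiableAt_sinZeta _).continuous.comp Complex.continuous_ofReal
    have c2 := (c1.tendsto 1).mono_left (nhdsWithin_le_nhds (s := Set.Ioi (1 : ℝ)))
    rw [Complex.ofReal_one] at c2
    exact c2
  have h7 : Tendsto (fun s : ℝ => (G s : ℂ)) (𝓝[>] 1) (𝓝 ((G 1 : ℝ) : ℂ)) :=
    (Complex.continuous_ofReal.tendsto _).comp hGc
  rw [← hG1]
  refine tendsto_nhds_unique h6 (h7.congr' ?_)
  filter_upwards [Ioc_mem_nhdsGT (one_lt_two (α := ℝ))] with s hs
  exact (hGs s hs.1 hs.2).symm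

end Pool.Agent.EDV
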