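import Pool.Agent.EDV.HzA
import Pool.Agent.EDV.HzB

/-!
# EDV-HzC: the value of the Hurwitz zeta function at 0

`ζ(0, x) = 1 / 2 - x` for `0 < x < 1`: the even part of `HurwitzZeta.hurwitzZeta` at 0 vanishes as
`(x : UnitAddCircle) ≠ 0`, and the odd part at `0 = 1 - 1` is `sinZeta x 1 / π` by the functional equation.
-/

open Filter Topology

namespace Pool.Agent.EDV

theorem hurwitz_zero {x : ℝ} (h0 : 0 < x) (h1 : x < 1) :
    HurwitzZeta.hurwitzZeta (x : UnitAddCircle) 0 = 1 / 2 - (x : ℂ) := by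
  have hs := sinZeta_one h0 h1 (tendsto_sin_sum h0 h1)
  have hne : (x : UnitAddCircle) ≠ 0 := by
    intro h
    rw [AddCircle.coe_eq_zero_iff] at h
    obtain ⟨n, hn⟩ := h
    rw [zsmul_eq_mul, mul_one] at hn
    have a1 : (0 : ℝ) < n := by rw [hn]; exact h0
    have a2 : (n : ℝ) < 1 := by rw [hn]; exact h1
    have b1 : (0 : ℤ) < n := by exact_mod_cast a1
    have b2 : n < 1 := by exact_mod_cast a2
    omega
  have hodd : HurwitzZeta.hurwitzZetaOdd (x : UnitAddCircle) 0 = 1 / 2 - (x : ℂ) := by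
    have h := HurwitzZeta.hurwitzZetaOdd_one_sub (x : UnitAddCircle) (s := 1) (by
      intro n hn
      have h2 := congrArg Complex.re hn
      simp only [Complex.one_re, Complex.neg_re, Complex.natCast_re] at h2
      have h3 : (0 : ℝ) ≤ n := n.cast_nonneg
      linarith)
    rw [sub_self] at h
    have hpi : (Real.pi : ℂ) ≠ 0 := by exact_mod_cast Real.pi_ne_zero
    rw [h, hs, Complex.Gamma_one, mul_one (Real.pi : ℂ), Complex.sin_pi_div_two, Complex.cpow_neg_one]
    push_cast
    field_simp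
  rw [HurwitzZeta.hurwitzZeta, HurwitzZeta.hurwitzZetaEven_apply_zero, if_neg hne, zero_add, hodd]

end Pool.Agent.EDV
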