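import Pool.Agent.EDV.CycC2
import Pool.Agent.EDV.Lev
import Pool.Agent.EDV.Defs

/-!
# Properties of limits of even irreducible representations

`Limit.inv`, `Limit.of_dvd`, `Limit.pow_iff`: inverse, level. `Limit.cc`: the value at a complex
conjugation. `limit_tendsto`: a limit of even irreducible representations is a zero of the limit of
the Stickelberger sums.
-/

open NumberField Filter Matrix

namespace Pool.Agent.EDV

open Pool.Agent.AAP

section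

variable {E : Type} [NormedField E]

theorem Limit.inv {p N : ℕ} {S : Finset ℕ} {κ : Gam →* Eˣ} (h : Limit p N S κ) :
    Limit p N S κ⁻¹ := by
  obtain ⟨h1, hg, h3⟩ := h
  refine ⟨h1.inv, ?_, ?_⟩
  · intro h4
    apply hg
    ext g
    have h5 : (κ⁻¹ : Gam →* Eˣ) g = 1 := by rw [h4, MonoidHom.one_apply]
    rw [MonoidHom.inv_apply, inv_eq_one] at h5
    rw [h5, MonoidHom.one_apply]
  intro r hr
  obtain ⟨V, τ, hV, he, hl, hτ, ht, htr⟩ := h3 r hr
  refine ⟨V, τ * κ, hV, he, hl, hτ.mul h1, ht, fun g => ?_⟩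
  have h5 : (((τ * κ) g : Eˣ) : E) * (1 + ((κ⁻¹ g : Eˣ) : E)) = τ g * (1 + κ g) := by
    rw [MonoidHom.mul_apply, MonoidHom.inv_apply, Units.val_mul, mul_add, mul_one, mul_assoc,
      Units.mul_inv]
    ring
  rw [h5]
  exact htr g

theorem Limit.of_dvd {p N N' : ℕ} (hd : N ∣ N') {S : Finset ℕ} {κ : Gam →* Eˣ}
    (h : Limit p N S κ) : Limit p N' S κ := by
  obtain ⟨h1, h2, h3⟩ := h
  refine ⟨h1.of_dvd hd, h2, fun r hr => ?_⟩
  obtain ⟨V, τ, hV, he, hl, hτ, ht, htr⟩ := h3 r hr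
  exact ⟨V, τ, hV, he, hl, hτ.of_dvd hd, ht, htr⟩

theorem Limit.pow_iff {p N j : ℕ} {S : Finset ℕ} {κ : Gam →* Eˣ} :
    Limit p (N * p ^ j) S κ ↔ Limit p N S κ := by
  refine ⟨fun h => ?_, fun h => h.of_dvd (Dvd.intro _ rfl)⟩
  obtain ⟨h1, h2, h3⟩ := h
  refine ⟨Level.pow_iff.1 h1, h2, fun r hr => ?_⟩
  obtain ⟨V, τ, hV, he, hl, hτ, ht, htr⟩ := h3 r hr
  exact ⟨V, τ, hV, he, hl, Level.pow_iff.1 hτ, ht, htr⟩

end

variable {E : Type} [NormedField E] [IsUltrametricDist E] [CompleteSpace E]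

private theorem limV_cc_mul_self {c : Gam} (hc : CC c) : c * c = 1 := by
  obtain ⟨ι, hι⟩ := hc
  have h1 : ∀ x : Qbar, c.ap (c.ap x) = x := by
    intro x
    apply ι.injective
    rw [hι, hι, Complex.conj_conj]
  exact AlgEquiv.ext h1

omit [IsUltrametricDist E] [CompleteSpace E] in
private theorem limV_mat_mul (A B : GL2 E) : (A * B).mat = A.mat * B.mat := rfl

omit [IsUltrametricDist E] [CompleteSpace E] in
private theorem limV_mat_one : (1 : GL2 E).mat = 1 := rfl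

omit [IsUltrametricDist E] [CompleteSpace E] in
/-- an even involution is a scalar -/
private theorem limV_scalar (h2 : (2 : E) ≠ 0) (A : Matrix (Fin 2) (Fin 2) E) (hA : A * A = 1)
    (hd : det A = 1) : ∃ s : E, A = s • (1 : Matrix (Fin 2) (Fin 2) E) ∧ s * s = 1 := by
  have h00 := congrFun (congrFun hA 0) 0
  have h01 := congrFun (congrFun hA 0) 1
  have h10 := congrFun (congrFun hA 1) 0
  have h11 := congrFun (congrFun hA 1) 1
  rw [Matrix.mul_apply, Fin.sum_univ_two] at h00 h01 h10 h11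
  rw [Matrix.one_apply_eq] at h00 h11
  rw [Matrix.one_apply_ne (by decide)] at h01 h10
  rw [Matrix.det_fin_two] at hd
  set a := A 0 0
  set b := A 0 1
  set c := A 1 0
  set d := A 1 1
  have ht : (a + d) * (a + d) = 2 * 2 := by linear_combination h00 + h11 + 2 * hd
  have ht0 : a + d ≠ 0 := by
    intro h
    rw [h, zero_mul] at ht
    exact mul_ne_zero h2 h2 ht.symm
  have hb : b = 0 := by
    have : (a + d) * b = 0 := by linear_combination h01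
    exact (mul_eq_zero.1 this).resolve_left ht0
  have hc : c = 0 := by
    have : (a + d) * c = 0 := by linear_combination h10
    exact (mul_eq_zero.1 this).resolve_left ht0
  have hda : d = a := by
    have h3 : (a + d) * (a - d) = 0 := by linear_combination h00 - h11
    exact (sub_eq_zero.1 ((mul_eq_zero.1 h3).resolve_left ht0)).symm
  refine ⟨a, ?_, ?_⟩
  · ext i j
    fin_cases i <;> fin_cases j
    · simp [a]
    · simpa [b] using hb
    · simpa [c] using hc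
    · simpa [a, d] using hda
  · rw [hb, zero_mul, add_zero] at h00
    exact h00

omit [CompleteSpace E] in
private theorem limV_norm_two {p : ℕ} [Fact p.Prime] (hp : p ≠ 2) [NormedAlgebra ℚ_[p] E] :
    ‖(2 : E)‖ = 1 := by
  have hp2 : 2 < p := lt_of_le_of_ne (Fact.out : p.Prime).two_le hp.symm
  have h1 := Helper60.FM.norm_natCast_eq_one (p := p) (E := E) (n := 2)
    (fun h => by have := Nat.le_of_dvd (by norm_num) h; omega)
  exact_mod_cast h1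

omit [CompleteSpace E] in
private theorem limV_sub_max (x y : E) : ‖x - y‖ ≤ max ‖x‖ ‖y‖ := by
  have h1 := IsUltrametricDist.norm_add_le_max x (-y)
  rwa [← sub_eq_add_neg, norm_neg] at h1

omit [CompleteSpace E] in
private theorem limV_sub_le {x y z : E} {r : ℝ} (h1 : ‖x - y‖ ≤ r) (h2 : ‖x - z‖ ≤ r) :
    ‖y - z‖ ≤ r := by
  have h3 : y - z = (x - z) - (x - y) := by ring
  rw [h3]
  exact (limV_sub_max _ _).trans (max_le h2 h1)

omit [IsUltrametricDist E] [CompleteSpace E] in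
/-- a character which is not trivial has a value `x ≠ 1` -/
private theorem limV_pos {κ : Gam →* Eˣ} (h : κ ≠ 1) : ∃ g, 0 < ‖(κ g : E) - 1‖ := by
  by_contra hcon
  push Not at hcon
  apply h
  ext g
  have h1 : (κ g : E) - 1 = 0 := norm_le_zero_iff.1 (hcon g)
  simpa using sub_eq_zero.1 h1

omit [CompleteSpace E] in
private theorem limV_le_one {x : Eˣ} (hx : ‖(x : E)‖ = 1) : ‖(x : E) - 1‖ ≤ 1 :=
  (limV_sub_max _ _).trans (max_le hx.le (by rw [norm_one]))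

theorem Limit.cc {p N : ℕ} [NeZero N] [Fact p.Prime] (hp : p ≠ 2) [NormedAlgebra ℚ_[p] E]
    {S : Finset ℕ} {κ : Gam →* Eˣ} (h : Limit p N S κ) {c : Gam} (hc : CC c) : κ c = 1 := by
  obtain ⟨hκ, hκ1, h3⟩ := h
  obtain ⟨g₀, hg₀⟩ := limV_pos hκ1
  have h2 : ‖(2 : E)‖ = 1 := limV_norm_two hp
  have h20 : (2 : E) ≠ 0 := by
    intro h
    rw [h, norm_zero] at h2
    exact zero_ne_one h2
  have hg₁ : ‖(κ g₀ : E) - 1‖ ≤ 1 := limV_le_one (hκ.norm_one g₀)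
  have key : ∀ r : ℝ, 0 < r → ‖(κ c : E) - 1‖ ≤ r / ‖(κ g₀ : E) - 1‖ := by
    intro r hr
    have hr' : r ≤ r / ‖(κ g₀ : E) - 1‖ := le_div_self hr.le hg₀ hg₁
    obtain ⟨V, τ, hV, he, hl, hτ, ht, htr⟩ := h3 r hr
    have hA : (V c).mat * (V c).mat = 1 := by
      rw [← limV_mat_mul, ← map_mul, limV_cc_mul_self hc, map_one, limV_mat_one]
    obtain ⟨s, hs, hss⟩ := limV_scalar h20 (V c).mat hA (he c hc)
    have hs1 : ‖s‖ = 1 := by
      have h4 : ‖s‖ * ‖s‖ = 1 := by rw [← norm_mul, hss, norm_one]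
      nlinarith [norm_nonneg s]
    have e1 : ∀ g, trc V (c * g) = s * trc V g := by
      intro g
      rw [trc, trc, map_mul, limV_mat_mul, hs, Matrix.smul_mul, Matrix.one_mul,
        Matrix.trace_smul, smul_eq_mul]
    have e2 : ∀ g, ‖s * (1 + (κ g : E)) - τ c * (1 + κ c * κ g)‖ ≤ r := by
      intro g
      have h5 : ‖s * trc V g - s * (τ g * (1 + κ g))‖ ≤ r := by
        rw [← mul_sub, norm_mul, hs1, one_mul]
        exact htr g
      have h6 : ‖s * trc V g - τ c * τ g * (1 + κ c * κ g)‖ ≤ r := by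
        have := htr (c * g)
        rw [e1, map_mul, map_mul, Units.val_mul, Units.val_mul] at this
        exact this
      have h7 := limV_sub_le h5 h6
      have h8 : s * (τ g * (1 + (κ g : E))) - τ c * τ g * (1 + κ c * κ g) =
          τ g * (s * (1 + (κ g : E)) - τ c * (1 + κ c * κ g)) := by ring
      rw [h8, norm_mul, hτ.norm_one, one_mul] at h7
      exact h7
    have e3 : ‖s * (1 + 1) - τ c * (1 + (κ c : E))‖ ≤ r := by
      have := e2 1
      rw [map_one, Units.val_one, mul_one] at this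
      exact this
    have e4 : ‖s - τ c * (κ c : E)‖ ≤ r / ‖(κ g₀ : E) - 1‖ := by
      have h5 : (s * (1 + (κ g₀ : E)) - τ c * (1 + κ c * κ g₀)) -
          (s * (1 + 1) - τ c * (1 + (κ c : E))) = (s - τ c * (κ c : E)) * (κ g₀ - 1) := by ring
      have h6 : ‖(s - τ c * (κ c : E)) * (κ g₀ - 1)‖ ≤ r := by
        rw [← h5]
        exact (limV_sub_max _ _).trans (max_le (e2 g₀) e3)
      rw [norm_mul] at h6
      rw [le_div_iff₀ hg₀]
      exact h6
    have e5 : ‖s - (τ c : E)‖ ≤ r / ‖(κ g₀ : E) - 1‖ := by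
      have h5 : s - (τ c : E) = (s * (1 + 1) - τ c * (1 + (κ c : E))) -
          (s - τ c * (κ c : E)) := by ring
      rw [h5]
      exact (limV_sub_max _ _).trans (max_le (e3.trans hr') e4)
    have e6 := limV_sub_le e5 e4
    have h9 : (τ c : E) - τ c * κ c = -(τ c * (κ c - 1)) := by ring
    rw [h9, norm_neg, norm_mul, hτ.norm_one, one_mul] at e6
    exact e6
  have h4 : ‖(κ c : E) - 1‖ ≤ 0 := le_of_forall_pos_le_add fun r hr => by
    rw [zero_add]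
    have h5 := key (r * ‖(κ g₀ : E) - 1‖) (mul_pos hr hg₀)
    rwa [mul_div_assoc, div_self hg₀.ne', mul_one] at h5
  have h5 : (κ c : E) - 1 = 0 := norm_le_zero_iff.1 h4
  exact Units.ext (by rw [Units.val_one]; exact sub_eq_zero.1 h5)

omit [IsUltrametricDist E] [CompleteSpace E] in
private theorem limV_key {m : ℕ} [NeZero m] {ψ : Gam →* Eˣ} {r : ℝ}
    (hn : ∀ g, ‖(ψ g : E)‖ = 1) (hs : ∀ g, Acts m g 1 → ‖(ψ g : E) - 1‖ ≤ r) {g h : Gam}
    {a : (ZMod m)ˣ} (hg : Acts m g (a : ZMod m).val) (hh : Acts m h (a : ZMod m).val) :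
    ‖(ψ g : E) - ψ h‖ ≤ r := by
  have h1 : (a : ZMod m).val * ((a⁻¹ : (ZMod m)ˣ) : ZMod m).val ≡ 1 [MOD m] := by
    rw [← ZMod.natCast_eq_natCast_iff]
    push_cast
    rw [ZMod.natCast_zmod_val, ZMod.natCast_zmod_val, Units.mul_inv]
  have h2 : Acts m (g * h⁻¹) 1 := acts_mod (acts_mul hg (acts_inv hh h1)) h1
  have h3 := hs _ h2
  rw [map_mul, map_inv] at h3
  have h4 : (ψ g : E) - ψ h = (((ψ g * (ψ h)⁻¹ : Eˣ) : E) - 1) * ψ h := by
    rw [sub_mul, one_mul, ← Units.val_mul, inv_mul_cancel_right]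
  rw [h4, norm_mul, hn, mul_one]
  exact h3

private theorem limV_acts_mul {m : ℕ} [NeZero m] {g h : Gam} {a b : (ZMod m)ˣ}
    (hg : Acts m g (a : ZMod m).val) (hh : Acts m h (b : ZMod m).val) :
    Acts m (g * h) ((a * b : (ZMod m)ˣ) : ZMod m).val := by
  refine acts_mod (acts_mul hg hh) ?_
  rw [← ZMod.natCast_eq_natCast_iff]
  push_cast
  rw [ZMod.natCast_zmod_val, ZMod.natCast_zmod_val, ZMod.natCast_zmod_val]

/-- the estimate at a large level -/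
private theorem limV_est (p N c M : ℕ) [NeZero N] [Fact p.Prime] (hp : p ≠ 2) (hpN : p ∣ N)
    (hc1 : 1 < c) (hcN : c.Coprime N) [NormedAlgebra ℚ_[p] E] (S : Finset ℕ) (κ : Gam →* Eˣ)
    (hκ : Level p N κ) (g₀ : Gam) {r : ℝ} (hr1 : r < ‖(κ g₀ : E) - 1‖)
    (V : Gam →* GL2 E) (τ : Gam →* Eˣ) (hV : Continuous V) (he : Even2 V) (hl : ¬ Line V)
    (hτ : Level p N τ) (ht : ∀ ℓ : ℕ, ℓ.Prime → ℓ ∉ S → TameAt p ℓ V)
    (htr : ∀ g, ‖trc V g - τ g * (1 + κ g)‖ ≤ r)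
    (hM1 : 1 ≤ M) (hcM : c < N * p ^ M) (hpM : ‖(p : E)‖ ^ M ≤ r)
    (hκs : ∀ g, Acts (N * p ^ M) g 1 → ‖(κ g : E) - 1‖ ≤ r)
    (hτs : ∀ g, Acts (N * p ^ M) g 1 → ‖(τ g : E) - 1‖ ≤ r)
    (hks : ∀ g, Acts (N * p ^ M) g 1 → ‖((τ * κ) g : E) - 1‖ ≤ r)
    (G : (ZMod (N * p ^ M))ˣ → Gam)
    (hG : ∀ a, Acts (N * p ^ M) (G a) (a : ZMod (N * p ^ M)).val)
    (u : ℕ → (ZMod (N * p ^ M))ˣ)
    (hu : ∀ ℓ ∈ S, ℓ.Prime → DecL ℓ (N * p ^ M) (u ℓ)) :
    ‖(κ g₀ : E) - 1‖ ^ 2 * ‖(∏ ℓ ∈ S.filter Nat.Prime, ((κ (G (u ℓ)) : E) -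
          (((u ℓ : ZMod (N * p ^ M)).val : ℕ) : E))) *
        ∑ a : (ZMod (N * p ^ M))ˣ, ((fl c (N * p ^ M) a : ℕ) : E) *
          ((κ (G a) : E) *
            ((((a⁻¹ : (ZMod (N * p ^ M))ˣ) : ZMod (N * p ^ M)).val : ℕ) : E))‖ ≤ r := by
  have hpp : p.Prime := Fact.out
  have : NeZero (N * p ^ M) := ⟨mul_ne_zero (NeZero.ne N) (pow_ne_zero _ hpp.ne_zero)⟩
  have hcm : c.Coprime (N * p ^ M) :=
    Nat.Coprime.mul_right hcN (Nat.Coprime.pow_right _ (hcN.coprime_dvd_right hpN))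
  have hk : Level p N (τ * κ) := hτ.mul hκ
  have nτ := hτ.norm_one
  have nκ := hκ.norm_one
  have nk := hk.norm_one
  have hmul : ∀ (ψ : Gam →* Eˣ), (∀ g, ‖(ψ g : E)‖ = 1) →
      (∀ g, Acts (N * p ^ M) g 1 → ‖(ψ g : E) - 1‖ ≤ r) → ∀ a b,
      ‖(ψ (G (a * b)) : E) - ψ (G a) * ψ (G b)‖ ≤ r := by
    intro ψ h1 h2 a b
    have h3 := limV_key h1 h2 (hG (a * b)) (limV_acts_mul (hG a) (hG b))
    rw [map_mul, Units.val_mul] at h3
    exact h3
  have hne : ∃ a, ‖(κ g₀ : E) - 1‖ ≤ ‖((τ * κ) (G a) : E) - τ (G a)‖ := by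
    obtain ⟨a, ha⟩ := acts_exists (N * p ^ M) g₀
    refine ⟨a, ?_⟩
    have h2 : ‖(κ g₀ : E) - κ (G a)‖ ≤ r := limV_key nκ hκs ha (hG a)
    have h3 : ‖(κ g₀ : E) - 1‖ ≤ ‖(κ (G a) : E) - 1‖ := by
      by_contra h4
      rw [not_le] at h4
      have h5 : (κ g₀ : E) - 1 = (κ g₀ - κ (G a)) + (κ (G a) - 1) := by ring
      have h6 : ‖(κ g₀ : E) - 1‖ < ‖(κ g₀ : E) - 1‖ := by
        conv_lhs => rw [h5]
        exact (IsUltrametricDist.norm_add_le_max _ _).trans_lt (max_lt (h2.trans_lt hr1) h4)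
      exact lt_irrefl _ h6
    have h4 : ((τ * κ) (G a) : E) - τ (G a) = τ (G a) * (κ (G a) - 1) := by
      rw [MonoidHom.mul_apply, Units.val_mul]
      ring
    rw [h4, norm_mul, nτ, one_mul]
    exact h3
  obtain ⟨a₁, ha₁⟩ := hne
  have htr' : ∀ (g : Gam) (a : (ZMod (N * p ^ M))ˣ), Acts (N * p ^ M) g (a : ZMod (N * p ^ M)).val →
      ‖trc V g - ((τ * κ) (G a) : E) - τ (G a)‖ ≤ r := by
    intro g a ha
    have h1 := limV_key nk hks ha (hG a)
    have h2 := limV_key nτ hτs ha (hG a)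
    have h3 : trc V g - ((τ * κ) (G a) : E) - τ (G a) = (trc V g - τ g * (1 + κ g)) +
        ((((τ * κ) g : E) - (τ * κ) (G a)) + ((τ g : E) - τ (G a))) := by
      rw [MonoidHom.mul_apply τ κ g, Units.val_mul]
      ring
    rw [h3]
    exact (IsUltrametricDist.norm_add_le_max _ _).trans (max_le (htr g)
      ((IsUltrametricDist.norm_add_le_max _ _).trans (max_le h1 h2)))
  obtain ⟨T, hT, hmain⟩ := cycCore2 (N * p ^ M) p M c hp hM1 (Dvd.intro_left _ rfl) hc1 hcM hcm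
    hpM (fun a => ((τ * κ) (G a) : E)) (fun a => (τ (G a) : E)) (fun a => nk _)
    (fun a => nτ _) (hmul (τ * κ) nk hks) (hmul τ nτ hτs) a₁ V hV he hl htr' (S : Set ℕ)
    (fun ℓ h1 h2 => ht ℓ h1 (fun h => h2 (Finset.mem_coe.2 h))) u
    (fun ℓ h1 h2 => hu ℓ (Finset.mem_coe.1 h1) h2)
  have hTS : T ⊆ S.filter Nat.Prime := by
    intro ℓ hℓ
    exact Finset.mem_filter.2 ⟨Finset.mem_coe.1 (hT ℓ hℓ).1, (hT ℓ hℓ).2⟩
  have e1 : ∀ a : (ZMod (N * p ^ M))ˣ, ((τ * κ) (G a) : E) * (τ (G a) : E)⁻¹ = κ (G a) := by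
    intro a
    rw [MonoidHom.mul_apply, Units.val_mul, mul_comm (τ (G a) : E), mul_assoc,
      mul_inv_cancel₀ (Units.ne_zero _), mul_one]
  have e2 : ∀ ℓ, ‖((τ * κ) (G (u ℓ)) : E) -
      ((((u ℓ : (ZMod (N * p ^ M))ˣ) : ZMod (N * p ^ M)).val : ℕ) : E) * τ (G (u ℓ))‖ =
      ‖(κ (G (u ℓ)) : E) - (((u ℓ : ZMod (N * p ^ M)).val : ℕ) : E)‖ := by
    intro ℓ
    have h1 : ((τ * κ) (G (u ℓ)) : E) -
      ((((u ℓ : (ZMod (N * p ^ M))ˣ) : ZMod (N * p ^ M)).val : ℕ) : E) * τ (G (u ℓ)) =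
      τ (G (u ℓ)) * ((κ (G (u ℓ)) : E) - (((u ℓ : ZMod (N * p ^ M)).val : ℕ) : E)) := by
      rw [MonoidHom.mul_apply, Units.val_mul]
      ring
    rw [h1, norm_mul, nτ, one_mul]
  have e3 : ∀ ℓ, ‖(κ (G (u ℓ)) : E) - (((u ℓ : ZMod (N * p ^ M)).val : ℕ) : E)‖ ≤ 1 := by
    intro ℓ
    refine (limV_sub_max _ _).trans (max_le (nκ _).le ?_)
    exact IsUltrametricDist.norm_natCast_le_one E _
  simp only [e1] at hmain
  rw [Finset.prod_congr rfl fun ℓ _ => e2 ℓ] at hmain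
  rw [norm_mul, norm_prod]
  refine le_trans (mul_le_mul (pow_le_pow_left₀ (norm_nonneg _) ha₁ 2)
    (mul_le_mul_of_nonneg_right ?_ (norm_nonneg _)) (by positivity) (by positivity)) hmain
  rw [← Finset.prod_sdiff hTS]
  refine mul_le_of_le_one_left (Finset.prod_nonneg fun _ _ => norm_nonneg _) ?_
  exact Finset.prod_le_one (fun _ _ => norm_nonneg _) fun ℓ _ => e3 ℓ

theorem limit_tendsto (p N c : ℕ) [NeZero N] [Fact p.Prime] (hp : p ≠ 2) (hpN : p ∣ N)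
    (hc1 : 1 < c) (hcN : c.Coprime N) [NormedAlgebra ℚ_[p] E] (S : Finset ℕ) (κ : Gam →* Eˣ)
    (h : Limit p N S κ) (G : (M : ℕ) → (ZMod (N * p ^ M))ˣ → Gam)
    (hG : ∀ M a, Acts (N * p ^ M) (G M a) (a : ZMod (N * p ^ M)).val)
    (u : (M : ℕ) → ℕ → (ZMod (N * p ^ M))ˣ)
    (hu : ∀ M, ∀ ℓ ∈ S, ℓ.Prime → DecL ℓ (N * p ^ M) (u M ℓ)) :
    Tendsto (fun M : ℕ =>
        (∏ ℓ ∈ S.filter Nat.Prime, ((κ (G M (u M ℓ)) : E) -
          (((u M ℓ : ZMod (N * p ^ M)).val : ℕ) : E))) *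
        ∑ a : (ZMod (N * p ^ M))ˣ, ((fl c (N * p ^ M) a : ℕ) : E) *
          ((κ (G M a) : E) *
            ((((a⁻¹ : (ZMod (N * p ^ M))ˣ) : ZMod (N * p ^ M)).val : ℕ) : E))) atTop (nhds 0) := by
  have hpp : p.Prime := Fact.out
  obtain ⟨hκ, hκ1, h3⟩ := h
  obtain ⟨g₀, hg₀⟩ := limV_pos hκ1
  rw [Metric.tendsto_atTop]
  intro ε hε
  set w : ℝ := ‖(κ g₀ : E) - 1‖ with hw
  have hw1 : w ≤ 1 := limV_le_one (hκ.norm_one g₀)
  set r : ℝ := min (ε * w ^ 2) w / 2 with hr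
  have hεw : 0 < ε * w ^ 2 := by positivity
  have hm0 : 0 < min (ε * w ^ 2) w := lt_min hεw hg₀
  have hr0 : 0 < r := by rw [hr]; linarith
  have hrw : r < w := by
    have := min_le_right (ε * w ^ 2) w
    rw [hr]; linarith
  have hr1 : r < 1 := hrw.trans_le hw1
  have hrε : r < ε * w ^ 2 := by
    have := min_le_left (ε * w ^ 2) w
    rw [hr]; linarith
  obtain ⟨V, τ, hV, he, hl, hτ, ht, htr⟩ := h3 r hr0
  obtain ⟨M₁, h₁⟩ := hκ.small hr0
  obtain ⟨M₂, h₂⟩ := hτ.small hr0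
  obtain ⟨M₃, h₃⟩ := (hτ.mul hκ).small hr0
  have hpn : ‖(p : E)‖ < 1 := by
    have h4 : (p : E) = algebraMap ℚ_[p] E (p : ℚ_[p]) := (map_natCast _ _).symm
    rw [h4, norm_algebraMap']
    exact Padic.norm_p_lt_one
  obtain ⟨M₄, h₄⟩ := exists_pow_lt_of_lt_one hr0 hpn
  refine ⟨M₁ + M₂ + M₃ + M₄ + c + 1, fun M hM => ?_⟩
  rw [dist_zero_right]
  have hest := limV_est p N c M hp hpN hc1 hcN S κ hκ g₀ hrw V τ hV he hl hτ ht htr (by omega) ?_ ?_
    (h₁ M (by omega)) (h₂ M (by omega)) (h₃ M (by omega)) (G M) (hG M) (u M) (hu M)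
  · by_contra hcon
    rw [not_lt] at hcon
    have h5 : ε * w ^ 2 ≤ r := le_trans (by
      rw [mul_comm]
      exact mul_le_mul_of_nonneg_left hcon (by positivity)) hest
    exact absurd hrε (not_lt.2 h5)
  · calc c < M := by omega
      _ < p ^ M := Nat.lt_pow_self hpp.one_lt
      _ ≤ N * p ^ M := Nat.le_mul_of_pos_left _ (Nat.pos_of_ne_zero (NeZero.ne N))
  · exact (pow_le_pow_of_le_one (norm_nonneg _) hpn.le (by omega : M₄ ≤ M)).trans h₄.le

end Pool.Agent.EDV
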