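import Pool.Agent.EDV.ClsO
import Pool.Agent.EDV.LimV
import Pool.Agent.EDV.Iso

/-!
# EDV-IsoO (0.6h): no limit is `χ ε` with `χ` nontrivial on the decomposition groups

The case `n = 1` of `iso_main` in `EDV/Iso.lean` (copy its private lemmas `iso_mul`, `iso_prod`, `iso_sub_le`, `iso_dvd`, `iso_n1`,
`iso_acts`, `iso_par` and the proof of `iso_main` under new private names), with `classical_one` instead of `classical`; the parity
`χ(-1) = (-1) ^ 1` comes from `iso_par` with `n = 1`.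
-/

open NumberField Filter

namespace Pool.Agent.EDV

open Pool.Agent.AAP

/-- a product of elements of norm `≤ 1`, changed by at most `δ` -/
private theorem isoO_mul {E : Type*} [NormedField E] [IsUltrametricDist E] {δ : ℝ} {x y x' y' : E}
    (hx : ‖x‖ ≤ 1) (hy' : ‖y'‖ ≤ 1) (h1 : ‖x - y‖ ≤ δ) (h2 : ‖x' - y'‖ ≤ δ) :
    ‖x * x' - y * y'‖ ≤ δ := by
  have hδ : 0 ≤ δ := (norm_nonneg _).trans h1
  have e1 : x * x' - y * y' = x * (x' - y') + (x - y) * y' := by ring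
  rw [e1]
  refine (IsUltrametricDist.norm_add_le_max _ _).trans (max_le ?_ ?_)
  · rw [norm_mul]
    calc ‖x‖ * ‖x' - y'‖ ≤ 1 * δ := mul_le_mul hx h2 (norm_nonneg _) zero_le_one
      _ = δ := one_mul δ
  · rw [norm_mul]
    calc ‖x - y‖ * ‖y'‖ ≤ δ * 1 := mul_le_mul h1 hy' (norm_nonneg _) hδ
      _ = δ := mul_one δ

private theorem isoO_prod {E ι : Type*} [NormedField E] [IsUltrametricDist E] {δ : ℝ} (hδ : 0 ≤ δ)
    (s : Finset ι) (f g : ι → E) (hf : ∀ i ∈ s, ‖f i‖ ≤ 1) (hg : ∀ i ∈ s, ‖g i‖ ≤ 1)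
    (h : ∀ i ∈ s, ‖f i - g i‖ ≤ δ) : ‖∏ i ∈ s, f i - ∏ i ∈ s, g i‖ ≤ δ := by
  classical
  induction s using Finset.induction_on with
  | empty => simpa using hδ
  | insert a s ha ih =>
    rw [Finset.prod_insert ha, Finset.prod_insert ha]
    refine isoO_mul (hf a (Finset.mem_insert_self a s)) ?_ (h a (Finset.mem_insert_self a s))
      (ih (fun i hi => hf i (Finset.mem_insert_of_mem hi))
        (fun i hi => hg i (Finset.mem_insert_of_mem hi))
        (fun i hi => h i (Finset.mem_insert_of_mem hi)))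
    rw [norm_prod]
    exact Finset.prod_le_one (fun i _ => norm_nonneg _)
      (fun i hi => hg i (Finset.mem_insert_of_mem hi))

private theorem isoO_sub_le {E : Type*} [NormedField E] [IsUltrametricDist E] {x y : E} {δ : ℝ}
    (hx : ‖x‖ ≤ δ) (hy : ‖y‖ ≤ δ) : ‖x - y‖ ≤ δ := by
  rw [sub_eq_add_neg]
  exact (IsUltrametricDist.norm_add_le_max _ _).trans (max_le hx (by rwa [norm_neg]))

private theorem isoO_dvd {E : Type} [NormedField E] [IsUltrametricDist E] (p M : ℕ) (k : ℤ)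
    (h : ((p ^ M : ℕ) : ℤ) ∣ k) : ‖(k : E)‖ ≤ ‖(p : E)‖ ^ M := by
  obtain ⟨t, rfl⟩ := h
  push_cast
  rw [norm_mul, norm_pow]
  exact mul_le_of_le_one_right (by positivity) (IsUltrametricDist.norm_intCast_le_one E t)

private theorem isoO_n1 {E : Type*} [NormedField E] {G : Type*} [Group G] [Finite G] (η : G →* Eˣ)
    (g : G) : ‖(η g : E)‖ = 1 := by
  have h1 : (‖(η g : E)‖) ^ Nat.card G = 1 := by
    rw [← norm_pow, ← Units.val_pow_eq_pow_val, ← map_pow, pow_card_eq_one', map_one, Units.val_one,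
      norm_one]
  exact (pow_eq_one_iff_of_nonneg (norm_nonneg _) Nat.card_pos.ne').1 h1

private theorem isoO_acts {N m : ℕ} [NeZero m] (hd : N ∣ m) {g : Gam} {a : (ZMod m)ˣ}
    (ha : Acts m g (a : ZMod m).val) : Acts N g (ZMod.unitsMap hd a : ZMod N).val := by
  have h1 := acts_of_dvd hd ha
  refine acts_mod h1 ?_
  rw [val_unitsMap]
  exact (Nat.mod_modEq _ _).symm

/-- the parity -/
private theorem isoO_par {p N n : ℕ} [NeZero N] [Fact p.Prime] (hp : p ≠ 2)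
    {E : Type} [NormedField E] [IsUltrametricDist E] [CompleteSpace E] [NormedAlgebra ℚ_[p] E]
    {S : Finset ℕ} {κ : Gam →* Eˣ} (h : Limit p N S κ) {χ : (ZMod N)ˣ →* Eˣ}
    (hG : Geo p N n χ κ) : (χ (-1) : E) = (-1) ^ n := by
  have hpp : p.Prime := Fact.out
  obtain ⟨c, hc⟩ := exists_cc
  have h1 : κ c = 1 := h.cc hp hc
  have ha : Acts N c (((-1 : (ZMod N)ˣ) : ZMod N)).val := by
    refine acts_cc hc N _ ?_
    rw [← ZMod.natCast_eq_natCast_iff]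
    push_cast
    rw [ZMod.natCast_zmod_val]
    simp
  have hp1 : ‖(p : E)‖ < 1 := by
    have h4 : (p : E) = algebraMap ℚ_[p] E (p : ℚ_[p]) := (map_natCast _ _).symm
    rw [h4, norm_algebraMap']
    exact Padic.norm_p_lt_one
  have key : ∀ k : ℕ, ‖(1 : E) - (χ (-1) : E) * (-1) ^ n‖ ≤ ‖(p : E)‖ ^ k := by
    intro k
    have hpk : 1 ≤ p ^ k := Nat.one_le_pow _ _ hpp.pos
    have hb : Acts (p ^ k) c (p ^ k - 1) := by
      refine acts_cc hc (p ^ k) _ ?_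
      rw [Nat.sub_add_cancel hpk]
      exact (Nat.modEq_zero_iff_dvd.2 dvd_rfl)
    have h2 := hG c (-1) k (p ^ k - 1) ha hb
    rw [h1, Units.val_one] at h2
    have h3 : ((p ^ k : ℕ) : ℤ) ∣ (((p ^ k - 1 : ℕ) : ℤ)) ^ n - (-1) ^ n := by
      refine dvd_trans ?_ (sub_dvd_pow_sub_pow _ _ n)
      rw [Nat.cast_sub hpk]
      simp
    have h4 := isoO_dvd (E := E) p k _ h3
    have h5 : (1 : E) - (χ (-1) : E) * (-1) ^ n =
        (1 - (χ (-1) : E) * (((p ^ k - 1 : ℕ) : E)) ^ n) +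
          (χ (-1) : E) * (((((p ^ k - 1 : ℕ) : ℤ)) ^ n - (-1) ^ n : ℤ) : E) := by
      rw [Int.cast_sub, Int.cast_pow, Int.cast_pow, Int.cast_natCast, Int.cast_neg, Int.cast_one]
      ring
    rw [h5]
    refine (IsUltrametricDist.norm_add_le_max _ _).trans (max_le h2 ?_)
    rw [norm_mul, isoO_n1 χ, one_mul]
    exact h4
  have h6 : ‖(1 : E) - (χ (-1) : E) * (-1) ^ n‖ ≤ 0 :=
    ge_of_tendsto' (tendsto_pow_atTop_nhds_zero_of_lt_one (norm_nonneg _) hp1) key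
  have h7 : (1 : E) - (χ (-1) : E) * (-1) ^ n = 0 := norm_le_zero_iff.1 h6
  have h8 : ((-1 : E) ^ n) * (-1) ^ n = 1 := by
    rw [← mul_pow]
    simp
  calc (χ (-1) : E) = (χ (-1) : E) * (((-1 : E) ^ n) * (-1) ^ n) := by rw [h8, mul_one]
    _ = ((χ (-1) : E) * (-1) ^ n) * (-1) ^ n := by ring
    _ = 1 * (-1) ^ n := by rw [← sub_eq_zero.1 h7]
    _ = (-1) ^ n := one_mul _

theorem not_geo_one (p N : ℕ) [NeZero N] [Fact p.Prime] (hp : p ≠ 2) (hpN : p ∣ N)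
    {E : Type} [NormedField E] [IsUltrametricDist E] [CompleteSpace E] [NormedAlgebra ℚ_[p] E]
    (S : Finset ℕ) (κ : Gam →* Eˣ) (h : Limit p N S κ) (χ : (ZMod N)ˣ →* Eˣ)
    (hN : ∀ ℓ : ℕ, ℓ.Prime → ℓ ∣ N → ∃ u : (ZMod N)ˣ, DecL ℓ N u ∧ χ u ≠ 1)
    (hD : ∀ ℓ ∈ S, ℓ.Prime → ∃ u : (ZMod N)ˣ, DecL ℓ N u ∧ χ u ≠ 1) :
    ¬ Geo p N 1 χ κ := by
  intro hG
  classical
  have hpp : p.Prime := Fact.out
  have hN0 : 0 < N := Nat.pos_of_ne_zero (NeZero.ne N)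
  have hcN : (N + 1).Coprime N := by
    rw [Nat.coprime_self_add_left]
    exact Nat.coprime_one_left _
  have hχ : (χ (-1) : E) = -1 := by
    rw [isoO_par hp h hG, pow_one]
  obtain ⟨u, hu, hnt⟩ := classical_one N p (N + 1) hpN (by omega) hcN χ hχ
    (S.filter Nat.Prime) (fun ℓ hℓ => (Finset.mem_filter.1 hℓ).2) hN
    (fun ℓ hℓ => hD ℓ (Finset.mem_filter.1 hℓ).1 (Finset.mem_filter.1 hℓ).2)
  have hch : ∀ M : ℕ, ∀ a : (ZMod (N * p ^ M))ˣ, ∃ g : Gam,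
      Acts (N * p ^ M) g (a : ZMod (N * p ^ M)).val := fun M a => exists_acts _ a
  choose G hGa using hch
  have hlim := limit_tendsto p N (N + 1) hp hpN (by omega) hcN S κ h G hGa u
    (fun M ℓ h1 h2 => hu M ℓ (Finset.mem_filter.2 ⟨h1, h2⟩))
  apply hnt
  have hp1 : ‖(p : E)‖ < 1 := by
    have h4 : (p : E) = algebraMap ℚ_[p] E (p : ℚ_[p]) := (map_natCast _ _).symm
    rw [h4, norm_algebraMap']
    exact Padic.norm_p_lt_one
  have hp0 : Tendsto (fun M : ℕ => ‖(p : E)‖ ^ M) atTop (nhds 0) :=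
    tendsto_pow_atTop_nhds_zero_of_lt_one (norm_nonneg _) hp1
  refine hlim.congr_dist ?_
  refine squeeze_zero (fun _ => dist_nonneg) (fun M => ?_) hp0
  rw [dist_eq_norm]
  have hκ1 : ∀ g, ‖(κ g : E)‖ ≤ 1 := fun g => (h.1.norm_one g).le
  have hc : ∀ x : ℕ, ‖(x : E)‖ ≤ 1 := fun x => IsUltrametricDist.norm_natCast_le_one E x
  have hχ1 : ∀ a : (ZMod N)ˣ, ‖(χ a : E)‖ = 1 := isoO_n1 χ
  have hkey : ∀ a : (ZMod (N * p ^ M))ˣ, ‖(κ (G M a) : E) -
      (χ (ZMod.unitsMap (dvd_mul_right N (p ^ M)) a) : E) *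
        (((a : ZMod (N * p ^ M)).val : ℕ) : E) ^ 1‖ ≤ ‖(p : E)‖ ^ M := by
    intro a
    exact hG (G M a) _ M _ (isoO_acts (dvd_mul_right N (p ^ M)) (hGa M a))
      (acts_of_dvd (dvd_mul_left (p ^ M) N) (hGa M a))
  have hg1 : ∀ a : (ZMod (N * p ^ M))ˣ,
      ‖(χ (ZMod.unitsMap (dvd_mul_right N (p ^ M)) a) : E) *
        (((a : ZMod (N * p ^ M)).val : ℕ) : E) ^ 1‖ ≤ 1 := by
    intro a
    rw [norm_mul, hχ1, one_mul, norm_pow]
    exact pow_le_one₀ (norm_nonneg _) (hc _)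
  have hδ : 0 ≤ ‖(p : E)‖ ^ M := by positivity
  refine isoO_mul ?_ ?_ ?_ ?_
  · rw [norm_prod]
    exact Finset.prod_le_one (fun _ _ => norm_nonneg _)
      fun ℓ _ => isoO_sub_le (hκ1 _) (hc _)
  · refine IsUltrametricDist.norm_sum_le_of_forall_le_of_nonneg zero_le_one fun a _ => ?_
    rw [norm_mul, norm_mul]
    exact mul_le_one₀ (hc _) (by positivity) (mul_le_one₀ (hg1 a) (norm_nonneg _) (hc _))
  · refine isoO_prod hδ _ _ _ (fun ℓ _ => isoO_sub_le (hκ1 _) (hc _))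
      (fun ℓ _ => isoO_sub_le (hg1 _) (hc _)) fun ℓ _ => ?_
    rw [sub_sub_sub_cancel_right]
    exact hkey _
  · rw [← Finset.sum_sub_distrib]
    refine IsUltrametricDist.norm_sum_le_of_forall_le_of_nonneg hδ fun a _ => ?_
    rw [← mul_sub, ← sub_mul, norm_mul, norm_mul]
    calc _ ≤ 1 * (‖(p : E)‖ ^ M * 1) := mul_le_mul (hc _)
          (mul_le_mul (hkey a) (hc _) (norm_nonneg _) hδ) (by positivity) zero_le_one
      _ = ‖(p : E)‖ ^ M := by rw [one_mul, mul_one]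

end Pool.Agent.EDV
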