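import Pool.Agent.AAP.Stmt3
import Pool.Agent.AAP.StmtB
import Pool.Agent.EDV.Lev

/-!
# EDV-Twi: twists

`W g = ψ(g) V(g)`: the product of `V` and of the homomorphism `g ↦ ψ(g)` to the scalar matrices.
-/

open Matrix

namespace Pool.Agent.EDV

open Pool.Agent.AAP

section

variable {E : Type} [NormedField E]

/-- the scalar matrices -/
private noncomputable def twi_sc (E : Type) [NormedField E] : Eˣ →* GL2 E :=
  Units.map (Matrix.scalar (Fin 2)).toMonoidHom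

private theorem twi_mat_mul (A B : GL2 E) : (A * B).mat = A.mat * B.mat := rfl

private theorem twi_mat_one : (1 : GL2 E).mat = 1 := rfl

private theorem twi_ext {A B : GL2 E} (h : A.mat = B.mat) : A = B := Units.ext h

private theorem twi_sc_mat (u : Eˣ) : (twi_sc E u).mat = (u : E) • (1 : Matrix (Fin 2) (Fin 2) E) :=
  (Matrix.smul_one_eq_diagonal (u : E)).symm

private theorem twi_mul_mat (u : Eˣ) (A : GL2 E) : (twi_sc E u * A).mat = (u : E) • A.mat := by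
  rw [twi_mat_mul, twi_sc_mat, Matrix.smul_mul, Matrix.one_mul]

private theorem twi_comm (u : Eˣ) (A : GL2 E) : twi_sc E u * A = A * twi_sc E u := by
  apply twi_ext
  rw [twi_mul_mat, twi_mat_mul, twi_sc_mat, Matrix.mul_smul, Matrix.mul_one]

/-- the twist -/
private noncomputable def twi_W (ψ : Gam →* Eˣ) (V : Gam →* GL2 E) : Gam →* GL2 E where
  toFun g := twi_sc E (ψ g) * V g
  map_one' := by rw [map_one, map_one, map_one, one_mul]
  map_mul' g h := by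
    rw [map_mul, map_mul, map_mul, mul_assoc, ← mul_assoc (twi_sc E (ψ h)), twi_comm (ψ h) (V g),
      mul_assoc, mul_assoc]

private theorem twi_W_apply (ψ : Gam →* Eˣ) (V : Gam →* GL2 E) (g : Gam) :
    twi_W ψ V g = twi_sc E (ψ g) * V g := rfl

private theorem twi_W_mat (ψ : Gam →* Eˣ) (V : Gam →* GL2 E) (g : Gam) :
    (twi_W ψ V g).mat = (ψ g : E) • (V g).mat := by
  rw [twi_W_apply, twi_mul_mat]

private theorem twi_cont_iff (V : Gam →* GL2 E) :
    Continuous V ↔ (Continuous fun g => (V g).mat) ∧ Continuous fun g => ((V g)⁻¹).mat :=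
  Units.continuous_iff (M := Matrix (Fin 2) (Fin 2) E) (f := V)

private theorem twi_W_inv (ψ : Gam →* Eˣ) (V : Gam →* GL2 E) (g : Gam) :
    ((twi_W ψ V g)⁻¹).mat = (ψ g : E)⁻¹ • ((V g)⁻¹).mat := by
  rw [← map_inv, twi_W_mat, map_inv, map_inv, Units.val_inv_eq_inv_val]

private theorem twi_cont {ψ : Gam →* Eˣ} (hψ : Continuous fun g => (ψ g : E)) {V : Gam →* GL2 E}
    (hV : Continuous V) : Continuous (twi_W ψ V) := by
  rw [twi_cont_iff] at hV ⊢
  refine ⟨?_, ?_⟩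
  · have h1 : (fun g => (twi_W ψ V g).mat) = fun g => (ψ g : E) • (V g).mat := by
      funext g
      exact twi_W_mat ψ V g
    rw [h1]
    exact hψ.smul hV.1
  · have h1 : (fun g => ((twi_W ψ V g)⁻¹).mat) = fun g => (ψ g : E)⁻¹ • ((V g)⁻¹).mat := by
      funext g
      exact twi_W_inv ψ V g
    rw [h1]
    exact (hψ.inv₀ fun g => Units.ne_zero _).smul hV.2

private theorem twi_cc_mul_self {c : Gam} (hc : CC c) : c * c = 1 := by
  obtain ⟨ι, hι⟩ := hc
  have h1 : ∀ x : Qbar, c.ap (c.ap x) = x := by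
    intro x
    apply ι.injective
    rw [hι, hι, Complex.conj_conj]
  exact AlgEquiv.ext h1

private theorem twi_even {ψ : Gam →* Eˣ} {V : Gam →* GL2 E} (hV : Even2 V) :
    Even2 (twi_W ψ V) := by
  intro c hc
  have h1 : (ψ c : E) ^ 2 = 1 := by
    have h2 : ψ c * ψ c = 1 := by rw [← map_mul, twi_cc_mul_self hc, map_one]
    have h3 := congrArg (fun u : Eˣ => (u : E)) h2
    rw [sq]
    exact h3
  rw [twi_W_mat, Matrix.det_smul, Fintype.card_fin, h1, one_mul]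
  exact hV c hc

private theorem twi_line {ψ : Gam →* Eˣ} {V : Gam →* GL2 E} (h : Line (twi_W ψ V)) : Line V := by
  obtain ⟨v, hv, hv2⟩ := h
  refine ⟨v, hv, fun g => ?_⟩
  obtain ⟨c, hc⟩ := hv2 g
  refine ⟨(ψ g : E)⁻¹ * c, ?_⟩
  rw [twi_W_mat, Matrix.smul_mulVec] at hc
  rw [mul_smul, ← hc, inv_smul_smul₀ (Units.ne_zero _)]

private theorem twi_tame {p ℓ : ℕ} {ψ : Gam →* Eˣ} {V : Gam →* GL2 E} (h : TameAt p ℓ V)
    (h1 : ∀ 𝔓 : Ideal AI, 𝔓.IsPrime → (ℓ : AI) ∈ 𝔓 → ∀ g, Iner 𝔓 g → ψ g = 1) :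
    TameAt p ℓ (twi_W ψ V) := by
  intro 𝔓 hP hl g hg
  obtain ⟨k, hk, hk2⟩ := h 𝔓 hP hl g hg
  refine ⟨k, hk, ?_⟩
  rw [twi_W_apply, h1 𝔓 hP hl g hg, map_one, one_mul]
  exact hk2

end

theorem exists_twist {p : ℕ} {E : Type} [NormedField E] (ψ : Gam →* Eˣ)
    (hψ : Continuous fun g => (ψ g : E)) (V : Gam →* GL2 E) (hV : Continuous V) :
    ∃ W : Gam →* GL2 E, Continuous W ∧ (∀ g, trc W g = ψ g * trc V g) ∧
      (Even2 V → Even2 W) ∧ (Line W → Line V) ∧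
      ∀ ℓ : ℕ, TameAt p ℓ V → (∀ 𝔓 : Ideal AI, 𝔓.IsPrime → (ℓ : AI) ∈ 𝔓 → ∀ g, Iner 𝔓 g →
        ψ g = 1) → TameAt p ℓ W := by
  refine ⟨twi_W ψ V, twi_cont hψ hV, fun g => ?_, twi_even, twi_line, fun ℓ h h1 => twi_tame h h1⟩
  rw [trc, trc, twi_W_mat, Matrix.trace_smul, smul_eq_mul]

end Pool.Agent.EDV
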