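import Pool.Agent.EDV.Defs3
import Pool.Agent.EDV.DchA
import Pool.Agent.EDV.DchB
import Pool.Agent.EDV.Twi
import Pool.Agent.EDV.InA
import Pool.Agent.EDV.Drp
import Pool.Agent.EDV.Fin
import Pool.Agent.EDV.Iso
import Pool.Agent.FRD.Fin

/-!
# EDV-LimS: limits of even irreducible representations, no bound for the level

The level of a limit of even irreducible representations which are tame outside `S` is bounded, by
`fin_main` (all but finitely many residual types of level `S^∞` have no even irreducible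
representation).
-/

open NumberField Filter Matrix

namespace Pool.Agent.EDV

open Pool.Agent.AAP

section

variable {E : Type} [NormedField E] [IsUltrametricDist E]

private theorem limS_add {x y : E} (hx : ‖x‖ < 1) (hy : ‖y‖ < 1) : ‖x + y‖ < 1 :=
  (IsUltrametricDist.norm_add_le_max _ _).trans_lt (max_lt hx hy)

private theorem limS_acts {N m : ℕ} [NeZero m] (hd : N ∣ m) {g : Gam} {a : (ZMod m)ˣ}
    (ha : Acts m g (a : ZMod m).val) : Acts N g (ZMod.unitsMap hd a : ZMod N).val := by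
  have h1 := acts_of_dvd hd ha
  refine acts_mod h1 ?_
  rw [val_unitsMap]
  exact (Nat.mod_modEq _ _).symm

private theorem limS_unit {p m : ℕ} [Fact p.Prime] [NormedAlgebra ℚ_[p] E] [NeZero m]
    (hpm : p ∣ m) (a : (ZMod m)ˣ) : ‖(((a : ZMod m).val : ℕ) : E)‖ = 1 := by
  refine Helper60.FM.norm_natCast_eq_one (p := p) fun h1 => ?_
  have h2 := ZMod.val_coe_unit_coprime a
  have h3 := Nat.dvd_gcd h1 hpm
  rw [h2] at h3
  exact (Fact.out : p.Prime).one_lt.ne' (Nat.dvd_one.1 h3)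

private theorem limS_nat {p : ℕ} [Fact p.Prime] [NormedAlgebra ℚ_[p] E] {a b : ℕ}
    (h : a ≡ b [MOD p]) : ‖(a : E) - b‖ < 1 := by
  have hp1 : ‖(p : E)‖ < 1 := (Helper60.FM.norm_natCast_lt_one_iff (p := p) p).2 dvd_rfl
  obtain ⟨d, hd⟩ := Nat.modEq_iff_dvd.1 h
  have h1 : (a : E) - (b : E) = -((p : E) * ((d : ℤ) : E)) := by
    have h2 := congrArg (fun t : ℤ => (t : E)) hd
    push_cast at h2
    rw [← h2]
    ring
  rw [h1, norm_neg, norm_mul]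
  exact (mul_le_of_le_one_right (norm_nonneg _) (IsUltrametricDist.norm_intCast_le_one E d)).trans_lt
    hp1

private theorem limS_pow {x y : E} (hx : ‖x‖ ≤ 1) (hy : ‖y‖ ≤ 1) (h : ‖x - y‖ < 1) (n : ℕ) :
    ‖x ^ n - y ^ n‖ < 1 := by
  induction n with
  | zero => rw [pow_zero, pow_zero, sub_self, norm_zero]; exact one_pos
  | succ n ih =>
    have h1 : x ^ (n + 1) - y ^ (n + 1) = x ^ n * (x - y) + (x ^ n - y ^ n) * y := by ring
    rw [h1]
    refine limS_add ?_ ?_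
    · rw [norm_mul, norm_pow]
      exact (mul_le_of_le_one_left (norm_nonneg _) (pow_le_one₀ (norm_nonneg _) hx)).trans_lt h
    · rw [norm_mul]
      exact (mul_le_of_le_one_right (norm_nonneg _) hy).trans_lt ih

end

variable {E : Type} [NormedField E] [IsUltrametricDist E] [CompleteSpace E]

/-- a character of level `M p^∞`, `p ∤ M`, modulo the maximal ideal -/
private theorem level_res {p M : ℕ} [Fact p.Prime] (hp : p ≠ 2) [NeZero M] (hpM : ¬ p ∣ M)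
    [NormedAlgebra ℚ_[p] E] {ψ : Gam →* Eˣ} (hψ : Level p M ψ) :
    ∃ (β : (ZMod M)ˣ →* Eˣ) (n : ℕ), 1 ≤ n ∧ n < p ∧ ∀ (g : Gam) (a : (ZMod M)ˣ) (b : ℕ),
      Acts M g (a : ZMod M).val → Acts p g b → ‖(ψ g : E) - β a * (b : E) ^ n‖ < 1 := by
  have hpp : p.Prime := Fact.out
  have i1 : NeZero (M * p) := ⟨mul_ne_zero (NeZero.ne M) hpp.ne_zero⟩
  have i2 : NeZero p := ⟨hpp.ne_zero⟩
  obtain ⟨η, hη⟩ := level_eta hp hpM hψ
  obtain ⟨β, n, hn1, hn2, hs⟩ := eta_split hp hpM η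
  refine ⟨β, n, hn1, hn2, fun g a b hga hgb => ?_⟩
  obtain ⟨s, hgs⟩ := acts_exists (M * p) g
  have h1 : ‖(ψ g : E) - η s‖ < 1 := hη g s hgs
  have h2 : ‖(η s : E) - β (ZMod.unitsMap (dvd_mul_right M p) s) *
    (((s : ZMod (M * p)).val : ℕ) : E) ^ n‖ < 1 := hs s
  have h3 : ZMod.unitsMap (dvd_mul_right M p) s = a := by
    have h4 := acts_inj (limS_acts (dvd_mul_right M p) hgs) hga
    have h5 := (ZMod.natCast_eq_natCast_iff _ _ _).2 h4
    rw [ZMod.natCast_zmod_val, ZMod.natCast_zmod_val] at h5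
    exact Units.ext h5
  have h4 : (s : ZMod (M * p)).val ≡ b [MOD p] :=
    acts_inj (acts_of_dvd (dvd_mul_left p M) hgs) hgb
  have h5 : ‖(((s : ZMod (M * p)).val : ℕ) : E) ^ n - (b : E) ^ n‖ < 1 :=
    limS_pow (Helper60.FM.norm_natCast_le_one _) (Helper60.FM.norm_natCast_le_one _)
      (limS_nat (p := p) h4) n
  rw [h3] at h2
  have h6 : (ψ g : E) - β a * (b : E) ^ n = ((ψ g : E) - η s) + (((η s : E) - β a *
      (((s : ZMod (M * p)).val : ℕ) : E) ^ n) + β a * ((((s : ZMod (M * p)).val : ℕ) : E) ^ n -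
        (b : E) ^ n)) := by ring
  rw [h6]
  refine limS_add h1 (limS_add h2 ?_)
  rw [norm_mul, Helper60.FM.norm_chi, one_mul]
  exact h5

/-- twist by the inverse of `τ` -/
theorem limitS_limit {p N : ℕ} [Fact p.Prime] [NormedAlgebra ℚ_[p] E] {S : Finset ℕ} (hpS : p ∈ S)
    {κ : Gam →* Eˣ} (hκ : LimitS p S κ) (hlev : Level p N κ) : Limit p N S κ := by
  have hpp : p.Prime := Fact.out
  obtain ⟨-, hκ1, hlim⟩ := hκ
  refine ⟨hlev, hκ1, fun r hr => ?_⟩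
  obtain ⟨V, τ, hV, he, hl, ⟨Nτ, hNτ0, hNτS, hτ⟩, ht, htr⟩ := hlim r hr
  have i1 : NeZero Nτ := ⟨hNτ0⟩
  obtain ⟨W, hW1, hW2, hW3, hW4, hW5⟩ := exists_twist (p := p) τ⁻¹ hτ.inv.1 V hV
  refine ⟨W, 1, hW1, hW3 he, fun h => hl (hW4 h), ?_, ?_, ?_⟩
  · refine ⟨?_, fun g _ => rfl⟩
    simp only [MonoidHom.one_apply, Units.val_one]
    exact continuous_const
  · intro ℓ hℓ hℓS
    refine hW5 ℓ (ht ℓ hℓ hℓS) fun 𝔓 h𝔓 hℓ𝔓 g hg => ?_
    have h1 : τ g = 1 := by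
      refine hτ.2 g fun k => ?_
      have i2 : NeZero (Nτ * p ^ k) := ⟨mul_ne_zero hNτ0 (pow_ne_zero _ hpp.ne_zero)⟩
      refine iner_acts hℓ ?_ h𝔓 hℓ𝔓 hg
      intro h2
      rcases (Nat.Prime.dvd_mul hℓ).1 h2 with h3 | h3
      · exact hℓS (hNτS ℓ hℓ h3)
      · have h4 : ℓ ∣ p := hℓ.dvd_of_dvd_pow h3
        rw [(Nat.prime_dvd_prime_iff_eq hℓ hpp).1 h4] at hℓS
        exact hℓS hpS
    rw [MonoidHom.inv_apply, h1, inv_one]
  · intro g
    have h1 : trc W g - ((1 : Gam →* Eˣ) g : E) * (1 + κ g) =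
        ((τ⁻¹ g : Eˣ) : E) * (trc V g - τ g * (1 + κ g)) := by
      rw [hW2, MonoidHom.one_apply, Units.val_one, MonoidHom.inv_apply, mul_sub, ← mul_assoc,
        Units.inv_mul]
    rw [h1, norm_mul, hτ.inv.norm_one, one_mul]
    exact htr g

theorem limitS_sub (p : ℕ) [Fact p.Prime] (hp : p ≠ 2) (S : Finset ℕ) (hpS : p ∈ S) :
    ∃ N₁ : ℕ, N₁ ≠ 0 ∧ ∀ {E : Type} [NormedField E] [IsUltrametricDist E] [CompleteSpace E]
      [NormedAlgebra ℚ_[p] E] (κ : Gam →* Eˣ), LimitS p S κ → Limit p N₁ S κ := by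
  classical
  have hpp : p.Prime := Fact.out
  set S' : Finset ℕ := (S.filter Nat.Prime).erase p with hS'
  have hS'1 : ∀ l ∈ S', l.Prime := fun l hl => (Finset.mem_filter.1 (Finset.mem_of_mem_erase hl)).2
  have hS'2 : p ∉ S' := Finset.notMem_erase _ _
  obtain ⟨N₀, hN₀, hmain⟩ := FRD.fin_main p hp S' hS'1 hS'2
  have hprod : ∏ ℓ ∈ S', ℓ ≠ 0 := Finset.prod_ne_zero_iff.2 fun ℓ hℓ => (hS'1 ℓ hℓ).ne_zero
  refine ⟨N₀ * ∏ ℓ ∈ S', ℓ, mul_ne_zero hN₀.ne' hprod, ?_⟩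
  intro E _ _ _ _ κ hκ0
  obtain ⟨⟨N, hN0, hNS, hκ⟩, hκ1, hlim⟩ := id hκ0
  have i0 : NeZero (N₀ * ∏ ℓ ∈ S', ℓ) := ⟨mul_ne_zero hN₀.ne' hprod⟩
  have hlev : Level p (N₀ * ∏ ℓ ∈ S', ℓ) κ := by
    obtain ⟨V, τ, hV, he, hl, ⟨Nτ, hNτ0, hNτS, hτ⟩, ht, htr⟩ := hlim (1 / 2) (by norm_num)
    obtain ⟨j, M, hpM, hM⟩ := Nat.exists_eq_pow_mul_and_not_dvd (mul_ne_zero hN0 hNτ0) p hpp.ne_one
    have hM0 : M ≠ 0 := by
      rintro rfl
      exact hpM (dvd_zero p)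
    have i1 : NeZero M := ⟨hM0⟩
    have hM' : N * Nτ = M * p ^ j := by rw [hM, mul_comm]
    have hκM : Level p M κ := by
      have h1 := hκ.of_dvd (dvd_mul_right N Nτ)
      rw [hM'] at h1
      exact Level.pow_iff.1 h1
    have hτM : Level p M τ := by
      have h1 := hτ.of_dvd (dvd_mul_left Nτ N)
      rw [hM'] at h1
      exact Level.pow_iff.1 h1
    have hMS : ∀ ℓ : ℕ, ℓ.Prime → ℓ ∣ M → ℓ ∈ S' := by
      intro ℓ hℓ hℓM
      have h1 : ℓ ∣ N * Nτ := by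
        rw [hM']
        exact hℓM.mul_right _
      have h2 : ℓ ≠ p := by
        rintro rfl
        exact hpM hℓM
      refine Finset.mem_erase.2 ⟨h2, Finset.mem_filter.2 ⟨?_, hℓ⟩⟩
      rcases (Nat.Prime.dvd_mul hℓ).1 h1 with h3 | h3
      · exact hNS ℓ hℓ h3
      · exact hNτS ℓ hℓ h3
    obtain ⟨β, n, hn1, hn2, hβ⟩ := level_res hp hpM hκM
    obtain ⟨α, i, -, -, hα⟩ := level_res hp hpM hτM
    have hα1 : ∀ a, ‖(α a : E)‖ = 1 := Helper60.FM.norm_chi α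
    have hβ1 : ∀ a, ‖(β a : E)‖ = 1 := Helper60.FM.norm_chi β
    have hsum : SumType p n M α (α * β) i V := by
      intro g a b hga hgb
      have h1 : ‖trc V g - τ g * (1 + κ g)‖ < 1 := (htr g).trans_lt (by norm_num)
      have h2 := hα g a b hga hgb
      have h3 := hβ g a b hga hgb
      have hb : ‖(b : E)‖ ≤ 1 := Helper60.FM.norm_natCast_le_one _
      have hbi : ‖(b : E) ^ i‖ ≤ 1 := by rw [norm_pow]; exact pow_le_one₀ (norm_nonneg _) hb
      show ‖trc V g - (b : E) ^ i * (α a + (α * β) a * (b : E) ^ n)‖ < 1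
      have h4 : trc V g - (b : E) ^ i * ((α a : E) + ((α * β) a : Eˣ) * (b : E) ^ n) =
          (trc V g - τ g * (1 + κ g)) + (((τ g : E) - α a * (b : E) ^ i) * (1 + κ g) +
            (α a : E) * (b : E) ^ i * ((κ g : E) - β a * (b : E) ^ n)) := by
        rw [MonoidHom.mul_apply, Units.val_mul]
        ring
      rw [h4]
      refine limS_add h1 (limS_add ?_ ?_)
      · rw [norm_mul]
        have h5 : ‖(1 : E) + κ g‖ ≤ 1 := (IsUltrametricDist.norm_add_le_max _ _).trans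
          (max_le norm_one.le (hκM.norm_one g).le)
        exact (mul_le_of_le_one_right (norm_nonneg _) h5).trans_lt h2
      · rw [norm_mul, norm_mul, hα1, one_mul]
        exact (mul_le_of_le_one_left (norm_nonneg _) hbi).trans_lt h3
    have hfin := hmain M n hMS hn1 hn2 V α (α * β) i hV he hsum
      (fun ℓ a hℓ hℓp hℓS _ _ => ht ℓ hℓ fun h => hℓS
        (Finset.mem_erase.2 ⟨hℓp, Finset.mem_filter.2 ⟨h, hℓ⟩⟩)) hl
    refine level_drop hpM (fun ℓ hℓ hℓM => (Finset.dvd_prod_of_mem _ (hMS ℓ hℓ hℓM)).mul_left _)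
      hκM ?_
    intro g hg1 hg2
    obtain ⟨a, ha⟩ := acts_exists M g
    have h1 : (a : ZMod M).val ≡ 1 [MOD M.gcd N₀] := by
      have i2 : NeZero (M.gcd (N₀ * ∏ ℓ ∈ S', ℓ)) :=
        ⟨fun h => hM0 (Nat.eq_zero_of_gcd_eq_zero_left h)⟩
      have h2 := acts_inj (acts_of_dvd (Nat.gcd_dvd_left _ _) ha) hg1
      exact h2.of_dvd (Nat.gcd_dvd_gcd_mul_right_right _ _ _)
    have h2 : ‖(((α * β) a : Eˣ) : E) - α a‖ < 1 := hfin a h1
    have h3 : ‖(β a : E) - 1‖ < 1 := by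
      have h4 : (((α * β) a : Eˣ) : E) - α a = α a * (β a - 1) := by
        rw [MonoidHom.mul_apply, Units.val_mul]
        ring
      rw [h4, norm_mul, hα1, one_mul] at h2
      exact h2
    have h4 := hβ g a 1 ha hg2
    rw [Nat.cast_one, one_pow, mul_one] at h4
    show ‖(κ g : E) - 1‖ < 1
    have h5 : (κ g : E) - 1 = ((κ g : E) - β a) + (β a - 1) := by ring
    rw [h5]
    exact limS_add h4 h3
  exact limitS_limit hpS hκ0 hlev

theorem limitS_finite (p : ℕ) [Fact p.Prime] (hp : p ≠ 2) [NormedAlgebra ℚ_[p] E] (S : Finset ℕ)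
    (hpS : p ∈ S) : {κ : Gam →* Eˣ | LimitS p S κ}.Finite := by
  obtain ⟨N₁, hN₁, h⟩ := limitS_sub p hp S hpS
  have : NeZero N₁ := ⟨hN₁⟩
  exact (limit_finite p N₁ hp S).subset fun κ hκ => h κ hκ

theorem limitS_not_geo (p : ℕ) [Fact p.Prime] (hp : p ≠ 2) [NormedAlgebra ℚ_[p] E] (S : Finset ℕ)
    (hpS : p ∈ S) {κ : Gam →* Eˣ} (hκ : LimitS p S κ) (N n : ℕ) [NeZero N] (hn : 2 ≤ n)
    (χ : (ZMod N)ˣ →* Eˣ) : ¬ Geo p N n χ κ ∧ ¬ Geo p N n χ κ⁻¹ := by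
  obtain ⟨N₁, hN₁, h⟩ := limitS_sub p hp S hpS
  have i1 : NeZero N₁ := ⟨hN₁⟩
  have i2 : NeZero (N * N₁) := ⟨mul_ne_zero (NeZero.ne N) hN₁⟩
  have h1 : Limit p (N * N₁) S κ := (h κ hκ).of_dvd (dvd_mul_left N₁ N)
  have key : ∀ ψ : Gam →* Eˣ, Geo p N n χ ψ →
      Geo p (N * N₁) n (χ.comp (ZMod.unitsMap (dvd_mul_right N N₁))) ψ := by
    intro ψ hψ g a k b ha hb
    exact hψ g _ k b (limS_acts (dvd_mul_right N N₁) ha) hb
  exact ⟨fun h2 => not_geo p (N * N₁) n hp hn S κ h1 _ (key κ h2),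
    fun h2 => not_geo p (N * N₁) n hp hn S κ⁻¹ h1.inv _ (key κ⁻¹ h2)⟩

end Pool.Agent.EDV
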