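import Pool.Agent.EDV.LimS
import Pool.Agent.EDV.Dec
import Pool.Agent.EDV.IsoO
import Pool.Agent.EDV.GeoD

/-!
# EDV-LimT: the limits are not `χ ε` without exceptional zeros
-/

open NumberField Filter Matrix

namespace Pool.Agent.EDV

open Pool.Agent.AAP

variable {E : Type} [NormedField E] [IsUltrametricDist E] [CompleteSpace E]

private theorem limT_acts {N m : ℕ} [NeZero m] (hd : N ∣ m) {g : Gam} {a : (ZMod m)ˣ}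
    (ha : Acts m g (a : ZMod m).val) : Acts N g (ZMod.unitsMap hd a : ZMod N).val := by
  have h1 := acts_of_dvd hd ha
  refine acts_mod h1 ?_
  rw [val_unitsMap]
  exact (Nat.mod_modEq _ _).symm

private theorem limT_one (p : ℕ) [Fact p.Prime] (hp : p ≠ 2) [NormedAlgebra ℚ_[p] E]
    (S : Finset ℕ) (hpS : p ∈ S) {κ : Gam →* Eˣ} (hκ : LimitS p S κ) (N : ℕ) [NeZero N]
    (hN : ∀ ℓ : ℕ, ℓ.Prime → ℓ ∣ N → ℓ ∈ S) (χ : (ZMod N)ˣ →* Eˣ)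
    (hD : ∀ ℓ ∈ S, ℓ.Prime → ∃ x : E, DVal p N 0 χ ℓ x ∧ x ≠ 1) :
    ¬ Geo p N 1 χ κ ∧ ¬ Geo p N 1 χ κ⁻¹ := by
  have hpp : p.Prime := Fact.out
  obtain ⟨N₁, hN₁, hN₁S, hlev⟩ := hκ.1
  have i1 : NeZero N₁ := ⟨hN₁⟩
  have hd : N ∣ N * (N₁ * p) := dvd_mul_right _ _
  have i2 : NeZero (N * (N₁ * p)) := ⟨mul_ne_zero (NeZero.ne N) (mul_ne_zero hN₁ hpp.ne_zero)⟩
  have hpm : p ∣ N * (N₁ * p) := (dvd_mul_left p N₁).mul_left N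
  have h1 : Limit p (N * (N₁ * p)) S κ :=
    limitS_limit hpS hκ (hlev.of_dvd ((dvd_mul_right N₁ p).mul_left N))
  have hS : ∀ ℓ : ℕ, ℓ.Prime → ℓ ∣ N * (N₁ * p) → ℓ ∈ S := by
    intro ℓ hℓ hdvd
    rcases (Nat.Prime.dvd_mul hℓ).1 hdvd with h2 | h2
    · exact hN ℓ hℓ h2
    · rcases (Nat.Prime.dvd_mul hℓ).1 h2 with h3 | h3
      · exact hN₁S ℓ hℓ h3
      · rw [(Nat.prime_dvd_prime_iff_eq hℓ hpp).1 h3]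
        exact hpS
  have hD' : ∀ ℓ ∈ S, ℓ.Prime → ∃ u : (ZMod (N * (N₁ * p)))ˣ, DecL ℓ (N * (N₁ * p)) u ∧
      (χ.comp (ZMod.unitsMap hd)) u ≠ 1 := by
    intro ℓ hℓS hℓ
    obtain ⟨x, ⟨g, a, y, hg, ha, -, hx⟩, hx1⟩ := hD ℓ hℓS hℓ
    obtain ⟨u, hu⟩ := acts_exists (N * (N₁ * p)) g
    refine ⟨u, dcm_dec hℓ hg hu, fun h2 => hx1 ?_⟩
    have h3 : ZMod.unitsMap hd u = a := by
      have h4 := acts_inj (limT_acts hd hu) ha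
      have h5 := (ZMod.natCast_eq_natCast_iff _ _ _).2 h4
      rw [ZMod.natCast_zmod_val, ZMod.natCast_zmod_val] at h5
      exact Units.ext h5
    rw [MonoidHom.comp_apply, h3] at h2
    rw [hx, h2, pow_zero, Units.val_one, one_mul]
  have key : ∀ ψ : Gam →* Eˣ, Geo p N 1 χ ψ →
      Geo p (N * (N₁ * p)) 1 (χ.comp (ZMod.unitsMap hd)) ψ := by
    intro ψ hψ g a k b ha hb
    exact hψ g _ k b (limT_acts hd ha) hb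
  exact ⟨fun h2 => not_geo_one p _ hp hpm S κ h1 _ (fun ℓ hℓ h3 => hD' ℓ (hS ℓ hℓ h3) hℓ) hD'
      (key κ h2),
    fun h2 => not_geo_one p _ hp hpm S κ⁻¹ h1.inv _ (fun ℓ hℓ h3 => hD' ℓ (hS ℓ hℓ h3) hℓ) hD'
      (key κ⁻¹ h2)⟩

theorem limitS_not_geo_one (p : ℕ) [Fact p.Prime] (hp : p ≠ 2) [NormedAlgebra ℚ_[p] E]
    (S : Finset ℕ) (hpS : p ∈ S) {κ : Gam →* Eˣ} (hκ : LimitS p S κ) (N : ℕ) [NeZero N]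
    (χ : (ZMod N)ˣ →* Eˣ) (hD : ∀ ℓ ∈ S, ℓ.Prime → ∃ x : E, DVal p N 0 χ ℓ x ∧ x ≠ 1) :
    ¬ Geo p N 1 χ κ ∧ ¬ Geo p N 1 χ κ⁻¹ := by
  have key : ∀ ψ : Gam →* Eˣ, LevelS p S ψ → Geo p N 1 χ ψ → ∃ (A : ℕ) (_ : NeZero A)
      (χ' : (ZMod A)ˣ →* Eˣ), (∀ ℓ : ℕ, ℓ.Prime → ℓ ∣ A → ℓ ∈ S) ∧ Geo p A 1 χ' ψ ∧
      ∀ ℓ ∈ S, ℓ.Prime → ∃ x : E, DVal p A 0 χ' ℓ x ∧ x ≠ 1 := by
    intro ψ hψ hg
    obtain ⟨A, i1, χ', h1, h2, h3⟩ := geo_level hpS hψ χ hg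
    refine ⟨A, i1, χ', h1, h2, fun ℓ hℓ hℓp => ?_⟩
    obtain ⟨x, hx, hx1⟩ := hD ℓ hℓ hℓp
    exact ⟨x, h3 ℓ x hx, hx1⟩
  refine ⟨fun h => ?_, fun h => ?_⟩
  · obtain ⟨A, i1, χ', h1, h2, h3⟩ := key κ hκ.1 h
    exact (limT_one p hp S hpS hκ A h1 χ' h3).1 h2
  · obtain ⟨N₁, hN₁, hN₁S, hlev⟩ := hκ.1
    obtain ⟨A, i1, χ', h1, h2, h3⟩ := key κ⁻¹ ⟨N₁, hN₁, hN₁S, hlev.inv⟩ h
    exact (limT_one p hp S hpS hκ A h1 χ' h3).2 h2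

end Pool.Agent.EDV
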