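import Pool.Agent.AAP.NumA2
import Pool.Agent.AAP.RedC

/-!
# Bernoulli sums modulo `m ^ 2`: the sums `∑ ⌊c a / m⌋ χ(a) a ^ (n - 1)` and `∑ χ(a) a ^ n`, `m = N p ^ M`
-/

open NumberField Filter

namespace Pool.Agent.EDV

open Pool.Agent.AAP

theorem num_a (N n p c M : ℕ) [NeZero N] [Fact p.Prime] (hpN : p ∣ N) (hn : 1 ≤ n)
    (hcN : c.Coprime N) {E : Type} [NormedField E] [IsUltrametricDist E] [NormedAlgebra ℚ_[p] E]
    (χ : (ZMod N)ˣ →* Eˣ) :
    ‖(n : E) * (c : E) ^ (n - 1) * ((N * p ^ M : ℕ) : E) * ∑ a : (ZMod (N * p ^ M))ˣ,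
        ((fl c (N * p ^ M) a : ℕ) : E) * χ (ZMod.unitsMap (dvd_mul_right N (p ^ M)) a) *
          (((a : ZMod (N * p ^ M)).val : ℕ) : E) ^ (n - 1) -
      ((c : E) ^ n - ((χ (ZMod.unitOfCoprime c hcN) : Eˣ) : E)⁻¹) * ∑ a : (ZMod (N * p ^ M))ˣ,
        (χ (ZMod.unitsMap (dvd_mul_right N (p ^ M)) a) : E) *
          (((a : ZMod (N * p ^ M)).val : ℕ) : E) ^ n‖ ≤ ‖((N * p ^ M : ℕ) : E)‖ ^ 2 := by
  have hp : p.Prime := Fact.out
  have hcop : Nat.Coprime c (N * p ^ M) :=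
    Nat.Coprime.mul_right hcN (Nat.Coprime.pow_right M (hcN.coprime_dvd_right hpN))
  let cu : (ZMod (N * p ^ M))ˣ := ZMod.unitOfCoprime c hcop
  have hχc : ZMod.unitsMap (dvd_mul_right N (p ^ M)) cu = ZMod.unitOfCoprime c hcN := by
    apply Units.ext
    rw [ZMod.unitsMap_def, Units.coe_map, ZMod.coe_unitOfCoprime, ZMod.coe_unitOfCoprime]
    simp
  have hr : ∀ a : (ZMod (N * p ^ M))ˣ, ((cu * a : (ZMod (N * p ^ M))ˣ) : ZMod (N * p ^ M)).val =
      (c * (a : ZMod (N * p ^ M)).val) % (N * p ^ M) := by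
    intro a
    have h1 : ((cu * a : (ZMod (N * p ^ M))ˣ) : ZMod (N * p ^ M)) =
        ((c * (a : ZMod (N * p ^ M)).val : ℕ) : ZMod (N * p ^ M)) := by
      rw [Units.val_mul, ZMod.coe_unitOfCoprime, Nat.cast_mul, ZMod.natCast_zmod_val]
    rw [h1, ZMod.val_natCast]
  have hχ1 : ∀ a : (ZMod (N * p ^ M))ˣ,
      ‖(χ (ZMod.unitsMap (dvd_mul_right N (p ^ M)) a) : E)‖ = 1 := by
    intro a
    have h1 : ((χ (ZMod.unitsMap (dvd_mul_right N (p ^ M)) a) : Eˣ) : E) ^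
        Fintype.card (ZMod (N * p ^ M))ˣ = 1 := by
      rw [← Units.val_pow_eq_pow_val, ← map_pow, ← map_pow, pow_card_eq_one, map_one, map_one,
        Units.val_one]
    exact (isOfFinOrder_iff_pow_eq_one.2 ⟨_, Fintype.card_pos, h1⟩).norm_eq_one
  -- the terms
  have key : ∀ a : (ZMod (N * p ^ M))ˣ, ‖(χ (ZMod.unitsMap (dvd_mul_right N (p ^ M)) a) : E) *
      ((n : E) * ((N * p ^ M : ℕ) : E) * (fl c (N * p ^ M) a : E) *
        ((c : E) * ((a : ZMod (N * p ^ M)).val : E)) ^ (n - 1) -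
        ((c : E) * ((a : ZMod (N * p ^ M)).val : E)) ^ n +
        (((cu * a : (ZMod (N * p ^ M))ˣ) : ZMod (N * p ^ M)).val : E) ^ n)‖ ≤
          ‖((N * p ^ M : ℕ) : E)‖ ^ 2 := by
    intro a
    rw [norm_mul, hχ1, one_mul]
    have hra := hr a
    generalize ((cu * a : (ZMod (N * p ^ M))ˣ) : ZMod (N * p ^ M)).val = w at hra ⊢
    have hfl : fl c (N * p ^ M) a = c * (a : ZMod (N * p ^ M)).val / (N * p ^ M) := rfl
    generalize fl c (N * p ^ M) a = f at hfl ⊢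
    generalize (a : ZMod (N * p ^ M)).val = v at hra hfl ⊢
    generalize N * p ^ M = m at hra hfl ⊢
    obtain ⟨k, hk⟩ := Polynomial.powAddExpansion ((c * v : ℕ) : ℤ) (-((m * f : ℕ) : ℤ)) n
    have h1 : ((c * v : ℕ) : ℤ) + (-((m * f : ℕ) : ℤ)) = (w : ℤ) := by
      rw [hra]
      have h2 := Nat.div_add_mod (c * v) m
      have h3 : ((c * v : ℕ) : ℤ) = ((m * (c * v / m) : ℕ) : ℤ) + ((c * v % m : ℕ) : ℤ) := by
        rw [← Nat.cast_add, h2]
      rw [h3, hfl]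
      ring
    rw [h1] at hk
    have h2 := congrArg (fun t : ℤ => (t : E)) hk
    push_cast at h2
    rw [h2]
    have h3 : (n : E) * (m : E) * (f : E) * ((c : E) * (v : E)) ^ (n - 1) -
        ((c : E) * (v : E)) ^ n +
        (((c : E) * (v : E)) ^ n +
          (n : E) * ((c : E) * (v : E)) ^ (n - 1) * -((m : E) * (f : E)) +
          (k : E) * (-((m : E) * (f : E))) ^ 2) =
        ((k * (f : ℤ) ^ 2 : ℤ) : E) * (m : E) ^ 2 := by
      push_cast
      ring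
    rw [h3, norm_mul, norm_pow]
    refine (mul_le_mul_of_nonneg_right
      (IsUltrametricDist.norm_intCast_le_one E _) (by positivity)).trans (le_of_eq (one_mul _))
  have hss : ((χ (ZMod.unitOfCoprime c hcN) : Eˣ) : E)⁻¹ * ∑ a : (ZMod (N * p ^ M))ˣ,
        (χ (ZMod.unitsMap (dvd_mul_right N (p ^ M)) a) : E) *
          (((a : ZMod (N * p ^ M)).val : ℕ) : E) ^ n = ∑ a : (ZMod (N * p ^ M))ˣ,
      (χ (ZMod.unitsMap (dvd_mul_right N (p ^ M)) a) : E) *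
        (((cu * a : (ZMod (N * p ^ M))ˣ) : ZMod (N * p ^ M)).val : E) ^ n := by
    rw [← Equiv.sum_comp (Equiv.mulLeft cu), Finset.mul_sum]
    refine Finset.sum_congr rfl fun a _ => ?_
    rw [Equiv.coe_mulLeft, map_mul, map_mul, hχc, Units.val_mul, ← mul_assoc, ← mul_assoc,
      inv_mul_cancel₀ (Units.ne_zero _), one_mul]
  have e : (n : E) * (c : E) ^ (n - 1) * ((N * p ^ M : ℕ) : E) * ∑ a : (ZMod (N * p ^ M))ˣ,
        ((fl c (N * p ^ M) a : ℕ) : E) * χ (ZMod.unitsMap (dvd_mul_right N (p ^ M)) a) *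
          (((a : ZMod (N * p ^ M)).val : ℕ) : E) ^ (n - 1) -
      ((c : E) ^ n - ((χ (ZMod.unitOfCoprime c hcN) : Eˣ) : E)⁻¹) * ∑ a : (ZMod (N * p ^ M))ˣ,
        (χ (ZMod.unitsMap (dvd_mul_right N (p ^ M)) a) : E) *
          (((a : ZMod (N * p ^ M)).val : ℕ) : E) ^ n = ∑ a : (ZMod (N * p ^ M))ˣ,
      (χ (ZMod.unitsMap (dvd_mul_right N (p ^ M)) a) : E) *
      ((n : E) * ((N * p ^ M : ℕ) : E) * (fl c (N * p ^ M) a : E) *
        ((c : E) * ((a : ZMod (N * p ^ M)).val : E)) ^ (n - 1) -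
        ((c : E) * ((a : ZMod (N * p ^ M)).val : E)) ^ n +
        (((cu * a : (ZMod (N * p ^ M))ˣ) : ZMod (N * p ^ M)).val : E) ^ n) := by
    rw [sub_mul, hss]
    simp only [mul_add, mul_sub, Finset.sum_add_distrib, Finset.sum_sub_distrib]
    have e1 : ∑ a : (ZMod (N * p ^ M))ˣ, (χ (ZMod.unitsMap (dvd_mul_right N (p ^ M)) a) : E) *
        ((n : E) * ((N * p ^ M : ℕ) : E) * (fl c (N * p ^ M) a : E) *
        ((c : E) * ((a : ZMod (N * p ^ M)).val : E)) ^ (n - 1)) =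
        (n : E) * (c : E) ^ (n - 1) * ((N * p ^ M : ℕ) : E) * ∑ a : (ZMod (N * p ^ M))ˣ,
        ((fl c (N * p ^ M) a : ℕ) : E) * χ (ZMod.unitsMap (dvd_mul_right N (p ^ M)) a) *
          (((a : ZMod (N * p ^ M)).val : ℕ) : E) ^ (n - 1) := by
      rw [Finset.mul_sum]
      refine Finset.sum_congr rfl fun a _ => ?_
      rw [mul_pow]
      ring
    have e2 : ∑ a : (ZMod (N * p ^ M))ˣ, (χ (ZMod.unitsMap (dvd_mul_right N (p ^ M)) a) : E) *
        ((c : E) * ((a : ZMod (N * p ^ M)).val : E)) ^ n = (c : E) ^ n *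
          ∑ a : (ZMod (N * p ^ M))ˣ,
        (χ (ZMod.unitsMap (dvd_mul_right N (p ^ M)) a) : E) *
          (((a : ZMod (N * p ^ M)).val : ℕ) : E) ^ n := by
      rw [Finset.mul_sum]
      refine Finset.sum_congr rfl fun a _ => ?_
      rw [mul_pow]
      ring
    rw [e1, e2]
    ring
  rw [e]
  exact IsUltrametricDist.norm_sum_le_of_forall_le_of_nonneg (by positivity) fun a _ => key a

end Pool.Agent.EDV
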