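import Pool.Agent.EDV.NvO

/-!
# EDV-NvP: `B_{1, χ} ≠ 0` in `E`

The values of `χ` are roots of unity, so they are in the algebraic closure of `ℚ` in `E`, which embeds in `ℂ`; apply `nv_one` to the
image of `χ`.
-/

namespace Pool.Agent.EDV

open Pool.Agent.AAP

/-- the values of `χ` are algebraic -/
private theorem nvp_mem {N : ℕ} [NeZero N] {E : Type} [NormedField E] [CharZero E]
    (χ : (ZMod N)ˣ →* Eˣ) (u : (ZMod N)ˣ) : (χ u : E) ∈ algebraicClosure ℚ E := by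
  rw [mem_algebraicClosure_iff]
  have h1 : ((χ u : Eˣ) : E) ^ Fintype.card (ZMod N)ˣ = 1 := by
    rw [← Units.val_pow_eq_pow_val, ← map_pow, pow_card_eq_one, map_one, Units.val_one]
  refine (IsIntegral.of_pow (n := Fintype.card (ZMod N)ˣ) Fintype.card_pos ?_).isAlgebraic
  rw [h1]
  exact isIntegral_one

theorem tt_ne_one (N : ℕ) [NeZero N] {E : Type} [NormedField E] [CharZero E]
    (χ : (ZMod N)ˣ →* Eˣ) (hχ : (χ (-1) : E) = -1)
    (h : ∀ ℓ : ℕ, ℓ.Prime → ℓ ∣ N → ∃ u : (ZMod N)ˣ, DecL ℓ N u ∧ χ u ≠ 1) :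
    (TT N 1 χ : E) ≠ 0 := by
  let K := algebraicClosure ℚ E
  have halg : Algebra.IsAlgebraic ℚ K := algebraicClosure.isAlgebraic ℚ E
  let f : K →ₐ[ℚ] ℂ := IsAlgClosed.lift
  have hf : Function.Injective f := f.toRingHom.injective
  let c : (ZMod N)ˣ →* K :=
    { toFun := fun u => ⟨(χ u : E), nvp_mem χ u⟩
      map_one' := Subtype.ext (by simp)
      map_mul' := fun a b => Subtype.ext (by simp) }
  have hc : ∀ u, ((c u : K) : E) = χ u := fun u => rfl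
  let φ : (ZMod N)ˣ →* ℂˣ := ((f : K →* ℂ).comp c).toHomUnits
  have hφ : ∀ u, (φ u : ℂ) = f (c u) := fun u => rfl
  have h1 : (φ (-1) : ℂ) = -1 := by
    rw [hφ]
    have h2 : c (-1) = -1 := by
      apply Subtype.ext
      rw [hc, hχ]
      rfl
    rw [h2, map_neg, map_one]
  have h3 : ∀ ℓ : ℕ, ℓ.Prime → ℓ ∣ N → ∃ u : (ZMod N)ˣ, DecL ℓ N u ∧ φ u ≠ 1 := by
    intro ℓ hℓ hN
    obtain ⟨u, hu, hu1⟩ := h ℓ hℓ hN
    refine ⟨u, hu, fun h4 => hu1 ?_⟩
    have h5 : f (c u) = 1 := by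
      rw [← hφ, h4, Units.val_one]
    have h6 : c u = 1 := hf (by rw [h5, map_one])
    apply Units.ext
    rw [← hc, h6]
    rfl
  have h4 := nv_one N φ h1 h3
  intro h5
  apply h4
  have h6 : ∑ r : (ZMod N)ˣ, c r * ((bb N 1 (r : ZMod N).val : ℚ) : K) = 0 := by
    apply Subtype.ext
    have h7 : ((∑ r : (ZMod N)ˣ, c r * ((bb N 1 (r : ZMod N).val : ℚ) : K) : K) : E) = TT N 1 χ := by
      unfold TT
      push_cast
      rfl
    rw [h7, h5]
    rfl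
  have h8 : f (∑ r : (ZMod N)ˣ, c r * ((bb N 1 (r : ZMod N).val : ℚ) : K)) =
      ∑ r : (ZMod N)ˣ, (φ r : ℂ) * ((bb N 1 (r : ZMod N).val : ℚ) : ℂ) := by
    rw [map_sum]
    refine Finset.sum_congr rfl fun r _ => ?_
    rw [map_mul, hφ, map_ratCast]
  rw [← h8, h6, map_zero]

end Pool.Agent.EDV
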