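import Mathlib

/-!
# EDV-Zero (1.2h): common zeros in the open unit disc of the limit of polynomials

`Q M` polynomials with coefficients in a compact set `C` contained in the closed unit ball, not
`Q M (x₀) → 0` for one `‖x₀‖ < 1`. Then only finitely many `‖x‖ < 1` satisfy `Q M (x) → 0`.
The coefficients converge along an ultrafilter; the limit is a power series which is not zero and whose
coefficients have a maximal norm; its zeros are divided off one after the other (`zero_ser`).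
-/

open Filter

namespace Pool.Agent.EDV

private theorem zero_summ {E : Type*} [NormedField E] [CompleteSpace E] {c : ℕ → E} {s : ℝ}
    (hc : ∀ j, ‖c j‖ ≤ s) {x : E} (hx : ‖x‖ < 1) : Summable fun j => c j * x ^ j := by
  refine Summable.of_norm_bounded (g := fun j => s * ‖x‖ ^ j)
    ((summable_geometric_of_lt_one (norm_nonneg x) hx).mul_left s) fun j => ?_
  rw [norm_mul, norm_pow]
  exact mul_le_mul_of_nonneg_right (hc j) (pow_nonneg (norm_nonneg x) j)

private theorem zero_shift {E : Type*} [NormedField E] [CompleteSpace E] {c : ℕ → E} {s : ℝ}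
    (hc : ∀ j, ‖c j‖ ≤ s) {x : E} (hx : ‖x‖ < 1) :
    ∑' j, c j * x ^ j = c 0 + x * ∑' j, c (j + 1) * x ^ j := by
  rw [(zero_summ hc hx).tsum_eq_zero_add, pow_zero, mul_one, ← tsum_mul_left]
  congr 1
  exact tsum_congr fun j => by ring

private theorem zero_bd {E : Type*} [NormedField E] [IsUltrametricDist E] {c : ℕ → E} {s : ℝ}
    (hc : ∀ j, ‖c j‖ ≤ s) {x : E} (hx : ‖x‖ < 1) : ‖∑' j, c j * x ^ j‖ ≤ s := by
  refine IsUltrametricDist.norm_tsum_le_of_forall_le_of_nonneg ((norm_nonneg _).trans (hc 0)) fun j => ?_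
  rw [norm_mul, norm_pow]
  calc ‖c j‖ * ‖x‖ ^ j ≤ s * 1 := mul_le_mul (hc j) (pow_le_one₀ (norm_nonneg x) hx.le)
        (pow_nonneg (norm_nonneg x) j) ((norm_nonneg _).trans (hc 0))
    _ = s := mul_one s

/-- the zeros of a power series in the open unit disc -/
private theorem zero_ser {E : Type*} [NormedField E] [IsUltrametricDist E] [CompleteSpace E] {s : ℝ}
    (hs : 0 < s) : ∀ (j₀ : ℕ) (c : ℕ → E), (∀ j, ‖c j‖ ≤ s) → (∀ j < j₀, ‖c j‖ < s) → ‖c j₀‖ = s →
      {x : E | ‖x‖ < 1 ∧ ∑' j, c j * x ^ j = 0}.Finite := by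
  have hlt : ∀ (x y : E), ‖x‖ < 1 → ‖y‖ ≤ s → ‖x * y‖ < s := by
    intro x y hx hy
    rw [norm_mul]
    calc ‖x‖ * ‖y‖ ≤ ‖x‖ * s := mul_le_mul_of_nonneg_left hy (norm_nonneg x)
      _ < 1 * s := mul_lt_mul_of_pos_right hx hs
      _ = s := one_mul s
  intro j₀
  induction j₀ with
  | zero =>
    intro c hc _ h0
    have hemp : {x : E | ‖x‖ < 1 ∧ ∑' j, c j * x ^ j = 0} = ∅ := by
      rw [Set.eq_empty_iff_forall_notMem]
      rintro x ⟨hx, hF⟩
      rw [zero_shift hc hx] at hF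
      have h1 : c 0 = -(x * ∑' j, c (j + 1) * x ^ j) := eq_neg_of_add_eq_zero_left hF
      have h2 := hlt x (∑' j, c (j + 1) * x ^ j) hx (zero_bd (fun j => hc (j + 1)) hx)
      rw [h1, norm_neg] at h0
      exact absurd h0 h2.ne
    rw [hemp]
    exact Set.finite_empty
  | succ j₀ ih =>
    intro c hc hl h0
    rcases Set.eq_empty_or_nonempty {x : E | ‖x‖ < 1 ∧ ∑' j, c j * x ^ j = 0} with he | ⟨x, hx, hF⟩
    · rw [he]
      exact Set.finite_empty
    · -- the quotient by the zero `x`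
      have hg0 : ∀ i, ∀ j, ‖c (i + 1 + j)‖ ≤ s := fun i j => hc _
      have hgs : ∀ i, ‖∑' l, c (i + 1 + l) * x ^ l‖ ≤ s := fun i => zero_bd (hg0 i) hx
      have hgr : ∀ i, ∑' l, c (i + 1 + l) * x ^ l =
          c (i + 1) + x * ∑' l, c (i + 1 + 1 + l) * x ^ l := by
        intro i
        rw [zero_shift (hg0 i) hx, add_zero]
        congr 2
        exact tsum_congr fun l => by rw [show i + 1 + (l + 1) = i + 1 + 1 + l by ring]
      have hc0 : c 0 = -(x * ∑' l, c (0 + 1 + l) * x ^ l) := by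
        rw [zero_shift hc hx] at hF
        rw [eq_neg_of_add_eq_zero_left hF]
        congr 2
        exact tsum_congr fun l => by rw [show 0 + 1 + l = l + 1 by ring]
      generalize hg : (fun i => ∑' l, c (i + 1 + l) * x ^ l) = g
      have hg1 : ∀ i, ∑' l, c (i + 1 + l) * x ^ l = g i := fun i => by rw [← hg]
      have e0 : c 0 = -(x * g 0) := by rw [← hg1 0]; exact hc0
      have e1 : ∀ i, g i = c (i + 1) + x * g (i + 1) := by
        intro i
        rw [← hg1 i, ← hg1 (i + 1)]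
        exact hgr i
      have e2 : ∀ i, ‖g i‖ ≤ s := fun i => by rw [← hg1 i]; exact hgs i
      have e3 : ∀ i < j₀, ‖g i‖ < s := by
        intro i hi
        rw [e1 i]
        refine (IsUltrametricDist.norm_add_le_max _ _).trans_lt (max_lt (hl _ (by omega)) ?_)
        exact hlt _ _ hx (e2 _)
      have e4 : ‖g j₀‖ = s := by
        have h3 := hlt x (g (j₀ + 1)) hx (e2 _)
        have h4 : ‖c (j₀ + 1)‖ ≠ ‖x * g (j₀ + 1)‖ := by
          rw [h0]
          exact h3.ne'
        rw [e1 j₀, IsUltrametricDist.norm_add_eq_max_of_norm_ne_norm h4, h0]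
        exact max_eq_left h3.le
      refine ((Set.finite_singleton x).union (ih g e2 e3 e4)).subset ?_
      rintro y ⟨hy, hFy⟩
      by_cases hyx : y = x
      · exact Or.inl hyx
      · refine Or.inr ⟨hy, ?_⟩
        have h5 : (y - x) * ∑' i, g i * y ^ i = 0 := by
          rw [← hFy, zero_shift hc hy]
          have h6 : ∑' j, c (j + 1) * y ^ j = ∑' j, g j * y ^ j - x * ∑' j, g (j + 1) * y ^ j := by
            rw [← tsum_mul_left, ← (zero_summ e2 hy).tsum_sub
              ((zero_summ (fun j => e2 (j + 1)) hy).mul_left x)]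
            refine tsum_congr fun j => ?_
            rw [e1 j]
            ring
          have h7 := zero_shift e2 hy
          rw [h6, e0]
          linear_combination (-x) * h7
        exact (mul_eq_zero.1 h5).resolve_left (sub_ne_zero.2 hyx)

theorem zero_fin {E : Type*} [NormedField E] [IsUltrametricDist E] [CompleteSpace E] (C : Set E)
    (hC : IsCompact C) (hC1 : ∀ x ∈ C, ‖x‖ ≤ 1) (Q : ℕ → Polynomial E)
    (hQ : ∀ M j, (Q M).coeff j ∈ C) (x₀ : E) (hx₀ : ‖x₀‖ < 1)
    (h : ¬ Tendsto (fun M => (Q M).eval x₀) atTop (nhds 0)) :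
    {x : E | ‖x‖ < 1 ∧ Tendsto (fun M => (Q M).eval x) atTop (nhds 0)}.Finite := by
  classical
  -- the limit along an ultrafilter
  obtain ⟨ε, hε, hfr⟩ : ∃ ε > 0, ∃ᶠ M in atTop, M ∈ {M | ε ≤ ‖(Q M).eval x₀‖} := by
    by_contra hcon
    push Not at hcon
    refine h (Metric.tendsto_nhds.2 fun ε hε => ?_)
    have h1 := hcon ε hε
    filter_upwards [h1] with M hM
    rw [dist_zero_right]
    exact not_le.1 hM
  have hne : NeBot (atTop ⊓ 𝓟 {M | ε ≤ ‖(Q M).eval x₀‖}) := frequently_mem_iff_neBot.1 hfr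
  obtain ⟨U, hU⟩ := Ultrafilter.exists_le (atTop ⊓ 𝓟 {M | ε ≤ ‖(Q M).eval x₀‖})
  have hU1 : (U : Filter ℕ) ≤ atTop := hU.trans inf_le_left
  have hU2 : ∀ᶠ M in (U : Filter ℕ), ε ≤ ‖(Q M).eval x₀‖ :=
    (hU.trans inf_le_right) (mem_principal_self _)
  have hlim : ∀ j, ∃ c ∈ C, Tendsto (fun M => (Q M).coeff j) U (nhds c) := by
    intro j
    obtain ⟨c, hc, hc2⟩ := hC.ultrafilter_le_nhds' (U.map fun M => (Q M).coeff j)
      (Ultrafilter.mem_map.2 (Filter.univ_mem' fun M => hQ M j))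
    exact ⟨c, hc, hc2⟩
  choose c hcC hcl using hlim
  have hc1 : ∀ j, ‖c j‖ ≤ 1 := fun j => hC1 _ (hcC j)
  have hev : ∀ (M : ℕ) (x : E), (Q M).eval x = ∑' j, (Q M).coeff j * x ^ j := by
    intro M x
    rw [Polynomial.eval_eq_sum_range]
    refine (tsum_eq_sum fun j hj => ?_).symm
    rw [Finset.mem_range, not_lt] at hj
    rw [Polynomial.coeff_eq_zero_of_natDegree_lt (by omega), zero_mul]
  have hF : ∀ x : E, ‖x‖ < 1 → Tendsto (fun M => (Q M).eval x) U (nhds (∑' j, c j * x ^ j)) := by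
    intro x hx
    have h1 : (fun M => (Q M).eval x) = fun M => ∑' j, (Q M).coeff j * x ^ j := by
      funext M
      exact hev M x
    rw [h1]
    refine tendsto_tsum_of_dominated_convergence (bound := fun j => ‖x‖ ^ j)
      (summable_geometric_of_lt_one (norm_nonneg x) hx) (fun j => (hcl j).mul_const _) ?_
    refine Filter.Eventually.of_forall fun M j => ?_
    rw [norm_mul, norm_pow]
    calc ‖(Q M).coeff j‖ * ‖x‖ ^ j ≤ 1 * ‖x‖ ^ j :=
          mul_le_mul_of_nonneg_right (hC1 _ (hQ M j)) (pow_nonneg (norm_nonneg x) j)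
      _ = ‖x‖ ^ j := one_mul _
  have hx₀F : ∑' j, c j * x₀ ^ j ≠ 0 := by
    intro h0
    have h1 := (hF x₀ hx₀).norm
    rw [h0, norm_zero] at h1
    have h2 : ε ≤ 0 := ge_of_tendsto h1 hU2
    linarith
  -- the maximal norm
  obtain ⟨j1, hj1⟩ : ∃ j, c j ≠ 0 := by
    by_contra hcon
    push Not at hcon
    refine hx₀F ?_
    have h1 : (fun j => c j * x₀ ^ j) = fun _ => 0 := by
      funext j
      rw [hcon j, zero_mul]
    rw [h1, tsum_zero]
  have hK : IsCompact (closure (Set.range c)) :=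
    hC.closure_of_subset (by rintro _ ⟨j, rfl⟩; exact hcC j)
  obtain ⟨z, hz, hzmax⟩ := hK.exists_isMaxOn (Set.range_nonempty c).closure
    (continuous_norm.continuousOn (s := closure (Set.range c)))
  have hcz : ∀ j, ‖c j‖ ≤ ‖z‖ := fun j => hzmax (subset_closure ⟨j, rfl⟩)
  have hzpos : 0 < ‖z‖ := (norm_pos_iff.2 hj1).trans_le (hcz j1)
  have hex : ∃ j, ‖c j‖ = ‖z‖ := by
    obtain ⟨_, ⟨j, rfl⟩, hd⟩ := Metric.mem_closure_iff.1 hz ‖z‖ hzpos
    refine ⟨j, ?_⟩
    rw [dist_eq_norm] at hd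
    by_contra hne2
    have h1 : ‖z‖ ≠ ‖-c j‖ := by
      rw [norm_neg]
      exact fun h3 => hne2 h3.symm
    have h2 := IsUltrametricDist.norm_add_eq_max_of_norm_ne_norm h1
    rw [← sub_eq_add_neg] at h2
    rw [h2] at hd
    exact absurd (le_max_left ‖z‖ ‖-c j‖) (not_le.2 hd)
  have hfin := zero_ser hzpos (Nat.find hex) c hcz
    (fun j hj => lt_of_le_of_ne (hcz j) (Nat.find_min hex hj)) (Nat.find_spec hex)
  refine hfin.subset ?_
  rintro x ⟨hx, hxt⟩
  exact ⟨hx, tendsto_nhds_unique (hF x hx) (hxt.mono_left hU1)⟩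

end Pool.Agent.EDV
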