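import Pool.Agent.EDV.Tei
import Pool.Agent.EDV.ParA
import Pool.Agent.EDV.Cpt
import Pool.Agent.EDV.Zero
import Pool.Agent.EDV.Cls
import Pool.Agent.EDV.LimV

/-!
# EDV-Par (1.3h): finitely many limits with given torsion part

Level `N = N₀ p`, `h`, `e`, `ω`, `A` as in `exists_he`, `η` a character of `(ℤ/N)ˣ`. The set of all
`κ` with `Limit p N S κ` and `κ(h s) = η(s)` for all `s` is finite: `κ(e) - 1` is a common zero in the open
unit disc of the limit of the polynomials `parQ`, which is not zero by `classical` (`zero_fin`), and `κ`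
is determined by `κ(e)` (`par_inj`).
-/

open NumberField Filter

namespace Pool.Agent.EDV

open Pool.Agent.AAP

/-- a product of elements of norm `≤ 1`, changed by at most `δ` -/
private theorem par_mul {E : Type*} [NormedField E] [IsUltrametricDist E] {δ : ℝ} {x y x' y' : E}
    (hx : ‖x‖ ≤ 1) (hy' : ‖y'‖ ≤ 1) (h1 : ‖x - y‖ ≤ δ) (h2 : ‖x' - y'‖ ≤ δ) :
    ‖x * x' - y * y'‖ ≤ δ := by
  have hδ : 0 ≤ δ := (norm_nonneg _).trans h1
  have e1 : x * x' - y * y' = x * (x' - y') + (x - y) * y' := by ring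
  rw [e1]
  refine (IsUltrametricDist.norm_add_le_max _ _).trans (max_le ?_ ?_)
  · rw [norm_mul]
    calc ‖x‖ * ‖x' - y'‖ ≤ 1 * δ := mul_le_mul hx h2 (norm_nonneg _) zero_le_one
      _ = δ := one_mul δ
  · rw [norm_mul]
    calc ‖x - y‖ * ‖y'‖ ≤ δ * 1 := mul_le_mul h1 hy' (norm_nonneg _) hδ
      _ = δ := mul_one δ

private theorem par_prod {E ι : Type*} [NormedField E] [IsUltrametricDist E] {δ : ℝ} (hδ : 0 ≤ δ)
    (s : Finset ι) (f g : ι → E) (hf : ∀ i ∈ s, ‖f i‖ ≤ 1) (hg : ∀ i ∈ s, ‖g i‖ ≤ 1)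
    (h : ∀ i ∈ s, ‖f i - g i‖ ≤ δ) : ‖∏ i ∈ s, f i - ∏ i ∈ s, g i‖ ≤ δ := by
  classical
  induction s using Finset.induction_on with
  | empty => simpa using hδ
  | insert a s ha ih =>
    rw [Finset.prod_insert ha, Finset.prod_insert ha]
    refine par_mul (hf a (Finset.mem_insert_self a s)) ?_ (h a (Finset.mem_insert_self a s))
      (ih (fun i hi => hf i (Finset.mem_insert_of_mem hi))
        (fun i hi => hg i (Finset.mem_insert_of_mem hi))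
        (fun i hi => h i (Finset.mem_insert_of_mem hi)))
    rw [norm_prod]
    exact Finset.prod_le_one (fun i _ => norm_nonneg _)
      (fun i hi => hg i (Finset.mem_insert_of_mem hi))

private theorem par_sum {E ι : Type*} [NormedField E] [IsUltrametricDist E] {δ : ℝ} (hδ : 0 ≤ δ)
    (s : Finset ι) (f : ι → E) (h : ∀ i ∈ s, ‖f i‖ ≤ δ) : ‖∑ i ∈ s, f i‖ ≤ δ :=
  IsUltrametricDist.norm_sum_le_of_forall_le_of_nonneg hδ h

private theorem par_n1 {E : Type*} [NormedField E] {G : Type*} [Group G] [Finite G] (η : G →* Eˣ)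
    (g : G) : ‖(η g : E)‖ = 1 := by
  have h1 : (‖(η g : E)‖) ^ Nat.card G = 1 := by
    rw [← norm_pow, ← Units.val_pow_eq_pow_val, ← map_pow, pow_card_eq_one', map_one, Units.val_one,
      norm_one]
  exact (pow_eq_one_iff_of_nonneg (norm_nonneg _) Nat.card_pos.ne').1 h1

/-- the polynomials -/
private noncomputable def parQ {E : Type*} [Field E] {U ι : Type*} [Fintype U] (T : Finset ι)
    (u : ι → U) (z : U → E) (i : U → ℕ) (y : U → E) (b : U → E) (f : U → E) : Polynomial E :=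
  (∏ l ∈ T, (Polynomial.C (z (u l)) * (1 + Polynomial.X) ^ i (u l) - Polynomial.C (y (u l)))) *
    ∑ a : U, Polynomial.C (f a) * (Polynomial.C (z a) * (1 + Polynomial.X) ^ i a *
      Polynomial.C (b a))

private theorem parQ_eval {E : Type*} [Field E] {U ι : Type*} [Fintype U] (T : Finset ι)
    (u : ι → U) (z : U → E) (i : U → ℕ) (y : U → E) (b : U → E) (f : U → E) (x : E) :
    (parQ T u z i y b f).eval x = (∏ l ∈ T, (z (u l) * (1 + x) ^ i (u l) - y (u l))) *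
      ∑ a : U, f a * (z a * (1 + x) ^ i a * b a) := by
  rw [parQ, Polynomial.eval_mul, Polynomial.eval_prod, Polynomial.eval_finsetSum]
  simp only [Polynomial.eval_sub, Polynomial.eval_mul, Polynomial.eval_pow, Polynomial.eval_add,
    Polynomial.eval_one, Polynomial.eval_X, Polynomial.eval_C]

private theorem parQ_coeff {E : Type*} [Field E] {U ι : Type*} [Fintype U] (T : Finset ι)
    (u : ι → U) (z : U → E) (i : U → ℕ) (y : U → E) (b : U → E) (f : U → E) (R : Subring E)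
    (hz : ∀ a, z a ∈ R) (hy : ∀ a, y a ∈ R) (hb : ∀ a, b a ∈ R) (hf : ∀ a, f a ∈ R) (j : ℕ) :
    (parQ T u z i y b f).coeff j ∈ R := by
  have hC : ∀ x ∈ R, (Polynomial.C x : Polynomial E) ∈ Polynomial.liftsRing R.subtype := by
    intro x hx
    refine ⟨Polynomial.C ⟨x, hx⟩, ?_⟩
    rw [Polynomial.coe_mapRingHom, Polynomial.map_C]
    rfl
  have hX : (Polynomial.X : Polynomial E) ∈ Polynomial.liftsRing R.subtype := by
    refine ⟨Polynomial.X, ?_⟩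
    rw [Polynomial.coe_mapRingHom, Polynomial.map_X]
  have h1X : ∀ n : ℕ, (1 + (Polynomial.X : Polynomial E)) ^ n ∈ Polynomial.liftsRing R.subtype :=
    fun n => pow_mem (add_mem (one_mem _) hX) n
  have hm : parQ T u z i y b f ∈ Polynomial.liftsRing R.subtype := by
    refine mul_mem (prod_mem fun l _ => sub_mem (mul_mem (hC _ (hz _)) (h1X _)) (hC _ (hy _)))
      (sum_mem fun a _ => mul_mem (hC _ (hf a)) (mul_mem (mul_mem (hC _ (hz a)) (h1X _)) (hC _ (hb a))))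
  have h2 := (Polynomial.lifts_iff_coeff_lifts _).1 ((Polynomial.lifts_iff_liftsRing _ _).2 hm) j
  obtain ⟨r, hr⟩ := h2
  rw [← hr]
  exact r.2

/-- comparison with the classical product -/
private theorem parQ_cmp {E : Type*} [NormedField E] [IsUltrametricDist E] {U ι : Type*} [Fintype U]
    (T : Finset ι) (u : ι → U) (z : U → E) (i : U → ℕ) (y : U → E) (b : U → E) (f : U → E)
    (z' : U → E) (q : E) {δ : ℝ} (hδ : 0 ≤ δ)
    (hz : ∀ a, ‖z a‖ ≤ 1) (hz' : ∀ a, ‖z' a‖ ≤ 1) (hy : ∀ a, ‖y a‖ ≤ 1) (hb : ∀ a, ‖b a‖ ≤ 1)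
    (hf : ∀ a, ‖f a‖ ≤ 1) (hq : ‖q‖ ≤ 1)
    (hyz : ∀ a, ‖z a * (q ^ 2) ^ i a - z' a * y a ^ 2‖ ≤ δ) :
    ‖(parQ T u z i y b f).eval (q ^ 2 - 1) -
      (∏ l ∈ T, (z' (u l) * y (u l) ^ 2 - y (u l))) * ∑ a : U, f a * (z' a * y a ^ 2 * b a)‖ ≤ δ := by
  rw [parQ_eval]
  have e1 : (1 : E) + (q ^ 2 - 1) = q ^ 2 := by ring
  rw [e1]
  have hqa : ∀ a, ‖z a * (q ^ 2) ^ i a‖ ≤ 1 := by
    intro a
    rw [norm_mul, norm_pow, norm_pow]
    exact mul_le_one₀ (hz a) (by positivity)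
      (pow_le_one₀ (by positivity) (pow_le_one₀ (norm_nonneg _) hq))
  have hza : ∀ a, ‖z' a * y a ^ 2‖ ≤ 1 := by
    intro a
    rw [norm_mul, norm_pow]
    exact mul_le_one₀ (hz' a) (by positivity) (pow_le_one₀ (norm_nonneg _) (hy a))
  have hsub : ∀ s t : E, ‖s‖ ≤ 1 → ‖t‖ ≤ 1 → ‖s - t‖ ≤ 1 := fun s t hs ht => by
    rw [sub_eq_add_neg]
    exact (IsUltrametricDist.norm_add_le_max s (-t)).trans (max_le hs (by rwa [norm_neg]))
  refine par_mul ?_ ?_ ?_ ?_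
  · rw [norm_prod]
    exact Finset.prod_le_one (fun l _ => norm_nonneg _) fun l _ => hsub _ _ (hqa _) (hy _)
  · refine par_sum zero_le_one _ _ fun a _ => ?_
    rw [norm_mul, norm_mul]
    exact mul_le_one₀ (hf a) (by positivity) (mul_le_one₀ (hza a) (norm_nonneg _) (hb a))
  · refine par_prod hδ T _ _ (fun l _ => hsub _ _ (hqa _) (hy _))
      (fun l _ => hsub _ _ (hza _) (hy _)) fun l _ => ?_
    rw [sub_sub_sub_cancel_right]
    exact hyz _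
  · rw [← Finset.sum_sub_distrib]
    refine par_sum hδ _ _ fun a _ => ?_
    have e2 : f a * (z a * (q ^ 2) ^ i a * b a) - f a * (z' a * y a ^ 2 * b a) =
        (f a * b a) * (z a * (q ^ 2) ^ i a - z' a * y a ^ 2) := by ring
    rw [e2, norm_mul]
    calc ‖f a * b a‖ * ‖z a * (q ^ 2) ^ i a - z' a * y a ^ 2‖ ≤ 1 * δ := by
          refine mul_le_mul ?_ (hyz a) (norm_nonneg _) zero_le_one
          rw [norm_mul]
          exact mul_le_one₀ (hf a) (norm_nonneg _) (hb a)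
      _ = δ := one_mul δ

theorem par_fin (p N₀ : ℕ) [NeZero N₀] [Fact p.Prime] (hp : p ≠ 2) (hpN : ¬ p ∣ N₀)
    {E : Type} [NormedField E] [IsUltrametricDist E] [CompleteSpace E] [NormedAlgebra ℚ_[p] E]
    (S : Finset ℕ)
    (h : (ZMod (N₀ * p))ˣ → Gam) (e : Gam) (ω : (ZMod (N₀ * p))ˣ →* Eˣ)
    (A : (M : ℕ) → (ZMod (N₀ * p))ˣ → ℕ → (ZMod (N₀ * p * p ^ M))ˣ)
    (hA : ∀ M s i, Acts (N₀ * p * p ^ M) (h s * e ^ i) (A M s i : ZMod (N₀ * p * p ^ M)).val)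
    (hmap : ∀ M s i, ZMod.unitsMap (dvd_mul_right (N₀ * p) (p ^ M)) (A M s i) = s)
    (hbij : ∀ M, Function.Bijective fun x : (ZMod (N₀ * p))ˣ × Fin (p ^ M) => A M x.1 x.2)
    (hmul : ∀ M s t, Acts (N₀ * p * p ^ M) (h (s * t) * (h s * h t)⁻¹) 1)
    (hep : ∀ M, Acts (N₀ * p * p ^ M) (e ^ (p ^ M)) 1)
    (hval : ∀ M s i, ‖(((A M s i : ZMod (N₀ * p * p ^ M)).val : ℕ) : E) -
      ω s * (1 + (p : E)) ^ i‖ ≤ ‖(p : E)‖ ^ (M + 1))
    (η : (ZMod (N₀ * p))ˣ →* Eˣ) :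
    {κ : Gam →* Eˣ | Limit p (N₀ * p) S κ ∧ ∀ s, κ (h s) = η s}.Finite := by
  classical
  have hpN' : p ∣ (N₀ * p) := Dvd.intro_left N₀ rfl
  have hNz : NeZero (N₀ * p) := ⟨mul_ne_zero (NeZero.ne N₀) (Fact.out : p.Prime).ne_zero⟩
  by_cases hemp : ∃ κ₀ : Gam →* Eˣ, Limit p (N₀ * p) S κ₀ ∧ ∀ s, κ₀ (h s) = η s
  swap
  · have h0 : {κ : Gam →* Eˣ | Limit p (N₀ * p) S κ ∧ ∀ s, κ (h s) = η s} = ∅ := by
      rw [Set.eq_empty_iff_forall_notMem]
      exact fun κ hκ => hemp ⟨κ, hκ⟩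
    rw [h0]
    exact Set.finite_empty
  obtain ⟨κ₀, hκ₀, hκ₀s⟩ := hemp
  have hη1 : η (-1) = 1 := by
    rw [← hκ₀s]
    exact par_neg hp hpN h e A hA hmap hmul hκ₀
  -- the inverse bijection
  have hinv : ∀ M (a : (ZMod ((N₀ * p) * p ^ M))ˣ), ∃ i : ℕ,
      A M (ZMod.unitsMap (dvd_mul_right (N₀ * p) (p ^ M)) a) i = a := by
    intro M a
    obtain ⟨⟨s, i⟩, hsi⟩ := (hbij M).2 a
    refine ⟨i, ?_⟩
    have h1 := hmap M s i
    dsimp only at hsi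
    rw [hsi] at h1
    rw [h1]
    exact hsi
  choose ι hι using hinv
  have hc1 : 1 < (N₀ * p) + 1 := by have := NeZero.pos (N₀ * p); omega
  have hcN : ((N₀ * p) + 1).Coprime (N₀ * p) := by simp
  let χ : (ZMod (N₀ * p))ˣ →* Eˣ := η * (ω ^ 2)⁻¹
  have hχη : ∀ s, (χ s : E) * (ω s : E) ^ 2 = (η s : E) := by
    intro s
    have h1 : χ s * ω s ^ 2 = η s := by
      change η s * (ω s ^ 2)⁻¹ * ω s ^ 2 = η s
      rw [inv_mul_cancel_right]
    rw [← h1]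
    push_cast
    ring
  have hχ1 : (χ (-1) : E) = (-1) ^ 2 := by
    have h1 : (ω (-1)) ^ 2 = 1 := by
      rw [← map_pow, neg_one_sq, map_one]
    have h2 : χ (-1) = 1 := by
      change η (-1) * ((ω (-1)) ^ 2)⁻¹ = 1
      rw [h1, hη1, inv_one, mul_one]
    rw [h2]
    simp
  obtain ⟨u, hu, hnt⟩ := classical (N₀ * p) 2 p ((N₀ * p) + 1) hpN' le_rfl hc1 hcN χ hχ1 (S.filter Nat.Prime)
    (fun ℓ hℓ => (Finset.mem_filter.1 hℓ).2)
  obtain ⟨R, hR, hR1, hRη⟩ := exists_cpt p η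
  let Q : ℕ → Polynomial E := fun M => parQ (S.filter Nat.Prime) (u M)
    (fun a : (ZMod ((N₀ * p) * p ^ M))ˣ => (η (ZMod.unitsMap (dvd_mul_right (N₀ * p) (p ^ M)) a) : E))
    (ι M) (fun a => (((a : ZMod ((N₀ * p) * p ^ M)).val : ℕ) : E))
    (fun a => ((((a⁻¹ : (ZMod ((N₀ * p) * p ^ M))ˣ) : ZMod ((N₀ * p) * p ^ M)).val : ℕ) : E))
    (fun a => ((fl ((N₀ * p) + 1) ((N₀ * p) * p ^ M) a : ℕ) : E))
  have hQ : ∀ M j, (Q M).coeff j ∈ (R : Set E) := fun M j =>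
    parQ_coeff _ _ _ _ _ _ _ R (fun a => hRη _) (fun a => natCast_mem R _)
      (fun a => natCast_mem R _) (fun a => natCast_mem R _) j
  have hnat : ∀ n : ℕ, ‖(n : E)‖ ≤ 1 := IsUltrametricDist.norm_natCast_le_one E
  have hpn : ‖(p : E)‖ < 1 := by
    have h1 : (p : E) = algebraMap ℚ_[p] E (p : ℚ_[p]) := (map_natCast (algebraMap ℚ_[p] E) p).symm
    rw [h1, norm_algebraMap']
    exact Padic.norm_p_lt_one
  have hq1 : ‖(1 : E) + (p : E)‖ ≤ 1 :=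
    (IsUltrametricDist.norm_add_le_max _ _).trans (max_le (by rw [norm_one]) (hnat p))
  have hx₀ : ‖((1 : E) + (p : E)) ^ 2 - 1‖ < 1 := by
    have e1 : ((1 : E) + (p : E)) ^ 2 - 1 = (p : E) * ((2 + p : ℕ) : E) := by push_cast; ring
    rw [e1, norm_mul]
    calc ‖(p : E)‖ * ‖((2 + p : ℕ) : E)‖ ≤ ‖(p : E)‖ * 1 :=
          mul_le_mul_of_nonneg_left (hnat _) (norm_nonneg _)
      _ = ‖(p : E)‖ := mul_one _
      _ < 1 := hpn
  have hcmp : ∀ M, ‖(Q M).eval (((1 : E) + (p : E)) ^ 2 - 1) -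
      (∏ ℓ ∈ S.filter Nat.Prime, ((χ (ZMod.unitsMap (dvd_mul_right (N₀ * p) (p ^ M)) (u M ℓ)) : E) *
          (((u M ℓ : ZMod ((N₀ * p) * p ^ M)).val : ℕ) : E) ^ 2 -
            (((u M ℓ : ZMod ((N₀ * p) * p ^ M)).val : ℕ) : E))) *
        ∑ a : (ZMod ((N₀ * p) * p ^ M))ˣ, ((fl ((N₀ * p) + 1) ((N₀ * p) * p ^ M) a : ℕ) : E) *
          ((χ (ZMod.unitsMap (dvd_mul_right (N₀ * p) (p ^ M)) a) : E) *
            (((a : ZMod ((N₀ * p) * p ^ M)).val : ℕ) : E) ^ 2 *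
            ((((a⁻¹ : (ZMod ((N₀ * p) * p ^ M))ˣ) : ZMod ((N₀ * p) * p ^ M)).val : ℕ) : E))‖ ≤
      ‖(p : E)‖ ^ (M + 1) := by
    intro M
    refine parQ_cmp (S.filter Nat.Prime) (u M) _ (ι M) _ _ _
      (fun a : (ZMod ((N₀ * p) * p ^ M))ˣ => (χ (ZMod.unitsMap (dvd_mul_right (N₀ * p) (p ^ M)) a) : E))
      (1 + (p : E)) (by positivity) (fun a => (par_n1 η _).le) (fun a => (par_n1 χ _).le)
      (fun a => hnat _) (fun a => hnat _) (fun a => hnat _) hq1 fun a => ?_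
    have h1 := hval M (ZMod.unitsMap (dvd_mul_right (N₀ * p) (p ^ M)) a) (ι M a)
    rw [hι M a] at h1
    have h2 : ‖(ω (ZMod.unitsMap (dvd_mul_right (N₀ * p) (p ^ M)) a) : E) * (1 + (p : E)) ^ ι M a‖ ≤ 1 := by
      rw [norm_mul, par_n1 ω, one_mul, norm_pow]
      exact pow_le_one₀ (norm_nonneg _) hq1
    rw [← hχη, norm_sub_rev]
    have e1 : (χ (ZMod.unitsMap (dvd_mul_right (N₀ * p) (p ^ M)) a) : E) *
        (((a : ZMod ((N₀ * p) * p ^ M)).val : ℕ) : E) ^ 2 -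
        (χ (ZMod.unitsMap (dvd_mul_right (N₀ * p) (p ^ M)) a) : E) *
          (ω (ZMod.unitsMap (dvd_mul_right (N₀ * p) (p ^ M)) a) : E) ^ 2 * ((1 + (p : E)) ^ 2) ^ ι M a =
        (χ (ZMod.unitsMap (dvd_mul_right (N₀ * p) (p ^ M)) a) : E) *
        ((((a : ZMod ((N₀ * p) * p ^ M)).val : ℕ) : E) * (((a : ZMod ((N₀ * p) * p ^ M)).val : ℕ) : E) -
          ((ω (ZMod.unitsMap (dvd_mul_right (N₀ * p) (p ^ M)) a) : E) * (1 + (p : E)) ^ ι M a) *
          ((ω (ZMod.unitsMap (dvd_mul_right (N₀ * p) (p ^ M)) a) : E) * (1 + (p : E)) ^ ι M a)) := by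
      rw [← pow_mul, mul_comm 2 (ι M a), pow_mul]
      ring
    rw [e1, norm_mul, par_n1 χ, one_mul]
    exact par_mul (hnat _) h2 h1 h1
  have hnt' : ¬ Tendsto (fun M => (Q M).eval (((1 : E) + (p : E)) ^ 2 - 1)) atTop (nhds 0) := by
    intro ht
    refine hnt ?_
    have h1 : Tendsto (fun M : ℕ => ‖(p : E)‖ ^ (M + 1)) atTop (nhds 0) :=
      (tendsto_pow_atTop_nhds_zero_of_lt_one (norm_nonneg _) hpn).comp (tendsto_add_atTop_nat 1)
    have h2 := squeeze_zero_norm hcmp h1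
    have h3 := ht.sub h2
    rw [sub_zero] at h3
    refine h3.congr fun M => ?_
    rw [sub_sub_cancel]
  have hfin := zero_fin (R : Set E) hR hR1 Q hQ _ hx₀ hnt'
  have hinj : Set.InjOn (fun κ : Gam →* Eˣ => (κ e : E) - 1)
      {κ : Gam →* Eˣ | Limit p (N₀ * p) S κ ∧ ∀ s, κ (h s) = η s} := by
    rintro κ ⟨hκ, hκs⟩ κ' ⟨hκ', hκs'⟩ hee
    refine par_inj h e A hA hbij hκ.1 hκ'.1 (fun s => by rw [hκs, hκs']) (Units.ext ?_)
    exact sub_left_injective hee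
  refine Set.Finite.of_finite_image (hfin.subset ?_) hinj
  rintro _ ⟨κ, ⟨hκ, hκs⟩, rfl⟩
  refine ⟨par_lt e hep hκ.1, ?_⟩
  have hG : ∀ M (a : (ZMod ((N₀ * p) * p ^ M))ˣ), Acts ((N₀ * p) * p ^ M)
      (h (ZMod.unitsMap (dvd_mul_right (N₀ * p) (p ^ M)) a) * e ^ ι M a) (a : ZMod ((N₀ * p) * p ^ M)).val := by
    intro M a
    have h1 := hA M (ZMod.unitsMap (dvd_mul_right (N₀ * p) (p ^ M)) a) (ι M a)
    rwa [hι M a] at h1
  have hlt := limit_tendsto p (N₀ * p) ((N₀ * p) + 1) hp hpN' hc1 hcN S κ hκ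
    (fun M a => h (ZMod.unitsMap (dvd_mul_right (N₀ * p) (p ^ M)) a) * e ^ ι M a) hG u
    (fun M ℓ hℓ hℓp => hu M ℓ (Finset.mem_filter.2 ⟨hℓ, hℓp⟩))
  refine hlt.congr fun M => ?_
  dsimp only
  rw [parQ_eval]
  have hG2 : ∀ a : (ZMod ((N₀ * p) * p ^ M))ˣ,
      (κ (h (ZMod.unitsMap (dvd_mul_right (N₀ * p) (p ^ M)) a) * e ^ ι M a) : E) =
        (η (ZMod.unitsMap (dvd_mul_right (N₀ * p) (p ^ M)) a) : E) * (1 + ((κ e : E) - 1)) ^ ι M a := by
    intro a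
    rw [map_mul, map_pow, hκs, add_sub_cancel]
    push_cast
    rfl
  simp only [hG2]

end Pool.Agent.EDV
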