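import Pool.Agent.EDV.Lev
import Pool.Agent.AAP.Teich
import Pool.Agent.AAP.RedC

/-!
# EDV-Tei: generators of `Gal(ℚ(ζ_{N p^∞})/ℚ)`, `N = N₀ p`

For `s ∈ (ℤ/N₀ p)ˣ` the element `h s` acts as `b M s` on the `N₀ p p ^ M`-th roots of unity, where `b M s ≡ s` modulo `N₀` and
`b M s ≡ s ^ (p ^ M)` modulo `p ^ (M + 1)`; the element `e` acts as `≡ 1` modulo `N₀` and `≡ 1 + p` modulo `p ^ (M + 1)`. The
character `ω` is the Teichmüller character.
-/

open NumberField Filter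

namespace Pool.Agent.EDV

open Pool.Agent.AAP

private theorem Tei_pow {p a b : ℕ} (h : a ≡ b [MOD p]) (k : ℕ) :
    a ^ p ^ k ≡ b ^ p ^ k [MOD p ^ (k + 1)] := by
  rw [Nat.modEq_iff_dvd] at h ⊢
  have h1 := dvd_sub_pow_of_dvd_sub (R := ℤ) (p := p) h k
  push_cast
  exact h1

private theorem Tei_mod_eq (N₀ p M : ℕ) : N₀ * p * p ^ M = N₀ * p ^ (M + 1) := by
  rw [pow_succ']
  ring

private theorem Tei_comb {N₀ p M a b : ℕ} (hc : N₀.Coprime p) (h1 : a ≡ b [MOD N₀])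
    (h2 : a ≡ b [MOD p ^ (M + 1)]) : a ≡ b [MOD N₀ * p * p ^ M] := by
  rw [Tei_mod_eq]
  exact (Nat.modEq_and_modEq_iff_modEq_mul (Nat.Coprime.pow_right (M + 1) hc)).1 ⟨h1, h2⟩

private theorem Tei_cop {N₀ p M a : ℕ} (h1 : a.Coprime N₀) (h2 : a.Coprime (p ^ (M + 1))) :
    a.Coprime (N₀ * p * p ^ M) := by
  rw [Tei_mod_eq]
  exact h1.mul_right h2

private theorem Tei_acts_one (m : ℕ) : Acts m 1 1 := by
  intro ζ _
  have h1 : (1 : Gam).ap ζ = ζ := rfl
  rw [h1, pow_one]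

private theorem Tei_acts_pow {m a : ℕ} {g : Gam} (hg : Acts m g a) (i : ℕ) :
    Acts m (g ^ i) (a ^ i) := by
  induction i with
  | zero => rw [pow_zero, pow_zero]; exact Tei_acts_one m
  | succ i ih => rw [pow_succ, pow_succ]; exact acts_mul ih hg

private theorem Tei_norm {p : ℕ} (E : Type) [NormedField E] [IsUltrametricDist E] {a b k : ℕ}
    (h : a ≡ b [MOD p ^ k]) : ‖(a : E) - (b : E)‖ ≤ ‖(p : E)‖ ^ k := by
  rw [Nat.modEq_iff_dvd] at h
  obtain ⟨c, hc⟩ := h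
  have h1 : (a : E) - (b : E) = -((p : E) ^ k * (c : E)) := by
    have h2 := congrArg (fun z : ℤ => (z : E)) hc
    push_cast at h2
    rw [← h2]
    ring
  rw [h1, norm_neg, norm_mul, norm_pow]
  exact mul_le_of_le_one_right (pow_nonneg (norm_nonneg _) _)
    (IsUltrametricDist.norm_intCast_le_one E c)

private theorem Tei_upow (p : ℕ) [Fact p.Prime] (u : (ZMod p)ˣ) (M : ℕ) : u ^ p ^ M = u := by
  apply Units.ext
  rw [Units.val_pow_eq_pow_val]
  exact ZMod.pow_card_pow _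

/-- the Teichmüller character as a limit -/
private theorem Tei_lift (p : ℕ) [Fact p.Prime] (t : (ZMod p)ˣ →* ℚ_[p]ˣ)
    (ht : ∀ u, ‖(t u : ℚ_[p]) - (((u : ZMod p).val : ℕ) : ℚ_[p])‖ < 1) (u : (ZMod p)ˣ) (S : ℕ)
    (hS : (S : ZMod p) = u) (M : ℕ) :
    ‖(S : ℚ_[p]) ^ p ^ M - t u‖ ≤ ‖(p : ℚ_[p])‖ ^ (M + 1) := by
  have h1 : ‖(t u : ℚ_[p])‖ ≤ 1 := by
    have e : (t u : ℚ_[p]) = ((t u : ℚ_[p]) - (((u : ZMod p).val : ℕ) : ℚ_[p])) +
        (((u : ZMod p).val : ℕ) : ℚ_[p]) := by ring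
    rw [e]
    refine (IsUltrametricDist.norm_add_le_max _ _).trans (max_le (ht u).le ?_)
    exact IsUltrametricDist.norm_natCast_le_one _ _
  obtain ⟨z, hz⟩ : ∃ z : ℤ_[p], (z : ℚ_[p]) = t u := ⟨⟨t u, h1⟩, rfl⟩
  have h2 : (p : ℤ_[p]) ∣ (S : ℤ_[p]) - z := by
    rw [← PadicInt.norm_lt_one_iff_dvd, PadicInt.norm_def, PadicInt.coe_sub, hz,
      PadicInt.coe_natCast]
    have e : (S : ℚ_[p]) - t u = ((S : ℚ_[p]) - (((u : ZMod p).val : ℕ) : ℚ_[p])) -
        ((t u : ℚ_[p]) - (((u : ZMod p).val : ℕ) : ℚ_[p])) := by ring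
    rw [e, sub_eq_add_neg]
    refine (IsUltrametricDist.norm_add_le_max _ _).trans_lt (max_lt ?_ ?_)
    · have h3 : S ≡ (u : ZMod p).val [MOD p] := by
        rw [← ZMod.natCast_eq_natCast_iff, ZMod.natCast_zmod_val]
        exact hS
      have h4 := Tei_norm (p := p) ℚ_[p] (a := S) (b := (u : ZMod p).val) (k := 1)
        (by rw [pow_one]; exact h3)
      rw [pow_one] at h4
      exact h4.trans_lt Padic.norm_p_lt_one
    · rw [norm_neg]
      exact ht u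
  obtain ⟨c, hc⟩ := dvd_sub_pow_of_dvd_sub h2 M
  have h3 : (S : ℚ_[p]) ^ p ^ M - t u = (p : ℚ_[p]) ^ (M + 1) * (c : ℚ_[p]) := by
    have h4 := congrArg (fun x : ℤ_[p] => (x : ℚ_[p])) hc
    simp only [PadicInt.coe_sub, PadicInt.coe_pow, PadicInt.coe_mul, PadicInt.coe_natCast] at h4
    rw [hz] at h4
    have h5 : (t u : ℚ_[p]) ^ p ^ M = t u := by
      rw [← Units.val_pow_eq_pow_val, ← map_pow, Tei_upow]
    rw [h5] at h4
    exact h4
  rw [h3, norm_mul, norm_pow]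
  exact mul_le_of_le_one_right (pow_nonneg (norm_nonneg _) _) (PadicInt.norm_le_one c)

private theorem Tei_totient (p n : ℕ) [Fact p.Prime] (hp : p ∣ n) (M : ℕ) :
    (n * p ^ M).totient = n.totient * p ^ M := by
  induction M with
  | zero => simp
  | succ M ih =>
    have h1 : n * p ^ (M + 1) = p * (n * p ^ M) := by
      rw [pow_succ]
      ring
    rw [h1, Nat.totient_mul_of_prime_of_dvd Fact.out (hp.mul_right _), ih, pow_succ]
    ring

theorem exists_he (p N₀ : ℕ) [NeZero N₀] [Fact p.Prime] (hp : p ≠ 2) (hpN : ¬ p ∣ N₀)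
    (E : Type) [NormedField E] [IsUltrametricDist E] [NormedAlgebra ℚ_[p] E] :
    ∃ (h : (ZMod (N₀ * p))ˣ → Gam) (e : Gam) (ω : (ZMod (N₀ * p))ˣ →* Eˣ)
      (A : (M : ℕ) → (ZMod (N₀ * p))ˣ → ℕ → (ZMod (N₀ * p * p ^ M))ˣ),
      (∀ M s i, Acts (N₀ * p * p ^ M) (h s * e ^ i) (A M s i : ZMod (N₀ * p * p ^ M)).val) ∧
      (∀ M s i, ZMod.unitsMap (dvd_mul_right (N₀ * p) (p ^ M)) (A M s i) = s) ∧
      (∀ M, Function.Bijective fun x : (ZMod (N₀ * p))ˣ × Fin (p ^ M) => A M x.1 x.2) ∧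
      (∀ M s t, Acts (N₀ * p * p ^ M) (h (s * t) * (h s * h t)⁻¹) 1) ∧
      (∀ M, Acts (N₀ * p * p ^ M) (e ^ (p ^ M)) 1) ∧
      (∀ M s i, ‖(((A M s i : ZMod (N₀ * p * p ^ M)).val : ℕ) : E) - ω s * (1 + (p : E)) ^ i‖ ≤
        ‖(p : E)‖ ^ (M + 1)) := by
  classical
  have hpp : p.Prime := Fact.out
  have hp0 : p ≠ 0 := hpp.ne_zero
  have hN0 : NeZero (N₀ * p) := ⟨mul_ne_zero (NeZero.ne N₀) hp0⟩
  have hNM : ∀ M, NeZero (N₀ * p * p ^ M) := fun M =>
    ⟨mul_ne_zero (mul_ne_zero (NeZero.ne N₀) hp0) (pow_ne_zero _ hp0)⟩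
  have hc : N₀.Coprime p := ((Nat.Prime.coprime_iff_not_dvd hpp).2 hpN).symm
  -- residues
  obtain ⟨S, hS⟩ : ∃ S : (ZMod (N₀ * p))ˣ → ℕ, ∀ s, S s = (s : ZMod (N₀ * p)).val :=
    ⟨fun s => (s : ZMod (N₀ * p)).val, fun _ => rfl⟩
  have hScast : ∀ s, ((S s : ℕ) : ZMod (N₀ * p)) = s := by
    intro s
    rw [hS, ZMod.natCast_zmod_val]
  have hScop : ∀ s, (S s).Coprime (N₀ * p) := by
    intro s
    rw [hS]
    exact ZMod.val_coe_unit_coprime s
  have hSmul : ∀ s t, S (s * t) ≡ S s * S t [MOD N₀ * p] := by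
    intro s t
    rw [hS, hS, hS, Units.val_mul, ZMod.val_mul]
    exact Nat.mod_modEq _ _
  -- the numbers
  have hcrt : ∀ (M x y : ℕ), ∃ b : ℕ, b ≡ x [MOD N₀] ∧ b ≡ y [MOD p ^ (M + 1)] := by
    intro M x y
    exact ⟨(Nat.chineseRemainder (Nat.Coprime.pow_right (M + 1) hc) x y).1,
      (Nat.chineseRemainder (Nat.Coprime.pow_right (M + 1) hc) x y).2⟩
  choose b hb1 hb2 using fun (M : ℕ) (s : (ZMod (N₀ * p))ˣ) => hcrt M (S s) (S s ^ p ^ M)
  choose e' he1 he2 using fun (M : ℕ) => hcrt M 1 (1 + p)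
  have hbcop : ∀ M s, (b M s).Coprime (N₀ * p * p ^ M) := by
    intro M s
    refine Tei_cop ?_ ?_
    · have h1 := (hb1 M s).gcd_eq
      rw [Nat.Coprime, h1]
      exact Nat.Coprime.coprime_mul_right_right (hScop s)
    · have h1 := (hb2 M s).gcd_eq
      rw [Nat.Coprime, h1]
      exact Nat.Coprime.pow _ _ (Nat.Coprime.coprime_mul_left_right (hScop s))
  have hecop : ∀ M, (e' M).Coprime (N₀ * p * p ^ M) := by
    intro M
    refine Tei_cop ?_ ?_
    · have h1 := (he1 M).gcd_eq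
      rw [Nat.Coprime, h1]
      exact Nat.coprime_one_left _
    · have h1 := (he2 M).gcd_eq
      rw [Nat.Coprime, h1]
      refine Nat.Coprime.pow_right _ ?_
      simp
  have hbseq : ∀ M s, b (M + 1) s ≡ b M s [MOD N₀ * p * p ^ M] := by
    intro M s
    refine Tei_comb hc ((hb1 (M + 1) s).trans (hb1 M s).symm) ?_
    refine Nat.ModEq.trans ?_ (hb2 M s).symm
    have h1 : b (M + 1) s ≡ S s ^ p ^ (M + 1) [MOD p ^ (M + 1)] :=
      (hb2 (M + 1) s).of_dvd (pow_dvd_pow p (by omega))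
    refine h1.trans ?_
    have h2 : S s ^ p ≡ S s [MOD p] := by
      rw [← ZMod.natCast_eq_natCast_iff]
      push_cast
      exact ZMod.pow_card _
    have h3 := Tei_pow h2 M
    rwa [← pow_mul, ← pow_succ'] at h3
  have heseq : ∀ M, e' (M + 1) ≡ e' M [MOD N₀ * p * p ^ M] := by
    intro M
    refine Tei_comb hc ((he1 (M + 1)).trans (he1 M).symm) ?_
    refine Nat.ModEq.trans ?_ (he2 M).symm
    exact (he2 (M + 1)).of_dvd (pow_dvd_pow p (by omega))
  choose h hh using fun s => exists_acts_seq (N₀ * p) p (fun M => b M s) (fun M => hbcop M s)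
    (fun M => hbseq M s)
  obtain ⟨e, he⟩ := exists_acts_seq (N₀ * p) p e' hecop heseq
  obtain ⟨t, ht⟩ := teich p ℚ_[p]
  have hcopA : ∀ M s i, (b M s * e' M ^ i).Coprime (N₀ * p * p ^ M) := fun M s i =>
    (hbcop M s).mul_left ((hecop M).pow_left i)
  obtain ⟨A, hA⟩ : ∃ A : (M : ℕ) → (ZMod (N₀ * p))ˣ → ℕ → (ZMod (N₀ * p * p ^ M))ˣ,
      ∀ M s i, (A M s i : ZMod (N₀ * p * p ^ M)) = ((b M s * e' M ^ i : ℕ) : ZMod (N₀ * p * p ^ M)) :=
    ⟨fun M s i => ZMod.unitOfCoprime (b M s * e' M ^ i) (hcopA M s i), fun M s i =>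
      ZMod.coe_unitOfCoprime _ _⟩
  have hAval : ∀ M s i, (A M s i : ZMod (N₀ * p * p ^ M)).val ≡ b M s * e' M ^ i
      [MOD N₀ * p * p ^ M] := by
    intro M s i
    rw [hA, ZMod.val_natCast]
    exact Nat.mod_modEq _ _
  -- reduction modulo `N₀ p`
  have hAred : ∀ M s i, b M s * e' M ^ i ≡ S s [MOD N₀ * p] := by
    intro M s i
    refine (Nat.modEq_and_modEq_iff_modEq_mul hc).1 ⟨?_, ?_⟩
    · have h1 := (hb1 M s).mul ((he1 M).pow i)
      rwa [one_pow, mul_one] at h1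
    · have h2 : b M s ≡ S s [MOD p] := by
        refine ((hb2 M s).of_dvd (dvd_pow_self p (by omega))).trans ?_
        rw [← ZMod.natCast_eq_natCast_iff]
        push_cast
        exact ZMod.pow_card_pow _
      have h3 : e' M ≡ 1 [MOD p] := by
        refine ((he2 M).of_dvd (dvd_pow_self p (by omega))).trans ?_
        rw [← ZMod.natCast_eq_natCast_iff]
        push_cast
        simp
      have h4 := h2.mul (h3.pow i)
      rwa [one_pow, mul_one] at h4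
  have hAmap : ∀ M s i, ZMod.unitsMap (dvd_mul_right (N₀ * p) (p ^ M)) (A M s i) = s := by
    intro M s i
    apply Units.ext
    rw [ZMod.unitsMap_val, hA, ZMod.cast_natCast (dvd_mul_right (N₀ * p) (p ^ M)), ← hScast s,
      ZMod.natCast_eq_natCast_iff]
    exact hAred M s i
  refine ⟨h, e, (Units.map (algebraMap ℚ_[p] E).toMonoidHom).comp
    (t.comp (ZMod.unitsMap (dvd_mul_left p N₀))), A, ?_, hAmap, ?_, ?_, ?_, ?_⟩
  · intro M s i
    exact acts_mod (acts_mul (hh s M) (Tei_acts_pow (he M) i)) (hAval M s i).symm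
  · intro M
    have := hNM M
    rw [Fintype.bijective_iff_injective_and_card]
    constructor
    · rintro ⟨s, i⟩ ⟨s', i'⟩ heq
      simp only at heq
      have hs : s = s' := by
        rw [← hAmap M s i, ← hAmap M s' i', heq]
      subst hs
      have h1 : b M s * e' M ^ (i : ℕ) ≡ b M s * e' M ^ (i' : ℕ) [MOD N₀ * p * p ^ M] := by
        rw [← ZMod.natCast_eq_natCast_iff, ← hA, ← hA, heq]
      have h2 : e' M ^ (i : ℕ) ≡ e' M ^ (i' : ℕ) [MOD N₀ * p * p ^ M] :=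
        Nat.ModEq.cancel_left_of_coprime (hbcop M s).symm h1
      have h3 : e' M ^ (i : ℕ) ≡ e' M ^ (i' : ℕ) [MOD p ^ (M + 1)] := by
        refine h2.of_dvd ?_
        rw [Tei_mod_eq]
        exact dvd_mul_left _ _
      have h4 : (1 + p) ^ (i : ℕ) ≡ (1 + p) ^ (i' : ℕ) [MOD p ^ (M + 1)] :=
        (((he2 M).pow _).symm.trans h3).trans ((he2 M).pow _)
      rw [← ZMod.natCast_eq_natCast_iff] at h4
      push_cast at h4
      have h5 := ZMod.orderOf_one_add_prime hpp hp M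
      have h6 : (i : ℕ) = (i' : ℕ) := by
        refine pow_injOn_Iio_orderOf (x := (1 + p : ZMod (p ^ (M + 1)))) ?_ ?_ h4
        · rw [h5]
          exact i.2
        · rw [h5]
          exact i'.2
      rw [Prod.mk.injEq]
      exact ⟨rfl, Fin.ext h6⟩
    · rw [Fintype.card_prod, ZMod.card_units_eq_totient, ZMod.card_units_eq_totient,
        Fintype.card_fin, Tei_totient p (N₀ * p) (dvd_mul_left p N₀) M]
  · intro M s t
    have := hNM M
    have h1 : b M (s * t) ≡ b M s * b M t [MOD N₀ * p * p ^ M] := by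
      refine Tei_comb hc ?_ ?_
      · refine ((hb1 M (s * t)).trans ?_).trans ((hb1 M s).mul (hb1 M t)).symm
        exact (hSmul s t).of_dvd (dvd_mul_right _ _)
      · refine ((hb2 M (s * t)).trans ?_).trans ((hb2 M s).mul (hb2 M t)).symm
        rw [← mul_pow]
        exact Tei_pow ((hSmul s t).of_dvd (dvd_mul_left _ _)) M
    obtain ⟨c, hc1⟩ : ∃ c : ℕ, (b M s * b M t) * c ≡ 1 [MOD N₀ * p * p ^ M] := by
      have h2 := (hbcop M s).mul_left (hbcop M t)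
      refine ⟨(((ZMod.unitOfCoprime _ h2)⁻¹ : (ZMod (N₀ * p * p ^ M))ˣ) : ZMod (N₀ * p * p ^ M)).val, ?_⟩
      rw [← ZMod.natCast_eq_natCast_iff, Nat.cast_mul, ZMod.natCast_zmod_val, Nat.cast_one,
        ← ZMod.coe_unitOfCoprime _ h2, ← Units.val_mul, mul_inv_cancel, Units.val_one]
    have h3 := acts_inv (acts_mul (hh s M) (hh t M)) hc1
    exact acts_mod (acts_mul (hh (s * t) M) h3) ((h1.mul_right c).trans hc1)
  · intro M
    refine acts_mod (Tei_acts_pow (he M) (p ^ M)) ?_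
    refine Tei_comb hc ?_ ?_
    · have h1 := (he1 M).pow (p ^ M)
      rwa [one_pow] at h1
    · have h1 : (1 + p) ^ p ^ M ≡ 1 ^ p ^ M [MOD p ^ (M + 1)] := by
        refine Tei_pow ?_ M
        rw [← ZMod.natCast_eq_natCast_iff]
        push_cast
        simp
      rw [one_pow] at h1
      exact ((he2 M).pow (p ^ M)).trans h1
  · intro M s i
    have h1 : (A M s i : ZMod (N₀ * p * p ^ M)).val ≡ S s ^ p ^ M * (1 + p) ^ i [MOD p ^ (M + 1)] := by
      refine ((hAval M s i).of_dvd ?_).trans ((hb2 M s).mul ((he2 M).pow i))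
      rw [Tei_mod_eq]
      exact dvd_mul_left _ _
    have h2 := Tei_norm (p := p) E h1
    have hpE : ‖(p : E)‖ = ‖(p : ℚ_[p])‖ := by
      rw [← norm_algebraMap' E (p : ℚ_[p]), map_natCast]
    obtain ⟨u, hu⟩ : ∃ u : (ZMod p)ˣ, u = ZMod.unitsMap (dvd_mul_left p N₀) s := ⟨_, rfl⟩
    have h3 : ‖(S s : ℚ_[p]) ^ p ^ M - t u‖ ≤ ‖(p : ℚ_[p])‖ ^ (M + 1) := by
      refine Tei_lift p t ht u (S s) ?_ M
      rw [hu, ZMod.unitsMap_val, ← hScast s, ZMod.cast_natCast (dvd_mul_left p N₀)]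
    have h4 : ‖(S s : E) ^ p ^ M - algebraMap ℚ_[p] E (t u)‖ ≤ ‖(p : E)‖ ^ (M + 1) := by
      rw [hpE]
      have e1 : (S s : E) ^ p ^ M - algebraMap ℚ_[p] E (t u) =
          algebraMap ℚ_[p] E ((S s : ℚ_[p]) ^ p ^ M - t u) := by
        rw [map_sub, map_pow, map_natCast]
      rw [e1, norm_algebraMap']
      exact h3
    have h5 : ‖(1 + (p : E)) ^ i‖ ≤ 1 := by
      have e1 : (1 + (p : E)) ^ i = (((1 + p) ^ i : ℕ) : E) := by push_cast; ring
      rw [e1]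
      exact IsUltrametricDist.norm_natCast_le_one _ _
    have h6 : ‖((S s : E) ^ p ^ M - algebraMap ℚ_[p] E (t u)) * (1 + (p : E)) ^ i‖ ≤
        ‖(p : E)‖ ^ (M + 1) := by
      rw [norm_mul]
      exact (mul_le_of_le_one_right (norm_nonneg _) h5).trans h4
    have e2 : (((A M s i : ZMod (N₀ * p * p ^ M)).val : ℕ) : E) -
        algebraMap ℚ_[p] E (t u) * (1 + (p : E)) ^ i =
        ((((A M s i : ZMod (N₀ * p * p ^ M)).val : ℕ) : E) - ((S s ^ p ^ M * (1 + p) ^ i : ℕ) : E)) +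
          ((S s : E) ^ p ^ M - algebraMap ℚ_[p] E (t u)) * (1 + (p : E)) ^ i := by
      push_cast
      ring
    show ‖(((A M s i : ZMod (N₀ * p * p ^ M)).val : ℕ) : E) -
        algebraMap ℚ_[p] E (t (ZMod.unitsMap (dvd_mul_left p N₀) s)) * (1 + (p : E)) ^ i‖ ≤ _
    rw [← hu, e2]
    exact (IsUltrametricDist.norm_add_le_max _ _).trans (max_le h2 h6)

end Pool.Agent.EDV
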